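import Mathlib

/-!
# Residue fields of finitely generated rings
-/

set_option autoImplicit false

namespace FV

private theorem resF_int : IsJacobsonRing ℤ := by
  rw [isJacobsonRing_iff_prime_eq]
  intro P hP
  by_cases h : P = ⊥
  · rw [h, eq_bot_iff]
    intro x hx
    rw [Ideal.mem_jacobson_bot] at hx
    have h1 := hx x
    rw [Int.isUnit_iff] at h1
    have h2 : x * x = 0 := by
      have := mul_self_nonneg x
      rcases h1 with h1 | h1 <;> omega
    rw [Submodule.mem_bot]
    exact mul_self_eq_zero.1 h2
  · have : P.IsMaximal := IsPrime.to_maximal_ideal h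
    exact Ideal.jacobson_eq_self_of_isMaximal

theorem finite_of_surj (A : Type*) [CommRing A] [Algebra.FiniteType ℤ A] (k : Type*) [Field k]
    (θ : A →+* k) (hθ : Function.Surjective θ) : Finite k := by
  have h1 : Algebra.FiniteType ℤ k :=
    Algebra.FiniteType.of_surjective (R := ℤ) θ.toIntAlgHom hθ
  have h0 : IsJacobsonRing ℤ := resF_int
  have h2 : Module.Finite ℤ k := finite_of_finite_type_of_isJacobsonRing ℤ k
  have h3 : ¬ Function.Injective (algebraMap ℤ k) := by
    intro hinj
    have h4 : Algebra.IsIntegral ℤ k := inferInstance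
    exact Int.not_isField (isField_of_isIntegral_of_isField hinj (Field.toIsField k))
  rw [injective_iff_map_eq_zero] at h3
  push Not at h3
  obtain ⟨n, hn, hn0⟩ := h3
  refine Module.finite_of_fg_torsion k ?_
  intro x
  refine ⟨⟨n, mem_nonZeroDivisors_of_ne_zero hn0⟩, ?_⟩
  show n • x = 0
  rw [zsmul_eq_mul]
  have h5 : (n : k) = 0 := hn
  rw [h5, zero_mul]

end FV
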