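import Mathlib

/-!
# Counting lattice points of weight less than `W`
-/

set_option autoImplicit false

noncomputable section

namespace FV

/-- The pairs `(a, b)` with `α a + β b < W`. -/
def E (α β W : ℕ) : Finset (ℕ × ℕ) :=
  (Finset.range W ×ˢ Finset.range W).filter (fun a => α * a.1 + β * a.2 < W)

theorem mem_E {α β W : ℕ} (hα : 1 ≤ α) (hβ : 1 ≤ β) (a : ℕ × ℕ) :
    a ∈ E α β W ↔ α * a.1 + β * a.2 < W := by
  unfold E
  rw [Finset.mem_filter, Finset.mem_product, Finset.mem_range, Finset.mem_range]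
  refine ⟨fun h => h.2, fun h => ⟨⟨?_, ?_⟩, h⟩⟩
  · have := Nat.le_mul_of_pos_left a.1 (show 0 < α by omega)
    omega
  · have := Nat.le_mul_of_pos_left a.2 (show 0 < β by omega)
    omega

/-- The number of pairs with first coordinate `i`. -/
private def Cnt_row (α β W i : ℕ) : ℕ :=
  ((Finset.range W).filter (fun b => α * i + β * b < W)).card

private theorem Cnt_card (α β W : ℕ) :
    (E α β W).card = ∑ i ∈ Finset.range W, Cnt_row α β W i := by
  unfold E Cnt_row
  rw [Finset.card_filter, Finset.sum_product]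
  refine Finset.sum_congr rfl fun i _ => ?_
  rw [Finset.card_filter]

private theorem Cnt_row_zero {α β W i : ℕ} (h : W ≤ α * i) : Cnt_row α β W i = 0 := by
  unfold Cnt_row
  rw [Finset.card_eq_zero, Finset.filter_eq_empty_iff]
  intro b _
  omega

private theorem Cnt_row_lower {α β W i : ℕ} (hβ : 1 ≤ β) :
    W ≤ α * i + β * Cnt_row α β W i := by
  by_contra hlt
  push Not at hlt
  have h1 : Finset.range (Cnt_row α β W i + 1) ⊆
      (Finset.range W).filter (fun b => α * i + β * b < W) := by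
    intro b hb
    rw [Finset.mem_range] at hb
    rw [Finset.mem_filter, Finset.mem_range]
    have h2 : β * b ≤ β * Cnt_row α β W i := Nat.mul_le_mul_left β (by omega)
    have h3 := Nat.le_mul_of_pos_left b (show 0 < β by omega)
    omega
  have h4 := Finset.card_le_card h1
  rw [Finset.card_range] at h4
  unfold Cnt_row at h4
  omega

private theorem Cnt_row_upper {α β W i : ℕ} (hβ : 1 ≤ β) (h : α * i < W) :
    α * i + β * Cnt_row α β W i ≤ W + β := by
  have h1 : (Finset.range W).filter (fun b => α * i + β * b < W) ⊆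
      Finset.range ((W - α * i) / β + 1) := by
    intro b hb
    rw [Finset.mem_filter, Finset.mem_range] at hb
    rw [Finset.mem_range, Nat.lt_succ_iff, Nat.le_div_iff_mul_le (by omega), mul_comm]
    omega
  have h4 := Finset.card_le_card h1
  rw [Finset.card_range] at h4
  have h5 : β * Cnt_row α β W i ≤ β * ((W - α * i) / β + 1) := Nat.mul_le_mul_left β h4
  have h6 := Nat.mul_div_le (W - α * i) β
  rw [mul_add] at h5
  omega

theorem cnt_lower {α β : ℕ} (hα : 1 ≤ α) (hβ : 1 ≤ β) (W : ℕ) :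
    (W : ℝ) ^ 2 / (2 * α * β) ≤ ((E α β W).card : ℝ) := by
  have hα' : (1 : ℝ) ≤ α := by exact_mod_cast hα
  have hβ' : (1 : ℝ) ≤ β := by exact_mod_cast hβ
  have hα0 : (0 : ℝ) < α := by linarith
  have hβ0 : (0 : ℝ) < β := by linarith
  set u : ℕ → ℝ := fun i => (max ((W : ℝ) - α * i) 0) ^ 2 with hu
  have h1 : ∀ i : ℕ, u i - u (i + 1) ≤ 2 * α * β * (Cnt_row α β W i : ℝ) := by
    intro i
    simp only [hu]
    have hl : (W : ℝ) ≤ α * i + β * (Cnt_row α β W i : ℝ) := by
      exact_mod_cast Cnt_row_lower (α := α) (W := W) (i := i) hβ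
    have hc : (0 : ℝ) ≤ (Cnt_row α β W i : ℝ) := Nat.cast_nonneg _
    push_cast
    rcases le_total ((W : ℝ) - α * i) 0 with h | h
    · have h' : (W : ℝ) - α * (i + 1) ≤ 0 := by linarith
      rw [max_eq_right h, max_eq_right h']
      have : (0 : ℝ) ≤ 2 * α * β * (Cnt_row α β W i : ℝ) := by positivity
      simpa using this
    · rw [max_eq_left h]
      have h2 : 2 * α * ((W : ℝ) - α * i) ≤ 2 * α * β * (Cnt_row α β W i : ℝ) := by
        have : (W : ℝ) - α * i ≤ β * (Cnt_row α β W i : ℝ) := by linarith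
        nlinarith [mul_le_mul_of_nonneg_left this (show (0 : ℝ) ≤ 2 * α by positivity)]
      rcases le_total ((W : ℝ) - α * (i + 1)) 0 with h' | h'
      · rw [max_eq_right h']
        have h3 : (W : ℝ) - α * i ≤ α := by linarith
        nlinarith
      · rw [max_eq_left h']
        nlinarith
  have h2 : ∑ i ∈ Finset.range W, (u i - u (i + 1)) = u 0 - u W := Finset.sum_range_sub' u W
  have h3 : u 0 = (W : ℝ) ^ 2 := by
    simp only [hu]
    rw [max_eq_left (by simp)]
    simp
  have h4 : u W = 0 := by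
    simp only [hu]
    rw [max_eq_right]
    · simp
    · nlinarith [Nat.cast_nonneg (α := ℝ) W]
  have h5 := Finset.sum_le_sum (fun i (_ : i ∈ Finset.range W) => h1 i)
  rw [h2, h3, h4, sub_zero, ← Finset.mul_sum] at h5
  rw [div_le_iff₀ (by positivity), Cnt_card, Nat.cast_sum, mul_comm]
  exact h5

theorem cnt_upper {α β : ℕ} (hα : 1 ≤ α) (hβ : 1 ≤ β) (W : ℕ) :
    ((E α β W).card : ℝ) ≤ ((W : ℝ) + α + β) ^ 2 / (2 * α * β) := by
  have hα' : (1 : ℝ) ≤ α := by exact_mod_cast hα
  have hβ' : (1 : ℝ) ≤ β := by exact_mod_cast hβ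
  have hα0 : (0 : ℝ) < α := by linarith
  have hβ0 : (0 : ℝ) < β := by linarith
  set u : ℕ → ℝ := fun i => (max ((W : ℝ) + α + β - α * i) 0) ^ 2 with hu
  have h1 : ∀ i : ℕ, 2 * α * β * (Cnt_row α β W i : ℝ) ≤ u i - u (i + 1) := by
    intro i
    simp only [hu]
    push_cast
    rcases lt_or_ge (α * i) W with h | h
    · have hr : (α : ℝ) * i + β * (Cnt_row α β W i : ℝ) ≤ W + β := by
        exact_mod_cast Cnt_row_upper (α := α) (W := W) (i := i) hβ h
      have h' : (α : ℝ) * i < W := by exact_mod_cast h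
      rw [max_eq_left (by linarith), max_eq_left (by linarith)]
      have h2 : 2 * α * (β * (Cnt_row α β W i : ℝ)) ≤ 2 * α * (W + β - α * i) :=
        mul_le_mul_of_nonneg_left (by linarith) (by positivity)
      nlinarith
    · rw [Cnt_row_zero h, Nat.cast_zero, mul_zero, sub_nonneg]
      refine pow_le_pow_left₀ (le_max_right _ _) (max_le_max ?_ le_rfl) 2
      linarith
  have h2 : ∑ i ∈ Finset.range W, (u i - u (i + 1)) = u 0 - u W := Finset.sum_range_sub' u W
  have h3 : u 0 = ((W : ℝ) + α + β) ^ 2 := by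
    simp only [hu]
    rw [max_eq_left (by simp; positivity)]
    simp
  have h4 : 0 ≤ u W := sq_nonneg _
  have h5 := Finset.sum_le_sum (fun i (_ : i ∈ Finset.range W) => h1 i)
  rw [h2, h3, ← Finset.mul_sum] at h5
  rw [le_div_iff₀ (by positivity), Cnt_card, Nat.cast_sum, mul_comm]
  linarith

private theorem Cnt_mono (α β : ℕ) {U W : ℕ} (h : U ≤ W) : E α β U ⊆ E α β W := by
  intro a ha
  unfold E at ha ⊢
  rw [Finset.mem_filter, Finset.mem_product, Finset.mem_range, Finset.mem_range] at ha ⊢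
  omega

private theorem Cnt_omega {α β : ℕ} (hα : 1 ≤ α) (hβ : 1 ≤ β) (W : ℕ) :
    ∑ a ∈ E α β W, (α * a.1 + β * a.2) + ∑ j ∈ Finset.range W, (E α β (j + 1)).card =
      W * (E α β W).card := by
  have h1 : ∀ a ∈ E α β W, α * a.1 + β * a.2 =
      ∑ j ∈ Finset.range W, if j < α * a.1 + β * a.2 then 1 else 0 := by
    intro a ha
    rw [mem_E hα hβ] at ha
    rw [← Finset.card_filter]
    have h2 : (Finset.range W).filter (fun j => j < α * a.1 + β * a.2) =
        Finset.range (α * a.1 + β * a.2) := by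
      ext j
      rw [Finset.mem_filter, Finset.mem_range, Finset.mem_range]
      omega
    rw [h2, Finset.card_range]
  rw [Finset.sum_congr rfl h1, Finset.sum_comm, ← Finset.sum_add_distrib]
  have h3 : ∀ j ∈ Finset.range W, (∑ a ∈ E α β W, if j < α * a.1 + β * a.2 then 1 else 0) +
      (E α β (j + 1)).card = (E α β W).card := by
    intro j hj
    rw [Finset.mem_range] at hj
    rw [← Finset.card_filter]
    have h4 : E α β (j + 1) = (E α β W).filter (fun a => ¬ j < α * a.1 + β * a.2) := by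
      ext a
      rw [Finset.mem_filter, mem_E hα hβ, mem_E hα hβ]
      omega
    rw [h4]
    exact Finset.card_filter_add_card_filter_not _
  rw [Finset.sum_congr rfl h3, Finset.sum_const, Finset.card_range, smul_eq_mul]

private theorem Cnt_sq (W : ℕ) : (W : ℝ) ^ 3 / 3 ≤ ∑ j ∈ Finset.range W, ((j : ℝ) + 1) ^ 2 := by
  induction W with
  | zero => simp
  | succ n ih =>
    rw [Finset.sum_range_succ]
    push_cast
    nlinarith [Nat.cast_nonneg (α := ℝ) n]

/-- The total weight. -/
theorem omega_upper {α β : ℕ} (hα : 1 ≤ α) (hβ : 1 ≤ β) (W : ℕ) :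
    ((∑ a ∈ E α β W, (α * a.1 + β * a.2) : ℕ) : ℝ) ≤
      ((W : ℝ) + α + β + 1) ^ 3 / (3 * α * β) := by
  have hα' : (1 : ℝ) ≤ α := by exact_mod_cast hα
  have hβ' : (1 : ℝ) ≤ β := by exact_mod_cast hβ
  have hα0 : (0 : ℝ) < α := by linarith
  have hβ0 : (0 : ℝ) < β := by linarith
  have hW : (0 : ℝ) ≤ W := Nat.cast_nonneg _
  have h1 := Cnt_omega hα hβ W
  have h2 : ((∑ a ∈ E α β W, (α * a.1 + β * a.2) : ℕ) : ℝ) +
      ∑ j ∈ Finset.range W, ((E α β (j + 1)).card : ℝ) = W * ((E α β W).card : ℝ) := by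
    exact_mod_cast h1
  have h3 : ∑ j ∈ Finset.range W, ((j : ℝ) + 1) ^ 2 / (2 * α * β) ≤
      ∑ j ∈ Finset.range W, ((E α β (j + 1)).card : ℝ) := by
    refine Finset.sum_le_sum fun j _ => ?_
    have := cnt_lower hα hβ (j + 1)
    push_cast at this
    exact this
  rw [← Finset.sum_div] at h3
  have h4 : (W : ℝ) ^ 3 / 3 / (2 * α * β) ≤
      (∑ j ∈ Finset.range W, ((j : ℝ) + 1) ^ 2) / (2 * α * β) := by
    have := Cnt_sq W
    gcongr
  have h5 : (W : ℝ) * ((E α β W).card : ℝ) ≤ W * (((W : ℝ) + α + β) ^ 2 / (2 * α * β)) :=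
    mul_le_mul_of_nonneg_left (cnt_upper hα hβ W) hW
  have h6 : W * (((W : ℝ) + α + β) ^ 2 / (2 * α * β)) - (W : ℝ) ^ 3 / 3 / (2 * α * β) ≤
      ((W : ℝ) + α + β) ^ 3 / (3 * α * β) := by
    have e1 : W * (((W : ℝ) + α + β) ^ 2 / (2 * α * β)) - (W : ℝ) ^ 3 / 3 / (2 * α * β) =
        (3 * W * ((W : ℝ) + α + β) ^ 2 - W ^ 3) / (6 * α * β) := by
      field_simp
      ring
    have e2 : ((W : ℝ) + α + β) ^ 3 / (3 * α * β) =
        (2 * ((W : ℝ) + α + β) ^ 3) / (6 * α * β) := by
      field_simp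
      ring
    rw [e1, e2]
    refine div_le_div_of_nonneg_right ?_ (by positivity)
    nlinarith [mul_nonneg (sq_nonneg ((α : ℝ) + β))
      (show (0 : ℝ) ≤ 3 * W + 2 * α + 2 * β by positivity)]
  have h7 : ((W : ℝ) + α + β) ^ 3 / (3 * α * β) ≤ ((W : ℝ) + α + β + 1) ^ 3 / (3 * α * β) := by
    refine div_le_div_of_nonneg_right ?_ (by positivity)
    exact pow_le_pow_left₀ (by positivity) (by linarith) 3
  linarith

theorem mult_upper {α β : ℕ} (hα : 1 ≤ α) (hβ : 1 ≤ β) (W v : ℕ) (hv : 1 ≤ v) :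
    (v : ℝ) * ∑ l ∈ Finset.range W, ((E α β (W - (l + 1) * v)).card : ℝ) ≤
      ((W : ℝ) + α + β) ^ 3 / (6 * α * β) := by
  have hα' : (1 : ℝ) ≤ α := by exact_mod_cast hα
  have hβ' : (1 : ℝ) ≤ β := by exact_mod_cast hβ
  have hv' : (1 : ℝ) ≤ v := by exact_mod_cast hv
  have hα0 : (0 : ℝ) < α := by linarith
  have hβ0 : (0 : ℝ) < β := by linarith
  have hv0 : (0 : ℝ) < v := by linarith
  have hW : (0 : ℝ) ≤ W := Nat.cast_nonneg _
  set u : ℕ → ℝ := fun l => (max ((W : ℝ) + α + β - l * v) 0) ^ 3 / (6 * α * β) with hu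
  have h1 : ∀ l : ℕ, (v : ℝ) * ((E α β (W - (l + 1) * v)).card : ℝ) ≤ u l - u (l + 1) := by
    intro l
    simp only [hu]
    push_cast
    rcases lt_or_ge ((l + 1) * v) W with h | h
    · have h' : ((l : ℝ) + 1) * v < W := by exact_mod_cast h
      have hc := cnt_upper hα hβ (W - (l + 1) * v)
      rw [Nat.cast_sub h.le] at hc
      push_cast at hc
      rw [max_eq_left (by nlinarith), max_eq_left (by nlinarith)]
      refine (mul_le_mul_of_nonneg_left hc hv0.le).trans ?_
      set a : ℝ := (W : ℝ) + α + β - (l + 1) * v with ha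
      have ha0 : 0 ≤ a := by nlinarith
      have e0 : (W : ℝ) - (l + 1) * v + α + β = a := by rw [ha]; ring
      have e1 : (W : ℝ) + α + β - l * v = a + v := by rw [ha]; ring
      rw [e0, e1]
      have e2 : (v : ℝ) * (a ^ 2 / (2 * α * β)) = (3 * v * a ^ 2) / (6 * α * β) := by
        field_simp
        ring
      rw [e2, ← sub_div]
      refine div_le_div_of_nonneg_right ?_ (by positivity)
      nlinarith [mul_nonneg ha0 (sq_nonneg (v : ℝ)), pow_pos hv0 3]
    · have h0 : W - (l + 1) * v = 0 := by omega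
      have hE : (E α β 0).card = 0 := by simp [E]
      rw [h0, hE, Nat.cast_zero, mul_zero, sub_nonneg]
      refine div_le_div_of_nonneg_right ?_ (by positivity)
      refine pow_le_pow_left₀ (le_max_right _ _) (max_le_max ?_ le_rfl) 3
      linarith
  have h2 : ∑ i ∈ Finset.range W, (u i - u (i + 1)) = u 0 - u W := Finset.sum_range_sub' u W
  have h3 : u 0 = ((W : ℝ) + α + β) ^ 3 / (6 * α * β) := by
    simp only [hu]
    rw [max_eq_left (by simp; positivity)]
    simp
  have h4 : 0 ≤ u W := by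
    simp only [hu]
    positivity
  have h5 := Finset.sum_le_sum (fun i (_ : i ∈ Finset.range W) => h1 i)
  rw [h2, h3, ← Finset.mul_sum] at h5
  linarith

end FV
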