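import Pool.Agent.Lib.MP_9e8926_ag_FV.Ini
import Pool.Agent.Lib.MP_9e8926_ag_FV.Cnt

/-!
# Colengths and multiplicities in the polynomial ring
-/

set_option autoImplicit false

noncomputable section

namespace FV

open MvPolynomial

variable {k : Type*} [Field k]

/-- The exponent with the given coordinates. -/
private def Colen_e (a : ℕ × ℕ) : Fin 2 →₀ ℕ := Finsupp.single 0 a.1 + Finsupp.single 1 a.2

private theorem Colen_e_zero (a : ℕ × ℕ) : Colen_e a 0 = a.1 := by simp [Colen_e]

private theorem Colen_e_one (a : ℕ × ℕ) : Colen_e a 1 = a.2 := by simp [Colen_e]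

private theorem Colen_e_eta (m : Fin 2 →₀ ℕ) : Colen_e (m 0, m 1) = m := by
  ext i
  fin_cases i
  · exact Colen_e_zero _
  · exact Colen_e_one _

private theorem Colen_span (I : Ideal (P2 k)) (S : Finset (ℕ × ℕ))
    (h : ∀ m : Fin 2 →₀ ℕ, Ideal.Quotient.mkₐ k I (monomial m (1 : k)) ∈
      Submodule.span k ((fun a => Ideal.Quotient.mkₐ k I (monomial (Colen_e a) (1 : k))) ''
        (S : Set (ℕ × ℕ)))) :
    Module.Finite k (P2 k ⧸ I) ∧ Module.finrank k (P2 k ⧸ I) ≤ S.card := by
  classical
  set T : Finset (P2 k ⧸ I) :=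
    S.image (fun a => Ideal.Quotient.mkₐ k I (monomial (Colen_e a) (1 : k))) with hT
  have htop : Submodule.span k (T : Set (P2 k ⧸ I)) = ⊤ := by
    rw [hT, Finset.coe_image, eq_top_iff]
    rintro x -
    obtain ⟨f, rfl⟩ := Ideal.Quotient.mkₐ_surjective k I x
    induction f using MvPolynomial.induction_on' with
    | monomial u a =>
      have h1 : (monomial u a : P2 k) = a • monomial u 1 := by
        rw [smul_monomial, smul_eq_mul, mul_one]
      rw [h1, map_smul]
      exact Submodule.smul_mem _ _ (h u)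
    | add p q hp hq =>
      rw [map_add]
      exact Submodule.add_mem _ hp hq
  refine ⟨⟨⟨T, htop⟩⟩, ?_⟩
  have h2 := finrank_span_finset_le_card (R := k) T
  rw [Set.finrank, htop, finrank_top] at h2
  exact h2.trans Finset.card_image_le

/-- If `I` contains all monomials of weight at least `W` then its colength is at most the number
of the other ones. -/
private theorem Colen_le_E {α β W : ℕ} (hα : 1 ≤ α) (hβ : 1 ≤ β) (I : Ideal (P2 k))
    (h : ∀ m : Fin 2 →₀ ℕ, W ≤ wt α β m → monomial m (1 : k) ∈ I) :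
    Module.Finite k (P2 k ⧸ I) ∧ Module.finrank k (P2 k ⧸ I) ≤ (E α β W).card := by
  refine Colen_span I (E α β W) fun m => ?_
  rcases le_or_gt W (wt α β m) with hm | hm
  · have h1 : Ideal.Quotient.mkₐ k I (monomial m (1 : k)) = 0 := by
      rw [Ideal.Quotient.mkₐ_eq_mk]
      exact Ideal.Quotient.eq_zero_iff_mem.2 (h m hm)
    rw [h1]
    exact Submodule.zero_mem _
  · apply Submodule.subset_span
    refine ⟨(m 0, m 1), ?_, ?_⟩
    · rw [Finset.mem_coe, mem_E hα hβ]
      exact hm
    · simp only [Colen_e_eta]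

private theorem Colen_X_mem (i : Fin 2) : (X i : P2 k) ∈ m0 k := by
  unfold m0
  rw [RingHom.mem_ker, constantCoeff_X]

private theorem Colen_mono (m : Fin 2 →₀ ℕ) :
    (monomial m (1 : k) : P2 k) = X 0 ^ m 0 * X 1 ^ m 1 := by
  rw [monomial_eq, Finsupp.prod_fintype _ _ (fun i => pow_zero _), Fin.prod_univ_two, C_1,
    one_mul]

private theorem Colen_mem_pow (m : Fin 2 →₀ ℕ) (n : ℕ) (h : n ≤ m 0 + m 1) :
    monomial m (1 : k) ∈ m0 k ^ n := by
  apply Ideal.pow_le_pow_right h
  rw [Colen_mono, pow_add]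
  exact Ideal.mul_mem_mul (Ideal.pow_mem_pow (Colen_X_mem 0) _)
    (Ideal.pow_mem_pow (Colen_X_mem 1) _)

theorem finite_m0_pow (n : ℕ) : Module.Finite k (P2 k ⧸ m0 k ^ n) := by
  refine (Colen_le_E (α := 1) (β := 1) (W := n) le_rfl le_rfl _ fun m hm => ?_).1
  apply Colen_mem_pow
  unfold wt at hm
  omega

theorem finite_of_le {I I' : Ideal (P2 k)} (h : I ≤ I') (hI : Module.Finite k (P2 k ⧸ I)) :
    Module.Finite k (P2 k ⧸ I') :=
  Module.Finite.of_surjective (Ideal.Quotient.factorₐ k h).toLinearMap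
    (Ideal.Quotient.factor_surjective h)

theorem finrank_anti {I I' : Ideal (P2 k)} (h : I ≤ I') (hI : Module.Finite k (P2 k ⧸ I)) :
    Module.finrank k (P2 k ⧸ I') ≤ Module.finrank k (P2 k ⧸ I) := by
  have hs : Function.Surjective (Ideal.Quotient.factorₐ k h).toLinearMap :=
    Ideal.Quotient.factor_surjective h
  have h1 := LinearMap.finrank_range_le (Ideal.Quotient.factorₐ k h).toLinearMap
  rw [LinearMap.range_eq_top.2 hs, finrank_top] at h1
  exact h1

/-- If `I` contains all monomials of weight at least `W` then its colength is at most the number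
of the other ones. -/
theorem finrank_le_E {α β W : ℕ} (hα : 1 ≤ α) (hβ : 1 ≤ β) (I : Ideal (P2 k))
    (h : ∀ m : Fin 2 →₀ ℕ, W ≤ wt α β m → monomial m (1 : k) ∈ I) :
    Module.Finite k (P2 k ⧸ I) ∧ Module.finrank k (P2 k ⧸ I) ≤ (E α β W).card :=
  Colen_le_E hα hβ I h

theorem monomial_mem_m0_pow (m : Fin 2 →₀ ℕ) (n : ℕ) (h : n ≤ m 0 + m 1) :
    monomial m (1 : k) ∈ m0 k ^ n := Colen_mem_pow m n h

/-- A least monomial: the degree is minimal, and then the exponent of `x`. -/
private theorem Colen_least {d : P2 k} (hd : d ≠ 0) : ∃ u ∈ d.support, ∀ m ∈ d.support, m ≠ u →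
    u 0 + u 1 < m 0 + m 1 ∨ (u 0 + u 1 = m 0 + m 1 ∧ m 1 < u 1) := by
  obtain ⟨u, hu, hmin⟩ := Finset.exists_min_image d.support
    (fun m => toLex (m 0 + m 1, m 0)) (support_nonempty.2 hd)
  refine ⟨u, hu, fun m hm hne => ?_⟩
  have h1 := hmin m hm
  rw [Prod.Lex.toLex_le_toLex] at h1
  rcases h1 with h1 | ⟨h1, h2⟩
  · exact Or.inl h1
  · right
    refine ⟨h1, ?_⟩
    dsimp only at h1 h2
    by_contra hc
    apply hne
    have e0 : m 0 = u 0 := by omega
    have e1 : m 1 = u 1 := by omega
    rw [← Colen_e_eta m, ← Colen_e_eta u, e0, e1]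

/-- A non-zero `d` and the `n`-th power of the maximal ideal generate an ideal of colength
`O(n)`. -/
theorem finrank_sup_le (d : P2 k) (hd : d ≠ 0) :
    ∃ C0 : ℝ, ∀ n : ℕ, (Module.finrank k (P2 k ⧸ (Ideal.span {d} ⊔ m0 k ^ n)) : ℝ) ≤ C0 * n :=
  by
  obtain ⟨u, hu, hmin⟩ := Colen_least hd
  refine ⟨(u 0 + u 1 : ℕ), fun n => ?_⟩
  set I : Ideal (P2 k) := Ideal.span {d} ⊔ m0 k ^ n with hI
  set S : Finset (ℕ × ℕ) := (Finset.range (u 0) ×ˢ Finset.range n) ∪
    (Finset.range n ×ˢ Finset.range (u 1)) with hS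
  have hcard : S.card ≤ (u 0 + u 1) * n := by
    refine (Finset.card_union_le _ _).trans ?_
    rw [Finset.card_product, Finset.card_product, Finset.card_range, Finset.card_range,
      Finset.card_range]
    apply le_of_eq
    ring
  set U : Submodule k (P2 k ⧸ I) :=
    Submodule.span k ((fun a => Ideal.Quotient.mkₐ k I (monomial (Colen_e a) (1 : k))) ''
        (S : Set (ℕ × ℕ))) with hU
  have hbig : ∀ m : Fin 2 →₀ ℕ, n ≤ m 0 + m 1 →
      Ideal.Quotient.mkₐ k I (monomial m (1 : k)) ∈ U := by
    intro m hm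
    have h1 : Ideal.Quotient.mkₐ k I (monomial m (1 : k)) = 0 := by
      rw [Ideal.Quotient.mkₐ_eq_mk]
      exact Ideal.Quotient.eq_zero_iff_mem.2
        (Ideal.mem_sup_right (Colen_mem_pow m n hm))
    rw [h1]
    exact Submodule.zero_mem _
  have hstep : ∀ j : ℕ, (∀ m : Fin 2 →₀ ℕ, j + 1 ≤ m 0 + m 1 →
      Ideal.Quotient.mkₐ k I (monomial m (1 : k)) ∈ U) →
      ∀ m : Fin 2 →₀ ℕ, j ≤ m 0 + m 1 → Ideal.Quotient.mkₐ k I (monomial m (1 : k)) ∈ U := by
    intro j hj
    have key : ∀ t : ℕ, ∀ m : Fin 2 →₀ ℕ, m 1 = t → j ≤ m 0 + m 1 →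
        Ideal.Quotient.mkₐ k I (monomial m (1 : k)) ∈ U := by
      intro t
      induction t using Nat.strong_induction_on with
      | _ t ih =>
        intro m hmt hmj
        rcases Nat.lt_or_ge j (m 0 + m 1) with hlt | hge
        · exact hj m hlt
        have hdeg : m 0 + m 1 = j := by omega
        rcases le_or_gt n (m 0 + m 1) with hn | hn
        · exact hbig m hn
        by_cases hdiv : u 0 ≤ m 0 ∧ u 1 ≤ m 1
        swap
        · apply Submodule.subset_span
          refine ⟨(m 0, m 1), ?_, ?_⟩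
          · rw [Finset.mem_coe, hS, Finset.mem_union, Finset.mem_product, Finset.mem_product,
              Finset.mem_range, Finset.mem_range, Finset.mem_range, Finset.mem_range]
            dsimp only
            omega
          · simp only [Colen_e_eta]
        · set v : Fin 2 →₀ ℕ := Colen_e (m 0 - u 0, m 1 - u 1) with hv
          have hv0 : v 0 = m 0 - u 0 := Colen_e_zero _
          have hv1 : v 1 = m 1 - u 1 := Colen_e_one _
          have huv : u + v = m := by
            rw [← Colen_e_eta m, ← Colen_e_eta (u + v), Finsupp.add_apply, Finsupp.add_apply,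
              hv0, hv1, Nat.add_sub_cancel' hdiv.1, Nat.add_sub_cancel' hdiv.2]
          have hz : Ideal.Quotient.mkₐ k I (d * monomial v (1 : k)) = 0 := by
            rw [Ideal.Quotient.mkₐ_eq_mk]
            exact Ideal.Quotient.eq_zero_iff_mem.2 (Ideal.mem_sup_left
              (Ideal.mul_mem_right _ _ (Ideal.subset_span rfl)))
          have hexp : d * monomial v (1 : k) =
              ∑ w ∈ d.support, coeff w d • (monomial (w + v) (1 : k) : P2 k) := by
            conv_lhs => rw [d.as_sum]
            rw [Finset.sum_mul]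
            refine Finset.sum_congr rfl fun w _ => ?_
            rw [monomial_mul, smul_monomial, mul_one, smul_eq_mul, mul_one]
          classical
          rw [hexp, ← Finset.add_sum_erase _ _ hu, huv, map_add, map_smul, map_sum] at hz
          have hsum : ∑ w ∈ d.support.erase u,
              Ideal.Quotient.mkₐ k I (coeff w d • (monomial (w + v) (1 : k) : P2 k)) ∈ U := by
            refine Submodule.sum_mem _ fun w hw => ?_
            rw [map_smul]
            apply Submodule.smul_mem
            rw [Finset.mem_erase] at hw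
            have hwv0 : (w + v) 0 = w 0 + (m 0 - u 0) := by rw [Finsupp.add_apply, hv0]
            have hwv1 : (w + v) 1 = w 1 + (m 1 - u 1) := by rw [Finsupp.add_apply, hv1]
            rcases hmin w hw.2 hw.1 with h1 | ⟨h1, h2⟩
            · apply hj
              rw [hwv0, hwv1]
              omega
            · apply ih ((w + v) 1) (by rw [hwv1]; omega) _ rfl
              rw [hwv0, hwv1]
              omega
          have hc : coeff u d ≠ 0 := mem_support_iff.1 hu
          have h3 : coeff u d • Ideal.Quotient.mkₐ k I (monomial m (1 : k)) ∈ U := by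
            rw [eq_neg_of_add_eq_zero_left hz]
            exact Submodule.neg_mem _ hsum
          have h4 := Submodule.smul_mem U (coeff u d)⁻¹ h3
          rwa [smul_smul, inv_mul_cancel₀ hc, one_smul] at h4
    intro m hm
    exact key (m 1) m rfl hm
  have hall : ∀ i : ℕ, ∀ m : Fin 2 →₀ ℕ, n - i ≤ m 0 + m 1 →
      Ideal.Quotient.mkₐ k I (monomial m (1 : k)) ∈ U := by
    intro i
    induction i with
    | zero => exact fun m hm => hbig m (by omega)
    | succ i ih =>
      intro m hm
      rcases Nat.lt_or_ge i n with hin | hin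
      · have e : n - (i + 1) + 1 = n - i := by omega
        refine hstep (n - (i + 1)) ?_ m hm
        rw [e]
        exact ih
      · exact ih m (by omega)
  have h5 := (Colen_span I S fun m => hall n m (by omega)).2
  have h6 := h5.trans hcard
  exact_mod_cast h6

/-- The ideal of the polynomials of order at least `n`. -/
private def Colen_ge (k : Type*) [Field k] (n : ℕ) : Ideal (P2 k) where
  carrier := {f | Ge 1 1 n f}
  add_mem' := fun hf hg => Ge.add hf hg
  zero_mem' := fun m hm => by simp at hm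
  smul_mem' := fun c f hf => by
    have hc : Ge 1 1 0 c := fun m _ => Nat.zero_le _
    have := Ge.mul hc hf
    rw [zero_add] at this
    exact this

private theorem Colen_pow_le (n : ℕ) : m0 k ^ n ≤ Colen_ge k n := by
  induction n with
  | zero => exact fun f _ m _ => Nat.zero_le _
  | succ n ih =>
    rw [pow_succ, Ideal.mul_le]
    intro r hr s hs
    refine Ge.mul (ih hr) ?_
    intro m hm
    unfold m0 at hs
    rw [RingHom.mem_ker, constantCoeff_eq] at hs
    by_contra hc
    unfold wt at hc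
    have hm0 : m = 0 := by
      rw [← Colen_e_eta m]
      have e0 : m 0 = 0 := by omega
      have e1 : m 1 = 0 := by omega
      rw [e0, e1]
      simp [Colen_e]
    rw [hm0, mem_support_iff] at hm
    exact hm hs

theorem J_ge_m0_pow (q : ℕ) : m0 k ^ (2 * q) ≤ J k q := by
  intro f hf
  rw [mem_J]
  intro m hm
  have h1 := Colen_pow_le (2 * q) hf m hm
  unfold wt at h1
  omega

/-- The colength of the powers of a primary ideal grows at most quadratically. -/
theorem finrank_pow_le (b : Ideal (P2 k)) (N : ℕ) (hb : m0 k ^ N ≤ b) :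
    ∃ C0 : ℝ, ∀ n : ℕ, 1 ≤ n → Module.Finite k (P2 k ⧸ b ^ n) ∧
      (Module.finrank k (P2 k ⧸ b ^ n) : ℝ) ≤ C0 * (n : ℝ) ^ 2 := by
  refine ⟨((N : ℝ) + 2) ^ 2 / 2, fun n hn => ?_⟩
  have h1 : m0 k ^ (N * n) ≤ b ^ n := by
    rw [pow_mul]
    exact Ideal.pow_right_mono hb n
  have h2 := finrank_le_E (k := k) (α := 1) (β := 1) (W := N * n) le_rfl le_rfl (b ^ n)
    (fun m hm => h1 (Colen_mem_pow m _ (by unfold wt at hm; omega)))
  refine ⟨h2.1, ?_⟩
  have h3 := cnt_upper (α := 1) (β := 1) le_rfl le_rfl (N * n)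
  have h4 : (Module.finrank k (P2 k ⧸ b ^ n) : ℝ) ≤ ((E 1 1 (N * n)).card : ℝ) := by
    exact_mod_cast h2.2
  refine (h4.trans h3).trans ?_
  push_cast
  have hn' : (1 : ℝ) ≤ n := by exact_mod_cast hn
  have e1 : (N : ℝ) * n + 1 + 1 ≤ (N + 2) * n := by nlinarith
  have e2 : ((N : ℝ) * n + 1 + 1) ^ 2 ≤ ((N + 2) * n) ^ 2 :=
    pow_le_pow_left₀ (by positivity) e1 2
  nlinarith

end FV
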