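import Pool.Agent.Lib.MP_9e8926_ag_FV.Defs

/-!
# Estimates of the multiplicity
-/

set_option autoImplicit false

noncomputable section

namespace FV

open Filter

variable {k : Type*} [Field k] {R : Type*} [CommRing R] [Algebra k R]

private def lsU (k : Type*) [Field k] {R : Type*} [CommRing R] [Algebra k R] (I : Ideal R)
    (n : ℕ) : ℝ := 2 * (Module.finrank k (R ⧸ I ^ n) : ℝ) / (n : ℝ) ^ 2

private theorem lsU_nonneg (I : Ideal R) (n : ℕ) : 0 ≤ lsU k I n := by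
  unfold lsU
  positivity

private theorem lsU_bddBelow (I : Ideal R) : IsCoboundedUnder (· ≤ ·) atTop (lsU k I) :=
  isCoboundedUnder_le_of_le atTop (x := 0) (lsU_nonneg I)

private theorem lsU_bdd (I : Ideal R)
    (hb : ∃ C0 : ℝ, ∀ n : ℕ, 1 ≤ n → (Module.finrank k (R ⧸ I ^ n) : ℝ) ≤ C0 * (n : ℝ) ^ 2) :
    IsBoundedUnder (· ≤ ·) atTop (lsU k I) := by
  obtain ⟨C0, hC⟩ := hb
  refine isBoundedUnder_of_eventually_le (a := 2 * C0) ?_
  filter_upwards [eventually_ge_atTop 1] with n hn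
  have h0 : (0 : ℝ) < (n : ℝ) := by exact_mod_cast hn
  unfold lsU
  rw [div_le_iff₀ (by positivity)]
  linarith [hC n hn]

private theorem emult_eq_lsU (I : Ideal R) : emult k I = limsup (lsU k I) atTop := rfl

/-- A lower bound of the multiplicity from a sequence `n e → ∞` of exponents. -/
theorem le_emult_of_seq (I : Ideal R)
    (hb : ∃ C0 : ℝ, ∀ n : ℕ, 1 ≤ n → (Module.finrank k (R ⧸ I ^ n) : ℝ) ≤ C0 * (n : ℝ) ^ 2)
    (n : ℕ → ℕ) (hn : Tendsto n atTop atTop) (x : ℕ → ℝ) (L : ℝ) (hx : Tendsto x atTop (nhds L))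
    (h : ∀ e, x e ≤ 2 * (Module.finrank k (R ⧸ I ^ n e) : ℝ) / (n e : ℝ) ^ 2) :
    L ≤ emult k I := by
  rw [emult_eq_lsU]
  refine le_of_forall_lt fun L' hL' => ?_
  obtain ⟨L'', h1, h2⟩ := exists_between hL'
  refine lt_of_lt_of_le h1 (le_limsup_of_frequently_le ?_ (lsU_bdd I hb))
  refine hn.frequently (p := fun m => L'' ≤ lsU k I m) ?_
  refine Eventually.frequently ?_
  filter_upwards [hx.eventually_const_lt h2] with e he
  exact he.le.trans (h e)

theorem emult_le_of_forall (I : Ideal R) (x : ℕ → ℝ) (L : ℝ) (hx : Tendsto x atTop (nhds L))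
    (h : ∀ n : ℕ, 1 ≤ n → 2 * (Module.finrank k (R ⧸ I ^ n) : ℝ) / (n : ℝ) ^ 2 ≤ x n) :
    emult k I ≤ L := by
  rw [emult_eq_lsU, ← hx.limsup_eq]
  refine limsup_le_limsup ?_ (lsU_bddBelow I) hx.isBoundedUnder_le
  filter_upwards [eventually_ge_atTop 1] with n hn
  exact h n hn

/-- For large `n` the colength of `I ^ n` is at most `(e / 2 + ε) n²`. -/
theorem finrank_le_of_emult (I : Ideal R)
    (hb : ∃ C0 : ℝ, ∀ n : ℕ, 1 ≤ n → (Module.finrank k (R ⧸ I ^ n) : ℝ) ≤ C0 * (n : ℝ) ^ 2)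
    (ε : ℝ) (hε : 0 < ε) :
    ∃ N0 : ℕ, ∀ n : ℕ, N0 ≤ n →
      (Module.finrank k (R ⧸ I ^ n) : ℝ) ≤ (emult k I + ε) / 2 * (n : ℝ) ^ 2 := by
  have h1 : limsup (lsU k I) atTop < emult k I + ε := by
    rw [emult_eq_lsU]
    linarith
  have h2 := eventually_lt_of_limsup_lt h1 (lsU_bdd I hb)
  obtain ⟨N, hN⟩ := eventually_atTop.1 h2
  refine ⟨max N 1, fun n hn => ?_⟩
  have h3 := hN n ((le_max_left _ _).trans hn)
  have h4 : 1 ≤ n := (le_max_right _ _).trans hn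
  have h0 : (0 : ℝ) < (n : ℝ) := by exact_mod_cast h4
  unfold lsU at h3
  rw [div_lt_iff₀ (by positivity)] at h3
  linarith

theorem emult_nonneg (I : Ideal R)
    (hb : ∃ C0 : ℝ, ∀ n : ℕ, 1 ≤ n → (Module.finrank k (R ⧸ I ^ n) : ℝ) ≤ C0 * (n : ℝ) ^ 2) :
    0 ≤ emult k I := by
  rw [emult_eq_lsU]
  exact le_limsup_of_frequently_le
    (Eventually.frequently (Eventually.of_forall fun n => lsU_nonneg I n)) (lsU_bdd I hb)

private theorem limsup_le_aux (I : Ideal R) (c : ℝ)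
    (h : ∀ ε : ℝ, 0 < ε → ∀ᶠ n in atTop, lsU k I n ≤ c + ε) : emult k I ≤ c := by
  rw [emult_eq_lsU]
  refine le_of_forall_pos_le_add fun ε hε => ?_
  exact limsup_le_of_le (lsU_bddBelow I) (h ε hε)

/-- Comparison of two multiplicities. -/
theorem emult_eq_mul {R' : Type*} [CommRing R'] [Algebra k R'] (I : Ideal R) (I' : Ideal R')
    (hb : ∃ C0 : ℝ, ∀ n : ℕ, 1 ≤ n → (Module.finrank k (R' ⧸ I' ^ n) : ℝ) ≤ C0 * (n : ℝ) ^ 2)
    (g : ℕ) (hg : 1 ≤ g)
    (h : ∃ C0 : ℝ, ∀ n : ℕ, 1 ≤ n → |(g : ℝ) * Module.finrank k (R ⧸ I ^ n) -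
      Module.finrank k (R' ⧸ I' ^ n)| ≤ C0 * n) :
    emult k I' = g * emult k I := by
  obtain ⟨C0, hC0⟩ := h
  have hg0 : (1 : ℝ) ≤ (g : ℝ) := by exact_mod_cast hg
  have hCn : 0 ≤ C0 := by
    have h1 := (abs_nonneg _).trans (hC0 1 le_rfl)
    simpa using h1
  have hbI : ∃ C : ℝ, ∀ n : ℕ, 1 ≤ n →
      (Module.finrank k (R ⧸ I ^ n) : ℝ) ≤ C * (n : ℝ) ^ 2 := by
    obtain ⟨C1, hC1⟩ := hb
    refine ⟨C1 + C0, fun n hn => ?_⟩
    have h0 : (1 : ℝ) ≤ (n : ℝ) := by exact_mod_cast hn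
    have h1 := (abs_le.1 (hC0 n hn)).2
    have h2 := hC1 n hn
    have h3 : (Module.finrank k (R ⧸ I ^ n) : ℝ) ≤ (g : ℝ) * Module.finrank k (R ⧸ I ^ n) :=
      le_mul_of_one_le_left (Nat.cast_nonneg _) hg0
    have h4 : C0 * (n : ℝ) ≤ C0 * (n : ℝ) ^ 2 :=
      mul_le_mul_of_nonneg_left (by nlinarith) hCn
    nlinarith
  have key : ∀ ε : ℝ, 0 < ε → ∀ᶠ n in atTop, |(g : ℝ) * lsU k I n - lsU k I' n| ≤ ε := by
    intro ε hε
    obtain ⟨N, hN⟩ := exists_nat_gt (2 * C0 / ε)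
    filter_upwards [eventually_ge_atTop (max N 1)] with n hn
    have hn1 : 1 ≤ n := (le_max_right _ _).trans hn
    have h0 : (0 : ℝ) < (n : ℝ) := by exact_mod_cast hn1
    have hNn : (N : ℝ) ≤ (n : ℝ) := by exact_mod_cast (le_max_left _ _).trans hn
    have h1 : (g : ℝ) * lsU k I n - lsU k I' n = 2 * ((g : ℝ) * Module.finrank k (R ⧸ I ^ n) -
        Module.finrank k (R' ⧸ I' ^ n)) / (n : ℝ) ^ 2 := by
      unfold lsU
      ring
    rw [h1, abs_div, abs_mul, abs_of_pos (by positivity : (0 : ℝ) < (n : ℝ) ^ 2),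
      abs_of_pos (by norm_num : (0 : ℝ) < 2), div_le_iff₀ (by positivity)]
    have h2 := hC0 n hn1
    have h3 : 2 * C0 < ε * n := by
      rw [div_lt_iff₀ hε] at hN
      nlinarith
    nlinarith
  apply le_antisymm
  · refine limsup_le_aux I' _ fun ε hε => ?_
    have h1 : limsup (lsU k I) atTop < emult k I + ε / (2 * g) := by
      rw [emult_eq_lsU]
      have : 0 < ε / (2 * (g : ℝ)) := by positivity
      linarith
    filter_upwards [eventually_lt_of_limsup_lt h1 (lsU_bdd I hbI), key (ε / 2) (by positivity)]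
      with n h2 h3
    have h4 := (abs_le.1 h3).1
    have h5 : (g : ℝ) * lsU k I n ≤ g * (emult k I + ε / (2 * g)) :=
      mul_le_mul_of_nonneg_left h2.le (by positivity)
    have h6 : (g : ℝ) * (emult k I + ε / (2 * g)) = g * emult k I + ε / 2 := by
      field_simp
    linarith
  · have h7 : emult k I ≤ emult k I' / g := by
      refine limsup_le_aux I _ fun ε hε => ?_
      have h1 : limsup (lsU k I') atTop < emult k I' + ε / 2 := by
        rw [emult_eq_lsU]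
        linarith
      filter_upwards [eventually_lt_of_limsup_lt h1 (lsU_bdd I' hb), key (ε / 2) (by positivity)]
        with n h2 h3
      have h4 := (abs_le.1 h3).2
      have h5 : (g : ℝ) * lsU k I n ≤ emult k I' + ε := by linarith
      have h6 : emult k I' / g + ε = (emult k I' + g * ε) / g := by
        field_simp
      rw [h6, le_div_iff₀ (by positivity)]
      nlinarith
    rw [le_div_iff₀ (by positivity)] at h7
    linarith

end FV
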