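import Pool.Agent.Lib.MP_9e8926_ag_FV.TLev
import Pool.Agent.Lib.MP_9e8926_ag_FV.Colen
import Pool.Agent.Lib.MP_9e8926_ag_FV.Limsup

/-!
# The lower bound in the polynomial ring, characteristic `p`
-/

set_option autoImplicit false

noncomputable section

namespace FV

open MvPolynomial

variable {k : Type*} [Field k] (p : ℕ) [Fact p.Prime] [CharP k p] {r : ℕ} (f : Fin r → P2 k)
  (c : Fin r → ℚ) (κ C0 : ℝ)

private theorem lowP_tendsto (hp : p.Prime) :
    Filter.Tendsto (fun e : ℕ => ((p ^ (e + 1) : ℕ) : ℝ)) Filter.atTop Filter.atTop := by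
  have h1 : Filter.Tendsto (fun e : ℕ => p ^ (e + 1)) Filter.atTop Filter.atTop := by
    refine Filter.tendsto_atTop_mono (f := fun e : ℕ => e) (fun e => ?_) Filter.tendsto_id
    have h2 : e + 1 < p ^ (e + 1) := Nat.lt_pow_self hp.one_lt
    omega
  exact tendsto_natCast_atTop_atTop.comp h1

/-- The base pair is strongly `F`-regular. -/
theorem base_sfr (hκ : 0 < κ)
    (hT : ∀ e : ℕ, 1 ≤ e → TLb f c (p ^ e) (κ * ((p ^ e : ℕ) : ℝ) ^ 2 - C0 * ((p ^ e : ℕ) : ℝ)))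
    (d : P2 k) (hd : d ≠ 0) : ∃ e : ℕ, 1 ≤ e ∧ d * Fq f c (p ^ e) ∉ J k (p ^ e) := by
  by_contra hcon
  push Not at hcon
  obtain ⟨C1, hC1⟩ := finrank_sup_le d hd
  have hp : p.Prime := Fact.out
  have hmain : ∀ e : ℕ, κ * ((p ^ (e + 1) : ℕ) : ℝ) ≤ C0 + 2 * C1 := by
    intro e
    set q : ℕ := p ^ (e + 1) with hq
    have hq0 : 0 < q := pow_pos hp.pos _
    have hqR : (0 : ℝ) < q := by exact_mod_cast hq0
    have hle : Ideal.span {d} ⊔ m0 k ^ (2 * q) ≤ Ideal.span {d} ⊔ J k q :=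
      sup_le_sup_left (J_ge_m0_pow q) _
    have hfin : Module.Finite k (P2 k ⧸ (Ideal.span {d} ⊔ m0 k ^ (2 * q))) :=
      finite_of_le le_sup_right (finite_m0_pow (2 * q))
    have h1 := hT (e + 1) (by omega) (Ideal.span {d} ⊔ J k q) (finite_of_le hle hfin) (by
      intro x hx y _
      obtain ⟨a, ha, j, hj, rfl⟩ := Submodule.mem_sup.1 hx
      obtain ⟨a', rfl⟩ := Ideal.mem_span_singleton'.1 ha
      have h2 : Fq f c q * (a' * d + j) * y =
          (a' * y) * (d * Fq f c q) + (Fq f c q * y) * j := by ring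
      rw [h2]
      exact Ideal.add_mem _ (Ideal.mul_mem_left _ _ (hcon (e + 1) (by omega)))
        (Ideal.mul_mem_left _ _ hj))
    have h3 : (Module.finrank k (P2 k ⧸ (Ideal.span {d} ⊔ J k q)) : ℝ) ≤
        C1 * ((2 * q : ℕ) : ℝ) := by
      refine le_trans ?_ (hC1 (2 * q))
      exact_mod_cast finrank_anti hle hfin
    rw [← hq] at h1
    push_cast at h3
    have h4 : κ * (q : ℝ) * q ≤ (C0 + 2 * C1) * q := by nlinarith
    exact le_of_mul_le_mul_right h4 hqR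
  obtain ⟨e, he⟩ := ((lowP_tendsto p hp).eventually_gt_atTop ((C0 + 2 * C1) / κ)).exists
  rw [div_lt_iff₀ hκ] at he
  have := hmain e
  linarith

theorem low_p (hκ : 0 < κ)
    (hT : ∀ e : ℕ, 1 ≤ e → TLb f c (p ^ e) (κ * ((p ^ e : ℕ) : ℝ) ^ 2 - C0 * ((p ^ e : ℕ) : ℝ)))
    (b : Ideal (P2 k)) (N : ℕ) (hN : m0 k ^ N ≤ b) (hb : b ≤ m0 k) (t : ℝ) (ht : 0 ≤ t)
    (h : ∀ e : ℕ, 1 ≤ e → ∀ x ∈ b ^ ⌈t * ((p ^ e : ℕ) : ℝ)⌉₊, Fq f c (p ^ e) * x ∈ J k (p ^ e)) :
    8 * κ ≤ emult k b * t ^ 2 := by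
  have hp : p.Prime := Fact.out
  obtain ⟨C2, hC2⟩ := finrank_pow_le b N hN
  rcases ht.eq_or_lt with ht0 | ht0
  · exfalso
    obtain ⟨e, he, hne⟩ := base_sfr p f c κ C0 hκ hT 1 one_ne_zero
    apply hne
    have h1 := h e he 1 (by rw [← ht0, zero_mul, Nat.ceil_zero, pow_zero, Ideal.one_eq_top]; exact Submodule.mem_top)
    rwa [mul_comm] at h1
  · have hlim := lowP_tendsto p hp
    set n : ℕ → ℕ := fun e => (⌈t * ((p ^ (e + 1) : ℕ) : ℝ)⌉₊ + 1) / 2 with hn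
    have hn1 : ∀ e, t * ((p ^ (e + 1) : ℕ) : ℝ) / 2 ≤ n e := by
      intro e
      have h1 : t * ((p ^ (e + 1) : ℕ) : ℝ) ≤ ⌈t * ((p ^ (e + 1) : ℕ) : ℝ)⌉₊ := Nat.le_ceil _
      have h2 : (⌈t * ((p ^ (e + 1) : ℕ) : ℝ)⌉₊ : ℝ) ≤ 2 * n e := by
        have : ⌈t * ((p ^ (e + 1) : ℕ) : ℝ)⌉₊ ≤ 2 * n e := by
          rw [hn]
          dsimp only
          omega
        exact_mod_cast this
      linarith
    have hn2 : ∀ e, (n e : ℝ) ≤ t * ((p ^ (e + 1) : ℕ) : ℝ) / 2 + 1 := by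
      intro e
      have h1 : (⌈t * ((p ^ (e + 1) : ℕ) : ℝ)⌉₊ : ℝ) < t * ((p ^ (e + 1) : ℕ) : ℝ) + 1 :=
        Nat.ceil_lt_add_one (by positivity)
      have h2 : (2 : ℝ) * n e ≤ ⌈t * ((p ^ (e + 1) : ℕ) : ℝ)⌉₊ + 1 := by
        have : 2 * n e ≤ ⌈t * ((p ^ (e + 1) : ℕ) : ℝ)⌉₊ + 1 := by
          rw [hn]
          dsimp only
          omega
        exact_mod_cast this
      linarith
    have hnt : Filter.Tendsto n Filter.atTop Filter.atTop := by
      rw [← tendsto_natCast_atTop_iff (R := ℝ)]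
      refine Filter.tendsto_atTop_mono hn1 ?_
      have h1 := (hlim.const_mul_atTop ht0).atTop_div_const (by norm_num : (0 : ℝ) < 2)
      exact h1
    have hqpos : ∀ e : ℕ, (0 : ℝ) < ((p ^ (e + 1) : ℕ) : ℝ) := by
      intro e
      exact_mod_cast pow_pos hp.pos _
    have hnpos : ∀ e, (0 : ℝ) < n e := by
      intro e
      have := hqpos e
      exact lt_of_lt_of_le (by positivity) (hn1 e)
    set x : ℕ → ℝ := fun e => 2 * (κ * ((p ^ (e + 1) : ℕ) : ℝ) ^ 2 -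
      C0 * ((p ^ (e + 1) : ℕ) : ℝ)) / (t * ((p ^ (e + 1) : ℕ) : ℝ) / 2 + 1) ^ 2 with hx
    have hxlim : Filter.Tendsto x Filter.atTop (nhds (8 * κ / t ^ 2)) := by
      have h1 : Filter.Tendsto (fun e : ℕ => (((p ^ (e + 1) : ℕ) : ℝ))⁻¹) Filter.atTop
          (nhds 0) := tendsto_inv_atTop_zero.comp hlim
      have h2 : Filter.Tendsto (fun e : ℕ => 2 * (κ - C0 * (((p ^ (e + 1) : ℕ) : ℝ))⁻¹) /
          (t / 2 + (((p ^ (e + 1) : ℕ) : ℝ))⁻¹) ^ 2) Filter.atTop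
          (nhds (2 * (κ - C0 * 0) / (t / 2 + 0) ^ 2)) := by
        refine Filter.Tendsto.div ?_ ?_ (by positivity)
        · exact ((h1.const_mul C0).const_sub κ).const_mul 2
        · exact (h1.const_add (t / 2)).pow 2
      have h3 : 2 * (κ - C0 * 0) / (t / 2 + 0) ^ 2 = 8 * κ / t ^ 2 := by
        field_simp
        ring
      rw [h3] at h2
      refine h2.congr fun e => ?_
      have h4 := hqpos e
      rw [hx]
      dsimp only
      set Q : ℝ := ((p ^ (e + 1) : ℕ) : ℝ) with hQ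
      have h5 : (t * Q / 2 + 1) = Q * (t / 2 + Q⁻¹) := by
        field_simp
      have h6 : κ * Q ^ 2 - C0 * Q = Q ^ 2 * (κ - C0 * Q⁻¹) := by
        field_simp
      rw [h5, h6, mul_pow, mul_left_comm, mul_div_mul_left _ _ (by positivity)]
    have hbound : ∀ e, x e ≤ 2 * (Module.finrank k (P2 k ⧸ b ^ n e) : ℝ) / (n e : ℝ) ^ 2 := by
      intro e
      have hnp := hnpos e
      have hn1' : 1 ≤ n e := by exact_mod_cast hnp
      have hT1 := hT (e + 1) (by omega) (b ^ n e) (hC2 (n e) hn1').1 (by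
        intro y hy z hz
        have h1 : y * z ∈ b ^ ⌈t * ((p ^ (e + 1) : ℕ) : ℝ)⌉₊ := by
          refine Ideal.pow_le_pow_right (m := ⌈t * ((p ^ (e + 1) : ℕ) : ℝ)⌉₊)
            (n := n e + n e) ?_ ?_
          · rw [hn]
            dsimp only
            omega
          · rw [pow_add]
            exact Ideal.mul_mem_mul hy hz
        have h2 := h (e + 1) (by omega) (y * z) h1
        rwa [← mul_assoc] at h2)
      rw [hx]
      dsimp only
      set Q : ℝ := ((p ^ (e + 1) : ℕ) : ℝ) with hQ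
      have h4 : 0 < Q := hqpos e
      set D : ℝ := (Module.finrank k (P2 k ⧸ b ^ n e) : ℝ) with hD
      have hD0 : 0 ≤ D := Nat.cast_nonneg _
      rcases le_or_gt (κ * Q ^ 2 - C0 * Q) 0 with hneg | hpos
      · refine le_trans (div_nonpos_of_nonpos_of_nonneg (by linarith) (by positivity)) ?_
        positivity
      · calc 2 * (κ * Q ^ 2 - C0 * Q) / (t * Q / 2 + 1) ^ 2
            ≤ 2 * (κ * Q ^ 2 - C0 * Q) / (n e : ℝ) ^ 2 := by
              have := hn2 e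
              gcongr
          _ ≤ 2 * D / (n e : ℝ) ^ 2 := by
              gcongr
    have hfin := le_emult_of_seq (k := k) b ⟨C2, fun m hm => (hC2 m hm).2⟩ n hnt x
      (8 * κ / t ^ 2) hxlim hbound
    rwa [div_le_iff₀ (by positivity)] at hfin

end FV
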