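import Pool.Agent.Lib.MP_9e8926_ag_FV.Rank
import Pool.Agent.Lib.MP_9e8926_ag_FV.Limsup

/-!
# Multiplicities upstairs and downstairs
-/

set_option autoImplicit false

noncomputable section

namespace FV

open MvPolynomial

variable {k : Type*} [Field k] (G : Subgroup (GL (Fin 2) k))

/-- The trace as a linear map. -/
private def rankeTr [Fintype G] : P2 k →ₗ[k] P2 k :=
  ∑ σ : G, (lin ((σ : GL (Fin 2) k) : Matrix (Fin 2) (Fin 2) k)).toLinearMap

private theorem ranke_tr_apply [Fintype G] (s : P2 k) :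
    rankeTr G s = ∑ σ : G, lin ((σ : GL (Fin 2) k) : Matrix (Fin 2) (Fin 2) k) s := by
  rw [rankeTr, LinearMap.sum_apply]
  rfl

private theorem ranke_tr_mem [Fintype G] (s : P2 k) : rankeTr G s ∈ Inv G := by
  intro τ hτ
  rw [ranke_tr_apply, map_sum]
  have h1 : ∀ σ : G, lin (τ : Matrix (Fin 2) (Fin 2) k)
      (lin ((σ : GL (Fin 2) k) : Matrix (Fin 2) (Fin 2) k) s) =
      lin (((σ * ⟨τ, hτ⟩ : G) : GL (Fin 2) k) : Matrix (Fin 2) (Fin 2) k) s := by
    intro σ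
    have h2 := lin_comp (τ : Matrix (Fin 2) (Fin 2) k)
      ((σ : GL (Fin 2) k) : Matrix (Fin 2) (Fin 2) k)
    have h3 := congrArg (fun f => f s) h2
    exact h3
  rw [Finset.sum_congr rfl fun σ _ => h1 σ]
  exact Fintype.sum_equiv (Equiv.mulRight (⟨τ, hτ⟩ : G)) _ _ fun σ => rfl

private theorem ranke_tr_smul [Fintype G] (a : Inv G) (s : P2 k) :
    rankeTr G (s * (a : P2 k)) = (a : P2 k) * rankeTr G s := by
  rw [ranke_tr_apply, ranke_tr_apply, Finset.mul_sum]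
  refine Finset.sum_congr rfl fun σ _ => ?_
  rw [map_mul, a.2 σ σ.2, mul_comm]

/-- The trace to the ring of invariants. -/
private def rankeTrI [Fintype G] : P2 k →ₗ[k] Inv G :=
  (rankeTr G).codRestrict (Subalgebra.toSubmodule (Inv G)) (ranke_tr_mem G)

private theorem ranke_trI_val [Fintype G] (s : P2 k) : ((rankeTrI G s : Inv G) : P2 k) =
    rankeTr G s := rfl

private theorem ranke_trI_ext [Fintype G] (K : Ideal (Inv G)) (s : P2 k) (hs : s ∈ ext G K) :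
    ∀ t : P2 k, rankeTrI G (t * s) ∈ K := by
  unfold ext at hs
  rw [Ideal.map] at hs
  refine Submodule.span_induction (p := fun s _ => ∀ t : P2 k, rankeTrI G (t * s) ∈ K)
    ?_ ?_ ?_ ?_ hs
  · rintro _ ⟨a, ha, rfl⟩ t
    have h1 : rankeTrI G (t * (a : P2 k)) = a * rankeTrI G t :=
      Subtype.ext (ranke_tr_smul G a t)
    have h2 : rankeTrI G (t * (Inv G).val.toRingHom a) = a * rankeTrI G t := h1
    rw [h2]
    exact K.mul_mem_right _ ha
  · intro t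
    rw [mul_zero, map_zero]
    exact K.zero_mem
  · intro x y _ _ hx hy t
    rw [mul_add, map_add]
    exact K.add_mem (hx t) (hy t)
  · intro c x _ hx t
    rw [smul_eq_mul, ← mul_assoc]
    exact hx _

/-- General rank estimate. -/
private theorem ranke_gen {V W U : Type*} [AddCommGroup V] [Module k V] [AddCommGroup W]
    [Module k W] [AddCommGroup U] [Module k U] [Module.Finite k V] [Module.Finite k W]
    [Module.Finite k U] (φ : W →ₗ[k] V) (ψ : V →ₗ[k] U)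
    (h : ∀ v, ψ v = 0 → v ∈ LinearMap.range φ) :
    Module.finrank k V ≤ Module.finrank k W + Module.finrank k U := by
  have h1 := LinearMap.finrank_range_add_finrank_ker ψ
  have h2 : Module.finrank k (LinearMap.range ψ) ≤ Module.finrank k U :=
    Submodule.finrank_le _
  have h3 : Module.finrank k (LinearMap.ker ψ) ≤ Module.finrank k (LinearMap.range φ) :=
    Submodule.finrank_mono fun v hv => h v hv
  have h4 : Module.finrank k (LinearMap.range φ) ≤ Module.finrank k W :=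
    LinearMap.finrank_range_le φ
  omega

private theorem ranke_a [Finite G] (K : Ideal (Inv G)) (D : Inv G)
    (h1 : ∀ s : P2 k, ∃ a : Fin (Nat.card G) → Inv G,
      (D : P2 k) * s = ∑ j, (a j : P2 k) * X 0 ^ (j : ℕ))
    (hf : Module.Finite k (P2 k ⧸ ext G K)) (hf' : Module.Finite k (Inv G ⧸ K)) :
    Module.finrank k (P2 k ⧸ ext G K) ≤ Nat.card G * Module.finrank k (Inv G ⧸ K) +
      Module.finrank k (P2 k ⧸ (Ideal.span {(D : P2 k)} ⊔ ext G K)) := by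
  have hle : K ≤ (ext G K).comap (Inv G).val := fun a ha => Ideal.mem_map_of_mem _ ha
  have hle2 : ext G K ≤ Ideal.span {(D : P2 k)} ⊔ ext G K := le_sup_right
  have hfU := finite_of_le hle2 hf
  obtain ⟨q, hq⟩ : ∃ q : (Inv G ⧸ K) →ₐ[k] (P2 k ⧸ ext G K),
      ∀ a : Inv G, q (Ideal.Quotient.mk K a) = Ideal.Quotient.mk (ext G K) (a : P2 k) :=
    ⟨Ideal.quotientMapₐ (ext G K) (Inv G).val hle, fun a => rfl⟩
  obtain ⟨φ, hφ⟩ : ∃ φ : (Fin (Nat.card G) → (Inv G ⧸ K)) →ₗ[k] (P2 k ⧸ ext G K),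
      ∀ r, φ r = ∑ j, q (r j) * Ideal.Quotient.mk (ext G K) (X 0 ^ (j : ℕ)) := by
    refine ⟨∑ j : Fin (Nat.card G),
      (LinearMap.mulRight k (Ideal.Quotient.mk (ext G K) (X 0 ^ (j : ℕ)))).comp
        (q.toLinearMap.comp (LinearMap.proj j)), fun r => ?_⟩
    rw [LinearMap.sum_apply]
    rfl
  obtain ⟨ψ, hψ⟩ : ∃ ψ : (P2 k ⧸ ext G K) →ₗ[k]
      (P2 k ⧸ (Ideal.span {(D : P2 k)} ⊔ ext G K)), ∀ s : P2 k,
      ψ (Ideal.Quotient.mk _ s) = Ideal.Quotient.mk _ s :=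
    ⟨(Ideal.Quotient.factorₐ k hle2).toLinearMap, fun s => rfl⟩
  have h2 := ranke_gen (k := k) φ ψ ?_
  · rw [Module.finrank_pi_fintype, Finset.sum_const, Finset.card_univ, Fintype.card_fin,
      smul_eq_mul] at h2
    exact h2
  · intro v hv
    obtain ⟨s, rfl⟩ := Ideal.Quotient.mk_surjective v
    rw [hψ, Ideal.Quotient.eq_zero_iff_mem, Submodule.mem_sup] at hv
    obtain ⟨y, hy, z, hz, hyz⟩ := hv
    obtain ⟨t, rfl⟩ := Ideal.mem_span_singleton'.1 hy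
    obtain ⟨a, ha⟩ := h1 t
    refine ⟨fun j => Ideal.Quotient.mk K (a j), ?_⟩
    rw [hφ]
    have h3 : Ideal.Quotient.mk (ext G K) s = Ideal.Quotient.mk (ext G K) ((D : P2 k) * t) := by
      rw [Ideal.Quotient.eq, ← hyz, mul_comm t, add_sub_cancel_left]
      exact hz
    rw [h3, ha, map_sum]
    refine Finset.sum_congr rfl fun j _ => ?_
    rw [hq, map_mul]

private theorem ranke_b [Finite G] (K : Ideal (Inv G)) (D : Inv G)
    (h1 : ∀ b : Fin (Nat.card G) → Inv G, ∃ a : Fin (Nat.card G) → Inv G,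
      ∀ j : Fin (Nat.card G),
      ∑ᶠ σ : G, lin ((σ : GL (Fin 2) k) : Matrix (Fin 2) (Fin 2) k)
        (X 0 ^ (j : ℕ) * ∑ l, (a l : P2 k) * X 0 ^ (l : ℕ)) = (D : P2 k) * (b j : P2 k))
    (hf : Module.Finite k (P2 k ⧸ ext G K)) (hf' : Module.Finite k (Inv G ⧸ K)) :
    Nat.card G * Module.finrank k (Inv G ⧸ K) ≤ Module.finrank k (P2 k ⧸ ext G K) +
      Nat.card G * Module.finrank k (Inv G ⧸ (Ideal.span {D} ⊔ K)) := by
  classical
  have : Fintype G := Fintype.ofFinite G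
  have hle2 : K ≤ Ideal.span {D} ⊔ K := le_sup_right
  obtain ⟨f, hf0⟩ : ∃ f : (Inv G ⧸ K) →ₗ[k] (Inv G ⧸ (Ideal.span {D} ⊔ K)), ∀ s : Inv G,
      f (Ideal.Quotient.mk _ s) = Ideal.Quotient.mk _ s :=
    ⟨(Ideal.Quotient.factorₐ k hle2).toLinearMap, fun s => rfl⟩
  have hfs : Function.Surjective f := by
    intro y
    obtain ⟨s, rfl⟩ := Ideal.Quotient.mk_surjective y
    exact ⟨Ideal.Quotient.mk _ s, hf0 s⟩
  have hfU : Module.Finite k (Inv G ⧸ (Ideal.span {D} ⊔ K)) := Module.Finite.of_surjective f hfs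
  have hker : ∀ j : Fin (Nat.card G), (Submodule.restrictScalars k (ext G K)) ≤
      LinearMap.ker (((Ideal.Quotient.mkₐ k K).toLinearMap.comp (rankeTrI G)).comp
        (LinearMap.mulLeft k (X 0 ^ (j : ℕ) : P2 k))) := by
    intro j s hs
    have h2 := ranke_trI_ext G K s hs (X 0 ^ (j : ℕ))
    exact Ideal.Quotient.eq_zero_iff_mem.2 h2
  obtain ⟨κ, hκ⟩ : ∃ κ : (P2 k ⧸ ext G K) →ₗ[k] (Fin (Nat.card G) → (Inv G ⧸ K)),
      ∀ (s : P2 k) (j : Fin (Nat.card G)), κ (Ideal.Quotient.mk _ s) j =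
        Ideal.Quotient.mk K (rankeTrI G (X 0 ^ (j : ℕ) * s)) :=
    ⟨LinearMap.pi fun j => (Submodule.restrictScalars k (ext G K)).liftQ _ (hker j),
      fun s j => rfl⟩
  obtain ⟨ψ, hψ⟩ : ∃ ψ : (Fin (Nat.card G) → (Inv G ⧸ K)) →ₗ[k]
      (Fin (Nat.card G) → (Inv G ⧸ (Ideal.span {D} ⊔ K))), ∀ v j, ψ v j = f (v j) :=
    ⟨LinearMap.pi fun j => f.comp (LinearMap.proj j), fun v j => rfl⟩
  have h2 := ranke_gen (k := k) κ ψ ?_
  · rw [Module.finrank_pi_fintype, Finset.sum_const, Finset.card_univ, Fintype.card_fin,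
      smul_eq_mul, Module.finrank_pi_fintype, Finset.sum_const, Finset.card_univ,
      Fintype.card_fin, smul_eq_mul] at h2
    exact h2
  · intro v hv
    have h3 : ∀ j, ∃ b : Inv G, v j = Ideal.Quotient.mk K (D * b) := by
      intro j
      have h4 := congrFun hv j
      rw [hψ] at h4
      obtain ⟨s, hs⟩ := Ideal.Quotient.mk_surjective (v j)
      rw [← hs, hf0, Pi.zero_apply, Ideal.Quotient.eq_zero_iff_mem, Submodule.mem_sup] at h4
      obtain ⟨y, hy, z, hz, hyz⟩ := h4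
      obtain ⟨t, rfl⟩ := Ideal.mem_span_singleton'.1 hy
      refine ⟨t, ?_⟩
      rw [← hs, Ideal.Quotient.eq, ← hyz, mul_comm t, add_sub_cancel_left]
      exact hz
    choose b hb using h3
    obtain ⟨a, ha⟩ := h1 b
    refine ⟨Ideal.Quotient.mk _ (∑ l, (a l : P2 k) * X 0 ^ (l : ℕ)), ?_⟩
    funext j
    rw [hκ, hb j]
    congr 1
    apply Subtype.ext
    rw [ranke_trI_val, ranke_tr_apply, ← finsum_eq_sum_of_fintype]
    exact ha j

private theorem ranke_ext_sup (K : Ideal (Inv G)) (D : Inv G) :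
    ext G (Ideal.span {D} ⊔ K) = Ideal.span {(D : P2 k)} ⊔ ext G K := by
  unfold ext
  rw [Ideal.map_sup, Ideal.map_span, Set.image_singleton]
  rfl

theorem rank_est [Finite G] (hg : (Nat.card G : k) ≠ 0)
    (hG : ∀ σ ∈ G, σ ≠ 1 → ((σ : Matrix (Fin 2) (Fin 2) k) - 1).det ≠ 0) (I : Ideal (Inv G))
    (hI : IsPrim G I) :
    ∃ C0 : ℝ, ∀ n : ℕ, 1 ≤ n → |((Nat.card G : ℕ) : ℝ) * Module.finrank k (Inv G ⧸ I ^ n) -
      Module.finrank k (P2 k ⧸ ext G I ^ n)| ≤ C0 * n := by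
  obtain ⟨D, hD0, hD1, hD2⟩ := exists_cramer G hG
  obtain ⟨N, hN, _⟩ := ext_prim G I hI
  obtain ⟨C1, hC1⟩ := finrank_pow_le (ext G I) N hN
  have hD0' : (D : P2 k) ≠ 0 := fun h => hD0 (Subtype.ext h)
  obtain ⟨C2, hC2⟩ := finrank_sup_le (D : P2 k) hD0'
  refine ⟨(Nat.card G : ℝ) * (C2 * N), fun n hn => ?_⟩
  have hf : Module.Finite k (P2 k ⧸ ext G (I ^ n)) := by
    rw [ext_pow]
    exact (hC1 n hn).1
  obtain ⟨hf', _⟩ := finrank_inv_le G hg (I ^ n) hf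
  have ha := ranke_a G (I ^ n) D hD1 hf hf'
  have hb := ranke_b G (I ^ n) D hD2 hf hf'
  have hfS : Module.Finite k (P2 k ⧸ ext G (Ideal.span {D} ⊔ I ^ n)) := by
    rw [ranke_ext_sup]
    exact finite_of_le le_sup_right hf
  obtain ⟨_, hd⟩ := finrank_inv_le G hg (Ideal.span {D} ⊔ I ^ n) hfS
  rw [ranke_ext_sup] at hd
  have hm : m0 k ^ (N * n) ≤ ext G (I ^ n) := by
    rw [ext_pow, pow_mul]
    exact Ideal.pow_right_mono hN n
  have hm2 : Ideal.span {(D : P2 k)} ⊔ m0 k ^ (N * n) ≤ Ideal.span {(D : P2 k)} ⊔ ext G (I ^ n) :=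
    sup_le_sup_left hm _
  have he := finrank_anti hm2 (finite_of_le le_sup_right (finite_m0_pow (N * n)))
  have hc := hC2 (N * n)
  rw [ext_pow] at ha hb he hd
  have hgp : 1 ≤ Nat.card G := Nat.card_pos
  have hgp' : (1 : ℝ) ≤ (Nat.card G : ℝ) := by exact_mod_cast hgp
  have ha' : (Module.finrank k (P2 k ⧸ ext G I ^ n) : ℝ) ≤
      (Nat.card G : ℝ) * Module.finrank k (Inv G ⧸ I ^ n) +
        Module.finrank k (P2 k ⧸ (Ideal.span {(D : P2 k)} ⊔ ext G I ^ n)) := by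
    exact_mod_cast ha
  have hb' : (Nat.card G : ℝ) * Module.finrank k (Inv G ⧸ I ^ n) ≤
      (Module.finrank k (P2 k ⧸ ext G I ^ n) : ℝ) +
        (Nat.card G : ℝ) * Module.finrank k (Inv G ⧸ (Ideal.span {D} ⊔ I ^ n)) := by
    exact_mod_cast hb
  have hd' : (Module.finrank k (Inv G ⧸ (Ideal.span {D} ⊔ I ^ n)) : ℝ) ≤
      Module.finrank k (P2 k ⧸ (Ideal.span {(D : P2 k)} ⊔ ext G I ^ n)) := by
    exact_mod_cast hd
  have he' : (Module.finrank k (P2 k ⧸ (Ideal.span {(D : P2 k)} ⊔ ext G I ^ n)) : ℝ) ≤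
      Module.finrank k (P2 k ⧸ (Ideal.span {(D : P2 k)} ⊔ m0 k ^ (N * n))) := by
    exact_mod_cast he
  push_cast at hc
  have hx : (0 : ℝ) ≤ Module.finrank k (P2 k ⧸ (Ideal.span {(D : P2 k)} ⊔ ext G I ^ n)) :=
    Nat.cast_nonneg _
  have h5 : (Module.finrank k (P2 k ⧸ (Ideal.span {(D : P2 k)} ⊔ ext G I ^ n)) : ℝ) ≤
      C2 * (N * n) := he'.trans hc
  have h6 : (Nat.card G : ℝ) * Module.finrank k (Inv G ⧸ (Ideal.span {D} ⊔ I ^ n)) ≤
      (Nat.card G : ℝ) * (C2 * (N * n)) :=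
    mul_le_mul_of_nonneg_left (hd'.trans h5) (by linarith)
  have h7 : C2 * (N * n) ≤ (Nat.card G : ℝ) * (C2 * (N * n)) :=
    le_mul_of_one_le_left (hx.trans h5) hgp'
  have h8 : (Nat.card G : ℝ) * (C2 * (N * n)) = (Nat.card G : ℝ) * (C2 * N) * n := by ring
  rw [abs_le]
  constructor
  · linarith
  · linarith

theorem emult_ext [Finite G] (hg : (Nat.card G : k) ≠ 0)
    (hG : ∀ σ ∈ G, σ ≠ 1 → ((σ : Matrix (Fin 2) (Fin 2) k) - 1).det ≠ 0) (I : Ideal (Inv G))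
    (hI : IsPrim G I) : emult k (ext G I) = (Nat.card G : ℕ) * emult k I := by
  obtain ⟨N, hN, _⟩ := ext_prim G I hI
  obtain ⟨C1, hC1⟩ := finrank_pow_le (ext G I) N hN
  exact emult_eq_mul I (ext G I) ⟨C1, fun n hn => (hC1 n hn).2⟩ (Nat.card G) Nat.card_pos
    (rank_est G hg hG I hI)

end FV
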