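import Pool.Agent.Lib.MP_9e8926_ag_FV.Rank

/-!
# Extension of `p^{-e}`-linear maps from the ring of invariants to the polynomial ring
-/

set_option autoImplicit false

noncomputable section

namespace FV

open MvPolynomial

/-- The action of a group element. -/
private abbrev SfrDn_L {k : Type*} [Field k] {G : Subgroup (GL (Fin 2) k)} (σ : G) :
    P2 k →ₐ[k] P2 k := lin ((σ : GL (Fin 2) k) : Matrix (Fin 2) (Fin 2) k)

private theorem SfrDn_L_mul {k : Type*} [Field k] {G : Subgroup (GL (Fin 2) k)} (σ τ : G)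
    (f : P2 k) : SfrDn_L τ (SfrDn_L σ f) = SfrDn_L (σ * τ) f := by
  unfold SfrDn_L
  rw [← AlgHom.comp_apply, lin_comp]
  rfl

private theorem SfrDn_L_one {k : Type*} [Field k] {G : Subgroup (GL (Fin 2) k)}
    (f : P2 k) : SfrDn_L (1 : G) f = f := by
  unfold SfrDn_L
  have h : (((1 : G) : GL (Fin 2) k) : Matrix (Fin 2) (Fin 2) k) = 1 := rfl
  rw [h, lin_one]
  rfl

private theorem SfrDn_L_inv {k : Type*} [Field k] {G : Subgroup (GL (Fin 2) k)} (σ : G)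
    (a : Inv G) : SfrDn_L σ (a : P2 k) = a := a.2 σ σ.2

/-- The trace. -/
private def SfrDn_Tr {k : Type*} [Field k] {G : Subgroup (GL (Fin 2) k)} [Fintype G]
    (s : P2 k) : Inv G :=
  ⟨∑ σ : G, SfrDn_L σ s, by
    intro τ hτ
    rw [map_sum]
    have h : ∀ σ : G, lin (τ : Matrix (Fin 2) (Fin 2) k) (SfrDn_L σ s) =
        SfrDn_L (σ * ⟨τ, hτ⟩) s := fun σ => SfrDn_L_mul σ ⟨τ, hτ⟩ s
    simp only [h]
    exact Equiv.sum_comp (Equiv.mulRight (⟨τ, hτ⟩ : G)) (fun σ : G => SfrDn_L σ s)⟩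

section trace

variable {k : Type*} [Field k] {G : Subgroup (GL (Fin 2) k)} [Fintype G]

private theorem SfrDn_Tr_coe (s : P2 k) :
    ((SfrDn_Tr s : Inv G) : P2 k) = ∑ σ : G, SfrDn_L σ s := rfl

private theorem SfrDn_Tr_add (s t : P2 k) :
    (SfrDn_Tr (s + t) : Inv G) = SfrDn_Tr s + SfrDn_Tr t := by
  apply Subtype.ext
  rw [Subalgebra.coe_add, SfrDn_Tr_coe, SfrDn_Tr_coe, SfrDn_Tr_coe, ← Finset.sum_add_distrib]
  exact Finset.sum_congr rfl fun σ _ => map_add _ _ _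

private theorem SfrDn_Tr_sum {ι : Type*} (J : Finset ι) (s : ι → P2 k) :
    (SfrDn_Tr (∑ j ∈ J, s j) : Inv G) = ∑ j ∈ J, SfrDn_Tr (s j) := by
  classical
  induction J using Finset.induction_on with
  | empty =>
    apply Subtype.ext
    rw [SfrDn_Tr_coe]
    simp
  | insert a J ha ih => rw [Finset.sum_insert ha, Finset.sum_insert ha, SfrDn_Tr_add, ih]

private theorem SfrDn_Tr_mul (a : Inv G) (s : P2 k) :
    (SfrDn_Tr ((a : P2 k) * s) : Inv G) = a * SfrDn_Tr s := by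
  apply Subtype.ext
  rw [Subalgebra.coe_mul, SfrDn_Tr_coe, SfrDn_Tr_coe, Finset.mul_sum]
  refine Finset.sum_congr rfl fun σ _ => ?_
  rw [map_mul, SfrDn_L_inv]

private theorem SfrDn_Tr_pow (p : ℕ) [Fact p.Prime] [CharP k p] (b : P2 k) (e : ℕ) :
    (SfrDn_Tr (b ^ p ^ e) : Inv G) = SfrDn_Tr b ^ p ^ e := by
  apply Subtype.ext
  rw [Subalgebra.coe_pow, SfrDn_Tr_coe, SfrDn_Tr_coe, sum_pow_char_pow]
  exact Finset.sum_congr rfl fun σ _ => map_pow _ _ _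

end trace

section main

variable {k : Type*} [Field k] (p : ℕ) [Fact p.Prime] [CharP k p]
  {G : Subgroup (GL (Fin 2) k)} [Fintype G] (e : ℕ) (φ : Inv G →+ Inv G)
  (hφ : ∀ a b : Inv G, φ (a ^ p ^ e * b) = a * φ b)

include hφ

private theorem SfrDn_exp (D : Inv G) (d s : P2 k) {n : ℕ} (a : Fin n → Inv G)
    (h : (D : P2 k) * d = ∑ j, (a j : P2 k) * X 0 ^ (j : ℕ)) :
    (D : P2 k) * (φ (SfrDn_Tr (d ^ p ^ e * s)) : P2 k) =
      ∑ j, (a j : P2 k) * (φ (SfrDn_Tr ((X 0 ^ (j : ℕ)) ^ p ^ e * s)) : P2 k) := by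
  have h1 : (((D : P2 k) * d) ^ p ^ e) * s =
      ∑ j, ((a j ^ p ^ e : Inv G) : P2 k) * ((X 0 ^ (j : ℕ)) ^ p ^ e * s) := by
    rw [h, sum_pow_char_pow, Finset.sum_mul]
    refine Finset.sum_congr rfl fun j _ => ?_
    rw [mul_pow, Subalgebra.coe_pow, mul_assoc]
  have h2 : D * φ (SfrDn_Tr (d ^ p ^ e * s)) =
      ∑ j, a j * φ (SfrDn_Tr ((X 0 ^ (j : ℕ)) ^ p ^ e * s)) := by
    rw [← hφ, ← SfrDn_Tr_mul, Subalgebra.coe_pow, ← mul_assoc, ← mul_pow, h1, SfrDn_Tr_sum,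
      map_sum]
    refine Finset.sum_congr rfl fun j _ => ?_
    rw [SfrDn_Tr_mul, hφ]
  have h3 := congrArg (fun z : Inv G => (z : P2 k)) h2
  simp only [Subalgebra.coe_mul, AddSubmonoidClass.coe_finsetSum] at h3
  exact h3

private theorem SfrDn_gp
    (hG : ∀ σ ∈ G, σ ≠ 1 → ((σ : Matrix (Fin 2) (Fin 2) k) - 1).det ≠ 0)
    {ι : Type*} (J : Finset ι) (c d c' d' : ι → P2 k)
    (h : ∀ τ : G, ∑ j ∈ J, c j * SfrDn_L τ (d j) = ∑ j ∈ J, c' j * SfrDn_L τ (d' j))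
    (s : P2 k) :
    ∑ j ∈ J, c j * (φ (SfrDn_Tr (d j ^ p ^ e * s)) : P2 k) =
      ∑ j ∈ J, c' j * (φ (SfrDn_Tr (d' j ^ p ^ e * s)) : P2 k) := by
  obtain ⟨D, hD, hD1, -⟩ := exists_cramer G hG
  have hD0 : (D : P2 k) ≠ 0 := fun h0 => hD (Subtype.ext h0)
  choose a ha using hD1
  set F : Fin (Nat.card G) → P2 k := fun l => ∑ j ∈ J, c j * (a (d j) l : P2 k) with hF
  set F' : Fin (Nat.card G) → P2 k := fun l => ∑ j ∈ J, c' j * (a (d' j) l : P2 k) with hF'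
  have hev : ∀ (τ : G) (u : P2 k), (D : P2 k) * SfrDn_L τ u =
      ∑ l, (a u l : P2 k) * (SfrDn_L τ (X 0)) ^ (l : ℕ) := by
    intro τ u
    have h1 := congrArg (SfrDn_L τ) (ha u)
    rw [map_mul, SfrDn_L_inv, map_sum] at h1
    rw [h1]
    refine Finset.sum_congr rfl fun l _ => ?_
    rw [map_mul, SfrDn_L_inv, map_pow]
  have hsw : ∀ (τ : G) (c d : ι → P2 k),
      ∑ l : Fin (Nat.card G), (∑ j ∈ J, c j * (a (d j) l : P2 k)) *
        (SfrDn_L τ (X 0)) ^ (l : ℕ) = (D : P2 k) * ∑ j ∈ J, c j * SfrDn_L τ (d j) := by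
    intro τ c d
    rw [Finset.mul_sum]
    simp only [Finset.sum_mul]
    rw [Finset.sum_comm]
    refine Finset.sum_congr rfl fun j _ => ?_
    rw [mul_left_comm, hev, Finset.mul_sum]
    refine Finset.sum_congr rfl fun l _ => ?_
    rw [mul_assoc]
  have ht : (fun l => F l - F' l) = 0 := by
    apply vander G hG
    intro σ hσ
    simp only [sub_mul]
    rw [Finset.sum_sub_distrib]
    have e1 := hsw ⟨σ, hσ⟩ c d
    have e2 := hsw ⟨σ, hσ⟩ c' d'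
    rw [h ⟨σ, hσ⟩] at e1
    rw [sub_eq_zero]
    exact e1.trans e2.symm
  have hexp : ∀ c d : ι → P2 k, (D : P2 k) *
      ∑ j ∈ J, c j * (φ (SfrDn_Tr (d j ^ p ^ e * s)) : P2 k) =
      ∑ l : Fin (Nat.card G), (∑ j ∈ J, c j * (a (d j) l : P2 k)) *
        (φ (SfrDn_Tr ((X 0 ^ (l : ℕ)) ^ p ^ e * s)) : P2 k) := by
    intro c d
    rw [Finset.mul_sum]
    simp only [Finset.sum_mul]
    rw [Finset.sum_comm]
    refine Finset.sum_congr rfl fun j _ => ?_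
    rw [mul_left_comm, SfrDn_exp p e φ hφ D (d j) s (a (d j)) (ha (d j)), Finset.mul_sum]
    refine Finset.sum_congr rfl fun l _ => ?_
    rw [mul_assoc]
  apply mul_left_cancel₀ hD0
  rw [hexp, hexp]
  refine Finset.sum_congr rfl fun l _ => ?_
  have e3 : F l = F' l := sub_eq_zero.1 (congrFun ht l)
  simp only [hF, hF'] at e3
  rw [e3]

end main

section eps

variable {k : Type*} [Field k] {G : Subgroup (GL (Fin 2) k)}

private theorem SfrDn_lin (σ : G)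
    (h : (((σ : GL (Fin 2) k) : Matrix (Fin 2) (Fin 2) k) - 1).det ≠ 0) (i : Fin 2) :
    ∃ s : P2 k, SfrDn_L σ s - s = X i := by
  set M : Matrix (Fin 2) (Fin 2) k := ((σ : GL (Fin 2) k) : Matrix (Fin 2) (Fin 2) k) with hM
  set v : Fin 2 → k := Matrix.vecMul (Pi.single i 1) (M - 1)⁻¹ with hv
  have hv1 : Matrix.vecMul v (M - 1) = Pi.single i 1 := by
    rw [hv, Matrix.vecMul_vecMul, Matrix.nonsing_inv_mul _ (isUnit_iff_ne_zero.2 h),
      Matrix.vecMul_one]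
  have hv2 : ∀ l, v 0 * M 0 l + v 1 * M 1 l - v l = (Pi.single i (1 : k) : Fin 2 → k) l := by
    intro l
    rw [← hv1, Matrix.vecMul_sub, Matrix.vecMul_one, Pi.sub_apply]
    simp [Matrix.vecMul, dotProduct, Fin.sum_univ_two]
  refine ⟨C (v 0) * X 0 + C (v 1) * X 1, ?_⟩
  have h1 : ∀ j : Fin 2, SfrDn_L σ (X j : P2 k) = C (M j 0) * X 0 + C (M j 1) * X 1 := by
    intro j
    unfold SfrDn_L lin
    rw [aeval_X, Fin.sum_univ_two]
  have h2 : ∀ r : k, SfrDn_L σ (C r : P2 k) = C r := fun r => AlgHom.commutes _ r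
  rw [map_add, map_mul, map_mul, h1, h1, h2, h2]
  have e0 := congrArg (fun z : k => (C z : P2 k)) (hv2 0)
  have e1 := congrArg (fun z : k => (C z : P2 k)) (hv2 1)
  simp only [C_add, C_sub, C_mul] at e0 e1
  have e2 : (C (v 0) : P2 k) * (C (M 0 0) * X 0 + C (M 0 1) * X 1) +
      C (v 1) * (C (M 1 0) * X 0 + C (M 1 1) * X 1) - (C (v 0) * X 0 + C (v 1) * X 1) =
      (C (v 0) * C (M 0 0) + C (v 1) * C (M 1 0) - C (v 0)) * X 0 +
      (C (v 0) * C (M 0 1) + C (v 1) * C (M 1 1) - C (v 1)) * X 1 := by ring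
  rw [e2, e0, e1]
  fin_cases i
  · simp
  · simp

private theorem SfrDn_eps [Fintype G] [DecidableEq G]
    (hG : ∀ σ ∈ G, σ ≠ 1 → ((σ : Matrix (Fin 2) (Fin 2) k) - 1).det ≠ 0) (i : Fin 2) :
    ∃ a b : Finset G → P2 k, ∀ τ : G,
      ∑ t ∈ (Finset.univ.erase (1 : G)).powerset, a t * SfrDn_L τ (b t) =
        if τ = 1 then X i ^ (Nat.card G - 1) else 0 := by
  have h1 : ∀ σ : G, ∃ s : P2 k, σ ≠ 1 → SfrDn_L σ s - s = X i := by
    intro σ
    by_cases hσ : σ = 1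
    · exact ⟨0, fun h => absurd hσ h⟩
    · obtain ⟨s, hs⟩ := SfrDn_lin σ (hG σ σ.2 (fun h => hσ (Subtype.ext h))) i
      exact ⟨s, fun _ => hs⟩
  choose s hs using h1
  refine ⟨fun t => ∏ σ ∈ t, SfrDn_L σ (s σ),
    fun t => ∏ σ ∈ (Finset.univ.erase (1 : G)) \ t, (-(s σ)), fun τ => ?_⟩
  simp only [map_prod]
  rw [← Finset.prod_add (fun σ => SfrDn_L σ (s σ)) (fun σ => SfrDn_L τ (-(s σ)))]
  by_cases hτ : τ = 1
  · rw [if_pos hτ]
    have h2 : ∀ σ ∈ Finset.univ.erase (1 : G),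
        SfrDn_L σ (s σ) + SfrDn_L τ (-(s σ)) = X i := by
      intro σ hσ
      rw [hτ, SfrDn_L_one, ← hs σ (Finset.ne_of_mem_erase hσ), sub_eq_add_neg]
    rw [Finset.prod_congr rfl h2, Finset.prod_const,
      Finset.card_erase_of_mem (Finset.mem_univ _), Finset.card_univ, Nat.card_eq_fintype_card]
  · rw [if_neg hτ]
    refine Finset.prod_eq_zero (Finset.mem_erase.2 ⟨hτ, Finset.mem_univ τ⟩) ?_
    rw [map_neg, add_neg_cancel]

end eps

variable {k : Type*} [Field k] (p : ℕ) [Fact p.Prime] [CharP k p]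
  (G : Subgroup (GL (Fin 2) k))

/-- A `p^{-e}`-linear map of the ring of invariants maps the invariants in `(x^q, y^q)`
into the maximal ideal. -/
theorem map_mem_mO [Finite G]
    (hG : ∀ σ ∈ G, σ ≠ 1 → ((σ : Matrix (Fin 2) (Fin 2) k) - 1).det ≠ 0) (e : ℕ)
    (φ : Inv G →+ Inv G) (hφ : ∀ a b : Inv G, φ (a ^ p ^ e * b) = a * φ b) (z : Inv G)
    (hz : (z : P2 k) ∈ J k (p ^ e)) : φ z ∈ mO G := by
  classical
  have : Fintype G := Fintype.ofFinite G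
  obtain ⟨a, b, hab⟩ := SfrDn_eps hG 0
  obtain ⟨a', b', hab'⟩ := SfrDn_eps hG 1
  set T : Finset (Finset G) := (Finset.univ.erase (1 : G)).powerset with hT
  set N : ℕ := Nat.card G - 1 with hN
  set ψ : P2 k → P2 k := fun s => ∑ t ∈ T, a t * (φ (SfrDn_Tr (b t ^ p ^ e * s)) : P2 k)
    with hψ
  set ψ' : P2 k → P2 k := fun s => ∑ t ∈ T, a' t * (φ (SfrDn_Tr (b' t ^ p ^ e * s)) : P2 k)
    with hψ'
  -- (1)
  have h1 : ∀ r s : P2 k, ψ (r ^ p ^ e * s) = r * ψ s := by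
    intro r s
    have h := SfrDn_gp p e φ hφ hG T (fun t => r * a t) b a (fun t => r * b t) (by
      intro τ
      have e1 : ∑ t ∈ T, r * a t * SfrDn_L τ (b t) = r * ∑ t ∈ T, a t * SfrDn_L τ (b t) := by
        rw [Finset.mul_sum]
        exact Finset.sum_congr rfl fun t _ => mul_assoc _ _ _
      have e2 : ∑ t ∈ T, a t * SfrDn_L τ (r * b t) =
          SfrDn_L τ r * ∑ t ∈ T, a t * SfrDn_L τ (b t) := by
        rw [Finset.mul_sum]
        refine Finset.sum_congr rfl fun t _ => ?_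
        rw [map_mul, mul_left_comm]
      rw [e1, e2, hab τ]
      split_ifs with hτ
      · rw [hτ, SfrDn_L_one]
      · rw [mul_zero, mul_zero]) s
    simp only [hψ]
    rw [Finset.mul_sum]
    have e3 : ∀ t ∈ T, a t * (φ (SfrDn_Tr (b t ^ p ^ e * (r ^ p ^ e * s))) : P2 k) =
        a t * (φ (SfrDn_Tr ((r * b t) ^ p ^ e * s)) : P2 k) := by
      intro t _
      rw [mul_pow, ← mul_assoc, mul_comm (b t ^ p ^ e)]
    rw [Finset.sum_congr rfl e3, ← h]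
    exact Finset.sum_congr rfl fun t _ => mul_assoc _ _ _
  -- (2)
  have h2 : ∀ s : P2 k, X 1 ^ N * ψ s = X 0 ^ N * ψ' s := by
    intro s
    have h := SfrDn_gp p e φ hφ hG T (fun t => X 1 ^ N * a t) b (fun t => X 0 ^ N * a' t) b' (by
      intro τ
      have e1 : ∑ t ∈ T, X 1 ^ N * a t * SfrDn_L τ (b t) =
          X 1 ^ N * ∑ t ∈ T, a t * SfrDn_L τ (b t) := by
        rw [Finset.mul_sum]
        exact Finset.sum_congr rfl fun t _ => mul_assoc _ _ _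
      have e2 : ∑ t ∈ T, X 0 ^ N * a' t * SfrDn_L τ (b' t) =
          X 0 ^ N * ∑ t ∈ T, a' t * SfrDn_L τ (b' t) := by
        rw [Finset.mul_sum]
        exact Finset.sum_congr rfl fun t _ => mul_assoc _ _ _
      rw [e1, e2, hab τ, hab' τ]
      split_ifs with hτ
      · rw [mul_comm]
      · rw [mul_zero, mul_zero]) s
    simp only [hψ, hψ']
    rw [Finset.mul_sum, Finset.mul_sum]
    simp only [mul_assoc] at h
    exact h
  -- (3)
  have h3 : ψ (z : P2 k) = X 0 ^ N * (φ z : P2 k) := by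
    have e1 : ∀ t ∈ T, a t * (φ (SfrDn_Tr (b t ^ p ^ e * (z : P2 k))) : P2 k) =
        a t * ((SfrDn_Tr (b t) : Inv G) : P2 k) * (φ z : P2 k) := by
      intro t _
      rw [mul_comm (b t ^ p ^ e), SfrDn_Tr_mul, SfrDn_Tr_pow, mul_comm z, hφ,
        Subalgebra.coe_mul, mul_assoc]
    simp only [hψ]
    rw [Finset.sum_congr rfl e1, ← Finset.sum_mul]
    congr 1
    simp only [SfrDn_Tr_coe, Finset.mul_sum]
    rw [Finset.sum_comm]
    rw [Finset.sum_congr rfl (fun τ _ => hab τ)]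
    rw [Finset.sum_ite_eq']
    simp
  -- divisibility
  have h4 : ∀ s : P2 k, ∃ w : P2 k, ψ s = X 0 ^ N * w := by
    intro s
    have hp : Prime (X 0 : P2 k) := X_prime
    have hnd : ¬ (X 0 : P2 k) ∣ X 1 ^ N := by
      intro hd
      have := hp.dvd_of_dvd_pow hd
      rw [X_dvd_X] at this
      exact absurd this (by decide)
    exact hp.pow_dvd_of_dvd_mul_left N hnd ⟨ψ' s, h2 s⟩
  -- the end
  unfold J at hz
  rw [Ideal.mem_span_pair] at hz
  obtain ⟨s1, s2, hs⟩ := hz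
  obtain ⟨w1, hw1⟩ := h4 s1
  obtain ⟨w2, hw2⟩ := h4 s2
  have hadd : ∀ s t : P2 k, ψ (s + t) = ψ s + ψ t := by
    intro s t
    simp only [hψ]
    rw [← Finset.sum_add_distrib]
    refine Finset.sum_congr rfl fun u _ => ?_
    rw [mul_add, SfrDn_Tr_add, map_add, Subalgebra.coe_add, mul_add]
  have h5 : X 0 ^ N * (φ z : P2 k) = X 0 ^ N * (X 0 * w1 + X 1 * w2) := by
    rw [← h3, ← hs, hadd, mul_comm s1, mul_comm s2, h1, h1, hw1, hw2]
    ring
  have hX : (X 0 : P2 k) ^ N ≠ 0 := pow_ne_zero _ (X_ne_zero 0)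
  have h6 : (φ z : P2 k) = X 0 * w1 + X 1 * w2 := mul_left_cancel₀ hX h5
  rw [mem_mO, h6, map_add, map_mul, map_mul, constantCoeff_X, constantCoeff_X, zero_mul,
    zero_mul, add_zero]

theorem not_mem_of_sfr [Finite G]
    (hG : ∀ σ ∈ G, σ ≠ 1 → ((σ : Matrix (Fin 2) (Fin 2) k) - 1).det ≠ 0) {r : ℕ}
    (f : Fin r → P2 k) (c : Fin r → ℚ) (I : Ideal (Inv G)) (t : ℝ) (h : SFR p G f c I t) :
    ∃ e : ℕ, 1 ≤ e ∧ ∃ a ∈ I ^ ⌈t * ((p ^ e : ℕ) - 1 : ℝ)⌉₊,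
      Fq f c (p ^ e) * (a : P2 k) ∉ J k (p ^ e) := by
  obtain ⟨e, he, φ, hφ, a, ha, z, hz, hz'⟩ := h 1 one_ne_zero
  refine ⟨e, he, a, ha, fun hc => hz' ?_⟩
  apply map_mem_mO p G hG e φ hφ z
  rw [hz, Subalgebra.coe_one, one_mul]
  exact hc

end FV
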