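import Pool.Agent.Lib.MP_9e8926_ag_FV.SfrUp
import Pool.Agent.Lib.MP_9e8926_ag_FV.SfrDn
import Pool.Agent.Lib.MP_9e8926_ag_FV.LowP
import Pool.Agent.Lib.MP_9e8926_ag_FV.RankE

/-!
# The lower bound of the Frobenius volume
-/

set_option autoImplicit false

noncomputable section

namespace FV

open MvPolynomial

variable {k : Type*} [Field k] (p : ℕ) [Fact p.Prime] [CharP k p]
  (G : Subgroup (GL (Fin 2) k)) {r : ℕ} (f : Fin r → P2 k) (c : Fin r → ℚ)

omit [Fact p.Prime] [CharP k p] in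
private theorem ge_of_mem_m0_pow (T : ℕ) :
    ∀ x : P2 k, x ∈ m0 k ^ T → Ge 1 1 T x := by
  induction T with
  | zero =>
    intro x _ m _
    exact Nat.zero_le _
  | succ T ih =>
    intro x hx
    rw [pow_succ] at hx
    refine Submodule.mul_induction_on hx ?_ ?_
    · intro a ha b hb
      have hb1 : Ge 1 1 1 b := by
        intro m hm
        by_contra hlt
        have h0 : m 0 = 0 ∧ m 1 = 0 := by
          unfold wt at hlt
          omega
        have hm0 : m = 0 := by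
          ext i
          fin_cases i
          · exact h0.1
          · exact h0.2
        rw [MvPolynomial.mem_support_iff, hm0] at hm
        apply hm
        have : constantCoeff b = 0 := hb
        rwa [constantCoeff_eq] at this
      exact Ge.mul (ih a ha) hb1
    · intro a b ha hb
      exact Ge.add ha hb

omit [Fact p.Prime] [CharP k p] in
private theorem coe_mem_m0_pow (I : Ideal (Inv G)) (hI : I ≤ mO G) (T : ℕ) (a : Inv G)
    (ha : a ∈ I ^ T) : (a : P2 k) ∈ m0 k ^ T := by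
  have h1 : ext G I ≤ m0 k := by
    unfold ext
    rw [Ideal.map_le_iff_le_comap]
    intro b hb
    have hb' : constantCoeff (b : P2 k) = 0 := (mem_mO G b).1 (hI hb)
    exact hb'
  have h2 : (a : P2 k) ∈ ext G (I ^ T) := Ideal.mem_map_of_mem (Inv G).val.toRingHom ha
  rw [ext_pow] at h2
  exact Ideal.pow_right_mono h1 T h2

/-- Boundedness of the set defining the `F`-pure threshold. -/
theorem sfr_le_two [Finite G]
    (hG : ∀ σ ∈ G, σ ≠ 1 → ((σ : Matrix (Fin 2) (Fin 2) k) - 1).det ≠ 0)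
    (I : Ideal (Inv G)) (hI : I ≤ mO G) (t : ℝ) (h : SFR p G f c I t) : t ≤ 2 := by
  obtain ⟨e, he, a, ha, hna⟩ := not_mem_of_sfr p G hG f c I t h
  have hp : 2 ≤ p := (Fact.out : p.Prime).two_le
  have hq : 2 ≤ p ^ e := le_trans hp (Nat.le_self_pow (by omega) p)
  have hmem := coe_mem_m0_pow G I hI _ a ha
  have hge := ge_of_mem_m0_pow _ _ hmem
  have hge2 : Ge 1 1 (0 + ⌈t * ((p ^ e : ℕ) - 1 : ℝ)⌉₊) (Fq f c (p ^ e) * (a : P2 k)) :=
    Ge.mul (fun m _ => Nat.zero_le _) hge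
  rw [mem_J] at hna
  push Not at hna
  obtain ⟨m, hm, h0, h1⟩ := hna
  have h2 := hge2 m hm
  have h3 : ⌈t * ((p ^ e : ℕ) - 1 : ℝ)⌉₊ ≤ 2 * (p ^ e - 1) := by
    unfold wt at h2
    omega
  have h4 : t * ((p ^ e : ℕ) - 1 : ℝ) ≤ (⌈t * ((p ^ e : ℕ) - 1 : ℝ)⌉₊ : ℝ) := Nat.le_ceil _
  have h5 : (⌈t * ((p ^ e : ℕ) - 1 : ℝ)⌉₊ : ℝ) ≤ 2 * (((p ^ e : ℕ) : ℝ) - 1) := by
    have h6 : ((⌈t * ((p ^ e : ℕ) - 1 : ℝ)⌉₊ : ℕ) : ℝ) ≤ ((2 * (p ^ e - 1) : ℕ) : ℝ) := by
      exact_mod_cast h3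
    rw [Nat.cast_mul, Nat.cast_sub (by omega : 1 ≤ p ^ e)] at h6
    simpa using h6
  have h7 : (0 : ℝ) < ((p ^ e : ℕ) : ℝ) - 1 := by
    have : (2 : ℝ) ≤ ((p ^ e : ℕ) : ℝ) := by exact_mod_cast hq
    linarith
  have h8 : t * (((p ^ e : ℕ) : ℝ) - 1) ≤ 2 * (((p ^ e : ℕ) : ℝ) - 1) := le_trans h4 h5
  exact le_of_mul_le_mul_right h8 h7

theorem fvol_low [PerfectField k] [Finite G] (hg : (Nat.card G : k) ≠ 0)
    (hG : ∀ σ ∈ G, σ ≠ 1 → ((σ : Matrix (Fin 2) (Fin 2) k) - 1).det ≠ 0)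
    (hc : ∀ i, 0 ≤ c i) (hf : ∀ i, f i ∈ Inv G) (κ C0 : ℝ) (hκ : 0 < κ)
    (hT : ∀ e : ℕ, 1 ≤ e → TLb f c (p ^ e) (κ * ((p ^ e : ℕ) : ℝ) ^ 2 - C0 * ((p ^ e : ℕ) : ℝ)))
    (I : Ideal (Inv G)) (hI : IsPrim G I) :
    8 * κ / (Nat.card G : ℕ) ≤ emult k I * fpt p G f c I ^ 2 := by
  have hgpos : (0 : ℝ) < ((Nat.card G : ℕ) : ℝ) := by
    exact_mod_cast Nat.card_pos
  have hbase := base_sfr p f c κ C0 hκ hT
  obtain ⟨N, hN, hb⟩ := ext_prim G I hI
  have hbdd : BddAbove {t : ℝ | 0 ≤ t ∧ SFR p G f c I t} :=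
    ⟨2, fun t ht => sfr_le_two p G f c hG I hI.1 t ht.2⟩
  have hfp0 : 0 ≤ fpt p G f c I := Real.sSup_nonneg (fun t ht => ht.1)
  have key : ∀ t : ℝ, fpt p G f c I < t → 8 * κ / (Nat.card G : ℕ) ≤ emult k I * t ^ 2 := by
    intro t ht
    have ht0 : 0 ≤ t := le_trans hfp0 ht.le
    have hns : ¬ SFR p G f c I t := by
      intro hs
      have : t ≤ fpt p G f c I := le_csSup hbdd ⟨ht0, hs⟩
      linarith
    have hlow := low_p p f c κ C0 hκ hT (ext G I) N hN hb t ht0 (by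
      intro e he x hx
      by_contra hx2
      exact hns (sfr_of_not_mem p G f c hg hc hf hbase I t ht0 e he x hx hx2))
    rw [emult_ext G hg hG I hI] at hlow
    rw [div_le_iff₀ hgpos]
    calc 8 * κ ≤ ((Nat.card G : ℕ) : ℝ) * emult k I * t ^ 2 := hlow
      _ = emult k I * t ^ 2 * ((Nat.card G : ℕ) : ℝ) := by ring
  have hcont : Filter.Tendsto (fun t : ℝ => emult k I * t ^ 2)
      (nhdsWithin (fpt p G f c I) (Set.Ioi (fpt p G f c I)))
      (nhds (emult k I * fpt p G f c I ^ 2)) := by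
    have : Continuous (fun t : ℝ => emult k I * t ^ 2) := by fun_prop
    exact (this.tendsto _).mono_left nhdsWithin_le_nhds
  refine ge_of_tendsto hcont ?_
  filter_upwards [self_mem_nhdsWithin] with t ht
  exact key t ht

end FV
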