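import Pool.Agent.Lib.MP_9e8926_ag_FV.Adap
import Pool.Agent.Lib.MP_9e8926_ag_FV.FvLow

/-!
# The Frobenius volume of a pair with adapted coordinates
-/

set_option autoImplicit false

noncomputable section

namespace FV

open MvPolynomial

/-- The ideal of the polynomials of weight at least `j`. -/
private def fvGe (k : Type*) [Field k] (α β j : ℕ) : Ideal (P2 k) where
  carrier := {f | Ge α β j f}
  add_mem' := fun ha hb => Ge.add ha hb
  zero_mem' := fun m hm => by simp at hm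
  smul_mem' := fun a f hf => by
    have h0 : Ge α β 0 a := fun m _ => Nat.zero_le _
    have h1 := Ge.mul h0 hf
    rw [zero_add] at h1
    exact h1

private theorem fvGe_pow (k : Type*) [Field k] (α β j n : ℕ) :
    fvGe k α β j ^ n ≤ fvGe k α β (n * j) := by
  induction n with
  | zero =>
    intro f _ m _
    rw [zero_mul]
    exact Nat.zero_le _
  | succ n ih =>
    rw [pow_succ, Ideal.mul_le]
    intro a ha b hb
    rw [Nat.succ_mul]
    exact Ge.mul (ih ha) hb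

variable {k : Type*} [Field k] (p : ℕ) [Fact p.Prime] [CharP k p]
  (G : Subgroup (GL (Fin 2) k)) {r : ℕ} (f : Fin r → P2 k) (c : Fin r → ℚ)

private theorem fv_emult_map {I I' : Ideal (P2 k)} (T : P2 k ≃ₐ[k] P2 k)
    (h : I' = I.map (T : P2 k →+* P2 k)) : emult k I = emult k I' := by
  unfold emult
  congr 1
  funext n
  have h1 : I' ^ n = (I ^ n).map (T : P2 k →+* P2 k) := by
    rw [h, Ideal.map_pow]
  have h2 := (Ideal.quotientEquivAlg (I ^ n) (I' ^ n) T h1).toLinearEquiv.finrank_eq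
  rw [h2]

private theorem fv_bound [Finite G] (hg : (Nat.card G : k) ≠ 0) (I : Ideal (Inv G))
    (hI : IsPrim G I) : ∃ C0 : ℝ, ∀ n : ℕ, 1 ≤ n →
      (Module.finrank k (Inv G ⧸ I ^ n) : ℝ) ≤ C0 * (n : ℝ) ^ 2 := by
  obtain ⟨N, hN, -⟩ := ext_prim G I hI
  obtain ⟨C0, hC⟩ := finrank_pow_le (ext G I) N hN
  refine ⟨C0, fun n hn => ?_⟩
  have h1 := hC n hn
  rw [← ext_pow] at h1
  refine le_trans ?_ h1.2
  exact_mod_cast (finrank_inv_le G hg (I ^ n) h1.1).2

private theorem fv_emult_nonneg [Finite G] (hg : (Nat.card G : k) ≠ 0) (I : Ideal (Inv G))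
    (hI : IsPrim G I) : 0 ≤ emult k I := emult_nonneg I (fv_bound G hg I hI)

private theorem fv_fpt_nonneg (I : Ideal (Inv G)) : 0 ≤ fpt p G f c I :=
  Real.sSup_nonneg fun _ ht => ht.1

private theorem fv_key [Finite G] (hg : (Nat.card G : k) ≠ 0)
    (hG : ∀ σ ∈ G, σ ≠ 1 → ((σ : Matrix (Fin 2) (Fin 2) k) - 1).det ≠ 0)
    (hc : ∀ i, 0 ≤ c i) {α β W0 : ℕ} (hα : 1 ≤ α) (hβ : 1 ≤ β) (hW : 1 ≤ W0)
    (w : Fin r → ℕ) (A : ℝ) (hA : A = (α : ℝ) + β - ∑ i, (c i : ℝ) * w i) (hA0 : 0 ≤ A)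
    (h : Adapted G f c α β W0 w A) :
    ∃ I : Ideal (Inv G), IsPrim G I ∧
      emult k I * fpt p G f c I ^ 2 ≤ A ^ 2 / (α * β * (Nat.card G : ℕ)) := by
  obtain ⟨L, L', φ, H, u, v, hLL, hφ, hI, -, hUB⟩ := h
  obtain ⟨T, hT⟩ := exists_tauEquiv L L' hLL φ
  have hp : p.Prime := Fact.out
  set I : Ideal (Inv G) := Ideal.span {u, v} with hIdef
  have hext : ext G I = Ideal.span {(u : P2 k), (v : P2 k)} := by
    unfold ext
    rw [hIdef, Ideal.map_span, Set.image_pair]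
    rfl
  have hmap : Ideal.span {tau L φ (u : P2 k), tau L φ (v : P2 k)} =
      (ext G I).map (T : P2 k →+* P2 k) := by
    rw [hext, Ideal.map_span, Set.image_pair]
    congr 2
    · exact (hT u).symm
    · congr 1
      exact (hT v).symm
  have hcc : ∀ x : P2 k, constantCoeff (T x) = constantCoeff x := fun x => by
    rw [hT, constantCoeff_tau L φ hφ]
  have hW' : ∀ x : P2 k, Ge α β W0 (tau L φ x) → x ∈ m0 k := by
    intro x hx
    unfold m0
    rw [RingHom.mem_ker, ← hcc, hT, constantCoeff_eq]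
    by_contra hne
    have h1 := hx 0 (mem_support_iff.2 hne)
    unfold wt at h1
    simp at h1
    omega
  have hextle : ext G I ≤ m0 k := by
    rw [hext, Ideal.span_le]
    rintro x (rfl | rfl)
    · exact hW' _ hUB.1
    · exact hW' _ hUB.2.1
  obtain ⟨N, hN⟩ := UB.m0_pow_le hα hβ hUB
  have hm0 : m0 k ^ N ≤ ext G I := by
    intro x hx
    have h1 : T x ∈ m0 k ^ N := by
      have h2 : (m0 k).map (T : P2 k →+* P2 k) ≤ m0 k := by
        rw [Ideal.map_le_iff_le_comap]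
        intro y hy
        show T y ∈ m0 k
        unfold m0 at hy ⊢
        rw [RingHom.mem_ker] at hy ⊢
        rw [hcc, hy]
      have h3 : T x ∈ (m0 k ^ N).map (T : P2 k →+* P2 k) := Ideal.mem_map_of_mem _ hx
      rw [Ideal.map_pow] at h3
      exact Ideal.pow_right_mono h2 N h3
    have h4 := hN h1
    rw [hmap] at h4
    obtain ⟨y, hy, hyx⟩ := (Ideal.mem_map_iff_of_surjective (T : P2 k →+* P2 k)
      T.surjective).1 h4
    have h5 : y = x := T.injective hyx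
    rwa [← h5]
  have hprim : IsPrim G I := isPrim_of_ext G hg I N hm0 hextle
  refine ⟨I, hprim, ?_⟩
  have hα' : (0 : ℝ) < α := by exact_mod_cast hα
  have hβ' : (0 : ℝ) < β := by exact_mod_cast hβ
  have hW0 : (0 : ℝ) < W0 := by exact_mod_cast hW
  have hcard : 0 < Nat.card G := Nat.card_pos
  have hcard' : (0 : ℝ) < (Nat.card G : ℕ) := by exact_mod_cast hcard
  have hem : emult k I ≤ (W0 : ℝ) ^ 2 / (α * β) / (Nat.card G : ℕ) := by
    rw [le_div_iff₀ hcard', mul_comm, ← emult_ext G hg hG I hprim, fv_emult_map T hmap]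
    exact UB.emult_le hα hβ hUB
  have hfpt : fpt p G f c I ≤ A / W0 := by
    refine Real.sSup_le ?_ (by positivity)
    rintro t ⟨ht0, hsfr⟩
    rw [le_div_iff₀ hW0]
    obtain ⟨e, he, a, ha, hna⟩ := not_mem_of_sfr p G hG f c I t hsfr
    rw [← tau_mem_J p L L' hLL φ hφ e, mem_J] at hna
    push Not at hna
    obtain ⟨m, hm, hm0', hm1⟩ := hna
    set q : ℕ := p ^ e with hq
    set M : ℕ := ⌈t * ((q : ℕ) - 1 : ℝ)⌉₊ with hM
    have hq2 : 1 < q := Nat.one_lt_pow (by omega) hp.one_lt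
    have hqR : (1 : ℝ) < q := by exact_mod_cast hq2
    have hgeF : Ge α β (∑ i, ⌈(c i : ℝ) * ((q : ℝ) - 1)⌉₊ * w i) (tau L φ (Fq f c q)) := by
      unfold Fq
      rw [map_prod]
      refine Ge.prod _ fun i _ => ?_
      rw [map_pow]
      exact ((hI i).ge).pow _
    have hgea : Ge α β (M * W0) (tau L φ (a : P2 k)) := by
      have h1 : (a : P2 k) ∈ ext G I ^ M := by
        rw [← ext_pow]
        exact Ideal.mem_map_of_mem _ ha
      have h2 : T (a : P2 k) ∈ (ext G I ^ M).map (T : P2 k →+* P2 k) :=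
        Ideal.mem_map_of_mem _ h1
      rw [Ideal.map_pow, ← hmap, hT] at h2
      have h3 : Ideal.span {tau L φ (u : P2 k), tau L φ (v : P2 k)} ≤ fvGe k α β W0 := by
        rw [Ideal.span_le]
        rintro x (rfl | rfl)
        · exact hUB.1
        · exact hUB.2.1
      exact fvGe_pow k α β W0 M (Ideal.pow_right_mono h3 M h2)
    have hge := hgeF.mul hgea
    rw [← map_mul] at hge
    have h4 := hge m hm
    have h5 : wt α β m ≤ (α + β) * (q - 1) := by
      unfold wt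
      have h6 : m 0 ≤ q - 1 := by omega
      have h7 : m 1 ≤ q - 1 := by omega
      calc α * m 0 + β * m 1 ≤ α * (q - 1) + β * (q - 1) := by gcongr
        _ = _ := by ring
    have h8 : (((∑ i, ⌈(c i : ℝ) * ((q : ℝ) - 1)⌉₊ * w i) + M * W0 : ℕ) : ℝ) ≤
        (((α + β) * (q - 1) : ℕ) : ℝ) := by exact_mod_cast h4.trans h5
    rw [Nat.cast_mul (α + β), Nat.cast_sub hq2.le] at h8
    push_cast at h8
    have h9 : ((q : ℝ) - 1) * (α + β - A) ≤
        ∑ i, (⌈(c i : ℝ) * ((q : ℝ) - 1)⌉₊ : ℝ) * (w i : ℝ) := by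
      have h10 : (α : ℝ) + β - A = ∑ i, (c i : ℝ) * w i := by rw [hA]; ring
      rw [h10, Finset.mul_sum]
      refine Finset.sum_le_sum fun i _ => ?_
      calc ((q : ℝ) - 1) * ((c i : ℝ) * w i) = ((c i : ℝ) * ((q : ℝ) - 1)) * w i := by ring
        _ ≤ _ := mul_le_mul_of_nonneg_right (Nat.le_ceil _) (Nat.cast_nonneg _)
    have h11 : t * ((q : ℝ) - 1) ≤ M := Nat.le_ceil _
    have h12 : t * ((q : ℝ) - 1) * W0 ≤ M * W0 := mul_le_mul_of_nonneg_right h11 hW0.le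
    have h13 : ((q : ℝ) - 1) * (t * W0) ≤ ((q : ℝ) - 1) * A := by nlinarith
    exact le_of_mul_le_mul_left h13 (by linarith)
  have h0 := fv_emult_nonneg G hg I hprim
  have h1 := fv_fpt_nonneg p G f c I
  calc emult k I * fpt p G f c I ^ 2
      ≤ ((W0 : ℝ) ^ 2 / (α * β) / (Nat.card G : ℕ)) * (A / W0) ^ 2 := by gcongr
    _ = _ := by
      field_simp

private theorem fv_bddBelow [Finite G] (hg : (Nat.card G : k) ≠ 0) :
    ∀ x ∈ {v : ℝ | ∃ I : Ideal (Inv G), IsPrim G I ∧ v = emult k I * fpt p G f c I ^ 2},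
      0 ≤ x := by
  rintro x ⟨I, hI, rfl⟩
  have := fv_emult_nonneg G hg I hI
  positivity

theorem fvol_up [Finite G] (hg : (Nat.card G : k) ≠ 0)
    (hG : ∀ σ ∈ G, σ ≠ 1 → ((σ : Matrix (Fin 2) (Fin 2) k) - 1).det ≠ 0)
    (hc : ∀ i, 0 ≤ c i) {α β W0 : ℕ} (hα : 1 ≤ α) (hβ : 1 ≤ β) (hW : 1 ≤ W0)
    (w : Fin r → ℕ) (A : ℝ) (hA : A = (α : ℝ) + β - ∑ i, (c i : ℝ) * w i) (hA0 : 0 ≤ A)
    (h : Adapted G f c α β W0 w A) :
    Fvol p G f c ≤ A ^ 2 / (α * β * (Nat.card G : ℕ)) := by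
  obtain ⟨I, hI, hle⟩ := fv_key p G f c hg hG hc hα hβ hW w A hA hA0 h
  exact (csInf_le ⟨0, fun x hx => fv_bddBelow p G f c hg x hx⟩ ⟨I, hI, rfl⟩).trans hle

/-- The main estimate in characteristic `p`. -/
theorem fvol_est [PerfectField k] [Finite G] (hg : (Nat.card G : k) ≠ 0)
    (hG : ∀ σ ∈ G, σ ≠ 1 → ((σ : Matrix (Fin 2) (Fin 2) k) - 1).det ≠ 0)
    (hc : ∀ i, 0 ≤ c i) (hf : ∀ i, f i ∈ Inv G) {α β W0 : ℕ} (hα : 1 ≤ α) (hβ : 1 ≤ β)
    (hW : 1 ≤ W0) (w : Fin r → ℕ) (A : ℝ) (hA : A = (α : ℝ) + β - ∑ i, (c i : ℝ) * w i)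
    (hA0 : 0 < A) (h : Adapted G f c α β W0 w A) :
    |Fvol p G f c - A ^ 2 / (α * β * (Nat.card G : ℕ))| ≤
      (4 * A * (∑ i, (w i : ℝ)) / (α * β * (Nat.card G : ℕ))) / p := by
  have hup := fvol_up p G f c hg hG hc hα hβ hW w A hA hA0.le h
  have hlow : 0 ≤ Fvol p G f c := Real.sInf_nonneg (fv_bddBelow p G f c hg)
  have hp : (0 : ℝ) < p := by exact_mod_cast (Fact.out : p.Prime).pos
  have hα' : (0 : ℝ) < α := by exact_mod_cast hα
  have hβ' : (0 : ℝ) < β := by exact_mod_cast hβ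
  have hcard : 0 < Nat.card G := Nat.card_pos
  have hcard' : (0 : ℝ) < (Nat.card G : ℕ) := by exact_mod_cast hcard
  set S : ℝ := ∑ i, (w i : ℝ) with hS
  set g : ℝ := ((Nat.card G : ℕ) : ℝ) with hgdef
  have hS0 : 0 ≤ S := Finset.sum_nonneg fun i _ => Nat.cast_nonneg _
  rw [abs_sub_comm, abs_of_nonneg (by linarith)]
  have hrhs : (4 * A * S / (α * β * g)) / p = (4 * A * (S / p)) / (α * β * g) := by
    field_simp
  rw [hrhs]
  rcases le_or_gt (A / 2 - S / p) 0 with hκ | hκ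
  · have h1 : A ^ 2 / (α * β * g) ≤ (4 * A * (S / p)) / (α * β * g) := by
      gcongr
      nlinarith
    linarith
  · obtain ⟨I, hI, -⟩ := fv_key p G f c hg hG hc hα hβ hW w A hA hA0.le h
    obtain ⟨L, L', φ, H, u, v, hLL, hφ, hin, hSS, -⟩ := h
    obtain ⟨C0, hC0⟩ := tlb_adapted p hα hβ c hc w (fun i => tau L φ (f i)) H hin A hA hSS
      (A / 2 - S / p) rfl hκ
    have hT : ∀ e : ℕ, 1 ≤ e → TLb f c (p ^ e) ((A / 2 - S / p) ^ 2 / (2 * α * β) *
        ((p ^ e : ℕ) : ℝ) ^ 2 - C0 * ((p ^ e : ℕ) : ℝ)) := fun e he =>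
      tlb_tau p L L' hLL φ hφ f c e _ (hC0 e he)
    have hlo : 8 * ((A / 2 - S / p) ^ 2 / (2 * α * β)) / g ≤ Fvol p G f c := by
      refine le_csInf ⟨_, I, hI, rfl⟩ ?_
      rintro x ⟨I', hI', rfl⟩
      exact fvol_low p G f c hg hG hc hf _ C0 (by positivity) hT I' hI'
    have h2 : 8 * ((A / 2 - S / p) ^ 2 / (2 * α * β)) / g =
        (A ^ 2 - 4 * A * (S / p) + 4 * (S / p) ^ 2) / (α * β * g) := by
      field_simp
      ring
    have h3 : (A ^ 2 - 4 * A * (S / p)) / (α * β * g) ≤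
        (A ^ 2 - 4 * A * (S / p) + 4 * (S / p) ^ 2) / (α * β * g) := by
      gcongr
      nlinarith [sq_nonneg (S / p)]
    have h4 : (A ^ 2 - 4 * A * (S / p)) / (α * β * g) =
        A ^ 2 / (α * β * g) - (4 * A * (S / p)) / (α * β * g) := by
      rw [sub_div]
    linarith

end FV
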