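import Pool.Agent.Lib.MP_9e8926_ag_FV.Maps

/-!
# Bezout identities
-/

set_option autoImplicit false

noncomputable section

namespace FV

open MvPolynomial

private theorem bez_hasse_map {A B : Type*} [CommRing A] [CommRing B] (θ : A →+* B) (l : ℕ)
    (p : Polynomial A) :
    (Polynomial.hasseDeriv l p).map θ = Polynomial.hasseDeriv l (p.map θ) := by
  ext n
  rw [Polynomial.coeff_map, Polynomial.hasseDeriv_coeff, Polynomial.hasseDeriv_coeff,
    Polynomial.coeff_map, map_mul, map_natCast]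

private theorem bez_dvd_iff {A : Type*} [CommRing A] (z : A) (n : ℕ) (p : Polynomial A) :
    (Polynomial.X - Polynomial.C z) ^ n ∣ p ↔
      ∀ l < n, (Polynomial.hasseDeriv l p).eval z = 0 := by
  rw [Polynomial.X_sub_C_pow_dvd_iff, Polynomial.X_pow_dvd_iff]
  refine forall₂_congr fun l _ => ?_
  rw [← Polynomial.taylor_coeff]
  rfl

theorem bezout {K : Type*} [Field K] [Algebra K ℂ] {r : ℕ} (h : Fin r → Polynomial K)
    (n : Fin r → ℕ) (h0 : ∃ i, n i ≠ 0 ∧ h i ≠ 0)
    (hno : ∀ z : ℂ, z ≠ 0 → ¬ ∀ i, (Polynomial.X - Polynomial.C z) ^ n i ∣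
      (h i).map (algebraMap K ℂ)) :
    ∃ (M : ℕ) (U : Fin r → ℕ → Polynomial K), Polynomial.X ^ M =
      ∑ i, ∑ l ∈ Finset.range (n i), U i l * Polynomial.hasseDeriv l (h i) := by
  classical
  set v : (Σ i : Fin r, Fin (n i)) → Polynomial K :=
    fun s => Polynomial.hasseDeriv (s.2 : ℕ) (h s.1) with hv
  set I : Ideal (Polynomial K) := Ideal.span (Set.range v) with hI
  set g := Submodule.IsPrincipal.generator I with hg
  have hgI : g ∈ I := Submodule.IsPrincipal.generator_mem I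
  have hdiv : ∀ s, g ∣ v s := fun s => by
    rw [hg, ← Submodule.IsPrincipal.mem_iff_generator_dvd]
    exact Ideal.subset_span ⟨s, rfl⟩
  have hg0 : g ≠ 0 := by
    obtain ⟨i, hi, hhi⟩ := h0
    intro hc
    have h1 := hdiv ⟨i, ⟨0, Nat.pos_of_ne_zero hi⟩⟩
    rw [hc, zero_dvd_iff] at h1
    simp only [hv, Polynomial.hasseDeriv_zero'] at h1
    exact hhi h1
  -- the only possible root is zero
  have hroot : ∀ z : ℂ, z ≠ 0 → (g.map (algebraMap K ℂ)).eval z ≠ 0 := by
    intro z hz hgz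
    refine hno z hz fun i => ?_
    rw [bez_dvd_iff]
    intro l hl
    obtain ⟨q, hq⟩ := hdiv ⟨i, ⟨l, hl⟩⟩
    simp only [hv] at hq
    rw [← bez_hasse_map, hq, Polynomial.map_mul, Polynomial.eval_mul, hgz, zero_mul]
  obtain ⟨g', hg', hnd⟩ := Polynomial.exists_eq_pow_rootMultiplicity_mul_and_not_dvd g hg0 0
  set m := Polynomial.rootMultiplicity 0 g with hm
  rw [Polynomial.C_0, sub_zero] at hg' hnd
  have hinj : Function.Injective (algebraMap K ℂ) := (algebraMap K ℂ).injective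
  have hdeg : g'.degree = 0 := by
    by_contra hc
    have h1 : (g'.map (algebraMap K ℂ)).degree ≠ 0 := by
      rwa [Polynomial.degree_map_eq_of_injective hinj]
    obtain ⟨z, hz⟩ := IsAlgClosed.exists_root _ h1
    rw [Polynomial.IsRoot.def] at hz
    rcases eq_or_ne z 0 with rfl | hz0
    · rw [← Polynomial.coeff_zero_eq_eval_zero, Polynomial.coeff_map] at hz
      have h2 : g'.coeff 0 = 0 := hinj (by rw [hz, map_zero])
      exact hnd (Polynomial.X_dvd_iff.2 h2)
    · refine hroot z hz0 ?_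
      rw [hg', Polynomial.map_mul, Polynomial.eval_mul, hz, mul_zero]
  rw [Polynomial.eq_C_of_degree_eq_zero hdeg] at hg'
  have hc0 : g'.coeff 0 ≠ 0 := fun hc => hnd (Polynomial.X_dvd_iff.2 hc)
  have hX : (Polynomial.X : Polynomial K) ^ m ∈ I := by
    have h1 : (Polynomial.X : Polynomial K) ^ m = Polynomial.C (g'.coeff 0)⁻¹ * g := by
      rw [hg', mul_comm, mul_assoc, ← Polynomial.C_mul, mul_inv_cancel₀ hc0, Polynomial.C_1,
        mul_one]
    rw [h1]
    exact I.mul_mem_left _ hgI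
  rw [hI, Ideal.mem_span_range_iff_exists_fun] at hX
  obtain ⟨c, hc⟩ := hX
  refine ⟨m, fun i l => if hl : l < n i then c ⟨i, ⟨l, hl⟩⟩ else 0, ?_⟩
  rw [← hc, Fintype.sum_sigma]
  refine Finset.sum_congr rfl fun i _ => ?_
  rw [← Fin.sum_univ_eq_sum_range (fun l => (if hl : l < n i then c ⟨i, ⟨l, hl⟩⟩ else 0) *
    Polynomial.hasseDeriv l (h i))]
  refine Finset.sum_congr rfl fun l _ => ?_
  rw [dif_pos l.2]

theorem no_root {B : Type*} [CommRing B] {r : ℕ} (h : Fin r → Polynomial B)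
    (n : Fin r → ℕ) (M : ℕ) (U : Fin r → ℕ → Polynomial B)
    (hU : Polynomial.X ^ M =
      ∑ i, ∑ l ∈ Finset.range (n i), U i l * Polynomial.hasseDeriv l (h i))
    {Ω : Type*} [Field Ω] (Θ : B →+* Ω) (z : Ω) (hz : z ≠ 0) :
    ¬ ∀ i, (Polynomial.X - Polynomial.C z) ^ n i ∣ (h i).map Θ := by
  intro hd
  have h1 := congrArg (fun p => (Polynomial.map Θ p).eval z) hU
  simp only [Polynomial.map_pow, Polynomial.map_X, Polynomial.eval_pow, Polynomial.eval_X,
    Polynomial.map_sum, Polynomial.map_mul, Polynomial.eval_finsetSum, Polynomial.eval_mul] at h1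
  refine pow_ne_zero M hz (h1.trans ?_)
  refine Finset.sum_eq_zero fun i _ => Finset.sum_eq_zero fun l hl => ?_
  rw [bez_hasse_map, (bez_dvd_iff z (n i) _).1 (hd i) l (Finset.mem_range.1 hl), mul_zero]

private theorem bez_dehom_eq {k : Type*} [CommRing k] (f : P2 k) :
    dehom f = ∑ m ∈ f.support, Polynomial.C (coeff m f) * Polynomial.X ^ (m 1) := by
  unfold dehom
  rw [aeval_def, eval₂_eq']
  refine Finset.sum_congr rfl fun m _ => ?_
  rw [Fin.prod_univ_two]
  simp [Polynomial.algebraMap_eq]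

private theorem bez_dehom_coeff {k : Type*} [CommRing k] {α β : ℕ} (hα : 1 ≤ α) {w : ℕ}
    {f : P2 k} (hw : Homog α β w f) {m : Fin 2 →₀ ℕ} (hm : m ∈ f.support) :
    (dehom f).coeff (m 1) = coeff m f := by
  classical
  rw [bez_dehom_eq, Polynomial.finsetSum_coeff]
  simp only [Polynomial.coeff_C_mul, Polynomial.coeff_X_pow, mul_ite, mul_one, mul_zero]
  rw [Finset.sum_eq_single m]
  · rw [if_pos rfl]
  · intro d hd hdm
    rw [if_neg]
    intro h1
    apply hdm
    have h2 := hw d hd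
    have h3 := hw m hm
    unfold wt at h2 h3
    rw [← h3, h1] at h2
    have h4 : α * d 0 = α * m 0 := Nat.add_right_cancel h2
    have h5 : d 0 = m 0 := Nat.eq_of_mul_eq_mul_left hα h4
    ext i
    fin_cases i
    · exact h5
    · exact h1.symm
  · intro h1
    exact absurd hm h1

private theorem bez_dehom_ne {k : Type*} [CommRing k] {α β : ℕ} (hα : 1 ≤ α) {w : ℕ}
    {f : P2 k} (hw : Homog α β w f) (hf : f ≠ 0) : dehom f ≠ 0 := by
  obtain ⟨m, hm⟩ := support_nonempty.2 hf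
  intro h1
  have h2 := bez_dehom_coeff hα hw hm
  rw [h1, Polynomial.coeff_zero] at h2
  exact mem_support_iff.1 hm h2.symm

private theorem bez_dehom_deg {k : Type*} [CommRing k] {α β : ℕ} (hβ : 1 ≤ β) {w : ℕ}
    {f : P2 k} (hw : Homog α β w f) : (dehom f).natDegree ≤ w := by
  rw [bez_dehom_eq]
  refine Polynomial.natDegree_sum_le_of_forall_le _ _ fun m hm => ?_
  refine (Polynomial.natDegree_C_mul_X_pow_le _ _).trans ?_
  rw [← hw m hm]
  unfold wt
  nlinarith [Nat.zero_le (α * m 0), Nat.zero_le (m 1)]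

/-- Bezout identities for all vectors of multiplicities which violate semistability. -/
theorem exists_bez {K : Type*} [Field K] [Algebra K ℂ] {α β : ℕ} (hα : 1 ≤ α) (hβ : 1 ≤ β)
    {r : ℕ} (c : Fin r → ℚ) (A : ℝ) (hA : A ≤ (α : ℝ) + β) (w : Fin r → ℕ) (H : Fin r → P2 K)
    (hH : ∀ i, H i ≠ 0) (hw : ∀ i, Homog α β (w i) (H i)) (hS : GSS ℂ α β c A H)
    (n : Fin r → ℕ) (hn : (α : ℝ) * β * (1 - ∑ i, (c i : ℝ) * n i) < A / 2) :
    ∃ (M : ℕ) (U : Fin r → ℕ → Polynomial K), Polynomial.X ^ M =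
      ∑ i, ∑ l ∈ Finset.range (n i), U i l * Polynomial.hasseDeriv l (dehom (H i)) := by
  refine bezout (fun i => dehom (H i)) n ?_ ?_
  · by_contra hc
    push Not at hc
    have hn0 : ∀ i, n i = 0 := by
      intro i
      by_contra hi
      exact bez_dehom_ne hα (hw i) (hH i) (hc i hi)
    simp only [hn0, Nat.cast_zero, mul_zero, Finset.sum_const_zero, sub_zero, mul_one] at hn
    have h1 : (1 : ℝ) ≤ α := by exact_mod_cast hα
    have h2 : (1 : ℝ) ≤ β := by exact_mod_cast hβ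
    nlinarith [mul_nonneg (sub_nonneg.2 h1) (sub_nonneg.2 h2)]
  · intro z hz hd
    exact absurd (hS z hz n hd) (not_le.2 hn)

/-- The conditions at the roots after reduction. -/
theorem gss_spread {B k Ω : Type*} [CommRing B] [Field k] [Field Ω] [Algebra k Ω]
    (Θ : B →+* k) {α β : ℕ} (hα : 1 ≤ α) {r : ℕ} (c : Fin r → ℚ) (A : ℝ) (w : Fin r → ℕ)
    (HB : Fin r → P2 B) (hH : ∀ i, map Θ (HB i) ≠ 0)
    (hw : ∀ i, Homog α β (w i) (map Θ (HB i))) (hβ : 1 ≤ β)
    (hU : ∀ n : Fin r → ℕ, (∀ i, n i ≤ w i) →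
      (α : ℝ) * β * (1 - ∑ i, (c i : ℝ) * n i) < A / 2 →
      ∃ (M : ℕ) (U : Fin r → ℕ → Polynomial B), Polynomial.X ^ M =
        ∑ i, ∑ l ∈ Finset.range (n i), U i l * Polynomial.hasseDeriv l (dehom (HB i))) :
    GSS Ω α β c A (fun i => map Θ (HB i)) := by
  intro z hz n hn
  by_contra hc
  rw [not_le] at hc
  have hle : ∀ i, n i ≤ w i := by
    intro i
    have h1 : (dehom (map Θ (HB i))).map (algebraMap k Ω) ≠ 0 := by
      rw [Polynomial.map_ne_zero_iff (algebraMap k Ω).injective]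
      exact bez_dehom_ne hα (hw i) (hH i)
    have h2 := Polynomial.natDegree_le_of_dvd (hn i) h1
    rw [Polynomial.natDegree_pow, Polynomial.natDegree_X_sub_C, mul_one] at h2
    exact h2.trans (Polynomial.natDegree_map_le.trans (bez_dehom_deg hβ (hw i)))
  obtain ⟨M, U, hMU⟩ := hU n hle hc
  refine no_root (fun i => dehom (HB i)) n M U hMU ((algebraMap k Ω).comp Θ) z hz fun i => ?_
  have h1 := hn i
  rw [dehom_map, Polynomial.map_map] at h1
  exact h1

end FV
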