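import Mathlib

/-!
# Spreading out: the ring
-/

set_option autoImplicit false

noncomputable section

namespace FV

theorem spread_ring {A : Type} [CommRing A] [IsDomain A] {K : Type} [Field K] [Algebra A K]
    [IsFractionRing A K] (S : Finset K) : ∃ a : A, a ≠ 0 ∧ ∃ B : Subalgebra A K,
      (∀ s ∈ S, s ∈ B) ∧ ∀ (k : Type) [Field k] (θ : A →+* k), θ a ≠ 0 →
        ∃ Θ : B →+* k, ∀ x : A, Θ (algebraMap A B x) = θ x := by
  obtain ⟨b, hb⟩ := IsLocalization.exist_integer_multiples_of_finset (nonZeroDivisors A) S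
  have hb0 : (b : A) ≠ 0 := nonZeroDivisors.ne_zero b.2
  have hS : Submonoid.powers (b : A) ≤ nonZeroDivisors A := by
    rw [Submonoid.powers_le]
    exact b.2
  refine ⟨b, hb0, Localization.subalgebra.ofField K (Submonoid.powers (b : A)) hS, ?_, ?_⟩
  · intro s hs
    obtain ⟨x, hx⟩ := hb s hs
    refine ⟨x, b, Submonoid.mem_powers _, ?_⟩
    have h1 : algebraMap A K b ≠ 0 := by
      rw [Ne, FaithfulSMul.algebraMap_eq_zero_iff]
      exact hb0
    rw [hx, Algebra.smul_def, mul_comm (algebraMap A K b) s, mul_assoc, mul_inv_cancel₀ h1,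
      mul_one]
  · intro k _ θ hθ
    have hu : ∀ y : Submonoid.powers (b : A), IsUnit (θ y) := by
      rintro ⟨y, n, rfl⟩
      rw [isUnit_iff_ne_zero]
      show θ ((b : A) ^ n) ≠ 0
      rw [map_pow]
      exact pow_ne_zero n hθ
    have hL := Localization.subalgebra.isLocalization_ofField K (Submonoid.powers (b : A)) hS
    exact ⟨IsLocalization.lift (M := Submonoid.powers (b : A)) hu,
      fun x => IsLocalization.lift_eq hu x⟩

end FV
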