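import Pool.Agent.Lib.MP_9e8926_ag_FV.TLev

/-!
# Coordinate changes: a linear map followed by a shear
-/

set_option autoImplicit false

noncomputable section

namespace FV

open MvPolynomial

variable {k : Type*}

/-- The shear `x ↦ x`, `y ↦ y + φ(x)`. -/
def shear [CommRing k] (φ : Polynomial k) : P2 k →ₐ[k] P2 k :=
  aeval ![X 0, X 1 + Polynomial.aeval (X 0 : P2 k) φ]

/-- The coordinate change. -/
def tau [CommRing k] (L : Matrix (Fin 2) (Fin 2) k) (φ : Polynomial k) : P2 k →ₐ[k] P2 k :=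
  (shear φ).comp (lin L)

/-- The diagonal map `x ↦ a x`, `y ↦ b y`. -/
def dg [CommRing k] (a b : k) : P2 k →ₐ[k] P2 k := aeval ![C a * X 0, C b * X 1]

private theorem tau_lin_X [CommRing k] (M : Matrix (Fin 2) (Fin 2) k) (i : Fin 2) :
    lin M (X i) = ∑ j, C (M i j) * X j := by
  simp [lin]

private theorem tau_shear_zero [CommRing k] (φ : Polynomial k) :
    shear φ (X 0 : P2 k) = X 0 := by
  simp [shear]

private theorem tau_shear_one [CommRing k] (φ : Polynomial k) :
    shear φ (X 1 : P2 k) = X 1 + Polynomial.aeval (X 0 : P2 k) φ := by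
  simp [shear]

theorem lin_comp [CommRing k] (M N : Matrix (Fin 2) (Fin 2) k) :
    (lin M).comp (lin N) = lin (N * M) := by
  refine MvPolynomial.algHom_ext fun i => ?_
  rw [AlgHom.comp_apply, tau_lin_X, tau_lin_X, map_sum]
  simp only [Fin.sum_univ_two, map_mul, tau_lin_X, MvPolynomial.algHom_C,
    MvPolynomial.algebraMap_eq, Matrix.mul_apply, map_add]
  ring

theorem lin_one [CommRing k] : lin (1 : Matrix (Fin 2) (Fin 2) k) = AlgHom.id k (P2 k) := by
  refine MvPolynomial.algHom_ext fun i => ?_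
  rw [tau_lin_X, AlgHom.id_apply, Fin.sum_univ_two]
  rcases Fin.exists_fin_two.1 ⟨i, rfl⟩ with h | h
  · rw [h]
    simp
  · rw [h]
    simp

private theorem tau_shear_comp [CommRing k] (φ ψ : Polynomial k) :
    (shear φ).comp (shear ψ) = shear (φ + ψ) := by
  refine MvPolynomial.algHom_ext fun i => ?_
  rw [AlgHom.comp_apply]
  fin_cases i
  · change shear φ (shear ψ (X 0)) = shear (φ + ψ) (X 0)
    rw [tau_shear_zero, tau_shear_zero, tau_shear_zero]
  · change shear φ (shear ψ (X 1)) = shear (φ + ψ) (X 1)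
    rw [tau_shear_one, tau_shear_one, map_add, tau_shear_one, ← Polynomial.aeval_algHom_apply,
      tau_shear_zero, map_add, add_assoc]

private theorem tau_shear_id [CommRing k] : shear (0 : Polynomial k) = AlgHom.id k (P2 k) := by
  refine MvPolynomial.algHom_ext fun i => ?_
  fin_cases i
  · change shear 0 (X 0) = X 0
    rw [tau_shear_zero]
  · change shear 0 (X 1) = X 1
    rw [tau_shear_one, map_zero, add_zero]

private theorem tau_left [CommRing k] (L L' : Matrix (Fin 2) (Fin 2) k) (h' : L' * L = 1)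
    (φ : Polynomial k) :
    (tau L φ).comp ((lin L').comp (shear (-φ))) = AlgHom.id k (P2 k) := by
  have h1 : ((lin L).comp (lin L')) = AlgHom.id k (P2 k) := by rw [lin_comp, h', lin_one]
  have h2 : (shear φ).comp (shear (-φ)) = AlgHom.id k (P2 k) := by
    rw [tau_shear_comp, add_neg_cancel, tau_shear_id]
  rw [tau, AlgHom.comp_assoc, ← AlgHom.comp_assoc (lin L) (lin L') (shear (-φ)), h1,
    AlgHom.id_comp, h2]

private theorem tau_right [CommRing k] (L L' : Matrix (Fin 2) (Fin 2) k) (h : L * L' = 1)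
    (φ : Polynomial k) :
    ((lin L').comp (shear (-φ))).comp (tau L φ) = AlgHom.id k (P2 k) := by
  have h1 : ((lin L').comp (lin L)) = AlgHom.id k (P2 k) := by rw [lin_comp, h, lin_one]
  have h2 : (shear (-φ)).comp (shear φ) = AlgHom.id k (P2 k) := by
    rw [tau_shear_comp, neg_add_cancel, tau_shear_id]
  rw [tau, AlgHom.comp_assoc, ← AlgHom.comp_assoc (shear (-φ)) (shear φ) (lin L), h2,
    AlgHom.id_comp, h1]

/-- The inverse of the coordinate change. -/
theorem exists_tauEquiv [CommRing k] (L L' : Matrix (Fin 2) (Fin 2) k) (h : L * L' = 1)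
    (φ : Polynomial k) : ∃ τ : P2 k ≃ₐ[k] P2 k, ∀ f, τ f = tau L φ f := by
  have h' : L' * L = 1 := mul_eq_one_comm.1 h
  exact ⟨AlgEquiv.ofAlgHom (tau L φ) ((lin L').comp (shear (-φ))) (tau_left L L' h' φ)
    (tau_right L L' h φ), fun f => by rw [AlgEquiv.ofAlgHom_apply]⟩

private theorem tau_cc_poly [CommRing k] (φ : Polynomial k) :
    constantCoeff (Polynomial.aeval (X 0 : P2 k) φ) = φ.coeff 0 := by
  have h1 : constantCoeff (Polynomial.aeval (X 0 : P2 k) φ) =
      Polynomial.eval₂ ((constantCoeff (R := k) (σ := Fin 2)).comp C)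
        (constantCoeff (X 0 : P2 k)) φ := by
    rw [Polynomial.aeval_def, Polynomial.hom_eval₂]
    rfl
  rw [h1]
  have h2 : (constantCoeff (R := k) (σ := Fin 2)).comp C = RingHom.id k := by
    ext a
    simp
  rw [h2, constantCoeff_X]
  change Polynomial.eval₂ (RingHom.id k) 0 φ = φ.coeff 0
  rw [Polynomial.eval₂_id, Polynomial.coeff_zero_eq_eval_zero]

private theorem tau_cc_gen [CommRing k] (s : P2 k →ₐ[k] P2 k)
    (hs : ∀ i, constantCoeff (s (X i)) = 0) (f : P2 k) :
    constantCoeff (s f) = constantCoeff f := by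
  induction f using MvPolynomial.induction_on with
  | C a => simp [MvPolynomial.algHom_C]
  | add p q hp hq => simp only [map_add, hp, hq]
  | mul_X p i hp => simp only [map_mul, hs, mul_zero, constantCoeff_X]

private theorem tau_cc [CommRing k] (L : Matrix (Fin 2) (Fin 2) k) (φ : Polynomial k)
    (hφ : φ.coeff 0 = 0) (i : Fin 2) : constantCoeff (tau L φ (X i)) = 0 := by
  rw [tau, AlgHom.comp_apply, tau_lin_X]
  simp only [Fin.sum_univ_two, map_add, map_mul, MvPolynomial.algHom_C,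
    MvPolynomial.algebraMap_eq, tau_shear_zero, tau_shear_one, constantCoeff_X, tau_cc_poly, hφ]
  ring

variable [Field k]

theorem constantCoeff_tau (L : Matrix (Fin 2) (Fin 2) k) (φ : Polynomial k)
    (hφ : φ.coeff 0 = 0) (f : P2 k) : constantCoeff (tau L φ f) = constantCoeff f :=
  tau_cc_gen _ (tau_cc L φ hφ) f

private theorem tau_map_J (p : ℕ) [Fact p.Prime] [CharP k p] (s : P2 k →ₐ[k] P2 k)
    (hs : ∀ i, constantCoeff (s (X i)) = 0) (e : ℕ) {f : P2 k} (hf : f ∈ J k (p ^ e)) :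
    s f ∈ J k (p ^ e) := by
  have key : ∀ i, s (X i) ^ p ^ e ∈ J k (p ^ e) := by
    intro i
    have h1 : s (X i) ∈ m0 k := (RingHom.mem_ker).2 (hs i)
    rw [m0_eq_span, Ideal.mem_span_pair] at h1
    obtain ⟨a, b, hab⟩ := h1
    rw [← hab, add_pow_char_pow, mul_pow, mul_pow]
    refine Ideal.add_mem _ (Ideal.mul_mem_left _ _ ?_) (Ideal.mul_mem_left _ _ ?_)
    · exact Ideal.subset_span (Set.mem_insert _ _)
    · exact Ideal.subset_span (Set.mem_insert_of_mem _ rfl)
  rw [J, Ideal.mem_span_pair] at hf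
  obtain ⟨a, b, rfl⟩ := hf
  rw [map_add, map_mul, map_mul, map_pow, map_pow]
  exact Ideal.add_mem _ (Ideal.mul_mem_left _ _ (key 0)) (Ideal.mul_mem_left _ _ (key 1))

theorem tau_mem_J (p : ℕ) [Fact p.Prime] [CharP k p] (L L' : Matrix (Fin 2) (Fin 2) k)
    (h : L * L' = 1) (φ : Polynomial k) (hφ : φ.coeff 0 = 0) (e : ℕ) (f : P2 k) :
    tau L φ f ∈ J k (p ^ e) ↔ f ∈ J k (p ^ e) := by
  obtain ⟨τ, hτ⟩ := exists_tauEquiv L L' h φ
  refine ⟨fun hf => ?_, fun hf => tau_map_J p _ (tau_cc L φ hφ) e hf⟩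
  have h1 : ∀ i, constantCoeff ((τ.symm : P2 k →ₐ[k] P2 k) (X i)) = 0 := by
    intro i
    have h2 := constantCoeff_tau L φ hφ (τ.symm (X i))
    rw [← hτ, AlgEquiv.apply_symm_apply, constantCoeff_X] at h2
    exact h2.symm
  have h3 := tau_map_J p (τ.symm : P2 k →ₐ[k] P2 k) h1 e hf
  rw [← hτ] at h3
  have h4 : (τ.symm : P2 k →ₐ[k] P2 k) (τ f) = f := AlgEquiv.symm_apply_apply τ f
  rwa [h4] at h3

theorem tlb_tau (p : ℕ) [Fact p.Prime] [CharP k p] (L L' : Matrix (Fin 2) (Fin 2) k)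
    (h : L * L' = 1) (φ : Polynomial k) (hφ : φ.coeff 0 = 0) {r : ℕ} (f : Fin r → P2 k)
    (c : Fin r → ℚ) (e : ℕ) (n : ℝ) (ht : TLb (fun i => tau L φ (f i)) c (p ^ e) n) :
    TLb f c (p ^ e) n := by
  obtain ⟨τ, hτ⟩ := exists_tauEquiv L L' h φ
  intro b hb hiso
  have hF : Fq (fun i => tau L φ (f i)) c (p ^ e) = τ (Fq f c (p ^ e)) := by
    simp only [Fq, map_prod, map_pow, hτ]
  have hmap : ∀ y, y ∈ b.map (τ : P2 k →+* P2 k) ↔ ∃ x ∈ b, τ x = y := by
    intro y
    rw [Ideal.mem_map_iff_of_surjective (τ : P2 k →+* P2 k) τ.surjective]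
    rfl
  have E : (P2 k ⧸ b) ≃ₐ[k] (P2 k ⧸ b.map (τ : P2 k →+* P2 k)) :=
    Ideal.quotientEquivAlg b (b.map (τ : P2 k →+* P2 k)) τ rfl
  have h1 := ht (b.map (τ : P2 k →+* P2 k)) (Module.Finite.equiv E.toLinearEquiv) ?_
  · rwa [← E.toLinearEquiv.finrank_eq] at h1
  · intro x hx y hy
    obtain ⟨u, hu, rfl⟩ := (hmap x).1 hx
    obtain ⟨v, hv, rfl⟩ := (hmap y).1 hy
    rw [hF, ← map_mul, ← map_mul, hτ, tau_mem_J p L L' h φ hφ]
    exact hiso u hu v hv

end FV
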