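import Pool.Agent.Lib.MP_9e8926_ag_FV.UBd
import Pool.Agent.Lib.MP_9e8926_ag_FV.Tau

/-!
# Adapted coordinates
-/

set_option autoImplicit false

noncomputable section

namespace FV

open MvPolynomial

/-- Adapted coordinates for the pair `(k²/G, ∑ cᵢ div fᵢ)`. -/
def Adapted {k : Type*} [Field k] (G : Subgroup (GL (Fin 2) k)) {r : ℕ} (f : Fin r → P2 k)
    (c : Fin r → ℚ) (α β W0 : ℕ) (w : Fin r → ℕ) (A : ℝ) : Prop :=
  ∃ (L L' : Matrix (Fin 2) (Fin 2) k) (φ : Polynomial k) (H : Fin r → P2 k) (u v : Inv G),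
    L * L' = 1 ∧ φ.coeff 0 = 0 ∧ (∀ i, IsInit α β (tau L φ (f i)) (w i) (H i)) ∧
    SS α β c A H ∧ UB α β W0 (tau L φ (u : P2 k)) (tau L φ (v : P2 k))

end FV
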