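import Pool.Agent.Lib.MP_9e8926_ag_FV.SSred

/-!
# Destabilizing roots are rational and unique
-/

set_option autoImplicit false

noncomputable section

namespace FV

open MvPolynomial

private theorem BadR_expand {K : Type*} [Field K] (f : P2 K) :
    dehom f = ∑ m ∈ f.support, Polynomial.C (coeff m f) * Polynomial.X ^ (m 1) := by
  conv_lhs => rw [f.as_sum, map_sum]
  refine Finset.sum_congr rfl fun m _ => ?_
  unfold dehom
  rw [aeval_monomial, Finsupp.prod_fintype _ _ (fun i => pow_zero _), Fin.prod_univ_two]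
  simp

/-- the exponents of a homogeneous polynomial are determined by the second one -/
private theorem BadR_inj {K : Type*} [Field K] {α β w : ℕ} (hα : 1 ≤ α) {f : P2 K}
    (hf : Homog α β w f) {m m' : Fin 2 →₀ ℕ} (hm : m ∈ f.support) (hm' : m' ∈ f.support)
    (h : m 1 = m' 1) : m = m' := by
  have h1 := hf m hm
  have h2 := hf m' hm'
  unfold wt at h1 h2
  rw [h] at h1
  have h3 : α * m 0 = α * m' 0 := by omega
  have h4 : m 0 = m' 0 := Nat.eq_of_mul_eq_mul_left (by omega) h3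
  ext i
  fin_cases i
  · exact h4
  · exact h

private theorem BadR_coeff {K : Type*} [Field K] {α β w : ℕ} (hα : 1 ≤ α) {f : P2 K}
    (hf : Homog α β w f) {m : Fin 2 →₀ ℕ} (hm : m ∈ f.support) :
    (dehom f).coeff (m 1) = coeff m f := by
  rw [BadR_expand, Polynomial.finsetSum_coeff, Finset.sum_eq_single_of_mem m hm]
  · rw [Polynomial.coeff_C_mul, Polynomial.coeff_X_pow, if_pos rfl, mul_one]
  · intro m' hm' hne
    rw [Polynomial.coeff_C_mul, Polynomial.coeff_X_pow, if_neg, mul_zero]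
    intro h
    exact hne (BadR_inj hα hf hm' hm h.symm)

private theorem BadR_ne {K : Type*} [Field K] {α β w : ℕ} (hα : 1 ≤ α) {f : P2 K}
    (hf : Homog α β w f) (h0 : f ≠ 0) : dehom f ≠ 0 := by
  obtain ⟨m, hm⟩ := MvPolynomial.ne_zero_iff.1 h0
  intro h
  have h1 := BadR_coeff hα hf (mem_support_iff.2 hm)
  rw [h, Polynomial.coeff_zero] at h1
  exact hm h1.symm

private theorem BadR_deg {K : Type*} [Field K] {α β w : ℕ} {f : P2 K}
    (hf : Homog α β w f) : β * (dehom f).natDegree ≤ w := by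
  rcases Nat.eq_zero_or_pos β with hβ | hβ
  · rw [hβ, zero_mul]
    exact Nat.zero_le _
  · rw [mul_comm, ← Nat.le_div_iff_mul_le hβ, BadR_expand]
    refine Polynomial.natDegree_sum_le_of_forall_le _ _ fun m hm => ?_
    refine (Polynomial.natDegree_C_mul_X_pow_le _ _).trans ?_
    rw [Nat.le_div_iff_mul_le hβ]
    have h1 := hf m hm
    unfold wt at h1
    rw [mul_comm]
    omega

/-- the symmetry with respect to the roots of unity -/
private theorem BadR_sym {K : Type*} [Field K] [Algebra K ℂ] {α β w : ℕ}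
    (hco : Nat.Coprime α β) {f : P2 K} (hf : Homog α β w f) {ζ : ℂ} (hζ : ζ ^ α = 1) :
    ∃ b : ℕ, ((dehom f).map (algebraMap K ℂ)).comp (Polynomial.C ζ * Polynomial.X) =
      Polynomial.C (ζ ^ b) * (dehom f).map (algebraMap K ℂ) := by
  by_cases h0 : f = 0
  · refine ⟨0, ?_⟩
    rw [h0, map_zero, Polynomial.map_zero, Polynomial.zero_comp, mul_zero]
  obtain ⟨m₀, hm₀⟩ := MvPolynomial.ne_zero_iff.1 h0
  have hm₀' := mem_support_iff.2 hm₀
  refine ⟨m₀ 1, ?_⟩
  have h1 : ∀ m ∈ f.support, ζ ^ (m 1) = ζ ^ (m₀ 1) := by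
    intro m hm
    have h2 := hf m hm
    have h3 := hf m₀ hm₀'
    unfold wt at h2 h3
    have h4 : m 1 ≡ m₀ 1 [MOD α] := by
      have h5 : β * m 1 ≡ β * m₀ 1 [MOD α] := by
        have h6 : α * m 0 + β * m 1 ≡ α * m₀ 0 + β * m₀ 1 [MOD α] := by rw [h2, h3]
        have h7 : α * m 0 + β * m 1 ≡ β * m 1 [MOD α] := by
          simp [Nat.ModEq]
        have h8 : α * m₀ 0 + β * m₀ 1 ≡ β * m₀ 1 [MOD α] := by
          simp [Nat.ModEq]
        exact h7.symm.trans (h6.trans h8)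
      exact Nat.ModEq.cancel_left_of_coprime hco h5
    rw [pow_eq_pow_mod (m 1) hζ, pow_eq_pow_mod (m₀ 1) hζ, h4]
  rw [BadR_expand, Polynomial.map_sum, Polynomial.sum_comp, Finset.mul_sum]
  refine Finset.sum_congr rfl fun m hm => ?_
  rw [Polynomial.map_mul, Polynomial.map_C, Polynomial.map_pow, Polynomial.map_X,
    Polynomial.mul_comp, Polynomial.C_comp, Polynomial.pow_comp, Polynomial.X_comp, mul_pow,
    ← Polynomial.C_pow, h1 m hm]
  ring

/-- multiplicities of the non-zero roots -/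
private theorem BadR_mult {K : Type*} [Field K] [Algebra K ℂ] {α β w : ℕ} (hα : 1 ≤ α)
    (hco : Nat.Coprime α β) {f : P2 K} (hf : Homog α β w f) (h0 : f ≠ 0) {z : ℂ} (hz : z ≠ 0)
    {n : ℕ} (hn : (Polynomial.X - Polynomial.C z) ^ n ∣ (dehom f).map (algebraMap K ℂ)) :
    α * β * n ≤ w := by
  classical
  set h := (dehom f).map (algebraMap K ℂ) with hh
  have hne : h ≠ 0 := by
    rw [hh, Polynomial.map_ne_zero_iff (algebraMap K ℂ).injective]
    exact BadR_ne hα hf h0
  have key : ∀ ζ ∈ Polynomial.nthRootsFinset α (1 : ℂ),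
      (Polynomial.X - Polynomial.C (ζ * z)) ^ n ∣ h := by
    intro ζ hζ
    rw [Polynomial.mem_nthRootsFinset (by omega)] at hζ
    have hζ0 : ζ ≠ 0 := by
      rintro rfl
      rw [zero_pow (by omega)] at hζ
      exact zero_ne_one hζ
    have hζ' : ζ⁻¹ ^ α = 1 := by rw [inv_pow, hζ, inv_one]
    obtain ⟨b, hb⟩ := BadR_sym hco hf hζ'
    rw [← hh] at hb
    obtain ⟨g, hg⟩ := hn
    have h1 : (Polynomial.X - Polynomial.C (ζ * z)) ^ n ∣
        h.comp (Polynomial.C ζ⁻¹ * Polynomial.X) := by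
      rw [hg, Polynomial.mul_comp, Polynomial.pow_comp, Polynomial.sub_comp, Polynomial.X_comp,
        Polynomial.C_comp]
      refine Dvd.dvd.mul_right (pow_dvd_pow_of_dvd ?_ n) _
      refine ⟨Polynomial.C ζ⁻¹, ?_⟩
      rw [sub_mul, ← Polynomial.C_mul, mul_comm Polynomial.X]
      congr 2
      field_simp
    rw [hb] at h1
    refine (Associated.dvd_iff_dvd_right ?_).1 h1
    refine associated_of_dvd_dvd ?_ (dvd_mul_left _ _)
    refine ⟨Polynomial.C (ζ⁻¹ ^ b)⁻¹, ?_⟩
    have h2 : Polynomial.C (ζ⁻¹ ^ b) * Polynomial.C (ζ⁻¹ ^ b)⁻¹ = (1 : Polynomial ℂ) := by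
      rw [← Polynomial.C_mul, mul_inv_cancel₀ (pow_ne_zero b (inv_ne_zero hζ0)), Polynomial.C_1]
    linear_combination -h * h2
  have h1 : ∏ ζ ∈ Polynomial.nthRootsFinset α (1 : ℂ),
      (Polynomial.X - Polynomial.C (ζ * z)) ^ n ∣ h := by
    refine Finset.prod_dvd_of_coprime ?_ key
    intro ζ _ ζ' _ hne
    refine IsCoprime.pow (Polynomial.isCoprime_X_sub_C_of_isUnit_sub ?_)
    rw [isUnit_iff_ne_zero, sub_ne_zero]
    exact fun h2 => hne (mul_right_cancel₀ hz h2)
  have h2 := Polynomial.natDegree_le_of_dvd h1 hne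
  rw [Polynomial.natDegree_prod_of_monic _ _ (fun ζ _ => (Polynomial.monic_X_sub_C _).pow n)] at h2
  simp only [Polynomial.natDegree_pow, Polynomial.natDegree_X_sub_C, mul_one,
    Finset.sum_const, smul_eq_mul] at h2
  rw [(Complex.isPrimitiveRoot_exp α (by omega)).card_nthRootsFinset, hh,
    Polynomial.natDegree_map] at h2
  have h3 := BadR_deg hf
  calc α * β * n = β * (α * n) := by ring
    _ ≤ β * (dehom f).natDegree := Nat.mul_le_mul_left _ h2
    _ ≤ w := h3

/-- powers of the minimal polynomial -/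
private theorem BadR_minpoly {K : Type*} [Field K] [CharZero K] [Algebra K ℂ] {z : ℂ}
    (hz : IsIntegral K z) (n : ℕ) : ∀ h : Polynomial K,
    (Polynomial.X - Polynomial.C z) ^ n ∣ h.map (algebraMap K ℂ) → minpoly K z ^ n ∣ h := by
  have hsep : ((minpoly K z).map (algebraMap K ℂ)).Separable :=
    (minpoly.irreducible hz).separable.map
  have hroot : Polynomial.X - Polynomial.C z ∣ (minpoly K z).map (algebraMap K ℂ) := by
    rw [Polynomial.dvd_iff_isRoot, Polynomial.IsRoot.def, Polynomial.eval_map_algebraMap]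
    exact minpoly.aeval K z
  obtain ⟨m1, hm1⟩ := hroot
  rw [hm1] at hsep
  have hcop := hsep.isCoprime
  induction n with
  | zero =>
    intro h _
    rw [pow_zero]
    exact one_dvd _
  | succ n ih =>
    intro h hd
    have h1 : Polynomial.X - Polynomial.C z ∣ h.map (algebraMap K ℂ) :=
      (dvd_pow_self _ (Nat.succ_ne_zero n)).trans hd
    rw [Polynomial.dvd_iff_isRoot, Polynomial.IsRoot.def, Polynomial.eval_map_algebraMap] at h1
    obtain ⟨g, hg⟩ := minpoly.dvd K z h1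
    rw [hg, Polynomial.map_mul, hm1, pow_succ', mul_assoc] at hd
    have h2 := (mul_dvd_mul_iff_left (Polynomial.X_sub_C_ne_zero z)).1 hd
    have h3 : (Polynomial.X - Polynomial.C z) ^ n ∣ g.map (algebraMap K ℂ) :=
      (hcop.pow_left).dvd_of_dvd_mul_left h2
    rw [hg, pow_succ']
    exact mul_dvd_mul_left _ (ih g h3)

theorem bad_root {K : Type*} [Field K] [CharZero K] [Algebra K ℂ] {α β : ℕ} (hα : 1 ≤ α)
    (hαβ : α ≤ β) (hco : Nat.Coprime α β) {r : ℕ} (c : Fin r → ℚ) (hc : ∀ i, 0 ≤ c i)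
    (w : Fin r → ℕ) (H : Fin r → P2 K) (hH : ∀ i, H i ≠ 0) (hw : ∀ i, Homog α β (w i) (H i))
    (A : ℝ) (hA : A = (α : ℝ) + β - ∑ i, (c i : ℝ) * w i) (hA0 : 0 < A) (z : ℂ) (hz : z ≠ 0)
    (n : Fin r → ℕ)
    (hn : ∀ i, (Polynomial.X - Polynomial.C z) ^ n i ∣ (dehom (H i)).map (algebraMap K ℂ))
    (hbad : (α : ℝ) * β * (1 - ∑ i, (c i : ℝ) * n i) < A / 2) :
    α = 1 ∧ ∃ y : K, y ≠ 0 ∧ algebraMap K ℂ y = z ∧
      ∀ i, (Polynomial.X - Polynomial.C y) ^ n i ∣ dehom (H i) := by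
  have hc' : ∀ i, (0 : ℝ) ≤ (c i : ℝ) := fun i => by exact_mod_cast hc i
  have hα' : (1 : ℝ) ≤ α := by exact_mod_cast hα
  have hαβ' : (α : ℝ) ≤ β := by exact_mod_cast hαβ
  -- first step
  have h1 : α = 1 := by
    by_contra hne
    have h2 : (2 : ℝ) ≤ α := by
      have : 2 ≤ α := by omega
      exact_mod_cast this
    have h3 : (α : ℝ) * β * ∑ i, (c i : ℝ) * n i ≤ ∑ i, (c i : ℝ) * w i := by
      rw [Finset.mul_sum]
      refine Finset.sum_le_sum fun i _ => ?_
      have h4 : ((α * β * n i : ℕ) : ℝ) ≤ w i := by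
        exact_mod_cast BadR_mult hα hco (hw i) (hH i) hz (hn i)
      push_cast at h4
      nlinarith [hc' i, mul_le_mul_of_nonneg_left h4 (hc' i)]
    nlinarith [mul_nonneg (sub_nonneg.2 h2) (sub_nonneg.2 (h2.trans hαβ'))]
  refine ⟨h1, ?_⟩
  subst h1
  simp only [Nat.cast_one, one_mul] at hbad hA hα' hαβ'
  -- some multiplicity is positive
  have h2 : ∃ i, 1 ≤ n i := by
    by_contra hcon
    push Not at hcon
    have h3 : ∑ i, (c i : ℝ) * n i = 0 := by
      refine Finset.sum_eq_zero fun i _ => ?_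
      have : n i = 0 := by have := hcon i; omega
      rw [this]
      simp
    rw [h3] at hbad
    have h4 : (0 : ℝ) ≤ ∑ i, (c i : ℝ) * w i :=
      Finset.sum_nonneg fun i _ => mul_nonneg (hc' i) (Nat.cast_nonneg _)
    linarith
  obtain ⟨i₀, hi₀⟩ := h2
  have hint : IsIntegral K z := by
    have h3 : Polynomial.X - Polynomial.C z ∣ (dehom (H i₀)).map (algebraMap K ℂ) :=
      (dvd_pow_self _ (by omega)).trans (hn i₀)
    rw [Polynomial.dvd_iff_isRoot, Polynomial.IsRoot.def, Polynomial.eval_map_algebraMap] at h3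
    have h4 : IsAlgebraic K z := ⟨dehom (H i₀), BadR_ne hα (hw i₀) (hH i₀), h3⟩
    exact h4.isIntegral
  have h3 : z ∈ (algebraMap K ℂ).range := by
    by_contra hcon
    have h4 := (minpoly.two_le_natDegree_iff hint).2 hcon
    have h5 : 2 * (β : ℝ) * ∑ i, (c i : ℝ) * n i ≤ ∑ i, (c i : ℝ) * w i := by
      rw [Finset.mul_sum]
      refine Finset.sum_le_sum fun i _ => ?_
      have h6 := Polynomial.natDegree_le_of_dvd (BadR_minpoly hint (n i) _ (hn i))
        (BadR_ne hα (hw i) (hH i))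
      rw [Polynomial.natDegree_pow] at h6
      have h7 := BadR_deg (hw i)
      have h8 : 2 * β * n i ≤ w i := by
        calc 2 * β * n i = β * (n i * 2) := by ring
          _ ≤ β * (n i * (minpoly K z).natDegree) :=
            Nat.mul_le_mul_left _ (Nat.mul_le_mul_left _ h4)
          _ ≤ β * (dehom (H i)).natDegree := Nat.mul_le_mul_left _ h6
          _ ≤ w i := h7
      have h9 : ((2 * β * n i : ℕ) : ℝ) ≤ w i := by exact_mod_cast h8
      push_cast at h9
      nlinarith [hc' i, mul_le_mul_of_nonneg_left h9 (hc' i)]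
    nlinarith
  obtain ⟨y, hy⟩ := h3
  refine ⟨y, ?_, hy, fun i => ?_⟩
  · rintro rfl
    rw [map_zero] at hy
    exact hz hy.symm
  · have h4 := hn i
    rw [← hy] at h4
    rw [← Polynomial.map_dvd_map' (algebraMap K ℂ)]
    simpa using h4

theorem bad_unique {K : Type*} [Field K] {β : ℕ} (hβ : 1 ≤ β) {r : ℕ} (c : Fin r → ℚ)
    (hc : ∀ i, 0 ≤ c i) (w : Fin r → ℕ) (H : Fin r → P2 K) (hH : ∀ i, H i ≠ 0)
    (hw : ∀ i, Homog 1 β (w i) (H i)) (A : ℝ) (hA : A = 1 + (β : ℝ) - ∑ i, (c i : ℝ) * w i)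
    (y y' : K) (n n' : Fin r → ℕ)
    (hn : ∀ i, (Polynomial.X - Polynomial.C y) ^ n i ∣ dehom (H i))
    (hn' : ∀ i, (Polynomial.X - Polynomial.C y') ^ n' i ∣ dehom (H i))
    (hbad : (β : ℝ) * (1 - ∑ i, (c i : ℝ) * n i) < A / 2)
    (hbad' : (β : ℝ) * (1 - ∑ i, (c i : ℝ) * n' i) < A / 2) : y = y' := by
  by_contra hne
  have hc' : ∀ i, (0 : ℝ) ≤ (c i : ℝ) := fun i => by exact_mod_cast hc i
  have hβ' : (1 : ℝ) ≤ β := by exact_mod_cast hβ
  have h5 : (β : ℝ) * ∑ i, (c i : ℝ) * n i + (β : ℝ) * ∑ i, (c i : ℝ) * n' i ≤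
      ∑ i, (c i : ℝ) * w i := by
    rw [Finset.mul_sum, Finset.mul_sum, ← Finset.sum_add_distrib]
    refine Finset.sum_le_sum fun i _ => ?_
    have h1 : (Polynomial.X - Polynomial.C y) ^ n i * (Polynomial.X - Polynomial.C y') ^ n' i ∣
        dehom (H i) := by
      refine IsCoprime.mul_dvd (IsCoprime.pow (Polynomial.isCoprime_X_sub_C_of_isUnit_sub ?_))
        (hn i) (hn' i)
      rw [isUnit_iff_ne_zero, sub_ne_zero]
      exact hne
    have h2 := Polynomial.natDegree_le_of_dvd h1 (BadR_ne le_rfl (hw i) (hH i))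
    rw [Polynomial.natDegree_mul (pow_ne_zero _ (Polynomial.X_sub_C_ne_zero _))
      (pow_ne_zero _ (Polynomial.X_sub_C_ne_zero _)), Polynomial.natDegree_pow,
      Polynomial.natDegree_pow, Polynomial.natDegree_X_sub_C, Polynomial.natDegree_X_sub_C,
      mul_one, mul_one] at h2
    have h3 := BadR_deg (hw i)
    have h4 : β * (n i + n' i) ≤ w i := (Nat.mul_le_mul_left _ h2).trans h3
    have h6 : ((β * (n i + n' i) : ℕ) : ℝ) ≤ w i := by exact_mod_cast h4
    push_cast at h6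
    nlinarith [hc' i, mul_le_mul_of_nonneg_left h6 (hc' i)]
  linarith

end FV
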