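import Pool.Agent.Lib.MP_9e8926_ag_FV.Colen

/-!
# Products of adapted bases
-/

set_option autoImplicit false

noncomputable section

namespace FV

open MvPolynomial

/-! ## Adapted bases of chains of subspaces -/

private theorem bp_ext {k E : Type*} [Field k] [AddCommGroup E] [Module k E] (V : Submodule k E)
    (hfd : FiniteDimensional k V) (S' : Finset E) (hS' : LinearIndepOn k id (S' : Set E))
    (hV : ∀ x ∈ S', x ∈ V) :
    ∃ S : Finset E, S' ⊆ S ∧ LinearIndepOn k id (S : Set E) ∧ (∀ x ∈ S, x ∈ V) ∧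
      S.card = Module.finrank k V := by
  classical
  obtain ⟨b, hb1, hb2, hb3, hb4⟩ :=
    exists_linearIndepOn_id_extension hS' (t := (V : Set E)) (fun x hx => hV x hx)
  have hsp : Submodule.span k b = V :=
    le_antisymm (Submodule.span_le.2 hb1) (fun x hx => hb3 hx)
  have hfd2 : FiniteDimensional k (Submodule.span k b) := by rw [hsp]; exact hfd
  have hb4' : LinearIndependent k ((↑) : b → E) := hb4
  have hfin : Finite b := by
    have hbas := Module.Basis.span hb4'
    have hfd3 : Module.Finite k (Submodule.span k (Set.range ((↑) : b → E))) := by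
      rw [Subtype.range_coe]
      exact hfd2
    exact Module.Finite.finite_basis hbas
  have hbf : b.Finite := hfin
  refine ⟨hbf.toFinset, ?_, ?_, ?_, ?_⟩
  · intro x hx
    exact hbf.mem_toFinset.2 (hb2 hx)
  · rw [hbf.coe_toFinset]
    exact hb4
  · intro x hx
    exact hb1 (hbf.mem_toFinset.1 hx)
  · letI : Fintype b := hbf.fintype
    have h1 := finrank_span_set_eq_card hb4'
    rw [hsp] at h1
    rw [h1]
    exact (Set.toFinset_card b).symm ▸ congrArg Finset.card (by ext x; simp)

private theorem bp_adapted {k E : Type*} [Field k] [AddCommGroup E] [Module k E] (n : ℕ) :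
    ∀ V : ℕ → Submodule k E, Antitone V → FiniteDimensional k (V 0) →
      ∃ (S : Finset E) (e : E → ℕ), LinearIndepOn k id (S : Set E) ∧
        S.card = Module.finrank k (V 0) ∧ (∀ x ∈ S, x ∈ V (e x)) ∧
        ∑ N ∈ Finset.range n, Module.finrank k (V (N + 1)) ≤ ∑ x ∈ S, e x := by
  classical
  induction n with
  | zero =>
    intro V _ hfd
    obtain ⟨S, -, h2, h3, h4⟩ := bp_ext (V 0) hfd ∅ (by simp) (by simp)
    exact ⟨S, fun _ => 0, h2, h4, h3, by simp⟩
  | succ n ih =>
    intro V hV hfd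
    have hfd1 : FiniteDimensional k (V 1) :=
      Submodule.finiteDimensional_of_le (hV (Nat.zero_le 1))
    obtain ⟨S', e', h1, h2, h3, h4⟩ := ih (fun N => V (N + 1))
      (fun a b hab => hV (by omega)) hfd1
    obtain ⟨S, g1, g2, g3, g4⟩ := bp_ext (V 0) hfd S' h1
      (fun x hx => hV (Nat.zero_le _) (h3 x hx))
    refine ⟨S, fun x => if x ∈ S' then e' x + 1 else 0, g2, g4, ?_, ?_⟩
    · intro x hx
      by_cases hx' : x ∈ S'
      · simp only [if_pos hx']
        exact h3 x hx'
      · simp only [if_neg hx']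
        exact g3 x hx
    · rw [Finset.sum_range_succ', ← Finset.sum_filter]
      have e1 : S.filter (fun x => x ∈ S') = S' := by
        ext x
        rw [Finset.mem_filter]
        exact ⟨fun h => h.2, fun h => ⟨g1 h, h⟩⟩
      rw [e1, Finset.sum_add_distrib, Finset.sum_const, smul_eq_mul, mul_one, h2]
      exact Nat.add_le_add_right h4 _

/-- A linearly independent finite set in a subspace. -/
private theorem bp_card_le {k E : Type*} [Field k] [AddCommGroup E] [Module k E]
    (V : Submodule k E) (hfd : FiniteDimensional k V) (S : Finset E)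
    (hS : LinearIndepOn k id (S : Set E)) (hV : ∀ x ∈ S, x ∈ V) :
    S.card ≤ Module.finrank k V := by
  obtain ⟨T, h1, -, -, h4⟩ := bp_ext V hfd S hS hV
  rw [← h4]
  exact Finset.card_le_card h1

/-! ## Homogeneous parts -/

private def bp_mo (a : ℕ × ℕ) : Fin 2 →₀ ℕ := Finsupp.single 0 a.1 + Finsupp.single 1 a.2

private lemma bp_mo_zero (a : ℕ × ℕ) : bp_mo a 0 = a.1 := by simp [bp_mo]

private lemma bp_mo_one (a : ℕ × ℕ) : bp_mo a 1 = a.2 := by simp [bp_mo]

private lemma bp_mo_inj : Function.Injective bp_mo := by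
  intro a b h
  have h0 := DFunLike.congr_fun h 0
  have h1 := DFunLike.congr_fun h 1
  rw [bp_mo_zero, bp_mo_zero] at h0
  rw [bp_mo_one, bp_mo_one] at h1
  exact Prod.ext h0 h1

private lemma bp_wt_mo (α β : ℕ) (a : ℕ × ℕ) : wt α β (bp_mo a) = α * a.1 + β * a.2 := by
  rw [wt, bp_mo_zero, bp_mo_one]

private lemma bp_mo_eta (m : Fin 2 →₀ ℕ) : bp_mo (m 0, m 1) = m := by
  ext i
  fin_cases i
  · exact bp_mo_zero _
  · exact bp_mo_one _

variable {k : Type*} [Field k] {α β : ℕ}

private theorem bp_homog_add {j : ℕ} {f g : P2 k} (hf : Homog α β j f) (hg : Homog α β j g) :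
    Homog α β j (f + g) := by
  classical
  intro m hm
  rcases Finset.mem_union.1 (MvPolynomial.support_add hm) with h | h
  · exact hf m h
  · exact hg m h

private theorem bp_mem_smul {c : k} {f : P2 k} {m : Fin 2 →₀ ℕ} (hm : m ∈ (c • f).support) :
    m ∈ f.support := by
  rw [mem_support_iff, coeff_smul] at hm
  rw [mem_support_iff]
  intro h
  exact hm (by rw [h, smul_zero])

private def bp_P (k : Type*) [Field k] (α β j : ℕ) : Submodule k (P2 k) where
  carrier := {f | Homog α β j f}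
  add_mem' := fun hf hg => bp_homog_add hf hg
  zero_mem' := fun m hm => by simp at hm
  smul_mem' := fun c f hf m hm => hf m (bp_mem_smul hm)

/-- The parts of weight `j` of the elements of `b` without monomials of smaller weight. -/
private def bp_B (α β : ℕ) (b : Ideal (P2 k)) (j : ℕ) : Submodule k (P2 k) where
  carrier := {s | Homog α β j s ∧ ∃ z ∈ b, Ge α β (j + 1) (z - s)}
  add_mem' := by
    rintro s t ⟨hs, z, hz, hzs⟩ ⟨ht, w, hw, hwt⟩
    refine ⟨bp_homog_add hs ht, z + w, b.add_mem hz hw, ?_⟩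
    have e : z + w - (s + t) = (z - s) + (w - t) := by ring
    rw [e]
    exact Ge.add hzs hwt
  zero_mem' := ⟨fun m hm => by simp at hm, 0, b.zero_mem, fun m hm => by simp at hm⟩
  smul_mem' := by
    rintro c s ⟨hs, z, hz, hzs⟩
    refine ⟨fun m hm => hs m (bp_mem_smul hm), c • z, ?_, ?_⟩
    · rw [MvPolynomial.smul_eq_C_mul]
      exact b.mul_mem_left _ hz
    · rw [← smul_sub]
      exact fun m hm => hzs m (bp_mem_smul hm)

private theorem bp_B_le (b : Ideal (P2 k)) (j : ℕ) : bp_B α β b j ≤ bp_P k α β j :=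
  fun _ hs => hs.1

private theorem bp_B_mono {b b' : Ideal (P2 k)} (h : b ≤ b') (j : ℕ) :
    bp_B α β b j ≤ bp_B α β b' j := by
  rintro s ⟨hs, z, hz, hzs⟩
  exact ⟨hs, z, h hz, hzs⟩

private def bp_D (α β j : ℕ) : Finset (ℕ × ℕ) :=
  (E α β (j + 1)).filter (fun a => α * a.1 + β * a.2 = j)

private theorem bp_P_le (hα : 1 ≤ α) (hβ : 1 ≤ β) (j : ℕ) :
    FiniteDimensional k (bp_P k α β j) ∧
      Module.finrank k (bp_P k α β j) ≤ (bp_D α β j).card := by
  classical
  set T : Finset (P2 k) := (bp_D α β j).image (fun a => monomial (bp_mo a) (1 : k)) with hT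
  have h1 : bp_P k α β j ≤ Submodule.span k (T : Set (P2 k)) := by
    intro f hf
    rw [f.as_sum]
    refine Submodule.sum_mem _ fun m hm => ?_
    have e : (monomial m (coeff m f) : P2 k) = coeff m f • monomial m (1 : k) := by
      rw [smul_monomial, smul_eq_mul, mul_one]
    rw [e]
    refine Submodule.smul_mem _ _ (Submodule.subset_span ?_)
    rw [Finset.mem_coe, hT, Finset.mem_image]
    refine ⟨(m 0, m 1), ?_, by rw [bp_mo_eta]⟩
    have hw : wt α β m = j := hf m hm
    unfold wt at hw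
    unfold bp_D
    rw [Finset.mem_filter, mem_E hα hβ]
    exact ⟨by dsimp only; omega, hw⟩
  have h2 : FiniteDimensional k (bp_P k α β j) := Submodule.finiteDimensional_of_le h1
  refine ⟨h2, ?_⟩
  have h3 := finrank_span_finset_le_card (R := k) T
  exact (Submodule.finrank_mono h1).trans (h3.trans Finset.card_image_le)

private theorem bp_B_fd (hα : 1 ≤ α) (hβ : 1 ≤ β) (b : Ideal (P2 k)) (j : ℕ) :
    FiniteDimensional k (bp_B α β b j) := by
  have := (bp_P_le (k := k) hα hβ j).1
  exact Submodule.finiteDimensional_of_le (bp_B_le b j)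

private theorem bp_D_eq (hα : 1 ≤ α) (hβ : 1 ≤ β) {j W : ℕ} (h : j < W) :
    bp_D α β j = (E α β W).filter (fun a => α * a.1 + β * a.2 = j) := by
  ext a
  unfold bp_D
  rw [Finset.mem_filter, Finset.mem_filter, mem_E hα hβ, mem_E hα hβ]
  omega

private theorem bp_D_sum (hα : 1 ≤ α) (hβ : 1 ≤ β) (W : ℕ) (f : ℕ → ℕ) :
    ∑ j ∈ Finset.range W, (bp_D α β j).card * f j =
      ∑ a ∈ E α β W, f (α * a.1 + β * a.2) := by
  have h1 : ∀ a ∈ E α β W, α * a.1 + β * a.2 ∈ Finset.range W := fun a ha => by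
    rw [Finset.mem_range]
    exact (mem_E hα hβ a).1 ha
  rw [← Finset.sum_fiberwise_of_maps_to h1 (fun a => f (α * a.1 + β * a.2))]
  refine Finset.sum_congr rfl fun j hj => ?_
  rw [bp_D_eq hα hβ (Finset.mem_range.1 hj), Finset.card_eq_sum_ones, Finset.sum_mul]
  refine Finset.sum_congr rfl fun a ha => ?_
  rw [Finset.mem_filter] at ha
  rw [ha.2, one_mul]

/-- the part of weight `j` -/
private def bp_part0 (α β j : ℕ) (f : P2 k) : P2 k :=
  ∑ m ∈ f.support.filter (fun m => wt α β m = j), monomial m (coeff m f)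

private lemma bp_coeff_part0 (α β j : ℕ) (f : P2 k) (n : Fin 2 →₀ ℕ) :
    coeff n (bp_part0 α β j f) = if wt α β n = j then coeff n f else 0 := by
  classical
  unfold bp_part0
  rw [coeff_sum]
  simp only [coeff_monomial]
  rw [Finset.sum_ite_eq']
  simp only [Finset.mem_filter, mem_support_iff]
  by_cases h1 : wt α β n = j
  · by_cases h2 : coeff n f = 0
    · simp [h2]
    · simp [h1, h2]
  · simp [h1]

private def bp_part (k : Type*) [Field k] (α β j : ℕ) : P2 k →ₗ[k] P2 k where
  toFun := bp_part0 α β j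
  map_add' := fun f g => by
    ext n
    rw [coeff_add, bp_coeff_part0, bp_coeff_part0, bp_coeff_part0, coeff_add]
    split_ifs
    · rfl
    · rw [add_zero]
  map_smul' := fun c f => by
    ext n
    rw [RingHom.id_apply, coeff_smul, bp_coeff_part0, bp_coeff_part0, coeff_smul]
    split_ifs
    · rfl
    · rw [smul_zero]

private lemma bp_coeff_part (j : ℕ) (f : P2 k) (n : Fin 2 →₀ ℕ) :
    coeff n (bp_part k α β j f) = if wt α β n = j then coeff n f else 0 :=
  bp_coeff_part0 α β j f n

/-- The elements of `b` all of whose monomials have weights in `[j, W)`. -/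
private def bp_U (α β : ℕ) (b : Ideal (P2 k)) (W j : ℕ) : Submodule k (P2 k) where
  carrier := {f | f ∈ b ∧ ∀ m ∈ f.support, j ≤ wt α β m ∧ wt α β m < W}
  add_mem' := by
    classical
    rintro s t ⟨hs, hs'⟩ ⟨ht, ht'⟩
    refine ⟨b.add_mem hs ht, fun m hm => ?_⟩
    rcases Finset.mem_union.1 (MvPolynomial.support_add hm) with h | h
    · exact hs' m h
    · exact ht' m h
  zero_mem' := ⟨b.zero_mem, fun m hm => by simp at hm⟩
  smul_mem' := by
    rintro c s ⟨hs, hs'⟩
    refine ⟨?_, fun m hm => hs' m (bp_mem_smul hm)⟩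
    rw [MvPolynomial.smul_eq_C_mul]
    exact b.mul_mem_left _ hs

private theorem bp_U_fd (hα : 1 ≤ α) (hβ : 1 ≤ β) (b : Ideal (P2 k)) (W j : ℕ) :
    FiniteDimensional k (bp_U α β b W j) := by
  classical
  set T : Finset (P2 k) := (E α β W).image (fun a => monomial (bp_mo a) (1 : k)) with hT
  have h1 : bp_U α β b W j ≤ Submodule.span k (T : Set (P2 k)) := by
    intro f hf
    rw [f.as_sum]
    refine Submodule.sum_mem _ fun m hm => ?_
    have e : (monomial m (coeff m f) : P2 k) = coeff m f • monomial m (1 : k) := by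
      rw [smul_monomial, smul_eq_mul, mul_one]
    rw [e]
    refine Submodule.smul_mem _ _ (Submodule.subset_span ?_)
    rw [Finset.mem_coe, hT, Finset.mem_image]
    refine ⟨(m 0, m 1), ?_, by rw [bp_mo_eta]⟩
    rw [mem_E hα hβ]
    exact (hf.2 m hm).2
  exact Submodule.finiteDimensional_of_le h1

private theorem bp_U_step (hα : 1 ≤ α) (hβ : 1 ≤ β) (b : Ideal (P2 k)) (W j : ℕ) :
    Module.finrank k (bp_U α β b W j) ≤
      Module.finrank k (bp_B α β b j) + Module.finrank k (bp_U α β b W (j + 1)) := by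
  have := bp_U_fd (k := k) hα hβ b W j
  have := bp_U_fd (k := k) hα hβ b W (j + 1)
  have := bp_B_fd (k := k) hα hβ b j
  set g := (bp_part k α β j).domRestrict (bp_U α β b W j) with hg
  have h1 := LinearMap.finrank_range_add_finrank_ker g
  have h2 : LinearMap.range g ≤ bp_B α β b j := by
    rintro _ ⟨f, rfl⟩
    obtain ⟨f, hfb, hf⟩ := f
    have e : g ⟨f, hfb, hf⟩ = bp_part k α β j f := rfl
    rw [e]
    refine ⟨?_, f, hfb, ?_⟩
    · intro n hn
      rw [mem_support_iff, bp_coeff_part] at hn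
      by_contra hc
      exact hn (if_neg hc)
    · intro n hn
      rw [mem_support_iff, coeff_sub, bp_coeff_part] at hn
      by_cases hw : wt α β n = j
      · rw [if_pos hw, sub_self] at hn
        exact absurd rfl hn
      · rw [if_neg hw, sub_zero] at hn
        have := (hf n (mem_support_iff.2 hn)).1
        omega
  have h3 : (LinearMap.ker g).map (bp_U α β b W j).subtype ≤ bp_U α β b W (j + 1) := by
    rintro _ ⟨f, hf, rfl⟩
    obtain ⟨f, hfb, hf'⟩ := f
    have e : bp_part k α β j f = 0 := hf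
    refine ⟨hfb, fun n hn => ?_⟩
    obtain ⟨h4, h5⟩ := hf' n hn
    refine ⟨?_, h5⟩
    by_contra hc
    have hw : wt α β n = j := by omega
    have h6 := bp_coeff_part (α := α) (β := β) j f n
    rw [e, if_pos hw, coeff_zero] at h6
    exact mem_support_iff.1 hn h6.symm
  have h4 := Submodule.finrank_mono h2
  have h5 := Submodule.finrank_mono h3
  rw [Submodule.finrank_map_subtype_eq] at h5
  omega

private theorem bp_U_sum (hα : 1 ≤ α) (hβ : 1 ≤ β) (b : Ideal (P2 k)) (W : ℕ) :
    Module.finrank k (bp_U α β b W 0) ≤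
      ∑ j ∈ Finset.range W, Module.finrank k (bp_B α β b j) := by
  have h1 : ∀ j : ℕ, Module.finrank k (bp_U α β b W 0) ≤
      ∑ i ∈ Finset.range j, Module.finrank k (bp_B α β b i) +
        Module.finrank k (bp_U α β b W j) := by
    intro j
    induction j with
    | zero => simp
    | succ j ih =>
      rw [Finset.sum_range_succ]
      have := bp_U_step (k := k) hα hβ b W j
      omega
  have h2 : bp_U α β b W W = ⊥ := by
    rw [eq_bot_iff]
    rintro f ⟨-, hf⟩
    rw [Submodule.mem_bot]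
    by_contra hc
    obtain ⟨m, hm⟩ := support_nonempty.2 hc
    have := hf m hm
    omega
  have h3 := h1 W
  rw [h2, finrank_bot, add_zero] at h3
  exact h3

private theorem bp_E_le (hα : 1 ≤ α) (hβ : 1 ≤ β) (b : Ideal (P2 k)) (W : ℕ)
    (hfin : Module.Finite k (P2 k ⧸ b)) :
    (E α β W).card ≤
      ∑ j ∈ Finset.range W, Module.finrank k (bp_B α β b j) + Module.finrank k (P2 k ⧸ b) := by
  classical
  refine le_trans ?_ (Nat.add_le_add_right (bp_U_sum hα hβ b W) _)
  have := bp_U_fd (k := k) hα hβ b W 0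
  let T : ({x // x ∈ E α β W} → k) →ₗ[k] P2 k :=
    Fintype.linearCombination k (fun a => monomial (bp_mo a.1) (1 : k))
  have hTc : ∀ c, T c = ∑ i, c i • monomial (bp_mo i.1) (1 : k) := fun c =>
    Fintype.linearCombination_apply k _ c
  have hcoef : ∀ c (n : Fin 2 →₀ ℕ), coeff n (T c) =
      ∑ i : {x // x ∈ E α β W}, if bp_mo i.1 = n then c i else 0 := by
    intro c n
    rw [hTc, coeff_sum]
    refine Finset.sum_congr rfl fun i _ => ?_
    rw [coeff_smul, coeff_monomial, smul_eq_mul]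
    split_ifs
    · rw [mul_one]
    · rw [mul_zero]
  have hTinj : ∀ c, T c = 0 → c = 0 := by
    intro c hc
    funext b
    have h1 := hcoef c (bp_mo b.1)
    rw [hc, coeff_zero] at h1
    have h2 : ∀ i : {x // x ∈ E α β W}, (if bp_mo i.1 = bp_mo b.1 then c i else 0) =
        if i = b then c i else 0 := by
      intro i
      by_cases hib : i = b
      · subst hib; simp
      · rw [if_neg hib, if_neg (fun h => hib (Subtype.ext (bp_mo_inj h)))]
    rw [Finset.sum_congr rfl fun i _ => h2 i, Finset.sum_ite_eq'] at h1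
    simp only [Finset.mem_univ, if_true] at h1
    exact h1.symm
  let π : P2 k →ₗ[k] (P2 k ⧸ b) := (Ideal.Quotient.mkₐ k b).toLinearMap
  have hker : ∀ x, π x = 0 ↔ x ∈ b := fun x => Ideal.Quotient.eq_zero_iff_mem
  have hd1 := LinearMap.finrank_range_add_finrank_ker (π ∘ₗ T)
  have hd2 : Module.finrank k (LinearMap.range (π ∘ₗ T)) ≤ Module.finrank k (P2 k ⧸ b) :=
    Submodule.finrank_le _
  have hd3 : Module.finrank k ({x // x ∈ E α β W} → k) = (E α β W).card := by
    rw [Module.finrank_fintype_fun_eq_card, Fintype.card_coe]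
  have hK : ∀ c ∈ LinearMap.ker (π ∘ₗ T), T c ∈ bp_U α β b W 0 := by
    intro c hc
    refine ⟨(hker _).1 hc, fun m hm => ⟨Nat.zero_le _, ?_⟩⟩
    rw [mem_support_iff, hcoef] at hm
    obtain ⟨i, -, hi⟩ := Finset.exists_ne_zero_of_sum_ne_zero hm
    have hi' : bp_mo i.1 = m := by
      by_contra hcon
      exact hi (if_neg hcon)
    rw [← hi', bp_wt_mo]
    exact (mem_E hα hβ _).1 i.2
  let S : LinearMap.ker (π ∘ₗ T) →ₗ[k] bp_U α β b W 0 :=
    (T ∘ₗ (LinearMap.ker (π ∘ₗ T)).subtype).codRestrict _ (fun c => hK c.1 c.2)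
  have hS : Function.Injective S := by
    rw [← LinearMap.ker_eq_bot, LinearMap.ker_eq_bot']
    intro c hc
    apply Subtype.ext
    apply hTinj
    exact congrArg Subtype.val hc
  have hd4 := LinearMap.finrank_le_finrank_of_injective hS
  omega

/-! ## Multiplicities -/

/-- The number of elements of an independent set of polynomials of weight `j` which are divisible
by `π ^ t`. -/
private theorem bp_dvd_card (hα : 1 ≤ α) (hβ : 1 ≤ β) (j v t : ℕ) (π : P2 k)
    (hπ : Homog α β v π) (S : Finset (P2 k)) (hS : LinearIndepOn k id (S : Set (P2 k)))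
    (hSj : ∀ x ∈ S, Homog α β j x) [DecidablePred fun x : P2 k => π ^ t ∣ x] :
    (S.filter (fun x => π ^ t ∣ x)).card ≤ if t * v ≤ j then (bp_D α β (j - t * v)).card else 0 := by
  have hne : ∀ x ∈ S, x ≠ 0 := fun x hx h0 => by
    have h1 : x ≠ 0 := hS.ne_zero (i := x) hx
    exact h1 h0
  have hstep : ∀ x ∈ S, π ^ t ∣ x → ∃ y : P2 k, x = π ^ t * y ∧ t * v ≤ j ∧
      Homog α β (j - t * v) y := by
    rintro x hx ⟨y, hy⟩
    have hx0 := hne x hx
    have hp0 : π ^ t ≠ 0 := by
      rintro h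
      rw [h, zero_mul] at hy
      exact hx0 hy
    obtain ⟨i, hi, hy'⟩ := (hSj x hx).of_dvd hx0 ⟨π ^ t, by rw [hy, mul_comm]⟩
    have h1 : Homog α β (t * v + i) x := by
      rw [hy]
      exact (hπ.pow t).mul hy'
    have h2 := h1.unique (hSj x hx) hx0
    refine ⟨y, hy, by omega, ?_⟩
    have h3 : j - t * v = i := by omega
    rw [h3]
    exact hy'
  split_ifs with htj
  · have := (bp_P_le (k := k) hα hβ (j - t * v)).1
    set V : Submodule k (P2 k) :=
      (bp_P k α β (j - t * v)).map (LinearMap.mulLeft k (π ^ t)) with hV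
    have hVfd : FiniteDimensional k V := by
      rw [hV]
      infer_instance
    have h1 : (S.filter (fun x => π ^ t ∣ x)).card ≤ Module.finrank k V := by
      refine bp_card_le V hVfd _ (hS.mono ?_) ?_
      · intro x hx
        rw [Finset.mem_coe, Finset.mem_filter] at hx
        exact hx.1
      · intro x hx
        rw [Finset.mem_filter] at hx
        obtain ⟨y, hy, -, hy'⟩ := hstep x hx.1 hx.2
        exact ⟨y, hy', by rw [hy]; rfl⟩
    have h2 : Module.finrank k V ≤ Module.finrank k (bp_P k α β (j - t * v)) :=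
      Submodule.finrank_map_le _ _
    exact h1.trans (h2.trans (bp_P_le hα hβ _).2)
  · rw [Nat.le_zero, Finset.card_eq_zero, Finset.filter_eq_empty_iff]
    intro x hx hd
    obtain ⟨y, -, h, -⟩ := hstep x hx hd
    exact htj h

private theorem bp_mult_one (j v W : ℕ) (hj : j < W) (hv : 1 ≤ v)
    (π : P2 k) (hπ : Homog α β v π) (x : P2 k) (hx0 : x ≠ 0)
    (hx : Homog α β j x) [∀ t, Decidable (π ^ (t + 1) ∣ x)] :
    emultiplicity π x = ((∑ t ∈ Finset.range W, if π ^ (t + 1) ∣ x then 1 else 0 : ℕ) : ℕ∞) := by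
  have hle : ∀ t, π ^ t ∣ x → t * v ≤ j := by
    rintro t ⟨y, hy⟩
    obtain ⟨i, hi, hy'⟩ := hx.of_dvd hx0 ⟨π ^ t, by rw [hy, mul_comm]⟩
    have h1 : Homog α β (t * v + i) x := by
      rw [hy]
      exact (hπ.pow t).mul hy'
    have h2 := h1.unique hx hx0
    omega
  have hfin : FiniteMultiplicity π x := by
    refine ⟨j, fun h => ?_⟩
    have := hle _ h
    nlinarith
  rw [hfin.emultiplicity_eq_multiplicity, Nat.cast_inj, ← Finset.card_filter]
  have h1 : (Finset.range W).filter (fun t => π ^ (t + 1) ∣ x) =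
      Finset.range (multiplicity π x) := by
    ext t
    rw [Finset.mem_filter, Finset.mem_range, Finset.mem_range]
    constructor
    · rintro ⟨-, h⟩
      exact hfin.le_multiplicity_of_pow_dvd h
    · intro h
      have h2 : π ^ (t + 1) ∣ x := pow_dvd_of_le_multiplicity h
      refine ⟨?_, h2⟩
      have := hle _ h2
      nlinarith
  rw [h1, Finset.card_range]

theorem basis_prod {k : Type*} [Field k] {α β : ℕ} (hα : 1 ≤ α) (hβ : 1 ≤ β)
    (b : Ideal (P2 k)) (N0 : ℕ) (h0 : m0 k ^ N0 ≤ b) (W n : ℕ) :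
    ∃ (h Hh : P2 k) (Ω M : ℕ), IsInit α β h Ω Hh ∧ h ∈ b ^ M ∧
      (Ω : ℝ) ≤ ((W : ℝ) + α + β + 1) ^ 3 / (3 * α * β) ∧
      (n : ℝ) * (E α β W).card -
        ∑ N ∈ Finset.range n, (Module.finrank k (P2 k ⧸ b ^ (N + 1)) : ℝ) ≤ M ∧
      ∀ (π : P2 k) (v : ℕ), Irreducible π → Homog α β v π → 1 ≤ v → ∀ l : ℕ, π ^ l ∣ Hh →
        (v : ℝ) * l ≤ ((W : ℝ) + α + β) ^ 3 / (6 * α * β) := by
  classical
  have hanti : ∀ j, Antitone (fun N : ℕ => bp_B α β (b ^ N) j) := fun j A B hAB =>
    bp_B_mono (Ideal.pow_le_pow_right hAB) j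
  choose S e hS1 hS2 hS3 hS4 using fun j => bp_adapted (k := k) n
    (fun N : ℕ => bp_B α β (b ^ N) j) (hanti j) (bp_B_fd hα hβ _ j)
  have hSne : ∀ j, ∀ x ∈ S j, x ≠ 0 := fun j x hx => (hS1 j).ne_zero (i := x) hx
  have hSh : ∀ j, ∀ x ∈ S j, Homog α β j x := fun j x hx => (hS3 j x hx).1
  have hlift : ∀ j, ∀ x : P2 k, ∃ g : P2 k, x ∈ S j → g ∈ b ^ e j x ∧ IsInit α β g j x := by
    intro j x
    by_cases hx : x ∈ S j
    · obtain ⟨hxh, z, hz, hzx⟩ := hS3 j x hx
      exact ⟨z, fun _ => ⟨hz, hSne j x hx, hxh, hzx⟩⟩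
    · exact ⟨0, fun h => absurd h hx⟩
  choose g hg using hlift
  have hScard : ∀ j, (S j).card ≤ (bp_D α β j).card := by
    intro j
    have := (bp_P_le (k := k) hα hβ j).1
    rw [hS2 j]
    exact (Submodule.finrank_mono (bp_B_le _ j)).trans (bp_P_le hα hβ j).2
  refine ⟨∏ j ∈ Finset.range W, ∏ x ∈ S j, g j x, ∏ j ∈ Finset.range W, ∏ x ∈ S j, x,
    ∑ j ∈ Finset.range W, ∑ x ∈ S j, j, ∑ j ∈ Finset.range W, ∑ x ∈ S j, e j x, ?_, ?_, ?_, ?_, ?_⟩
  · exact IsInit.prod _ fun j _ => IsInit.prod _ fun x hx => (hg j x hx).2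
  · rw [← Finset.prod_pow_eq_pow_sum]
    refine Ideal.prod_mem_prod fun j _ => ?_
    rw [← Finset.prod_pow_eq_pow_sum]
    exact Ideal.prod_mem_prod fun x hx => (hg j x hx).1
  · refine le_trans ?_ (omega_upper hα hβ W)
    have h1 := bp_D_sum hα hβ W (fun j => j)
    rw [← h1]
    have h2 : ∑ j ∈ Finset.range W, ∑ x ∈ S j, j ≤
        ∑ j ∈ Finset.range W, (bp_D α β j).card * j := by
      refine Finset.sum_le_sum fun j _ => ?_
      rw [Finset.sum_const, smul_eq_mul]
      exact Nat.mul_le_mul_right _ (hScard j)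
    exact_mod_cast h2
  · have h1 : ∑ N ∈ Finset.range n, ∑ j ∈ Finset.range W,
        Module.finrank k (bp_B α β (b ^ (N + 1)) j) ≤
          ∑ j ∈ Finset.range W, ∑ x ∈ S j, e j x := by
      rw [Finset.sum_comm]
      exact Finset.sum_le_sum fun j _ => hS4 j
    obtain ⟨C0, hC0⟩ := finrank_pow_le b N0 h0
    have h2 : ∀ N ∈ Finset.range n, ((E α β W).card : ℝ) -
        (Module.finrank k (P2 k ⧸ b ^ (N + 1)) : ℝ) ≤
        ((∑ j ∈ Finset.range W, Module.finrank k (bp_B α β (b ^ (N + 1)) j) : ℕ) : ℝ) := by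
      intro N _
      have h3 := bp_E_le hα hβ (b ^ (N + 1)) W (hC0 (N + 1) (by omega)).1
      rw [sub_le_iff_le_add]
      exact_mod_cast h3
    have h3 := Finset.sum_le_sum h2
    rw [Finset.sum_sub_distrib, Finset.sum_const, Finset.card_range, nsmul_eq_mul] at h3
    refine h3.trans ?_
    rw [← Nat.cast_sum]
    exact_mod_cast h1
  · intro π v hirr hπ hv l hl
    have hpr : Prime π := hirr.prime
    have h1 : (l : ℕ∞) ≤ emultiplicity π (∏ j ∈ Finset.range W, ∏ x ∈ S j, x) :=
      le_emultiplicity_of_pow_dvd hl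
    rw [Finset.emultiplicity_prod hpr] at h1
    have h2 : ∀ j ∈ Finset.range W, emultiplicity π (∏ x ∈ S j, x) =
        ((∑ x ∈ S j, ∑ t ∈ Finset.range W, if π ^ (t + 1) ∣ x then 1 else 0 : ℕ) : ℕ∞) := by
      intro j hj
      rw [Finset.emultiplicity_prod hpr, Nat.cast_sum]
      exact Finset.sum_congr rfl fun x hx => bp_mult_one j v W (Finset.mem_range.1 hj) hv π
        hπ x (hSne j x hx) (hSh j x hx)
    rw [Finset.sum_congr rfl h2, ← Nat.cast_sum, Nat.cast_le] at h1
    have h3 : ∀ j, ∑ x ∈ S j, ∑ t ∈ Finset.range W, (if π ^ (t + 1) ∣ x then 1 else 0) ≤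
        ∑ t ∈ Finset.range W, if (t + 1) * v ≤ j then (bp_D α β (j - (t + 1) * v)).card else 0 := by
      intro j
      rw [Finset.sum_comm]
      refine Finset.sum_le_sum fun t _ => ?_
      rw [← Finset.card_filter]
      exact bp_dvd_card hα hβ j v (t + 1) π hπ (S j) (hS1 j) (hSh j)
    have h4 : l ≤ ∑ t ∈ Finset.range W, (E α β (W - (t + 1) * v)).card := by
      refine h1.trans ((Finset.sum_le_sum fun j _ => h3 j).trans ?_)
      rw [Finset.sum_comm]
      refine Finset.sum_le_sum fun t _ => ?_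
      set c := (t + 1) * v with hc
      rw [← Finset.sum_filter]
      have h5 := bp_D_sum hα hβ (W - c) (fun _ => 1)
      simp only [mul_one] at h5
      rw [Finset.card_eq_sum_ones, ← h5]
      apply le_of_eq
      refine Finset.sum_bij' (fun j _ => j - c) (fun i _ => i + c) ?_ ?_ ?_ ?_ ?_
      · intro j hj
        rw [Finset.mem_filter, Finset.mem_range] at hj
        rw [Finset.mem_range]
        omega
      · intro i hi
        rw [Finset.mem_range] at hi
        rw [Finset.mem_filter, Finset.mem_range]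
        omega
      · intro j hj
        rw [Finset.mem_filter, Finset.mem_range] at hj
        omega
      · intro i hi
        omega
      · intro j hj
        rfl
    have h5 : (l : ℝ) ≤ ∑ t ∈ Finset.range W, ((E α β (W - (t + 1) * v)).card : ℝ) := by
      exact_mod_cast h4
    refine le_trans ?_ (mult_upper hα hβ W v hv)
    exact mul_le_mul_of_nonneg_left h5 (Nat.cast_nonneg _)

end FV
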