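import Pool.Agent.Lib.MP_9e8926_ag_FV.Defs

/-!
# Weights, initial forms, the ideals `(x^q, y^q)`: definitions
-/

set_option autoImplicit false

noncomputable section

namespace FV

open MvPolynomial

/-- The weight of an exponent. -/
def wt (α β : ℕ) (m : Fin 2 →₀ ℕ) : ℕ := α * m 0 + β * m 1

variable {k : Type*}

/-- All monomials of `f` have weight at least `j`. -/
def Ge [CommRing k] (α β j : ℕ) (f : P2 k) : Prop := ∀ m ∈ f.support, j ≤ wt α β m

/-- All monomials of `f` have weight `j`. -/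
def Homog [CommRing k] (α β j : ℕ) (f : P2 k) : Prop := ∀ m ∈ f.support, wt α β m = j

/-- `H` is the initial form of `f`, of weight `j`. -/
def IsInit [CommRing k] (α β : ℕ) (f : P2 k) (j : ℕ) (H : P2 k) : Prop :=
  H ≠ 0 ∧ Homog α β j H ∧ Ge α β (j + 1) (f - H)

/-- The ideal `(x^q, y^q)`. -/
def J (k : Type*) [CommRing k] (q : ℕ) : Ideal (P2 k) := Ideal.span {X 0 ^ q, X 1 ^ q}

/-- The maximal ideal of the origin. -/
def m0 (k : Type*) [CommRing k] : Ideal (P2 k) :=
  RingHom.ker (constantCoeff (R := k) (σ := Fin 2))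

/-- Multiplication by `F` has no kernel modulo `(x^q, y^q)` in weights less than `μ`. -/
def Gap [CommRing k] (α β q : ℕ) (μ : ℝ) (F : P2 k) : Prop :=
  ∀ u : P2 k, u * F ∈ J k q → ∀ m ∈ u.support, μ ≤ (wt α β m : ℝ)

/-- Semistability with respect to irreducible homogeneous factors. -/
def SS [CommRing k] (α β : ℕ) {r : ℕ} (c : Fin r → ℚ) (A : ℝ) (H : Fin r → P2 k) : Prop :=
  ∀ (π : P2 k) (v : ℕ), Irreducible π → Homog α β v π → 1 ≤ v →
    ∀ n : Fin r → ℕ, (∀ i, π ^ n i ∣ H i) → A / 2 ≤ (v : ℝ) * (1 - ∑ i, (c i : ℝ) * n i)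

end FV
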