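import Mathlib

/-!
# Frobenius volumes and normalized volumes of surface pairs: the definitions of the claim

A surface klt singularity is a quotient `k² / G` by a finite group `G ⊆ GL₂(k)` which acts freely
outside of the origin.  Its coordinate ring is the ring of invariants `R = k[x,y]^G`.
-/

set_option autoImplicit false

noncomputable section

namespace FVC

open MvPolynomial Filter MeasureTheory

/-! ## Ideals -/

/-- An ideal `I` of `R` which is primary to the maximal ideal `m`. -/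
def IsPrim {R : Type} [CommRing R] (m I : Ideal R) : Prop := I ≤ m ∧ ∃ N : ℕ, m ^ N ≤ I

/-- The Hilbert-Samuel multiplicity of an ideal in a ring of dimension two over a field `k`. -/
def emult (k : Type) [CommRing k] {R : Type} [CommRing R] [Algebra k R] (I : Ideal R) : ℝ :=
  limsup (fun n : ℕ => 2 * (Module.finrank k (R ⧸ I ^ n) : ℝ) / (n : ℝ) ^ 2) atTop

/-! ## Characteristic `p` -/

/-- The element `∏ fᵢ ^ ⌈cᵢ (q - 1)⌉`. -/
def Fq {S : Type} [CommRing S] {r : ℕ} (f : Fin r → S) (c : Fin r → ℚ) (q : ℕ) : S :=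
  ∏ i, f i ^ ⌈(c i : ℝ) * ((q : ℝ) - 1)⌉₊

/-- Strong `F`-regularity of the triple `(Spec R, ∑ cᵢ div fᵢ, I^t)` at the point with maximal
ideal `m`, where `R` is a subring of `S` (by `j : R → S`) and the `fᵢ` are elements of `R`, written
in `S`: for every `d ≠ 0` in `R` there are `e ≥ 1` and a `p^{-e}`-linear map `φ : R → R` such that
`φ (d · ∏ fᵢ ^ ⌈cᵢ (p^e - 1)⌉ · I ^ ⌈t (p^e - 1)⌉)` is not contained in `m`. -/
def SFR {R S : Type} [CommRing R] [CommRing S] (p : ℕ) (j : R →+* S) (m : Ideal R) {r : ℕ}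
    (f : Fin r → S) (c : Fin r → ℚ) (I : Ideal R) (t : ℝ) : Prop :=
  ∀ d : R, d ≠ 0 → ∃ e : ℕ, 1 ≤ e ∧ ∃ φ : R →+ R,
    (∀ a b : R, φ (a ^ p ^ e * b) = a * φ b) ∧
    ∃ a ∈ I ^ ⌈t * ((p ^ e : ℕ) - 1 : ℝ)⌉₊, ∃ z : R,
      j z = j d * Fq f c (p ^ e) * j a ∧ φ z ∉ m

/-- The `F`-pure threshold of `I` with respect to the pair `(Spec R, ∑ cᵢ div fᵢ)`. -/
def fpt {R S : Type} [CommRing R] [CommRing S] (p : ℕ) (j : R →+* S) (m : Ideal R) {r : ℕ}
    (f : Fin r → S) (c : Fin r → ℚ) (I : Ideal R) : ℝ :=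
  sSup {t : ℝ | 0 ≤ t ∧ SFR p j m f c I t}

/-- The infimum of `e(I) fpt(I)²` over the `m`-primary ideals `I` of `R`. -/
def FvolR (k : Type) [CommRing k] {R S : Type} [CommRing R] [CommRing S] [Algebra k R] (p : ℕ)
    (j : R →+* S) (m : Ideal R) {r : ℕ} (f : Fin r → S) (c : Fin r → ℚ) : ℝ :=
  sInf {v : ℝ | ∃ I : Ideal R, IsPrim m I ∧ v = emult k I * fpt p j m f c I ^ 2}

/-! ## Characteristic zero -/

/-- The value of a polynomial at a point of `ℂ²`. -/
def ev (f : MvPolynomial (Fin 2) ℂ) (z : ℂ × ℂ) : ℂ := MvPolynomial.eval ![z.1, z.2] f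

/-- Integrability near the origin of `ℂ²` (for Lebesgue measure). -/
def IntNear (Φ : ℂ × ℂ → ℝ) : Prop :=
  ∃ ρ : ℝ, 0 < ρ ∧ IntegrableOn Φ (Metric.ball (0 : ℂ × ℂ) ρ)

/-- The pair `(ℂ²/G, ∑ cᵢ div fᵢ)` is klt at the origin: `∏ |fᵢ|^{-2 (1 + δ) cᵢ}` is integrable
near the origin of `ℂ²` for some `δ > 0`. -/
def Klt {r : ℕ} (f : Fin r → MvPolynomial (Fin 2) ℂ) (c : Fin r → ℚ) : Prop :=
  ∃ δ : ℝ, 0 < δ ∧ IntNear (fun z => ∏ i, ‖ev (f i) z‖ ^ (-(2 * ((1 + δ) * (c i : ℝ)))))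

/-- The log canonical threshold of an ideal `I` of `R = ℂ[x,y]^G` (a subring of `ℂ[x,y]` by `j`)
with respect to the pair `(ℂ²/G, ∑ cᵢ div fᵢ)`: the supremum of all `t ≥ 0` such that, for
generators `g` of `I`, the function `∏ |fᵢ|^{-2cᵢ} (∑ |g|²)^{-t}` is integrable near the origin of
`ℂ²`. -/
def lct {R : Type} [CommRing R] (j : R →+* MvPolynomial (Fin 2) ℂ) {r : ℕ}
    (f : Fin r → MvPolynomial (Fin 2) ℂ) (c : Fin r → ℚ) (I : Ideal R) : ℝ :=
  sSup {t : ℝ | 0 ≤ t ∧ ∃ Γ : Finset R, Ideal.span (Γ : Set R) = I ∧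
    IntNear (fun z => (∏ i, ‖ev (f i) z‖ ^ (-(2 * (c i : ℝ)))) *
      (∑ g ∈ Γ, ‖ev (j g) z‖ ^ 2) ^ (-t))}

/-- The infimum of `e(I) lct(I)²` over the `m`-primary ideals `I` of `R` (Liu's formula for the
normalized volume). -/
def volhatR {R : Type} [CommRing R] [Algebra ℂ R] (j : R →+* MvPolynomial (Fin 2) ℂ)
    (m : Ideal R) {r : ℕ} (f : Fin r → MvPolynomial (Fin 2) ℂ) (c : Fin r → ℚ) : ℝ :=
  sInf {v : ℝ | ∃ I : Ideal R, IsPrim m I ∧ v = emult ℂ I * lct j f c I ^ 2}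

/-! ## The ring of invariants -/

/-- The linear substitution `X i ↦ ∑ j, M i j * X j`. -/
def lin {k : Type} [CommRing k] (M : Matrix (Fin 2) (Fin 2) k) :
    MvPolynomial (Fin 2) k →ₐ[k] MvPolynomial (Fin 2) k :=
  aeval (fun i => ∑ j, C (M i j) * X j)

/-- The ring of invariants `k[x,y]^G` of a group of matrices. -/
def Inv {k : Type} [CommRing k] (G : Subgroup (GL (Fin 2) k)) :
    Subalgebra k (MvPolynomial (Fin 2) k) where
  carrier := {f | ∀ σ ∈ G, lin (σ : Matrix (Fin 2) (Fin 2) k) f = f}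
  mul_mem' := fun ha hb σ hσ => by rw [map_mul, ha σ hσ, hb σ hσ]
  add_mem' := fun ha hb σ hσ => by rw [map_add, ha σ hσ, hb σ hσ]
  algebraMap_mem' := fun r σ _ => by simp

/-- The inclusion of `k[x,y]^G` into `k[x,y]`. -/
def incl {k : Type} [CommRing k] (G : Subgroup (GL (Fin 2) k)) :
    Inv G →+* MvPolynomial (Fin 2) k := (Inv G).val.toRingHom

/-- The maximal ideal of the origin in the ring of invariants: no constant term. -/
def mO {k : Type} [CommRing k] (G : Subgroup (GL (Fin 2) k)) : Ideal (Inv G) :=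
  RingHom.ker ((constantCoeff (R := k) (σ := Fin 2)).comp (incl G))

/-- The Frobenius volume of the pair `(k²/G, ∑ cᵢ div fᵢ)` at the origin. -/
def Fvol {k : Type} [CommRing k] (p : ℕ) (G : Subgroup (GL (Fin 2) k)) {r : ℕ}
    (f : Fin r → MvPolynomial (Fin 2) k) (c : Fin r → ℚ) : ℝ :=
  FvolR k p (incl G) (mO G) f c

/-- The normalized volume of the pair `(ℂ²/G, ∑ cᵢ div fᵢ)` at the origin. -/
def volhat (G : Subgroup (GL (Fin 2) ℂ)) {r : ℕ} (f : Fin r → MvPolynomial (Fin 2) ℂ)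
    (c : Fin r → ℚ) : ℝ :=
  volhatR (incl G) (mO G) f c

/-- The image of a group of matrices under a ring homomorphism. -/
def mapG {A B : Type} [CommRing A] [CommRing B] (φ : A →+* B) (G : Subgroup (GL (Fin 2) A)) :
    Subgroup (GL (Fin 2) B) := G.map (Matrix.GeneralLinearGroup.map φ)

/-- The images of polynomials under a ring homomorphism of the coefficients. -/
def mapF {A B : Type} [CommRing A] [CommRing B] (φ : A →+* B) {r : ℕ}
    (f : Fin r → MvPolynomial (Fin 2) A) : Fin r → MvPolynomial (Fin 2) B := fun i => map φ (f i)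

end FVC
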