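import Pool.Agent.Lib.MP_9e8926_ag_FV.Wts

/-!
# Initial forms
-/

set_option autoImplicit false

noncomputable section

namespace FV

open MvPolynomial

variable {k : Type*} [Field k] {α β : ℕ}

/-- The initial form is the part of weight `j`. -/
theorem IsInit.coeff_eq {j : ℕ} {f H : P2 k} (h : IsInit α β f j H) (m : Fin 2 →₀ ℕ) :
    coeff m H = if wt α β m = j then coeff m f else 0 := by
  obtain ⟨_, h2, h3⟩ := h
  split_ifs with hw
  · have h4 : coeff m (f - H) = 0 := by
      by_contra hc
      have := h3 m (mem_support_iff.2 hc)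
      omega
    rw [coeff_sub, sub_eq_zero] at h4
    exact h4.symm
  · by_contra hc
    exact hw (h2 m (mem_support_iff.2 hc))

theorem IsInit.ge {j : ℕ} {f H : P2 k} (h : IsInit α β f j H) : Ge α β j f := by
  intro m hm
  by_contra hc
  have h1 := h.coeff_eq m
  rw [if_neg (by omega)] at h1
  have h4 : coeff m (f - H) = 0 := by
    by_contra hc'
    have := h.2.2 m (mem_support_iff.2 hc')
    omega
  rw [coeff_sub, h1, sub_zero] at h4
  exact mem_support_iff.1 hm h4

theorem IsInit.exists_mem {j : ℕ} {f H : P2 k} (h : IsInit α β f j H) :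
    ∃ m ∈ f.support, wt α β m = j := by
  obtain ⟨m, hm⟩ := support_nonempty.2 h.1
  have hw := h.2.1 m hm
  refine ⟨m, ?_, hw⟩
  have h1 := h.coeff_eq m
  rw [if_pos hw] at h1
  rw [mem_support_iff, ← h1]
  exact mem_support_iff.1 hm

theorem IsInit.ne_zero {j : ℕ} {f H : P2 k} (h : IsInit α β f j H) : f ≠ 0 := by
  obtain ⟨m, hm, _⟩ := h.exists_mem
  exact support_nonempty.1 ⟨m, hm⟩

theorem IsInit.unique {i j : ℕ} {f H H' : P2 k} (h : IsInit α β f j H)
    (h' : IsInit α β f i H') : j = i ∧ H = H' := by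
  obtain ⟨m, hm, hw⟩ := h.exists_mem
  obtain ⟨m', hm', hw'⟩ := h'.exists_mem
  have h1 := h'.ge m hm
  have h2 := h.ge m' hm'
  have h3 : j = i := by omega
  subst h3
  refine ⟨rfl, ?_⟩
  ext n
  rw [h.coeff_eq, h'.coeff_eq]

theorem IsInit.mul {i j : ℕ} {f g H K : P2 k} (hf : IsInit α β f i H) (hg : IsInit α β g j K) :
    IsInit α β (f * g) (i + j) (H * K) := by
  refine ⟨mul_ne_zero hf.1 hg.1, hf.2.1.mul hg.2.1, ?_⟩
  have e : f * g - H * K = (f - H) * g + H * (g - K) := by ring
  rw [e]
  have h1 := hf.2.2.mul hg.ge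
  have hH : Ge α β i H := fun m hm => (hf.2.1 m hm).ge
  have h2 := hH.mul hg.2.2
  refine Ge.add (h1.mono (by omega)) (h2.mono (by omega))

private theorem Ini_one : IsInit α β (1 : P2 k) 0 1 := by
  refine ⟨one_ne_zero, ?_, ?_⟩
  · have h := Homog.pow (α := α) (β := β) (i := 0) (f := (0 : P2 k)) (by
      intro m hm
      simp at hm) 0
    rw [pow_zero, zero_mul] at h
    exact h
  · intro m hm
    rw [sub_self] at hm
    simp at hm

theorem IsInit.pow {i : ℕ} {f H : P2 k} (hf : IsInit α β f i H) (n : ℕ) :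
    IsInit α β (f ^ n) (n * i) (H ^ n) := by
  induction n with
  | zero =>
    rw [pow_zero, pow_zero, zero_mul]
    exact Ini_one
  | succ n ih =>
    rw [pow_succ, pow_succ, Nat.succ_mul]
    exact ih.mul hf

theorem IsInit.prod {ι : Type*} (s : Finset ι) {w : ι → ℕ} {f H : ι → P2 k}
    (hf : ∀ i ∈ s, IsInit α β (f i) (w i) (H i)) :
    IsInit α β (∏ i ∈ s, f i) (∑ i ∈ s, w i) (∏ i ∈ s, H i) := by
  classical
  induction s using Finset.induction_on with
  | empty =>
    rw [Finset.prod_empty, Finset.prod_empty, Finset.sum_empty]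
    exact Ini_one
  | insert a s ha ih =>
    rw [Finset.sum_insert ha, Finset.prod_insert ha, Finset.prod_insert ha]
    exact (hf a (Finset.mem_insert_self a s)).mul
      (ih fun i hi => hf i (Finset.mem_insert_of_mem hi))

theorem exists_isInit (α β : ℕ) {f : P2 k} (hf : f ≠ 0) : ∃ j H, IsInit α β f j H := by
  classical
  obtain ⟨m0, hm0, hmin⟩ := Finset.exists_min_image f.support (fun m => wt α β m)
    (support_nonempty.2 hf)
  set j := wt α β m0 with hj
  set H : P2 k := ∑ m ∈ f.support.filter (fun m => wt α β m = j), monomial m (coeff m f) with hH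
  have hc : ∀ n, coeff n H = if wt α β n = j then coeff n f else 0 := by
    intro n
    rw [hH, coeff_sum]
    simp only [coeff_monomial]
    rw [Finset.sum_ite_eq']
    by_cases h1 : wt α β n = j
    · rw [if_pos h1]
      by_cases h2 : n ∈ f.support
      · rw [if_pos (Finset.mem_filter.2 ⟨h2, h1⟩)]
      · rw [if_neg (fun h => h2 (Finset.mem_filter.1 h).1)]
        exact (notMem_support_iff.1 h2).symm
    · have h3 : n ∉ f.support.filter (fun m => wt α β m = j) :=
        fun h => h1 (Finset.mem_filter.1 h).2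
      rw [if_neg h1]
      exact if_neg h3
  refine ⟨j, H, ?_, ?_, ?_⟩
  · intro h0
    have h1 := hc m0
    rw [if_pos rfl, h0, coeff_zero] at h1
    exact mem_support_iff.1 hm0 h1.symm
  · intro m hm
    by_contra h1
    have h2 := hc m
    rw [if_neg h1] at h2
    exact mem_support_iff.1 hm h2
  · intro m hm
    rw [mem_support_iff, coeff_sub, hc] at hm
    by_cases h1 : wt α β m = j
    · rw [if_pos h1, sub_self] at hm
      exact absurd rfl hm
    · rw [if_neg h1, sub_zero] at hm
      have h2 := hmin m (mem_support_iff.2 hm)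
      omega

/-- The ideal `(x^q, y^q)` is homogeneous. -/
theorem IsInit.mem_J {q i j : ℕ} {f u H U : P2 k} (hf : IsInit α β f j H)
    (hu : IsInit α β u i U) (h : u * f ∈ J k q) : U * H ∈ J k q := by
  rw [FV.mem_J] at h ⊢
  intro m hm
  apply h m
  have h1 := (hu.mul hf).coeff_eq m
  rw [mem_support_iff] at hm ⊢
  intro h0
  rw [h0, ite_self] at h1
  exact hm h1

/-- An element with non-zero constant coefficient is a unit modulo `(x^q, y^q)`. -/
theorem mem_J_of_mul {q : ℕ} {v z : P2 k} (hv : constantCoeff v ≠ 0) (h : z * v ∈ J k q) :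
    z ∈ J k q := by
  classical
  rw [mem_J] at h ⊢
  by_contra hc
  push Not at hc
  obtain ⟨m1, hm1, hq0, hq1⟩ := hc
  obtain ⟨m, hm, hmin⟩ := Finset.exists_min_image
    (z.support.filter (fun m => m 0 < q ∧ m 1 < q)) (fun m => m 0 + m 1)
    ⟨m1, Finset.mem_filter.2 ⟨hm1, hq0, hq1⟩⟩
  rw [Finset.mem_filter] at hm
  obtain ⟨hmz, hm0, hm1'⟩ := hm
  have h1 : coeff m (z * v) = coeff m z * coeff 0 v := by
    rw [coeff_mul]
    rw [Finset.sum_eq_single (m, 0)]
    · rintro ⟨a, b⟩ hab hne
      rw [Finset.HasAntidiagonal.mem_antidiagonal] at hab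
      simp only at hab ⊢
      have hna : a ≠ m := by
        intro e
        subst e
        apply hne
        have : b = 0 := by
          simpa using hab
        rw [this]
      have hz : coeff a z = 0 := by
        by_contra hz
        have e0 : a 0 + b 0 = m 0 := by rw [← hab]; rfl
        have e1 : a 1 + b 1 = m 1 := by rw [← hab]; rfl
        have h2 := hmin a (Finset.mem_filter.2 ⟨mem_support_iff.2 hz, by omega, by omega⟩)
        apply hna
        ext i
        fin_cases i
        · show a 0 = m 0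
          omega
        · show a 1 = m 1
          omega
      rw [hz, zero_mul]
    · intro hn
      exact absurd (Finset.HasAntidiagonal.mem_antidiagonal.2 (add_zero m)) hn
  have h2 : m ∈ (z * v).support := by
    rw [mem_support_iff, h1]
    exact mul_ne_zero (mem_support_iff.1 hmz) hv
  rcases h m h2 with h3 | h3 <;> omega

theorem Gap.mono {q : ℕ} {μ ν : ℝ} {F : P2 k} (h : Gap α β q μ F) (hν : ν ≤ μ) :
    Gap α β q ν F := fun u hu m hm => hν.trans (h u hu m hm)

theorem Gap.of_dvd {q : ℕ} {μ : ℝ} {F F' : P2 k} (h : Gap α β q μ F') (hF : F ∣ F') :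
    Gap α β q μ F := by
  intro u hu m hm
  obtain ⟨g, rfl⟩ := hF
  refine h u ?_ m hm
  rw [← mul_assoc]
  exact Ideal.mul_mem_right _ _ hu

theorem Gap.of_init {q j : ℕ} {μ : ℝ} {F H : P2 k} (h : Gap α β q μ H)
    (hF : IsInit α β F j H) : Gap α β q μ F := by
  intro u hu m hm
  have hu0 : u ≠ 0 := support_nonempty.1 ⟨m, hm⟩
  obtain ⟨i, U, hU⟩ := exists_isInit α β hu0
  obtain ⟨m', hm'⟩ := support_nonempty.2 hU.1
  have h1 := h U (hF.mem_J hU hu) m' hm'
  rw [hU.2.1 m' hm'] at h1
  have h2 := hU.ge m hm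
  refine h1.trans ?_
  exact_mod_cast h2

end FV
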