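import Mathlib

/-!
# Optimal weights: the real variable part
-/

set_option autoImplicit false

noncomputable section

namespace FV

/-- The order of a finite set of exponents for the weights `(1, x)`. -/
def wr (S : Finset (ℕ × ℕ)) (hS : S.Nonempty) (x : ℝ) : ℝ :=
  S.inf' hS (fun a => (a.1 : ℝ) + x * a.2)

private theorem wr_cont (S : Finset (ℕ × ℕ)) (hS : S.Nonempty) : Continuous (wr S hS) := by
  unfold wr
  refine Continuous.finset_inf'_apply hS fun a _ => ?_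
  fun_prop

/-- perturbation of the order -/
private theorem wr_pert (S : Finset (ℕ × ℕ)) (hS : S.Nonempty) (x1 s d : ℝ)
    (h : ∀ a ∈ S, (a.1 : ℝ) + x1 * a.2 = wr S hS x1 → s * d ≤ s * a.2) :
    ∀ᶠ ε in nhdsWithin (0 : ℝ) (Set.Ioi 0),
      wr S hS x1 + s * ε * d ≤ wr S hS (x1 + s * ε) := by
  have key : ∀ᶠ ε in nhdsWithin (0 : ℝ) (Set.Ioi 0), ∀ a ∈ S,
      wr S hS x1 + s * ε * d ≤ (a.1 : ℝ) + (x1 + s * ε) * a.2 := by
    rw [Filter.eventually_all_finset]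
    intro a ha
    by_cases hf : (a.1 : ℝ) + x1 * a.2 = wr S hS x1
    · filter_upwards [self_mem_nhdsWithin] with ε hε
      have hε' : (0 : ℝ) < ε := hε
      have h1 := mul_le_mul_of_nonneg_left (h a ha hf) hε'.le
      rw [← hf]
      nlinarith
    · have hlt : wr S hS x1 < (a.1 : ℝ) + x1 * a.2 :=
        lt_of_le_of_ne (Finset.inf'_le (fun a : ℕ × ℕ => (a.1 : ℝ) + x1 * a.2) ha) (Ne.symm hf)
      refine Filter.Eventually.filter_mono nhdsWithin_le_nhds ?_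
      have c1 : Continuous fun ε : ℝ => wr S hS x1 + s * ε * d := by fun_prop
      have c2 : Continuous fun ε : ℝ => (a.1 : ℝ) + (x1 + s * ε) * a.2 := by fun_prop
      have h0 : (fun ε : ℝ => wr S hS x1 + s * ε * d) 0 <
          (fun ε : ℝ => (a.1 : ℝ) + (x1 + s * ε) * a.2) 0 := by
        simpa using hlt
      have h1 := c1.continuousAt.eventually_lt c2.continuousAt h0
      filter_upwards [h1] with ε hε
      exact hε.le
  filter_upwards [key] with ε hε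
  exact Finset.le_inf' hS _ hε

/-- the function `E` -/
private def EE {r : ℕ} (S : Fin r → Finset (ℕ × ℕ)) (hS : ∀ i, (S i).Nonempty)
    (c : Fin r → ℝ) (x : ℝ) : ℝ := 1 + x - ∑ i, c i * wr (S i) (hS i) x

private theorem EE_cont {r : ℕ} (S : Fin r → Finset (ℕ × ℕ)) (hS : ∀ i, (S i).Nonempty)
    (c : Fin r → ℝ) : Continuous (EE S hS c) := by
  unfold EE
  have h : ∀ i, Continuous (wr (S i) (hS i)) := fun i => wr_cont _ _
  fun_prop

private theorem EE_pert {r : ℕ} (S : Fin r → Finset (ℕ × ℕ)) (hS : ∀ i, (S i).Nonempty)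
    (c : Fin r → ℝ) (hc : ∀ i, 0 ≤ c i) (x1 s : ℝ) (d : Fin r → ℝ)
    (h : ∀ i, ∀ a ∈ S i, (a.1 : ℝ) + x1 * a.2 = wr (S i) (hS i) x1 → s * d i ≤ s * a.2) :
    ∀ᶠ ε in nhdsWithin (0 : ℝ) (Set.Ioi 0),
      EE S hS c (x1 + s * ε) ≤ EE S hS c x1 + s * ε * (1 - ∑ i, c i * d i) := by
  have key : ∀ᶠ ε in nhdsWithin (0 : ℝ) (Set.Ioi 0), ∀ i : Fin r,
      wr (S i) (hS i) x1 + s * ε * d i ≤ wr (S i) (hS i) (x1 + s * ε) := by
    rw [Filter.eventually_all]
    exact fun i => wr_pert (S i) (hS i) x1 s (d i) (h i)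
  filter_upwards [key] with ε hε
  have h1 : ∑ i, c i * (wr (S i) (hS i) x1 + s * ε * d i) ≤
      ∑ i, c i * wr (S i) (hS i) (x1 + s * ε) :=
    Finset.sum_le_sum fun i _ => mul_le_mul_of_nonneg_left (hε i) (hc i)
  have h2 : ∑ i, c i * (wr (S i) (hS i) x1 + s * ε * d i) =
      ∑ i, c i * wr (S i) (hS i) x1 + s * ε * ∑ i, c i * d i := by
    rw [Finset.mul_sum, ← Finset.sum_add_distrib]
    exact Finset.sum_congr rfl fun i _ => by ring
  unfold EE
  rw [h2] at h1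
  linarith

/-- the first variation at a minimum of `E ^ 2 / x` -/
private theorem EE_var {r : ℕ} (S : Fin r → Finset (ℕ × ℕ)) (hS : ∀ i, (S i).Nonempty)
    (c : Fin r → ℝ) (hc : ∀ i, 0 ≤ c i) (x0 x1 s : ℝ) (hx1 : 0 < x1) (hs : s * s = 1)
    (hpos : ∀ x, x0 ≤ x → 0 < EE S hS c x)
    (hmin : ∀ x, x0 ≤ x → EE S hS c x1 ^ 2 * x ≤ EE S hS c x ^ 2 * x1)
    (hE1 : 0 < EE S hS c x1)
    (hev : ∀ᶠ ε in nhdsWithin (0 : ℝ) (Set.Ioi 0), x0 ≤ x1 + s * ε) (d : Fin r → ℝ)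
    (h : ∀ i, ∀ a ∈ S i, (a.1 : ℝ) + x1 * a.2 = wr (S i) (hS i) x1 → s * d i ≤ s * a.2) :
    s * EE S hS c x1 ≤ s * (2 * x1 * (1 - ∑ i, c i * d i)) := by
  set E1 := EE S hS c x1 with hE1d
  set Q := 1 - ∑ i, c i * d i with hQ
  have hev2 : ∀ᶠ ε in nhdsWithin (0 : ℝ) (Set.Ioi 0),
      s * E1 ^ 2 ≤ 2 * s * E1 * Q * x1 + ε * (Q ^ 2 * x1) := by
    filter_upwards [EE_pert S hS c hc x1 s d h, hev, self_mem_nhdsWithin] with ε h1 h2 h3
    have h3' : (0 : ℝ) < ε := h3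
    have h4 := hmin _ h2
    have h5 := hpos _ h2
    have h6 : EE S hS c (x1 + s * ε) ^ 2 ≤ (E1 + s * ε * Q) ^ 2 :=
      pow_le_pow_left₀ h5.le h1 2
    have h7 : E1 ^ 2 * (x1 + s * ε) ≤ (E1 + s * ε * Q) ^ 2 * x1 :=
      h4.trans (mul_le_mul_of_nonneg_right h6 hx1.le)
    have h8 : (E1 + s * ε * Q) ^ 2 * x1 = E1 ^ 2 * x1 + ε * (2 * s * E1 * Q * x1) +
        (s * s) * ε * ε * Q ^ 2 * x1 := by ring
    rw [h8, hs] at h7
    have h9 : ε * (s * E1 ^ 2) ≤ ε * (2 * s * E1 * Q * x1 + ε * (Q ^ 2 * x1)) := by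
      linarith
    exact le_of_mul_le_mul_left h9 h3'
  have hlim : Filter.Tendsto (fun ε : ℝ => 2 * s * E1 * Q * x1 + ε * (Q ^ 2 * x1))
      (nhdsWithin (0 : ℝ) (Set.Ioi 0)) (nhds (2 * s * E1 * Q * x1 + 0 * (Q ^ 2 * x1))) := by
    refine Filter.Tendsto.mono_left (Continuous.tendsto ?_ 0) nhdsWithin_le_nhds
    fun_prop
  have h1 := ge_of_tendsto hlim hev2
  rw [zero_mul, add_zero] at h1
  have h2 : E1 * (s * E1) ≤ E1 * (s * (2 * x1 * Q)) := by
    calc E1 * (s * E1) = s * E1 ^ 2 := by ring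
      _ ≤ 2 * s * E1 * Q * x1 := h1
      _ = E1 * (s * (2 * x1 * Q)) := by ring
  exact le_of_mul_le_mul_left h2 hE1

theorem newton_real {r : ℕ} (S : Fin r → Finset (ℕ × ℕ)) (hS : ∀ i, (S i).Nonempty)
    (c : Fin r → ℝ) (hc : ∀ i, 0 ≤ c i) (η : ℝ) (hη : 0 < η) (x0 : ℝ) (hx0 : 1 ≤ x0)
    (hE : ∀ x : ℝ, x0 ≤ x → η * (1 + x) ≤ 1 + x - ∑ i, c i * wr (S i) (hS i) x)
    (b : Fin r → ℕ) (hb : ∀ i, ∀ a ∈ S i, (a.1 : ℝ) + x0 * a.2 = wr (S i) (hS i) x0 → b i ≤ a.2)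
    (hbad : x0 * (1 - ∑ i, c i * b i) < (1 + x0 - ∑ i, c i * wr (S i) (hS i) x0) / 2) :
    ∃ x : ℝ, x0 < x ∧
      (∀ a : Fin r → ℕ × ℕ, (∀ i, a i ∈ S i ∧ ((a i).1 : ℝ) + x * (a i).2 =
          wr (S i) (hS i) x ∧ ∀ a' ∈ S i, (a'.1 : ℝ) + x * a'.2 = wr (S i) (hS i) x →
            (a i).1 ≤ a'.1) →
        (1 + x - ∑ i, c i * wr (S i) (hS i) x) / 2 ≤ 1 - ∑ i, c i * (a i).1) ∧
      (∀ a : Fin r → ℕ × ℕ, (∀ i, a i ∈ S i ∧ ((a i).1 : ℝ) + x * (a i).2 =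
          wr (S i) (hS i) x ∧ ∀ a' ∈ S i, (a'.1 : ℝ) + x * a'.2 = wr (S i) (hS i) x →
            (a i).2 ≤ a'.2) →
        (1 + x - ∑ i, c i * wr (S i) (hS i) x) / 2 ≤ x * (1 - ∑ i, c i * (a i).2)) := by
  have hE' : ∀ x : ℝ, x0 ≤ x → η * (1 + x) ≤ EE S hS c x := hE
  have hpos : ∀ x, x0 ≤ x → 0 < EE S hS c x := fun x hx =>
    lt_of_lt_of_le (mul_pos hη (by linarith)) (hE' x hx)
  -- the minimum
  obtain ⟨x1, hx1, hmin⟩ : ∃ x1, x0 ≤ x1 ∧
      ∀ x, x0 ≤ x → EE S hS c x1 ^ 2 * x ≤ EE S hS c x ^ 2 * x1 := by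
    set g : ℝ → ℝ := fun x => EE S hS c x ^ 2 / x with hg
    set R := max x0 (g x0 / η ^ 2) with hR
    have hxR : x0 ≤ R := le_max_left _ _
    have hcont : ContinuousOn g (Set.Icc x0 R) := by
      refine ContinuousOn.div ((EE_cont S hS c).pow 2).continuousOn continuousOn_id ?_
      intro x hx
      have := hx.1
      show x ≠ 0
      linarith
    obtain ⟨x1, hx1, hm⟩ := isCompact_Icc.exists_isMinOn (Set.nonempty_Icc.2 hxR) hcont
    have hm' : ∀ x ∈ Set.Icc x0 R, g x1 ≤ g x := fun x hx => hm hx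
    have hx1p : 0 < x1 := by linarith [hx1.1]
    have hall : ∀ x, x0 ≤ x → g x1 ≤ g x := by
      intro x hx
      rcases le_or_gt x R with h | h
      · exact hm' x ⟨hx, h⟩
      · have h1 : g x1 ≤ g x0 := hm' x0 ⟨le_rfl, hxR⟩
        have hxp : 0 < x := by linarith
        have h2 : g x0 ≤ η ^ 2 * x := by
          have h3 : g x0 / η ^ 2 ≤ x := (le_max_right _ _).trans h.le
          rw [div_le_iff₀ (by positivity)] at h3
          linarith
        have h4 : η ^ 2 * x ≤ g x := by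
          show _ ≤ EE S hS c x ^ 2 / x
          rw [le_div_iff₀ hxp]
          have h5 : η * x ≤ EE S hS c x := by
            have := hE' x hx
            nlinarith
          have h6 : (η * x) ^ 2 ≤ EE S hS c x ^ 2 :=
            pow_le_pow_left₀ (by positivity) h5 2
          nlinarith
        exact h1.trans (h2.trans h4)
    refine ⟨x1, hx1.1, fun x hx => ?_⟩
    have h1 := hall x hx
    have hxp : 0 < x := by linarith
    have h2 : EE S hS c x1 ^ 2 / x1 ≤ EE S hS c x ^ 2 / x := h1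
    rwa [div_le_div_iff₀ hx1p hxp] at h2
  have hx1p : 0 < x1 := by linarith
  have hE1 := hpos x1 hx1
  have hevr : ∀ᶠ ε in nhdsWithin (0 : ℝ) (Set.Ioi 0), x0 ≤ x1 + 1 * ε := by
    filter_upwards [self_mem_nhdsWithin] with ε hε
    have hε' : (0 : ℝ) < ε := hε
    linarith
  have hright := fun (d : Fin r → ℝ) h => EE_var S hS c hc x0 x1 1 hx1p (by norm_num) hpos hmin
    hE1 hevr d h
  have hlt : x0 < x1 := by
    refine lt_of_le_of_ne hx1 fun heq => ?_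
    subst heq
    have h1 := hright (fun i => (b i : ℝ)) (fun i a ha hf => by
      rw [one_mul, one_mul]
      exact_mod_cast hb i a ha hf)
    simp only [one_mul] at h1
    have h2 : (1 + x0 - ∑ i, c i * wr (S i) (hS i) x0) = EE S hS c x0 := rfl
    rw [h2] at hbad
    linarith
  refine ⟨x1, hlt, fun a ha => ?_, fun a ha => ?_⟩
  · have hevl : ∀ᶠ ε in nhdsWithin (0 : ℝ) (Set.Ioi 0), x0 ≤ x1 + (-1) * ε := by
      refine Filter.Eventually.filter_mono nhdsWithin_le_nhds ?_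
      have c2 : Continuous fun ε : ℝ => x1 + (-1) * ε := by fun_prop
      have h0 : (fun _ : ℝ => x0) 0 < (fun ε : ℝ => x1 + (-1) * ε) 0 := by simpa using hlt
      have h1 := continuousAt_const.eventually_lt c2.continuousAt h0
      filter_upwards [h1] with ε hε
      exact hε.le
    have h1 := EE_var S hS c hc x0 x1 (-1) hx1p (by norm_num) hpos hmin hE1 hevl
      (fun i => ((a i).2 : ℝ)) (fun i a' ha' hf => by
        have h2 := (ha i).2.2 a' ha' hf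
        have h3 := (ha i).2.1
        have h4 : ((a i).1 : ℝ) ≤ (a'.1 : ℝ) := by exact_mod_cast h2
        have h5 : x1 * (a'.2 : ℝ) ≤ x1 * ((a i).2 : ℝ) := by linarith
        have h6 := le_of_mul_le_mul_left h5 hx1p
        show -1 * ((a i).2 : ℝ) ≤ -1 * (a'.2 : ℝ)
        linarith)
    have h2 : x1 * ∑ i, c i * ((a i).2 : ℝ) =
        ∑ i, c i * wr (S i) (hS i) x1 - ∑ i, c i * ((a i).1 : ℝ) := by
      rw [Finset.mul_sum, ← Finset.sum_sub_distrib]
      refine Finset.sum_congr rfl fun i _ => ?_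
      rw [← (ha i).2.1]
      ring
    have h3 : EE S hS c x1 = 1 + x1 - ∑ i, c i * wr (S i) (hS i) x1 := rfl
    rw [← h3]
    have h4 : x1 * (1 - ∑ i, c i * ((a i).2 : ℝ)) =
        EE S hS c x1 - 1 + ∑ i, c i * ((a i).1 : ℝ) := by
      rw [mul_sub, h2, h3]
      ring
    have h5 : (2 * x1 * (1 - ∑ i, c i * ((a i).2 : ℝ))) =
        2 * (EE S hS c x1 - 1 + ∑ i, c i * ((a i).1 : ℝ)) := by
      rw [← h4]
      ring
    rw [h5] at h1
    linarith
  · have h1 := hright (fun i => ((a i).2 : ℝ)) (fun i a' ha' hf => by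
      rw [one_mul, one_mul]
      exact_mod_cast (ha i).2.2 a' ha' hf)
    have h3 : EE S hS c x1 = 1 + x1 - ∑ i, c i * wr (S i) (hS i) x1 := rfl
    rw [← h3]
    simp only [one_mul] at h1
    linarith

end FV
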