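import Pool.Agent.Lib.MP_9e8926_ag_FV.SSred
import Pool.Agent.Lib.MP_9e8926_ag_FV.NewtR
import Pool.Agent.Lib.MP_9e8926_ag_FV.Ini

/-!
# Optimal weights in given coordinates
-/

set_option autoImplicit false

noncomputable section

namespace FV

open MvPolynomial

section aux

variable {K : Type*} [Field K]

/-- the exponents of a polynomial as pairs -/
private def newtS (f : P2 K) : Finset (ℕ × ℕ) := f.support.image fun m => (m 0, m 1)

private theorem newtS_nonempty {f : P2 K} (hf : f ≠ 0) : (newtS f).Nonempty := by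
  unfold newtS
  exact (MvPolynomial.support_nonempty.2 hf).image _

private theorem mem_newtS {f : P2 K} {a : ℕ × ℕ} :
    a ∈ newtS f ↔ ∃ m ∈ f.support, m 0 = a.1 ∧ m 1 = a.2 := by
  unfold newtS
  rw [Finset.mem_image]
  constructor
  · rintro ⟨m, hm, rfl⟩
    exact ⟨m, hm, rfl, rfl⟩
  · rintro ⟨m, hm, h0, h1⟩
    exact ⟨m, hm, Prod.ext h0 h1⟩

private theorem wr_le {S : Finset (ℕ × ℕ)} (hS : S.Nonempty) (x : ℝ) {a : ℕ × ℕ} (ha : a ∈ S) :
    wr S hS x ≤ (a.1 : ℝ) + x * a.2 := by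
  unfold wr
  exact Finset.inf'_le (fun a : ℕ × ℕ => (a.1 : ℝ) + x * a.2) ha

private theorem wr_exists {S : Finset (ℕ × ℕ)} (hS : S.Nonempty) (x : ℝ) :
    ∃ a ∈ S, (a.1 : ℝ) + x * a.2 = wr S hS x := by
  unfold wr
  obtain ⟨a, ha, h⟩ := Finset.exists_mem_eq_inf' hS (fun a : ℕ × ℕ => (a.1 : ℝ) + x * a.2)
  exact ⟨a, ha, h.symm⟩

private theorem wr_cont {S : Finset (ℕ × ℕ)} (hS : S.Nonempty) :
    Continuous fun x : ℝ => wr S hS x := by
  unfold wr
  exact Continuous.finset_inf'_apply hS fun a _ => by fun_prop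

private theorem wr_isInit {α β : ℕ} (hα : 1 ≤ α) {f H : P2 K} (hf : f ≠ 0) {w : ℕ}
    (h : IsInit α β f w H) :
    (α : ℝ) * wr (newtS f) (newtS_nonempty hf) ((β : ℝ) / α) = w := by
  have hα' : (0 : ℝ) < α := by exact_mod_cast hα
  have key : ∀ a : ℕ × ℕ, (α : ℝ) * ((a.1 : ℝ) + ((β : ℝ) / α) * a.2) =
      ((α * a.1 + β * a.2 : ℕ) : ℝ) := by
    intro a
    push_cast
    field_simp
  apply le_antisymm
  · obtain ⟨m, hm, hw⟩ := h.exists_mem
    have h1 := wr_le (newtS_nonempty hf) ((β : ℝ) / α) (mem_newtS.2 ⟨m, hm, rfl, rfl⟩ :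
      ((m 0, m 1) : ℕ × ℕ) ∈ newtS f)
    have h2 := mul_le_mul_of_nonneg_left h1 hα'.le
    rw [key] at h2
    unfold wt at hw
    rw [← hw]
    exact h2
  · obtain ⟨a, ha, h1⟩ := wr_exists (newtS_nonempty hf) ((β : ℝ) / α)
    rw [← h1, key]
    obtain ⟨m, hm, h2, h3⟩ := mem_newtS.1 ha
    have h4 := h.ge m hm
    unfold wt at h4
    rw [h2, h3] at h4
    exact_mod_cast h4

private theorem mem_H_of_face {α β : ℕ} (hα : 1 ≤ α) {f H : P2 K} (hf : f ≠ 0) {w : ℕ}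
    (h : IsInit α β f w H) {a : ℕ × ℕ} (ha : a ∈ newtS f)
    (hfa : (a.1 : ℝ) + ((β : ℝ) / α) * a.2 = wr (newtS f) (newtS_nonempty hf) ((β : ℝ) / α)) :
    ∃ m ∈ H.support, m 0 = a.1 ∧ m 1 = a.2 := by
  have hα' : (0 : ℝ) < α := by exact_mod_cast hα
  obtain ⟨m, hm, h2, h3⟩ := mem_newtS.1 ha
  refine ⟨m, ?_, h2, h3⟩
  have h1 := wr_isInit hα hf h
  rw [← hfa] at h1
  have h4 : ((α * a.1 + β * a.2 : ℕ) : ℝ) = (w : ℝ) := by
    rw [← h1]
    push_cast
    field_simp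
  have h5 : wt α β m = w := by
    unfold wt
    rw [h2, h3]
    exact_mod_cast h4
  rw [MvPolynomial.mem_support_iff, h.coeff_eq, if_pos h5]
  exact MvPolynomial.mem_support_iff.1 hm

private theorem le_of_X_pow_dvd {H : P2 K} {j : Fin 2} {n : ℕ} (h : (X j : P2 K) ^ n ∣ H)
    {m : Fin 2 →₀ ℕ} (hm : m ∈ H.support) : n ≤ m j := by
  classical
  obtain ⟨g, rfl⟩ := h
  have h1 := MvPolynomial.support_mul _ _ hm
  rw [Finset.mem_add] at h1
  obtain ⟨a, ha, b, hb, rfl⟩ := h1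
  rw [MvPolynomial.X_pow_eq_monomial] at ha
  have h2 := MvPolynomial.support_monomial_subset ha
  rw [Finset.mem_singleton] at h2
  rw [h2]
  simp

end aux

theorem newton_opt {K : Type*} [Field K] {r : ℕ} (F : Fin r → P2 K) (hF : ∀ i, F i ≠ 0)
    (c : Fin r → ℚ) (hc : ∀ i, 0 ≤ c i) (δ : ℝ) (hδ : 0 < δ)
    (hN : ∀ α β : ℕ, 1 ≤ α → 1 ≤ β → ∀ (w : Fin r → ℕ) (H : Fin r → P2 K),
      (∀ i, IsInit α β (F i) (w i) (H i)) → (1 + δ) * ∑ i, (c i : ℝ) * w i < (α : ℝ) + β)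
    (β0 : ℕ) (hβ0 : 1 ≤ β0) (w0 : Fin r → ℕ) (H0 : Fin r → P2 K)
    (hI0 : ∀ i, IsInit 1 β0 (F i) (w0 i) (H0 i)) (n : Fin r → ℕ)
    (hn : ∀ i, (X 1 : P2 K) ^ n i ∣ H0 i)
    (hbad : (β0 : ℝ) * (1 - ∑ i, (c i : ℝ) * n i) < (1 + β0 - ∑ i, (c i : ℝ) * w0 i) / 2) :
    ∃ (α β : ℕ) (w : Fin r → ℕ) (H : Fin r → P2 K), 1 ≤ α ∧ 1 ≤ β ∧ Nat.Coprime α β ∧
      β0 * α < β ∧ (∀ i, IsInit α β (F i) (w i) (H i)) ∧
      OPT α β c ((α : ℝ) + β - ∑ i, (c i : ℝ) * w i) H := by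
  classical
  have hcR : ∀ i, (0 : ℝ) ≤ (c i : ℝ) := fun i => by exact_mod_cast hc i
  set S : Fin r → Finset (ℕ × ℕ) := fun i => newtS (F i) with hS
  have hSn : ∀ i, (S i).Nonempty := fun i => newtS_nonempty (hF i)
  have hβ0' : (1 : ℝ) ≤ β0 := by exact_mod_cast hβ0
  -- the weights at a positive rational
  have hrat : ∀ α β : ℕ, 1 ≤ α → ∀ (w : Fin r → ℕ) (H : Fin r → P2 K),
      (∀ i, IsInit α β (F i) (w i) (H i)) →
      (α : ℝ) * ∑ i, (c i : ℝ) * wr (S i) (hSn i) ((β : ℝ) / α) = ∑ i, (c i : ℝ) * w i := by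
    intro α β hα w H hI
    rw [Finset.mul_sum]
    refine Finset.sum_congr rfl fun i _ => ?_
    rw [← wr_isInit hα (hF i) (hI i)]
    ring
  -- the inequality for all positive real numbers
  have hall : ∀ x : ℝ, 0 < x → (1 + δ) * ∑ i, (c i : ℝ) * wr (S i) (hSn i) x ≤ 1 + x := by
    intro x hx
    by_contra hcon
    push Not at hcon
    have hcont1 : Continuous fun x : ℝ => (1 + δ) * ∑ i, (c i : ℝ) * wr (S i) (hSn i) x := by
      refine continuous_const.mul ?_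
      exact continuous_finsetSum _ fun i _ => continuous_const.mul (wr_cont (hSn i))
    have hopen : IsOpen {y : ℝ | 1 + y < (1 + δ) * ∑ i, (c i : ℝ) * wr (S i) (hSn i) y} :=
      isOpen_lt (by fun_prop) hcont1
    have hopen2 : IsOpen ({y : ℝ | 1 + y < (1 + δ) * ∑ i, (c i : ℝ) * wr (S i) (hSn i) y} ∩
        Set.Ioi 0) := hopen.inter isOpen_Ioi
    obtain ⟨ρ, hρ1, hρ2⟩ := (Rat.denseRange_cast (𝕜 := ℝ)).exists_mem_open hopen2 ⟨x, hcon, hx⟩
    have hρpos : (0 : ℚ) < ρ := by exact_mod_cast (Set.mem_Ioi.1 hρ2)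
    have hnum : 0 < ρ.num := Rat.num_pos.2 hρpos
    obtain ⟨β, hβ⟩ := Int.eq_ofNat_of_zero_le hnum.le
    have hβ1 : 1 ≤ β := by omega
    have hα1 : 1 ≤ ρ.den := ρ.pos
    have hρeq : (ρ : ℝ) = (β : ℝ) / (ρ.den : ℝ) := by
      conv_lhs => rw [← Rat.num_div_den ρ]
      rw [hβ]
      push_cast
      rfl
    choose w H hI using fun i => exists_isInit ρ.den β (hF i)
    have h1 := hN ρ.den β hα1 hβ1 w H hI
    have h2 := hrat ρ.den β hα1 w H hI
    rw [Set.mem_ofPred_eq, hρeq] at hρ1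
    have hden : (0 : ℝ) < ρ.den := by exact_mod_cast hα1
    have h3 := mul_lt_mul_of_pos_left hρ1 hden
    rw [← h2] at h1
    have h4 : (ρ.den : ℝ) * (1 + (β : ℝ) / ρ.den) = ρ.den + β := by
      field_simp
    rw [h4] at h3
    linarith
  have hE : ∀ x : ℝ, (β0 : ℝ) ≤ x → δ / (1 + δ) * (1 + x) ≤
      1 + x - ∑ i, (c i : ℝ) * wr (S i) (hSn i) x := by
    intro x hx
    have h1 := hall x (by linarith)
    have h2 : (0 : ℝ) < 1 + δ := by linarith
    have h3 : δ / (1 + δ) * (1 + x) = (1 + x) - (1 + x) / (1 + δ) := by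
      field_simp
      ring
    rw [h3]
    have h4 : ∑ i, (c i : ℝ) * wr (S i) (hSn i) x ≤ (1 + x) / (1 + δ) := by
      rw [le_div_iff₀ h2]
      linarith
    linarith
  have hw0 : ∀ i, wr (S i) (hSn i) (β0 : ℝ) = w0 i := by
    intro i
    have := wr_isInit le_rfl (hF i) (hI0 i)
    simpa using this
  obtain ⟨x, hx0, hx1, hx2⟩ := newton_real S hSn (fun i => (c i : ℝ)) hcR (δ / (1 + δ))
    (by positivity) (β0 : ℝ) hβ0' hE n (by
      intro i a ha hfa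
      have h1 : (a.1 : ℝ) + ((β0 : ℝ) / ((1 : ℕ) : ℝ)) * a.2 =
          wr (newtS (F i)) (newtS_nonempty (hF i)) ((β0 : ℝ) / ((1 : ℕ) : ℝ)) := by
        simpa using hfa
      obtain ⟨m, hm, h2, h3⟩ := mem_H_of_face le_rfl (hF i) (hI0 i) ha h1
      rw [← h3]
      exact le_of_X_pow_dvd (hn i) hm) (by
      simp only [hw0]
      exact hbad)
  -- minimal points of the faces
  have hface : ∀ i, ((S i).filter fun a => (a.1 : ℝ) + x * a.2 = wr (S i) (hSn i) x).Nonempty := by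
    intro i
    obtain ⟨a, ha, h⟩ := wr_exists (hSn i) x
    exact ⟨a, Finset.mem_filter.2 ⟨ha, h⟩⟩
  choose a ha using fun i => Finset.exists_min_image _ (fun p : ℕ × ℕ => p.1) (hface i)
  choose b hb using fun i => Finset.exists_min_image _ (fun p : ℕ × ℕ => p.2) (hface i)
  have haS : ∀ i, a i ∈ S i ∧ ((a i).1 : ℝ) + x * (a i).2 = wr (S i) (hSn i) x := fun i =>
    Finset.mem_filter.1 (ha i).1
  have hbS : ∀ i, b i ∈ S i ∧ ((b i).1 : ℝ) + x * (b i).2 = wr (S i) (hSn i) x := fun i =>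
    Finset.mem_filter.1 (hb i).1
  have hA1 := hx1 a fun i => ⟨(haS i).1, (haS i).2, fun a' ha' h' =>
    (ha i).2 a' (Finset.mem_filter.2 ⟨ha', h'⟩)⟩
  have hB1 := hx2 b fun i => ⟨(hbS i).1, (hbS i).2, fun a' ha' h' =>
    (hb i).2 a' (Finset.mem_filter.2 ⟨ha', h'⟩)⟩
  have hxpos : 0 < x := by linarith
  have hEpos : 0 < 1 + x - ∑ i, (c i : ℝ) * wr (S i) (hSn i) x := by
    refine lt_of_lt_of_le ?_ (hE x hx0.le)
    positivity
  -- rationality
  have hxrat : ∃ ρ : ℚ, (ρ : ℝ) = x := by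
    by_cases hab : ∀ i, a i = b i
    · have hsum : ∑ i, (c i : ℝ) * wr (S i) (hSn i) x =
          ∑ i, (c i : ℝ) * (a i).1 + x * ∑ i, (c i : ℝ) * (a i).2 := by
        rw [Finset.mul_sum, ← Finset.sum_add_distrib]
        refine Finset.sum_congr rfl fun i _ => ?_
        rw [← (haS i).2]
        ring
      have hB2 : (1 + x - ∑ i, (c i : ℝ) * wr (S i) (hSn i) x) / 2 ≤
          x * (1 - ∑ i, (c i : ℝ) * (a i).2) := by
        refine hB1.trans (le_of_eq ?_)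
        simp only [hab]
      rw [hsum] at hA1 hB2 hEpos
      have h1 : 1 - ∑ i, (c i : ℝ) * (a i).1 = x * (1 - ∑ i, (c i : ℝ) * (a i).2) := by
        nlinarith
      have h2 : 0 < 1 - ∑ i, (c i : ℝ) * (a i).1 := by
        linarith
      have h3 : (1 - ∑ i, (c i : ℝ) * (a i).2) ≠ 0 := by
        intro h
        rw [h, mul_zero] at h1
        linarith
      refine ⟨(1 - ∑ i, c i * (a i).1) / (1 - ∑ i, c i * (a i).2), ?_⟩
      push_cast
      rw [h1]
      field_simp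
    · push Not at hab
      obtain ⟨i, hi⟩ := hab
      have h1 : ((a i).1 : ℝ) + x * (a i).2 = (b i).1 + x * (b i).2 := by
        rw [(haS i).2, (hbS i).2]
      have h2 : ((b i).2 : ℝ) - (a i).2 ≠ 0 := by
        intro h
        have h3 : ((b i).2 : ℝ) = (a i).2 := by linarith
        rw [h3] at h1
        have h4 : ((a i).1 : ℝ) = (b i).1 := by linarith
        apply hi
        refine Prod.ext ?_ ?_
        · exact_mod_cast h4
        · exact_mod_cast h3.symm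
      refine ⟨((a i).1 - (b i).1) / ((b i).2 - (a i).2), ?_⟩
      push_cast
      rw [div_eq_iff h2]
      linarith
  obtain ⟨ρ, hρ⟩ := hxrat
  have hρpos : (0 : ℚ) < ρ := by
    have : (0 : ℝ) < (ρ : ℝ) := by rw [hρ]; exact hxpos
    exact_mod_cast this
  have hnum : 0 < ρ.num := Rat.num_pos.2 hρpos
  obtain ⟨β, hβ⟩ := Int.eq_ofNat_of_zero_le hnum.le
  have hβ1 : 1 ≤ β := by omega
  have hα1 : 1 ≤ ρ.den := ρ.pos
  have hden : (0 : ℝ) < ρ.den := by exact_mod_cast hα1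
  have hxeq : x = (β : ℝ) / (ρ.den : ℝ) := by
    rw [← hρ]
    conv_lhs => rw [← Rat.num_div_den ρ]
    rw [hβ]
    push_cast
    rfl
  choose w H hI using fun i => exists_isInit ρ.den β (hF i)
  have hwsum := hrat ρ.den β hα1 w H hI
  rw [← hxeq] at hwsum
  have hαx : (ρ.den : ℝ) * x = β := by
    rw [hxeq]
    field_simp
  have hAE : (ρ.den : ℝ) * (1 + x - ∑ i, (c i : ℝ) * wr (S i) (hSn i) x) =
      (ρ.den : ℝ) + β - ∑ i, (c i : ℝ) * w i := by
    rw [mul_sub, mul_add, hwsum, hαx, mul_one]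
  refine ⟨ρ.den, β, w, H, hα1, hβ1, ?_, ?_, hI, ?_, ?_⟩
  · have := ρ.reduced
    rw [hβ] at this
    simpa [Nat.coprime_comm] using this
  · rw [hxeq, lt_div_iff₀ hden] at hx0
    exact_mod_cast hx0
  · intro k hk
    rw [← hAE]
    have h1 : ∀ i, k i ≤ (a i).1 := by
      intro i
      have h2 := (haS i).2
      rw [hxeq] at h2
      obtain ⟨m, hm, h3, h4⟩ := mem_H_of_face hα1 (hF i) (hI i) (haS i).1 h2
      rw [← h3]
      exact le_of_X_pow_dvd (hk i) hm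
    have h2 : ∑ i, (c i : ℝ) * k i ≤ ∑ i, (c i : ℝ) * (a i).1 := by
      refine Finset.sum_le_sum fun i _ => ?_
      exact mul_le_mul_of_nonneg_left (by exact_mod_cast h1 i) (hcR i)
    have h3 := mul_le_mul_of_nonneg_left (hA1.trans (sub_le_sub_left h2 1)) hden.le
    calc _ = (ρ.den : ℝ) * ((1 + x - ∑ i, (c i : ℝ) * wr (S i) (hSn i) x) / 2) := by ring
      _ ≤ _ := h3
  · intro k hk
    rw [← hAE]
    have h1 : ∀ i, k i ≤ (b i).2 := by
      intro i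
      have h2 := (hbS i).2
      rw [hxeq] at h2
      obtain ⟨m, hm, h3, h4⟩ := mem_H_of_face hα1 (hF i) (hI i) (hbS i).1 h2
      rw [← h4]
      exact le_of_X_pow_dvd (hk i) hm
    have h2 : ∑ i, (c i : ℝ) * k i ≤ ∑ i, (c i : ℝ) * (b i).2 := by
      refine Finset.sum_le_sum fun i _ => ?_
      exact mul_le_mul_of_nonneg_left (by exact_mod_cast h1 i) (hcR i)
    have h3 := mul_le_mul_of_nonneg_left
      (hB1.trans (mul_le_mul_of_nonneg_left (sub_le_sub_left h2 1) hxpos.le)) hden.le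
    calc _ = (ρ.den : ℝ) * ((1 + x - ∑ i, (c i : ℝ) * wr (S i) (hSn i) x) / 2) := by ring
      _ ≤ _ := h3
      _ = _ := by rw [← mul_assoc, hαx]

end FV
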