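import Pool.Agent.Lib.MP_9e8926_ag_FV.Base

/-!
# Homogeneous polynomials and the ideals `(x^q, y^q)`
-/

set_option autoImplicit false

noncomputable section

namespace FV

open MvPolynomial

variable {k : Type*} [Field k] {α β : ℕ}

theorem mem_J {q : ℕ} {f : P2 k} : f ∈ J k q ↔ ∀ m ∈ f.support, q ≤ m 0 ∨ q ≤ m 1 := by
  have h : ({X 0 ^ q, X 1 ^ q} : Set (P2 k)) =
      (fun s => monomial s (1 : k)) '' ({Finsupp.single 0 q, Finsupp.single 1 q} :
        Set (Fin 2 →₀ ℕ)) := by
    rw [Set.image_pair, X_pow_eq_monomial, X_pow_eq_monomial]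
  unfold J
  rw [h, mem_ideal_span_monomial_image]
  refine forall_congr' fun m => forall_congr' fun _ => ?_
  constructor
  · rintro ⟨s, hs, hle⟩
    rcases hs with hs | hs
    · left
      rw [hs] at hle
      simpa using hle 0
    · right
      rw [Set.mem_singleton_iff.1 hs] at hle
      simpa using hle 1
  · rintro (h | h)
    · refine ⟨Finsupp.single 0 q, Or.inl rfl, ?_⟩
      rw [Finsupp.single_le_iff]
      exact h
    · refine ⟨Finsupp.single 1 q, Or.inr rfl, ?_⟩
      rw [Finsupp.single_le_iff]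
      exact h

theorem m0_eq_span : m0 k = Ideal.span {X 0, X 1} := by
  have h : (Ideal.span {X 0, X 1} : Ideal (P2 k)) = J k 1 := by
    unfold J
    rw [pow_one, pow_one]
  rw [h]
  ext f
  rw [mem_J]
  unfold m0
  rw [RingHom.mem_ker, constantCoeff_eq]
  constructor
  · intro h0 m hm
    by_contra hc
    push Not at hc
    have hm0 : m = 0 := by
      ext i
      fin_cases i
      · show m 0 = 0
        omega
      · show m 1 = 0
        omega
    rw [hm0, mem_support_iff] at hm
    exact hm h0
  · intro h0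
    by_contra hc
    have h1 := h0 0 (mem_support_iff.2 hc)
    simp at h1

theorem wt_add (m n : Fin 2 →₀ ℕ) : wt α β (m + n) = wt α β m + wt α β n := by
  unfold wt
  rw [Finsupp.add_apply, Finsupp.add_apply]
  ring

private theorem wt_zero : wt α β 0 = 0 := by
  unfold wt
  simp

private theorem exists_of_mem_mul {f g : P2 k} {m : Fin 2 →₀ ℕ} (hm : m ∈ (f * g).support) :
    ∃ a ∈ f.support, ∃ b ∈ g.support, a + b = m := by
  classical
  have h := MvPolynomial.support_mul f g hm
  rw [Finset.mem_add] at h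
  exact h

theorem Homog.mul {i j : ℕ} {f g : P2 k} (hf : Homog α β i f) (hg : Homog α β j g) :
    Homog α β (i + j) (f * g) := by
  intro m hm
  obtain ⟨a, ha, b, hb, rfl⟩ := exists_of_mem_mul hm
  rw [wt_add, hf a ha, hg b hb]

private theorem mem_one {m : Fin 2 →₀ ℕ} (hm : m ∈ (1 : P2 k).support) : m = 0 := by
  classical
  rw [mem_support_iff, coeff_one] at hm
  by_contra h
  exact hm (if_neg (fun h' => h h'.symm))

theorem Homog.pow {i : ℕ} {f : P2 k} (hf : Homog α β i f) (n : ℕ) :
    Homog α β (n * i) (f ^ n) := by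
  induction n with
  | zero =>
    intro m hm
    rw [pow_zero] at hm
    rw [mem_one hm, wt_zero, zero_mul]
  | succ n ih =>
    rw [pow_succ, Nat.succ_mul]
    exact ih.mul hf

theorem Homog.prod {ι : Type*} (s : Finset ι) {w : ι → ℕ} {f : ι → P2 k}
    (hf : ∀ i ∈ s, Homog α β (w i) (f i)) : Homog α β (∑ i ∈ s, w i) (∏ i ∈ s, f i) := by
  classical
  induction s using Finset.induction_on with
  | empty =>
    intro m hm
    rw [Finset.prod_empty] at hm
    rw [mem_one hm, wt_zero, Finset.sum_empty]
  | insert a s ha ih =>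
    rw [Finset.sum_insert ha, Finset.prod_insert ha]
    exact (hf a (Finset.mem_insert_self a s)).mul
      (ih fun i hi => hf i (Finset.mem_insert_of_mem hi))

/-- the substitution `x ↦ x T^α`, `y ↦ y T^β` -/
private def gr (k : Type*) [Field k] (α β : ℕ) : P2 k →+* Polynomial (P2 k) :=
  eval₂Hom (Polynomial.C.comp C) (fun i => Polynomial.C (X i) * Polynomial.X ^ (![α, β] i))

private theorem gr_monomial (u : Fin 2 →₀ ℕ) (a : k) :
    gr k α β (monomial u a) = Polynomial.monomial (wt α β u) (monomial u a) := by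
  unfold gr
  rw [coe_eval₂Hom, eval₂_monomial, Finsupp.prod_fintype _ _ (fun i => pow_zero _),
    Fin.prod_univ_two, ← Polynomial.C_mul_X_pow_eq_monomial]
  have h1 : (monomial u a : P2 k) = C a * (X 0 ^ u 0 * X 1 ^ u 1) := by
    rw [monomial_eq, Finsupp.prod_fintype _ _ (fun i => pow_zero _), Fin.prod_univ_two]
  rw [h1, map_mul, map_mul, map_pow, map_pow]
  show Polynomial.C (C a) * ((Polynomial.C (X 0) * Polynomial.X ^ α) ^ u 0 *
      (Polynomial.C (X 1) * Polynomial.X ^ β) ^ u 1) =
    Polynomial.C (C a) * (Polynomial.C (X 0) ^ u 0 * Polynomial.C (X 1) ^ u 1) *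
      Polynomial.X ^ (α * u 0 + β * u 1)
  rw [mul_pow, mul_pow, ← pow_mul, ← pow_mul, pow_add]
  ring

private theorem gr_coeff (g : P2 k) (n : ℕ) (m : Fin 2 →₀ ℕ) :
    ((gr k α β g).coeff n).coeff m = if wt α β m = n then g.coeff m else 0 := by
  classical
  induction g using MvPolynomial.induction_on' with
  | monomial u a =>
    rw [gr_monomial, Polynomial.coeff_monomial]
    by_cases hu : u = m
    · subst hu
      split_ifs with h1
      · rfl
      · rw [coeff_zero]
    · split_ifs with h1 h2 h2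
      · rfl
      · rw [coeff_monomial, if_neg hu]
      · rw [coeff_monomial, if_neg hu, coeff_zero]
      · rw [coeff_zero]
  | add p q hp hq =>
    rw [map_add, Polynomial.coeff_add, coeff_add, hp, hq, coeff_add]
    split_ifs
    · rfl
    · rw [add_zero]

private theorem gr_ne {g : P2 k} (hg : g ≠ 0) : gr k α β g ≠ 0 := by
  intro h
  apply hg
  ext m
  have h1 := gr_coeff (α := α) (β := β) g (wt α β m) m
  rw [h, Polynomial.coeff_zero, coeff_zero, if_pos rfl] at h1
  rw [← h1, coeff_zero]

private theorem homog_iff {g : P2 k} {j : ℕ} :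
    Homog α β j g ↔ ∀ n, n ≠ j → (gr k α β g).coeff n = 0 := by
  constructor
  · intro h n hn
    ext m
    rw [gr_coeff, coeff_zero]
    split_ifs with h1
    · by_contra hc
      exact hn (by rw [← h1, h m (mem_support_iff.2 hc)])
    · rfl
  · intro h m hm
    by_contra hc
    have h1 := gr_coeff (α := α) (β := β) g (wt α β m) m
    rw [h _ hc, coeff_zero, if_pos rfl] at h1
    exact mem_support_iff.1 hm h1.symm

theorem Homog.of_dvd {j : ℕ} {f g : P2 k} (hf : Homog α β j f) (h0 : f ≠ 0) (hg : g ∣ f) :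
    ∃ i, i ≤ j ∧ Homog α β i g := by
  obtain ⟨h, rfl⟩ := hg
  have hg0 : g ≠ 0 := left_ne_zero_of_mul h0
  have hh0 : h ≠ 0 := right_ne_zero_of_mul h0
  have hG := gr_ne (α := α) (β := β) hg0
  have hH := gr_ne (α := α) (β := β) hh0
  have hF := gr_ne (α := α) (β := β) h0
  rw [homog_iff] at hf
  have hd : (gr k α β (g * h)).natDegree = j := by
    by_contra hc
    exact hF (Polynomial.leadingCoeff_eq_zero.1 (hf _ hc))
  have ht : (gr k α β (g * h)).natTrailingDegree = j := by
    by_contra hc
    exact hF (Polynomial.trailingCoeff_eq_zero.1 (hf _ hc))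
  rw [map_mul, Polynomial.natDegree_mul hG hH] at hd
  rw [map_mul, Polynomial.natTrailingDegree_mul hG hH] at ht
  have l1 := Polynomial.natTrailingDegree_le_natDegree (gr k α β g)
  have l2 := Polynomial.natTrailingDegree_le_natDegree (gr k α β h)
  refine ⟨(gr k α β g).natDegree, by omega, ?_⟩
  rw [homog_iff]
  intro n hn
  rcases lt_or_gt_of_ne hn with hn | hn
  · exact Polynomial.coeff_eq_zero_of_lt_natTrailingDegree (by omega)
  · exact Polynomial.coeff_eq_zero_of_natDegree_lt hn

theorem Homog.unique {i j : ℕ} {f : P2 k} (hf : Homog α β i f) (hg : Homog α β j f)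
    (h0 : f ≠ 0) : i = j := by
  obtain ⟨m, hm⟩ := support_nonempty.2 h0
  rw [← hf m hm, ← hg m hm]

theorem Ge.mono {i j : ℕ} {f : P2 k} (hij : i ≤ j) (hf : Ge α β j f) : Ge α β i f :=
  fun m hm => hij.trans (hf m hm)

theorem Ge.add {j : ℕ} {f g : P2 k} (hf : Ge α β j f) (hg : Ge α β j g) : Ge α β j (f + g) := by
  classical
  intro m hm
  rcases Finset.mem_union.1 (MvPolynomial.support_add hm) with h | h
  · exact hf m h
  · exact hg m h

theorem Ge.mul {i j : ℕ} {f g : P2 k} (hf : Ge α β i f) (hg : Ge α β j g) :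
    Ge α β (i + j) (f * g) := by
  intro m hm
  obtain ⟨a, ha, b, hb, rfl⟩ := exists_of_mem_mul hm
  rw [wt_add]
  exact add_le_add (hf a ha) (hg b hb)

theorem Ge.pow {i : ℕ} {f : P2 k} (hf : Ge α β i f) (n : ℕ) : Ge α β (n * i) (f ^ n) := by
  induction n with
  | zero =>
    intro m _
    rw [zero_mul]
    exact Nat.zero_le _
  | succ n ih =>
    rw [pow_succ, Nat.succ_mul]
    exact ih.mul hf

theorem Ge.prod {ι : Type*} (s : Finset ι) {w : ι → ℕ} {f : ι → P2 k}
    (hf : ∀ i ∈ s, Ge α β (w i) (f i)) : Ge α β (∑ i ∈ s, w i) (∏ i ∈ s, f i) := by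
  classical
  induction s using Finset.induction_on with
  | empty =>
    intro m _
    rw [Finset.sum_empty]
    exact Nat.zero_le _
  | insert a s ha ih =>
    rw [Finset.sum_insert ha, Finset.prod_insert ha]
    exact (hf a (Finset.mem_insert_self a s)).mul
      (ih fun i hi => hf i (Finset.mem_insert_of_mem hi))

end FV
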