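import Pool.Agent.Lib.MP_9e8926_ag_FV.SSred
import Pool.Agent.Lib.MP_9e8926_ag_FV.Wts

/-!
# The shear which removes a destabilizing root
-/

set_option autoImplicit false

noncomputable section

namespace FV

open MvPolynomial

private theorem StepL_shear0 {K : Type*} [CommRing K] (φ : Polynomial K) :
    shear φ (X 0 : P2 K) = X 0 := by simp [shear]

private theorem StepL_shear1 {K : Type*} [CommRing K] (φ : Polynomial K) :
    shear φ (X 1 : P2 K) = X 1 + Polynomial.aeval (X 0 : P2 K) φ := by simp [shear]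

private theorem StepL_comp {K : Type*} [CommRing K] (φ ψ : Polynomial K) (f : P2 K) :
    shear ψ (shear φ f) = shear (φ + ψ) f := by
  have h : (shear ψ).comp (shear φ) = shear (φ + ψ) := by
    apply MvPolynomial.algHom_ext
    intro i
    fin_cases i
    · show shear ψ (shear φ (X 0)) = shear (φ + ψ) (X 0)
      rw [StepL_shear0, StepL_shear0, StepL_shear0]
    · show shear ψ (shear φ (X 1)) = shear (φ + ψ) (X 1)
      rw [StepL_shear1, StepL_shear1, map_add, StepL_shear1, map_add]
      have h1 : shear ψ (Polynomial.aeval (X 0 : P2 K) φ) = Polynomial.aeval (X 0 : P2 K) φ := by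
        rw [← Polynomial.aeval_algHom_apply, StepL_shear0]
      rw [h1]
      ring
  exact DFunLike.congr_fun h f

private theorem StepL_zero {K : Type*} [CommRing K] (f : P2 K) : shear 0 f = f := by
  have h : shear (0 : Polynomial K) = AlgHom.id K (P2 K) := by
    apply MvPolynomial.algHom_ext
    intro i
    fin_cases i
    · show shear 0 (X 0) = X 0
      rw [StepL_shear0]
    · show shear 0 (X 1) = X 1
      rw [StepL_shear1]
      simp
  exact DFunLike.congr_fun h f

private theorem StepL_inj {K : Type*} [CommRing K] (φ : Polynomial K) :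
    Function.Injective (shear φ : P2 K → P2 K) := by
  intro f g hfg
  have h := congrArg (shear (-φ)) hfg
  rwa [StepL_comp, StepL_comp, add_neg_cancel, StepL_zero, StepL_zero] at h

private theorem StepL_phi {K : Type*} [CommRing K] (y : K) (β : ℕ) :
    Polynomial.aeval (X 0 : P2 K) (Polynomial.C y * Polynomial.X ^ β) = C y * X 0 ^ β := by
  simp [MvPolynomial.algebraMap_eq]

private theorem StepL_sum {K : Type*} [CommRing K] {ι : Type*} (s : Finset ι) (f : ι → P2 K)
    (α β j : ℕ) (h : ∀ i ∈ s, Homog α β j (f i)) : Homog α β j (∑ i ∈ s, f i) := by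
  classical
  intro m hm
  obtain ⟨i, hi, hmi⟩ := Finset.mem_biUnion.mp (MvPolynomial.support_sum hm)
  exact h i hi m hmi

private theorem StepL_sumGe {K : Type*} [CommRing K] {ι : Type*} (s : Finset ι) (f : ι → P2 K)
    (α β j : ℕ) (h : ∀ i ∈ s, Ge α β j (f i)) : Ge α β j (∑ i ∈ s, f i) := by
  classical
  intro m hm
  obtain ⟨i, hi, hmi⟩ := Finset.mem_biUnion.mp (MvPolynomial.support_sum hm)
  exact h i hi m hmi

private theorem StepL_mono {K : Type*} [Field K] {α β : ℕ} (m : Fin 2 →₀ ℕ) (c : K) :
    Homog α β (wt α β m) (monomial m c) := by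
  intro m' hm'
  have := MvPolynomial.support_monomial_subset hm'
  rw [Finset.mem_singleton] at this
  rw [this]

private theorem StepL_X0 {K : Type*} [Field K] (β : ℕ) : Homog 1 β 1 (X 0 : P2 K) := by
  have h := StepL_mono (K := K) (α := 1) (β := β) (Finsupp.single 0 1) 1
  simpa [wt, MvPolynomial.X] using h

private theorem StepL_X1 {K : Type*} [Field K] (β : ℕ) : Homog 1 β β (X 1 : P2 K) := by
  have h := StepL_mono (K := K) (α := 1) (β := β) (Finsupp.single 1 1) 1
  simpa [wt, MvPolynomial.X] using h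

private theorem StepL_C {K : Type*} [Field K] (β : ℕ) (c : K) : Homog 1 β 0 (C c : P2 K) := by
  have h := StepL_mono (K := K) (α := 1) (β := β) 0 c
  simpa [wt] using h

private theorem StepL_lin {K : Type*} [Field K] (β : ℕ) (y : K) :
    Homog 1 β β (X 1 + C y * X 0 ^ β : P2 K) := by
  classical
  have h2 : Homog 1 β β (C y * X 0 ^ β : P2 K) := by
    have h3 := (StepL_C β y).mul ((StepL_X0 (K := K) β).pow β)
    simpa using h3
  intro m hm
  rcases Finset.mem_union.mp (MvPolynomial.support_add hm) with h | h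
  · exact StepL_X1 β m h
  · exact h2 m h

private theorem StepL_mon {K : Type*} [Field K] (β : ℕ) (y : K) (m : Fin 2 →₀ ℕ) (c : K) :
    Homog 1 β (wt 1 β m) (shear (Polynomial.C y * Polynomial.X ^ β) (monomial m c)) := by
  have h1 : shear (Polynomial.C y * Polynomial.X ^ β) (monomial m c) =
      C c * (X 0 ^ m 0 * (X 1 + C y * X 0 ^ β) ^ m 1) := by
    rw [MvPolynomial.monomial_eq, map_mul, Finsupp.prod_fintype _ _ (by simp),
      Fin.prod_univ_two, map_mul, map_pow, map_pow, StepL_shear0, StepL_shear1, StepL_phi]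
    congr 1
    exact (shear _).commutes c
  rw [h1]
  have h2 := (StepL_C β c).mul (((StepL_X0 (K := K) β).pow (m 0)).mul
    ((StepL_lin β y).pow (m 1)))
  have h3 : wt 1 β m = 0 + (m 0 * 1 + m 1 * β) := by
    unfold wt
    ring
  rw [h3]
  exact h2

private theorem StepL_shear_eq {K : Type*} [Field K] (φ : Polynomial K) (f : P2 K) :
    shear φ f = ∑ m ∈ f.support, shear φ (monomial m (coeff m f)) := by
  conv_lhs => rw [MvPolynomial.as_sum f]
  rw [map_sum]

private theorem StepL_homog {K : Type*} [Field K] (β : ℕ) (y : K) (w : ℕ) (f : P2 K)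
    (hf : Homog 1 β w f) : Homog 1 β w (shear (Polynomial.C y * Polynomial.X ^ β) f) := by
  rw [StepL_shear_eq]
  refine StepL_sum _ _ _ _ _ (fun m hm => ?_)
  have h := StepL_mon β y m (coeff m f)
  rwa [hf m hm] at h

private theorem StepL_ge {K : Type*} [Field K] (β : ℕ) (y : K) (w : ℕ) (f : P2 K)
    (hf : Ge 1 β w f) : Ge 1 β w (shear (Polynomial.C y * Polynomial.X ^ β) f) := by
  rw [StepL_shear_eq]
  refine StepL_sumGe _ _ _ _ _ (fun m hm m' hm' => ?_)
  have h := StepL_mon β y m (coeff m f) m' hm'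
  rw [h]
  exact hf m hm

private theorem StepL_root {K : Type*} [Field K] (β : ℕ) (H : P2 K) (w : ℕ)
    (hH : Homog 1 β w H) (y : K) (h0 : (dehom H).eval y = 0) :
    (X 1 - C y * X 0 ^ β : P2 K) ∣ H := by
  set I : Ideal (P2 K) := Ideal.span {X 1 - C y * X 0 ^ β} with hI
  have h1 : ((Ideal.Quotient.mkₐ K I).comp (aeval ![X 0, C y * X 0 ^ β] : P2 K →ₐ[K] P2 K)) =
      Ideal.Quotient.mkₐ K I := by
    apply MvPolynomial.algHom_ext
    intro i
    fin_cases i
    · simp
    · simp only [Fin.mk_one, Fin.isValue, AlgHom.comp_apply, aeval_X, Matrix.cons_val_one,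
        Ideal.Quotient.mkₐ_eq_mk]
      rw [Ideal.Quotient.eq, hI, Ideal.mem_span_singleton]
      refine ⟨-1, ?_⟩
      simp
  have h2 : (aeval ![X 0, C y * X 0 ^ β] : P2 K →ₐ[K] P2 K) H =
      C ((dehom H).eval y) * X 0 ^ w := by
    have h3 : (dehom H).eval y = ∑ m ∈ H.support, coeff m H * y ^ m 1 := by
      conv_lhs => rw [MvPolynomial.as_sum H]
      rw [map_sum, Polynomial.eval_finsetSum]
      refine Finset.sum_congr rfl (fun m _ => ?_)
      unfold dehom
      rw [aeval_monomial, Finsupp.prod_fintype _ _ (by simp), Fin.prod_univ_two]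
      simp
    have h4 : (aeval ![X 0, C y * X 0 ^ β] : P2 K →ₐ[K] P2 K) H =
        ∑ m ∈ H.support, C (coeff m H * y ^ m 1) * X 0 ^ w := by
      conv_lhs => rw [MvPolynomial.as_sum H]
      rw [map_sum]
      refine Finset.sum_congr rfl (fun m hm => ?_)
      rw [aeval_monomial, Finsupp.prod_fintype _ _ (by simp), Fin.prod_univ_two]
      have h5 : w = m 0 + β * m 1 := by
        have := hH m hm
        unfold wt at this
        omega
      rw [h5]
      simp only [Matrix.cons_val_zero, Matrix.cons_val_one, MvPolynomial.algebraMap_eq, map_mul,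
        map_pow, pow_add, pow_mul, mul_pow]
      ring
    rw [h4, h3, ← Finset.sum_mul, map_sum]
  have h3 := DFunLike.congr_fun h1 H
  rw [AlgHom.comp_apply, h2, h0, map_zero, zero_mul, map_zero] at h3
  have h4 : H ∈ I := Ideal.Quotient.eq_zero_iff_mem.mp h3.symm
  rwa [hI, Ideal.mem_span_singleton] at h4

/-- Divisibility of a homogeneous polynomial of weights `(1, β)` by a power of `y` after the
shear. -/
theorem shear_dvd {K : Type*} [Field K] {β : ℕ} (hβ : 1 ≤ β) (H : P2 K) (w : ℕ)
    (hH : Homog 1 β w H) (y : K) (n : ℕ)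
    (hn : (Polynomial.X - Polynomial.C y) ^ n ∣ dehom H) :
    (X 1 : P2 K) ^ n ∣ shear (Polynomial.C y * Polynomial.X ^ β) H := by
  have _hβ := hβ
  induction n generalizing H w with
  | zero => simp
  | succ n ih =>
    by_cases hH0 : H = 0
    · rw [hH0, map_zero]
      exact dvd_zero _
    have h0 : (dehom H).eval y = 0 := by
      have h1 : (Polynomial.X - Polynomial.C y) ∣ dehom H :=
        (dvd_pow_self _ n.succ_ne_zero).trans hn
      exact Polynomial.dvd_iff_isRoot.mp h1
    obtain ⟨H', hH'⟩ := StepL_root β H w hH y h0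
    have hd : H' ∣ H := ⟨_, by rw [mul_comm]; exact hH'⟩
    obtain ⟨i, -, hi⟩ := hH.of_dvd hH0 hd
    have h1 : dehom H = (Polynomial.X - Polynomial.C y) * dehom H' := by
      rw [hH', map_mul]
      congr 1
      simp [dehom, Polynomial.C_eq_algebraMap]
    have h2 : (Polynomial.X - Polynomial.C y) ^ n ∣ dehom H' := by
      rw [h1, pow_succ'] at hn
      exact (mul_dvd_mul_iff_left (Polynomial.X_sub_C_ne_zero y)).mp hn
    have h3 := ih H' i hi h2
    rw [hH', map_mul, pow_succ']
    refine mul_dvd_mul ?_ h3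
    have h4 : shear (Polynomial.C y * Polynomial.X ^ β) (X 1 - C y * X 0 ^ β : P2 K) = X 1 := by
      have h5 : shear (Polynomial.C y * Polynomial.X ^ β) (C y : P2 K) = C y :=
        (shear _).commutes y
      rw [map_sub, map_mul, map_pow, StepL_shear0, StepL_shear1, StepL_phi, h5]
      ring
    rw [h4]

theorem shear_isInit {K : Type*} [Field K] {β : ℕ} (hβ : 1 ≤ β) (F H : P2 K) (w : ℕ)
    (hI : IsInit 1 β F w H) (y : K) :
    IsInit 1 β (shear (Polynomial.C y * Polynomial.X ^ β) F) w
      (shear (Polynomial.C y * Polynomial.X ^ β) H) := by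
  have _hβ := hβ
  obtain ⟨h1, h2, h3⟩ := hI
  refine ⟨?_, StepL_homog β y w H h2, ?_⟩
  · intro h
    apply h1
    apply StepL_inj (Polynomial.C y * Polynomial.X ^ β)
    rw [h, map_zero]
  · rw [← map_sub]
    exact StepL_ge β y (w + 1) _ h3

theorem shear_tau {K : Type*} [Field K] (L : Matrix (Fin 2) (Fin 2) K) (φ ψ : Polynomial K)
    (f : P2 K) : shear ψ (tau L φ f) = tau L (φ + ψ) f := by
  unfold tau
  rw [AlgHom.comp_apply, AlgHom.comp_apply, StepL_comp]

/-- The shear is compatible with the group if the removed root is fixed. -/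
theorem shear_dg {K : Type*} [Field K] (β : ℕ) (y a b : K) (h : y * a ^ β = b * y) (f : P2 K) :
    shear (Polynomial.C y * Polynomial.X ^ β) (dg a b f) =
      dg a b (shear (Polynomial.C y * Polynomial.X ^ β) f) := by
  have h1 : (shear (Polynomial.C y * Polynomial.X ^ β)).comp (dg a b) =
      (dg a b).comp (shear (Polynomial.C y * Polynomial.X ^ β)) := by
    have hC : ∀ c : K, shear (Polynomial.C y * Polynomial.X ^ β) (C c : P2 K) = C c :=
      fun c => (shear _).commutes c
    have hD : ∀ c : K, dg a b (C c : P2 K) = C c := fun c => (dg a b).commutes c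
    have hd0 : dg a b (X 0 : P2 K) = C a * X 0 := by simp [dg]
    have hd1 : dg a b (X 1 : P2 K) = C b * X 1 := by simp [dg]
    apply MvPolynomial.algHom_ext
    intro i
    fin_cases i
    · simp only [Fin.zero_eta, Fin.isValue, AlgHom.comp_apply]
      rw [hd0, map_mul, hC, StepL_shear0, hd0]
    · simp only [Fin.mk_one, Fin.isValue, AlgHom.comp_apply]
      rw [hd1, map_mul, hC, StepL_shear1, StepL_phi, map_add, hd1, map_mul, hD, map_pow, hd0,
        mul_pow, mul_add, ← map_pow]
      congr 1
      rw [← mul_assoc, ← mul_assoc, ← map_mul, ← map_mul, h]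
  exact DFunLike.congr_fun h1 f

/-- The action of a diagonal matrix on the roots of an invariant homogeneous polynomial. -/
theorem dvd_of_dg {K : Type*} [Field K] {β : ℕ} (H : P2 K) (w : ℕ) (hH : Homog 1 β w H)
    (a b : K) (ha : a ≠ 0) (hb : b ≠ 0) (hab : dg a b H = H) (y : K) (n : ℕ)
    (hn : (Polynomial.X - Polynomial.C y) ^ n ∣ dehom H) :
    (Polynomial.X - Polynomial.C (b * y / a ^ β)) ^ n ∣ dehom H := by
  classical
  have hdg : ∀ (m : Fin 2 →₀ ℕ) (c : K), dg a b (monomial m c) =
      monomial m (c * (a ^ m 0 * b ^ m 1)) := by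
    intro m c
    unfold dg
    rw [aeval_monomial, Finsupp.prod_fintype _ _ (by simp), Fin.prod_univ_two,
      MvPolynomial.monomial_eq, Finsupp.prod_fintype _ _ (by simp), Fin.prod_univ_two]
    simp only [Matrix.cons_val_zero, Matrix.cons_val_one, MvPolynomial.algebraMap_eq, map_mul,
      map_pow, mul_pow]
    ring
  have hco : ∀ m ∈ H.support, a ^ m 0 * b ^ m 1 = 1 := by
    intro m hm
    have h1 : coeff m (dg a b H) = coeff m H * (a ^ m 0 * b ^ m 1) := by
      conv_lhs => rw [MvPolynomial.as_sum H]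
      rw [map_sum, coeff_sum]
      simp only [hdg, coeff_monomial]
      rw [Finset.sum_ite_eq' H.support m, if_pos hm]
    rw [hab] at h1
    have h2 : coeff m H ≠ 0 := MvPolynomial.mem_support_iff.mp hm
    have h3 : coeff m H * (a ^ m 0 * b ^ m 1) = coeff m H * 1 := by rw [mul_one, ← h1]
    exact mul_left_cancel₀ h2 h3
  set s : K := a ^ β / b with hs
  have hs0 : s ≠ 0 := div_ne_zero (pow_ne_zero _ ha) hb
  have hcomp : (dehom H).comp (Polynomial.C s * Polynomial.X) =
      Polynomial.C (a ^ w) * dehom H := by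
    have h1 : dehom H = ∑ m ∈ H.support, Polynomial.C (coeff m H) * Polynomial.X ^ m 1 := by
      conv_lhs => rw [MvPolynomial.as_sum H]
      rw [map_sum]
      refine Finset.sum_congr rfl (fun m _ => ?_)
      unfold dehom
      rw [aeval_monomial, Finsupp.prod_fintype _ _ (by simp), Fin.prod_univ_two]
      simp [Polynomial.C_eq_algebraMap]
    rw [h1, Polynomial.sum_comp, Finset.mul_sum]
    refine Finset.sum_congr rfl (fun m hm => ?_)
    have h2 : w = m 0 + β * m 1 := by
      have := hH m hm
      unfold wt at this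
      omega
    have h3 : s ^ m 1 = a ^ w := by
      rw [hs, div_pow, h2, pow_add, ← pow_mul, div_eq_iff (pow_ne_zero _ hb)]
      have h4 := hco m hm
      calc a ^ (β * m 1) = a ^ (β * m 1) * (a ^ m 0 * b ^ m 1) := by rw [h4, mul_one]
        _ = a ^ m 0 * a ^ (β * m 1) * b ^ m 1 := by ring
    rw [Polynomial.mul_comp, Polynomial.C_comp, Polynomial.pow_comp, Polynomial.X_comp, mul_pow,
      ← map_pow, h3]
    ring
  obtain ⟨g, hg⟩ := hn
  have h1 : Polynomial.C (a ^ w) * dehom H =
      (Polynomial.C s ^ n * (Polynomial.X - Polynomial.C (b * y / a ^ β)) ^ n) *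
        g.comp (Polynomial.C s * Polynomial.X) := by
    rw [← hcomp, hg, Polynomial.mul_comp, Polynomial.pow_comp, Polynomial.sub_comp,
      Polynomial.X_comp, Polynomial.C_comp, ← mul_pow, mul_sub, ← map_mul]
    congr 4
    rw [hs]
    field_simp
  have h2 : (Polynomial.X - Polynomial.C (b * y / a ^ β)) ^ n ∣
      Polynomial.C (a ^ w) * dehom H := by
    rw [h1]
    exact (dvd_mul_left _ _).mul_right _
  have hu : IsUnit (Polynomial.C (a ^ w)) :=
    Polynomial.isUnit_C.mpr (isUnit_iff_ne_zero.mpr (pow_ne_zero _ ha))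
  exact (hu.dvd_mul_left).mp h2

end FV
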