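import Pool.Agent.Lib.MP_9e8926_ag_FV.Stg0
import Pool.Agent.Lib.MP_9e8926_ag_FV.StepL
import Pool.Agent.Lib.MP_9e8926_ag_FV.Newt

/-!
# Existence of adapted coordinates
-/

set_option autoImplicit false

noncomputable section

namespace FV

open MvPolynomial

private theorem coeff_dg {K : Type*} [Field K] (a b : K) (F : P2 K) (m : Fin 2 →₀ ℕ) :
    coeff m (dg a b F) = coeff m F * (a ^ m 0 * b ^ m 1) := by
  classical
  have hdg : ∀ (m : Fin 2 →₀ ℕ) (c : K), dg a b (monomial m c) =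
      monomial m (c * (a ^ m 0 * b ^ m 1)) := by
    intro m c
    unfold dg
    rw [aeval_monomial, Finsupp.prod_fintype _ _ (by simp), Fin.prod_univ_two,
      MvPolynomial.monomial_eq, Finsupp.prod_fintype _ _ (by simp), Fin.prod_univ_two]
    simp only [Matrix.cons_val_zero, Matrix.cons_val_one, MvPolynomial.algebraMap_eq, map_mul,
      map_pow, mul_pow]
    ring
  have h1 : dg a b F = ∑ n ∈ F.support, monomial n (coeff n F * (a ^ n 0 * b ^ n 1)) := by
    conv_lhs => rw [F.as_sum, map_sum]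
    exact Finset.sum_congr rfl fun n _ => hdg n _
  rw [h1, coeff_sum]
  simp only [coeff_monomial]
  rw [Finset.sum_ite_eq']
  by_cases h' : m ∈ F.support
  · simp [h']
  · simp [h', MvPolynomial.notMem_support_iff.mp h']

private theorem dg_isInit {K : Type*} [Field K] {α β w : ℕ} (a b : K) (ha : a ≠ 0)
    (hb : b ≠ 0) (F H : P2 K) (hI : IsInit α β F w H) :
    IsInit α β (dg a b F) w (dg a b H) := by
  have hne : ∀ m : Fin 2 →₀ ℕ, a ^ m 0 * b ^ m 1 ≠ 0 := fun m =>
    mul_ne_zero (pow_ne_zero _ ha) (pow_ne_zero _ hb)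
  have hsub : ∀ F : P2 K, ∀ m ∈ (dg a b F).support, m ∈ F.support := by
    intro F m hm
    rw [MvPolynomial.mem_support_iff, coeff_dg] at hm
    exact MvPolynomial.mem_support_iff.mpr (left_ne_zero_of_mul hm)
  refine ⟨?_, fun m hm => hI.2.1 m (hsub H m hm), ?_⟩
  · intro h0
    apply hI.1
    ext m
    have h1 := congrArg (coeff m) h0
    rw [coeff_dg, coeff_zero] at h1
    rw [coeff_zero]
    exact (mul_eq_zero.mp h1).resolve_right (hne m)
  · rw [← map_sub]
    exact fun m hm => hI.2.2 m (hsub _ m hm)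

private theorem tau_one_zero {R : Type*} [CommRing R] (f : P2 R) :
    tau (1 : Matrix (Fin 2) (Fin 2) R) 0 f = f := by
  have h : tau (1 : Matrix (Fin 2) (Fin 2) R) 0 = AlgHom.id R (P2 R) := by
    unfold tau
    rw [lin_one, AlgHom.comp_id]
    apply MvPolynomial.algHom_ext
    intro i
    fin_cases i
    · simp [shear]
    · simp [shear]
  rw [h]; rfl

theorem coord {K : Type*} [Field K] [CharZero K] [Algebra K ℂ] (G : Subgroup (GL (Fin 2) K))
    [Finite G] {r : ℕ} (f : Fin r → P2 K) (hf0 : ∀ i, f i ≠ 0) (hf : ∀ i, f i ∈ Inv G)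
    (c : Fin r → ℚ) (hc : ∀ i, 0 ≤ c i) (δ : ℝ) (hδ : 0 < δ)
    (hN : ∀ (L L' : Matrix (Fin 2) (Fin 2) K) (φ : Polynomial K), L * L' = 1 →
      φ.coeff 0 = 0 → ∀ α β : ℕ, 1 ≤ α → 1 ≤ β → ∀ (w : Fin r → ℕ) (H : Fin r → P2 K),
      (∀ i, IsInit α β (tau L φ (f i)) (w i) (H i)) →
        (1 + δ) * ∑ i, (c i : ℝ) * w i < (α : ℝ) + β) :
    ∃ (α β : ℕ) (w : Fin r → ℕ) (L L' : Matrix (Fin 2) (Fin 2) K) (φ : Polynomial K)
      (H : Fin r → P2 K), 1 ≤ α ∧ 1 ≤ β ∧ Nat.Coprime α β ∧ L * L' = 1 ∧ φ.coeff 0 = 0 ∧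
      (∀ i, IsInit α β (tau L φ (f i)) (w i) (H i)) ∧
      OPT α β c ((α : ℝ) + β - ∑ i, (c i : ℝ) * w i) H ∧
      GSS ℂ α β c ((α : ℝ) + β - ∑ i, (c i : ℝ) * w i) H ∧
      ((∀ σ ∈ G, ∃ a b : K, ∀ g : P2 K, tau L φ (lin (σ : Matrix (Fin 2) (Fin 2) K) g) =
        dg a b (tau L φ g)) ∨ (α = 1 ∧ β = 1 ∧ L = 1 ∧ φ = 0)) := by
  classical
  have hcr : ∀ i, (0 : ℝ) ≤ (c i : ℝ) := fun i => by exact_mod_cast hc i
  -- positivity
  have hpos : ∀ (L L' : Matrix (Fin 2) (Fin 2) K) (φ : Polynomial K), L * L' = 1 →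
      φ.coeff 0 = 0 → ∀ α β : ℕ, 1 ≤ α → 1 ≤ β → ∀ (w : Fin r → ℕ) (H : Fin r → P2 K),
      (∀ i, IsInit α β (tau L φ (f i)) (w i) (H i)) →
        0 < (α : ℝ) + β - ∑ i, (c i : ℝ) * w i := by
    intro L L' φ hL hφ α β hα hβ w H hI
    have h1 := hN L L' φ hL hφ α β hα hβ w H hI
    have h2 : 0 ≤ ∑ i, (c i : ℝ) * w i := Finset.sum_nonneg fun i _ =>
      mul_nonneg (hcr i) (by positivity)
    nlinarith
  set B : ℕ := ⌈1 + 2 / δ⌉₊ with hB
  have claim : ∀ d β0 : ℕ, B ≤ β0 + d → 1 ≤ β0 →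
      ∀ (L L' : Matrix (Fin 2) (Fin 2) K) (φ : Polynomial K) (w0 : Fin r → ℕ)
        (H0 : Fin r → P2 K) (n : Fin r → ℕ), L * L' = 1 → φ.coeff 0 = 0 →
        (∀ σ ∈ G, ∃ a b : K, ∀ g : P2 K, tau L φ (lin (σ : Matrix (Fin 2) (Fin 2) K) g) =
          dg a b (tau L φ g)) →
        (∀ i, IsInit 1 β0 (tau L φ (f i)) (w0 i) (H0 i)) →
        1 + (β0 : ℝ) - ∑ i, (c i : ℝ) * w0 i ≤ 2 → (∀ i, (X 1 : P2 K) ^ n i ∣ H0 i) →
        (β0 : ℝ) * (1 - ∑ i, (c i : ℝ) * n i) < (1 + β0 - ∑ i, (c i : ℝ) * w0 i) / 2 →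
        ∃ (α β : ℕ) (w : Fin r → ℕ) (L L' : Matrix (Fin 2) (Fin 2) K) (φ : Polynomial K)
          (H : Fin r → P2 K), 1 ≤ α ∧ 1 ≤ β ∧ Nat.Coprime α β ∧ L * L' = 1 ∧ φ.coeff 0 = 0 ∧
          (∀ i, IsInit α β (tau L φ (f i)) (w i) (H i)) ∧
          OPT α β c ((α : ℝ) + β - ∑ i, (c i : ℝ) * w i) H ∧
          GSS ℂ α β c ((α : ℝ) + β - ∑ i, (c i : ℝ) * w i) H ∧
          ((∀ σ ∈ G, ∃ a b : K, ∀ g : P2 K, tau L φ (lin (σ : Matrix (Fin 2) (Fin 2) K) g) =
            dg a b (tau L φ g)) ∨ (α = 1 ∧ β = 1 ∧ L = 1 ∧ φ = 0)) := by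
    intro d
    induction d with
    | zero =>
      intro β0 hB0 hβ0 L L' φ w0 H0 n hL hφ hev hI0 hA2 hn hbad
      exfalso
      have h1 := hN L L' φ hL hφ 1 β0 le_rfl hβ0 w0 H0 hI0
      have h2 : (1 : ℝ) + 2 / δ ≤ β0 := (Nat.le_ceil _).trans (by exact_mod_cast (by omega))
      push_cast at h1
      have h3 : (1 + δ) * ((β0 : ℝ) - 1) ≤ (1 + δ) * ∑ i, (c i : ℝ) * w0 i :=
        mul_le_mul_of_nonneg_left (by linarith) (by linarith)
      have h4 : δ * (1 + 2 / δ) ≤ δ * β0 := mul_le_mul_of_nonneg_left h2 hδ.le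
      have h5 : δ * (1 + 2 / δ) = δ + 2 := by field_simp
      nlinarith
    | succ d ih =>
      intro β0 hB0 hβ0 L L' φ w0 H0 n hL hφ hev hI0 hA2 hn hbad
      have hF0 : ∀ i, tau L φ (f i) ≠ 0 := fun i => (hI0 i).ne_zero
      obtain ⟨α, β, w, H, hα, hβ, hco, hlt, hI, hO⟩ := newton_opt (fun i => tau L φ (f i))
        hF0 c hc δ hδ (fun α β hα hβ w H hI => hN L L' φ hL hφ α β hα hβ w H hI) β0 hβ0 w0 H0
        hI0 n hn hbad
      by_cases hS : GSS ℂ α β c ((α : ℝ) + β - ∑ i, (c i : ℝ) * w i) H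
      · exact ⟨α, β, w, L, L', φ, H, hα, hβ, hco, hL, hφ, hI, hO, hS, Or.inl hev⟩
      · unfold GSS at hS
        push Not at hS
        obtain ⟨z, hz, m, hm, hmbad⟩ := hS
        have hαβ : α ≤ β := by nlinarith
        have hA0 := hpos L L' φ hL hφ α β hα hβ w H hI
        obtain ⟨rfl, y, hy0, hyz, hym⟩ := bad_root hα hαβ hco c hc w H (fun i => (hI i).1)
          (fun i => (hI i).2.1) _ rfl hA0 z hz m hm hmbad
        have hlt' : β0 < β := by omega
        have hbad1 : (β : ℝ) * (1 - ∑ i, (c i : ℝ) * m i) <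
            (1 + β - ∑ i, (c i : ℝ) * w i) / 2 := by
          push_cast at hmbad
          linarith
        -- compatibility with the group
        have hev' : ∀ σ ∈ G, ∃ a b : K, ∀ g : P2 K,
            tau L (φ + Polynomial.C y * Polynomial.X ^ β)
              (lin (σ : Matrix (Fin 2) (Fin 2) K) g) =
            dg a b (tau L (φ + Polynomial.C y * Polynomial.X ^ β) g) := by
          intro σ hσ
          obtain ⟨a, b, hab⟩ := hev σ hσ
          obtain ⟨T, hT⟩ := exists_tauEquiv L L' hL φ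
          have hlininj : Function.Injective (lin (σ : Matrix (Fin 2) (Fin 2) K)) := by
            have h1 : (lin ((σ⁻¹ : GL (Fin 2) K) : Matrix (Fin 2) (Fin 2) K)).comp
                (lin (σ : Matrix (Fin 2) (Fin 2) K)) = AlgHom.id K (P2 K) := by
              rw [lin_comp]
              have h2 : (σ : Matrix (Fin 2) (Fin 2) K) *
                ((σ⁻¹ : GL (Fin 2) K) : Matrix (Fin 2) (Fin 2) K) = 1 := by
                rw [← Units.val_mul, mul_inv_cancel, Units.val_one]
              rw [h2, lin_one]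
            intro g g' hgg
            have h3 := congrArg (lin ((σ⁻¹ : GL (Fin 2) K) : Matrix (Fin 2) (Fin 2) K)) hgg
            rw [← AlgHom.comp_apply, ← AlgHom.comp_apply, h1] at h3
            exact h3
          have hdginj : ∀ g : P2 K, dg a b g = 0 → g = 0 := by
            intro g hg
            have h1 := hab (T.symm g)
            rw [← hT (T.symm g), T.apply_symm_apply, hg, ← hT] at h1
            have h2 : lin (σ : Matrix (Fin 2) (Fin 2) K) (T.symm g) = 0 := by
              apply T.injective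
              rw [h1, map_zero]
            have h3 : T.symm g = 0 := hlininj (by rw [h2, map_zero])
            rw [← T.apply_symm_apply g, h3, map_zero]
          have ha : a ≠ 0 := by
            rintro rfl
            exact X_ne_zero (R := K) (0 : Fin 2) (hdginj _ (by simp [dg]))
          have hb : b ≠ 0 := by
            rintro rfl
            exact X_ne_zero (R := K) (1 : Fin 2) (hdginj _ (by simp [dg]))
          have hHfix : ∀ i, dg a b (H i) = H i := by
            intro i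
            have h1 := dg_isInit a b ha hb _ _ (hI i)
            rw [← hab, hf i σ hσ] at h1
            exact (h1.unique (hI i)).2
          have hroot : b * y / a ^ β = y :=
            bad_unique hβ c hc w H (fun i => (hI i).1) (fun i => (hI i).2.1)
              (1 + (β : ℝ) - ∑ i, (c i : ℝ) * w i) rfl _ y m m
              (fun i => dvd_of_dg (H i) (w i) (hI i).2.1 a b ha hb (hHfix i) y (m i) (hym i))
              hym hbad1 hbad1
          have hya : y * a ^ β = b * y := by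
            rw [div_eq_iff (pow_ne_zero _ ha)] at hroot
            exact hroot.symm
          refine ⟨a, b, fun g => ?_⟩
          rw [← shear_tau, hab, shear_dg β y a b hya, shear_tau]
        have hA2' : 1 + (β : ℝ) - ∑ i, (c i : ℝ) * w i ≤ 2 := by
          have h1 := hO.1 (fun _ => 0) (fun i => by simp)
          push_cast at h1
          simp at h1
          linarith
        refine ih β (by omega) hβ L L' (φ + Polynomial.C y * Polynomial.X ^ β) w
          (fun i => shear (Polynomial.C y * Polynomial.X ^ β) (H i)) m hL ?_ hev' ?_ hA2' ?_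
          hbad1
        · rw [Polynomial.coeff_add, hφ, zero_add, Polynomial.coeff_C_mul,
            Polynomial.coeff_X_pow, if_neg (by omega), mul_zero]
        · intro i
          rw [← shear_tau]
          exact shear_isInit hβ _ _ _ (hI i) y
        · intro i
          exact shear_dvd hβ (H i) (w i) (hI i).2.1 y (m i) (hym i)
  -- the first stage
  have hex : ∀ i, ∃ j H, IsInit 1 1 (f i) j H := fun i => exists_isInit 1 1 (hf0 i)
  choose w H hI using hex
  have hI' : ∀ i, IsInit 1 1 (tau (1 : Matrix (Fin 2) (Fin 2) K) 0 (f i)) (w i) (H i) := by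
    intro i
    rw [tau_one_zero]
    exact hI i
  have hA0 := hpos 1 1 0 (by simp) (by simp) 1 1 le_rfl le_rfl w H hI'
  have hA0' : 0 < 2 - ∑ i, (c i : ℝ) * w i := by
    push_cast at hA0
    linarith
  rcases stage0 G f hf c hc w H hI _ rfl hA0' with ⟨hO, hS⟩ | ⟨L, L', hL, hev, H', n, hI1, hn, hb⟩
  · have e : ((1 : ℕ) : ℝ) + ((1 : ℕ) : ℝ) - ∑ i, (c i : ℝ) * w i =
        2 - ∑ i, (c i : ℝ) * w i := by push_cast; ring
    refine ⟨1, 1, w, 1, 1, 0, H, le_rfl, le_rfl, by simp, by simp, by simp, hI', ?_, ?_,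
      Or.inr ⟨rfl, rfl, rfl, rfl⟩⟩
    · rw [e]; exact hO
    · rw [e]; exact hS
  · have hsum : 0 ≤ ∑ i, (c i : ℝ) * w i := Finset.sum_nonneg fun i _ =>
      mul_nonneg (hcr i) (by positivity)
    refine claim B 1 (by omega) le_rfl L L' 0 w H' n hL (by simp) hev hI1 ?_ hn ?_
    · push_cast; linarith
    · push_cast
      linarith

end FV
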