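import Mathlib

/-!
# Frobenius volumes and normalized volumes of surface pairs: definitions

A surface klt singularity is a quotient `k² / G` by a finite group `G ⊆ GL₂(k)` which acts freely
outside of the origin.  Its coordinate ring is the ring of invariants `k[x,y]^G`.
-/

set_option autoImplicit false

noncomputable section

namespace FV

open MvPolynomial Filter MeasureTheory

/-- The polynomial ring in two variables. -/
abbrev P2 (k : Type*) [CommRing k] : Type _ := MvPolynomial (Fin 2) k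

/-! ## The ring of invariants -/

/-- The linear substitution `X i ↦ ∑ j, M i j * X j`. -/
def lin {k : Type*} [CommRing k] (M : Matrix (Fin 2) (Fin 2) k) : P2 k →ₐ[k] P2 k :=
  aeval (fun i => ∑ j, C (M i j) * X j)

/-- The ring of invariants `k[x,y]^G` of a group of matrices. -/
def Inv {k : Type*} [CommRing k] (G : Subgroup (GL (Fin 2) k)) : Subalgebra k (P2 k) where
  carrier := {f | ∀ σ ∈ G, lin (σ : Matrix (Fin 2) (Fin 2) k) f = f}
  mul_mem' := fun ha hb σ hσ => by rw [map_mul, ha σ hσ, hb σ hσ]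
  add_mem' := fun ha hb σ hσ => by rw [map_add, ha σ hσ, hb σ hσ]
  algebraMap_mem' := fun r σ _ => by simp

/-- The maximal ideal of the origin in the ring of invariants. -/
def mO {k : Type*} [CommRing k] (G : Subgroup (GL (Fin 2) k)) : Ideal (Inv G) :=
  RingHom.ker ((constantCoeff (R := k) (σ := Fin 2)).comp (Inv G).val.toRingHom)

/-- An ideal of `k[x,y]^G` which is primary to the maximal ideal of the origin. -/
def IsPrim {k : Type*} [CommRing k] (G : Subgroup (GL (Fin 2) k)) (I : Ideal (Inv G)) : Prop :=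
  I ≤ mO G ∧ ∃ N : ℕ, mO G ^ N ≤ I

/-- The Hilbert-Samuel multiplicity of an ideal in a ring of dimension two. -/
def emult (k : Type*) [CommRing k] {R : Type*} [CommRing R] [Algebra k R] (I : Ideal R) : ℝ :=
  limsup (fun n : ℕ => 2 * (Module.finrank k (R ⧸ I ^ n) : ℝ) / (n : ℝ) ^ 2) atTop

/-! ## Characteristic `p` -/

/-- The element `∏ fᵢ ^ ⌈cᵢ (q - 1)⌉`. -/
def Fq {k : Type*} [CommRing k] {r : ℕ} (f : Fin r → P2 k) (c : Fin r → ℚ) (q : ℕ) : P2 k :=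
  ∏ i, f i ^ ⌈(c i : ℝ) * ((q : ℝ) - 1)⌉₊

/-- Strong `F`-regularity of the triple `(k²/G, ∑ cᵢ div fᵢ, I^t)` at the origin: for every
`d ≠ 0` in `R = k[x,y]^G` there are `e ≥ 1` and a `p^{-e}`-linear map `φ : R → R` such that
`φ (d · ∏ fᵢ ^ ⌈cᵢ (p^e - 1)⌉ · I ^ ⌈t (p^e - 1)⌉)` is not contained in the maximal ideal of the
origin. -/
def SFR {k : Type*} [CommRing k] (p : ℕ) (G : Subgroup (GL (Fin 2) k)) {r : ℕ}
    (f : Fin r → P2 k) (c : Fin r → ℚ) (I : Ideal (Inv G)) (t : ℝ) : Prop :=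
  ∀ d : Inv G, d ≠ 0 → ∃ e : ℕ, 1 ≤ e ∧ ∃ φ : Inv G →+ Inv G,
    (∀ a b : Inv G, φ (a ^ p ^ e * b) = a * φ b) ∧
    ∃ a ∈ I ^ ⌈t * ((p ^ e : ℕ) - 1 : ℝ)⌉₊, ∃ z : Inv G,
      (z : P2 k) = (d : P2 k) * Fq f c (p ^ e) * (a : P2 k) ∧ φ z ∉ mO G

/-- The `F`-pure threshold of `I` with respect to the pair `(k²/G, ∑ cᵢ div fᵢ)`. -/
def fpt {k : Type*} [CommRing k] (p : ℕ) (G : Subgroup (GL (Fin 2) k)) {r : ℕ}
    (f : Fin r → P2 k) (c : Fin r → ℚ) (I : Ideal (Inv G)) : ℝ :=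
  sSup {t : ℝ | 0 ≤ t ∧ SFR p G f c I t}

/-- The Frobenius volume of the pair `(k²/G, ∑ cᵢ div fᵢ)` at the origin. -/
def Fvol {k : Type*} [CommRing k] (p : ℕ) (G : Subgroup (GL (Fin 2) k)) {r : ℕ}
    (f : Fin r → P2 k) (c : Fin r → ℚ) : ℝ :=
  sInf {v : ℝ | ∃ I : Ideal (Inv G), IsPrim G I ∧ v = emult k I * fpt p G f c I ^ 2}

/-! ## Characteristic zero -/

/-- The value of a polynomial at a point of `ℂ²`. -/
def ev (f : P2 ℂ) (z : ℂ × ℂ) : ℂ := MvPolynomial.eval ![z.1, z.2] f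

/-- Integrability near the origin of `ℂ²` (for Lebesgue measure). -/
def IntNear (Φ : ℂ × ℂ → ℝ) : Prop :=
  ∃ ρ : ℝ, 0 < ρ ∧ IntegrableOn Φ (Metric.ball (0 : ℂ × ℂ) ρ)

/-- The pair `(ℂ²/G, ∑ cᵢ div fᵢ)` is klt at the origin: `∏ |fᵢ|^{-2 (1 + δ) cᵢ}` is integrable
near the origin of `ℂ²` for some `δ > 0`. -/
def Klt {r : ℕ} (f : Fin r → P2 ℂ) (c : Fin r → ℚ) : Prop :=
  ∃ δ : ℝ, 0 < δ ∧ IntNear (fun z => ∏ i, ‖ev (f i) z‖ ^ (-(2 * ((1 + δ) * (c i : ℝ)))))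

/-- The log canonical threshold of the ideal `I ⊆ ℂ[x,y]^G` with respect to the pair
`(ℂ²/G, ∑ cᵢ div fᵢ)`: the supremum of all `t ≥ 0` such that, for generators `g` of `I`, the
function `∏ |fᵢ|^{-2cᵢ} (∑ |g|²)^{-t}` is integrable near the origin of `ℂ²`. -/
def lct (G : Subgroup (GL (Fin 2) ℂ)) {r : ℕ} (f : Fin r → P2 ℂ) (c : Fin r → ℚ)
    (I : Ideal (Inv G)) : ℝ :=
  sSup {t : ℝ | 0 ≤ t ∧ ∃ Γ : Finset (Inv G), Ideal.span (Γ : Set (Inv G)) = I ∧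
    IntNear (fun z => (∏ i, ‖ev (f i) z‖ ^ (-(2 * (c i : ℝ)))) *
      (∑ g ∈ Γ, ‖ev (g : P2 ℂ) z‖ ^ 2) ^ (-t))}

/-- The normalized volume of the pair `(ℂ²/G, ∑ cᵢ div fᵢ)` at the origin (Liu's formula). -/
def volhat (G : Subgroup (GL (Fin 2) ℂ)) {r : ℕ} (f : Fin r → P2 ℂ) (c : Fin r → ℚ) : ℝ :=
  sInf {v : ℝ | ∃ I : Ideal (Inv G), IsPrim G I ∧ v = emult ℂ I * lct G f c I ^ 2}

end FV
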