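import Pool.Agent.Lib.MP_9e8926_ag_FV.EvL

/-!
# Divergence
-/

set_option autoImplicit false

noncomputable section

namespace FV

open MvPolynomial MeasureTheory

private theorem divl_vol (α β : ℕ) (ρ : ℝ) (hρ : 0 < ρ) :
    volume (Metric.closedBall (0 : ℂ) (ρ ^ α) ×ˢ Metric.closedBall (0 : ℂ) (ρ ^ β)) =
      ENNReal.ofReal (Real.pi ^ 2 * ρ ^ (2 * (α + β))) := by
  rw [Measure.volume_eq_prod, Measure.prod_prod, Complex.volume_closedBall,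
    Complex.volume_closedBall]
  have h1 : (NNReal.pi : ENNReal) = ENNReal.ofReal Real.pi := by
    rw [ENNReal.ofReal, Real.toNNReal_of_nonneg Real.pi_pos.le]
    rfl
  rw [h1, ← ENNReal.ofReal_pow (by positivity), ← ENNReal.ofReal_pow (by positivity),
    ← ENNReal.ofReal_mul (by positivity), ← ENNReal.ofReal_mul (by positivity),
    ← ENNReal.ofReal_mul (by positivity)]
  congr 1
  ring

theorem div_lem {α β : ℕ} (hα : 1 ≤ α) (hβ : 1 ≤ β) (Φ : ℂ × ℂ → ℝ) (s κ ρ0 : ℝ)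
    (hκ : 0 < κ) (hρ0 : 0 < ρ0)
    (h : ∀ ρ : ℝ, 0 < ρ → ρ ≤ ρ0 → ∀ᵐ z : ℂ × ℂ, ‖z.1‖ ≤ ρ ^ α → ‖z.2‖ ≤ ρ ^ β →
      κ * ρ ^ (-(2 * s)) ≤ Φ z) (hint : IntNear Φ) : s < (α : ℝ) + β := by
  by_contra hs
  push Not at hs
  obtain ⟨r, hr, hI⟩ := hint
  set μ := (volume : Measure (ℂ × ℂ)).restrict (Metric.ball 0 r) with hμ
  have hfin : ∫⁻ z, ENNReal.ofReal (Φ z) ∂μ ≠ ⊤ := (Integrable.lintegral_lt_top hI).ne
  obtain ⟨δ, hδ, hδ2⟩ := exists_pos_setLIntegral_lt_of_measure_lt hfin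
    (ε := ENNReal.ofReal κ) (by simpa using hκ)
  have htend : Filter.Tendsto (fun ρ : ℝ => ENNReal.ofReal (Real.pi ^ 2 * ρ ^ (2 * (α + β))))
      (nhdsWithin 0 (Set.Ioi 0)) (nhds 0) := by
    have h1 : Filter.Tendsto (fun ρ : ℝ => Real.pi ^ 2 * ρ ^ (2 * (α + β)))
        (nhds 0) (nhds (Real.pi ^ 2 * 0 ^ (2 * (α + β)))) :=
      Continuous.tendsto (by fun_prop) 0
    have h2 : Real.pi ^ 2 * (0 : ℝ) ^ (2 * (α + β)) = 0 := by
      rw [zero_pow (by omega), mul_zero]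
    rw [h2] at h1
    have h3 := (ENNReal.continuous_ofReal.tendsto 0).comp h1
    rw [ENNReal.ofReal_zero] at h3
    exact h3.mono_left nhdsWithin_le_nhds
  have hev1 : ∀ᶠ ρ : ℝ in nhdsWithin 0 (Set.Ioi 0),
      ENNReal.ofReal (Real.pi ^ 2 * ρ ^ (2 * (α + β))) < δ :=
    htend.eventually_lt_const hδ
  have hev2 : ∀ᶠ ρ : ℝ in nhdsWithin 0 (Set.Ioi 0), ρ ∈ Set.Ioo (0 : ℝ) (min (min 1 r) ρ0) :=
    Ioo_mem_nhdsGT (lt_min (lt_min one_pos hr) hρ0)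
  obtain ⟨ρ, hρ1, hρ2⟩ := (hev1.and hev2).exists
  obtain ⟨hρ, hρm⟩ := hρ2
  have hρ_1 : ρ < 1 := lt_of_lt_of_le hρm ((min_le_left _ _).trans (min_le_left _ _))
  have hρ_r : ρ < r := lt_of_lt_of_le hρm ((min_le_left _ _).trans (min_le_right _ _))
  have hρ_0 : ρ ≤ ρ0 := (lt_of_lt_of_le hρm (min_le_right _ _)).le
  set D : Set (ℂ × ℂ) := Metric.closedBall (0 : ℂ) (ρ ^ α) ×ˢ Metric.closedBall (0 : ℂ) (ρ ^ β)
    with hD
  have hDm : MeasurableSet D := Metric.isClosed_closedBall.measurableSet.prod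
    Metric.isClosed_closedBall.measurableSet
  have hDsub : D ⊆ Metric.ball 0 r := by
    rintro ⟨a, b⟩ hz
    rw [hD, Set.mem_prod, mem_closedBall_zero_iff, mem_closedBall_zero_iff] at hz
    rw [mem_ball_zero_iff, Prod.norm_def]
    have e1 : ρ ^ α ≤ ρ := by
      calc ρ ^ α ≤ ρ ^ 1 := pow_le_pow_of_le_one hρ.le hρ_1.le hα
        _ = ρ := pow_one ρ
    have e2 : ρ ^ β ≤ ρ := by
      calc ρ ^ β ≤ ρ ^ 1 := pow_le_pow_of_le_one hρ.le hρ_1.le hβ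
        _ = ρ := pow_one ρ
    exact max_lt ((hz.1.trans e1).trans_lt hρ_r) ((hz.2.trans e2).trans_lt hρ_r)
  have hμD : μ D < δ := by
    refine lt_of_le_of_lt (Measure.restrict_apply_le _ _) ?_
    rw [hD, divl_vol α β ρ hρ]
    exact hρ1
  have hlt := hδ2 D hμD
  have hres : μ.restrict D = volume.restrict D := by
    rw [hμ, Measure.restrict_restrict hDm, Set.inter_eq_left.mpr hDsub]
  rw [hres] at hlt
  have hge : ENNReal.ofReal (κ * ρ ^ (-(2 * s))) * volume D ≤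
      ∫⁻ z in D, ENNReal.ofReal (Φ z) := by
    rw [← setLIntegral_const]
    apply lintegral_mono_ae
    rw [ae_restrict_iff' hDm]
    filter_upwards [h ρ hρ hρ_0] with z hz hzD
    rw [hD, Set.mem_prod, mem_closedBall_zero_iff, mem_closedBall_zero_iff] at hzD
    exact ENNReal.ofReal_le_ofReal (hz hzD.1 hzD.2)
  rw [hD, divl_vol α β ρ hρ, ← hD, ← ENNReal.ofReal_mul (by positivity)] at hge
  have hκle : κ ≤ κ * ρ ^ (-(2 * s)) * (Real.pi ^ 2 * ρ ^ (2 * (α + β))) := by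
    have e1 : ρ ^ (-(2 * s)) * ρ ^ (2 * (α + β)) = ρ ^ (-(2 * s) + ((2 * (α + β) : ℕ) : ℝ)) := by
      rw [Real.rpow_add hρ, Real.rpow_natCast]
    have e2 : 1 ≤ ρ ^ (-(2 * s) + ((2 * (α + β) : ℕ) : ℝ)) := by
      apply Real.one_le_rpow_of_pos_of_le_one_of_nonpos hρ hρ_1.le
      push_cast
      linarith
    have e3 : 1 ≤ Real.pi ^ 2 := by
      have := Real.pi_gt_three
      nlinarith
    calc κ = κ * 1 := (mul_one κ).symm
      _ ≤ κ * (Real.pi ^ 2 * ρ ^ (-(2 * s) + ((2 * (α + β) : ℕ) : ℝ))) := by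
          apply mul_le_mul_of_nonneg_left _ hκ.le
          exact one_le_mul_of_one_le_of_one_le e3 e2
      _ = κ * ρ ^ (-(2 * s)) * (Real.pi ^ 2 * ρ ^ (2 * (α + β))) := by
          rw [← e1]
          ring
  have := lt_of_le_of_lt hge hlt
  exact absurd (lt_of_le_of_lt (ENNReal.ofReal_le_ofReal hκle) this) (lt_irrefl _)

private theorem divl_ev {α β w : ℕ} {F : P2 ℂ} (hF : Ge α β w F) : ∃ C : ℝ, 0 < C ∧
    ∀ (ρ : ℝ), 0 < ρ → ρ ≤ 1 → ∀ z : ℂ × ℂ, ‖z.1‖ ≤ ρ ^ α → ‖z.2‖ ≤ ρ ^ β →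
      ‖ev F z‖ ≤ C * ρ ^ w := by
  refine ⟨(∑ m ∈ F.support, ‖coeff m F‖) + 1, by positivity, ?_⟩
  intro ρ hρ hρ1 z h1 h2
  have e0 : ev F z = ∑ m ∈ F.support, coeff m F * (z.1 ^ m 0 * z.2 ^ m 1) := by
    rw [ev, eval_eq']
    apply Finset.sum_congr rfl
    intro m _
    rw [Fin.prod_univ_two]
    simp
  have e1 : ‖ev F z‖ ≤ (∑ m ∈ F.support, ‖coeff m F‖) * ρ ^ w := by
    rw [e0, Finset.sum_mul]
    refine (norm_sum_le _ _).trans (Finset.sum_le_sum ?_)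
    intro m hm
    rw [norm_mul, norm_mul, norm_pow, norm_pow]
    apply mul_le_mul_of_nonneg_left _ (norm_nonneg _)
    calc ‖z.1‖ ^ m 0 * ‖z.2‖ ^ m 1 ≤ (ρ ^ α) ^ m 0 * (ρ ^ β) ^ m 1 := by
          apply mul_le_mul (pow_le_pow_left₀ (norm_nonneg _) h1 _)
            (pow_le_pow_left₀ (norm_nonneg _) h2 _) (by positivity) (by positivity)
      _ = ρ ^ (wt α β m) := by rw [wt, ← pow_mul, ← pow_mul, ← pow_add]
      _ ≤ ρ ^ w := pow_le_pow_of_le_one hρ.le hρ1 (hF m hm)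
  refine e1.trans ?_
  apply mul_le_mul_of_nonneg_right _ (by positivity)
  linarith

theorem div_poly {α β : ℕ} (hα : 1 ≤ α) (hβ : 1 ≤ β) {r : ℕ} (F : Fin r → P2 ℂ)
    (hF : ∀ i, F i ≠ 0) (w : Fin r → ℕ) (hw : ∀ i, Ge α β (w i) (F i)) (e : Fin r → ℝ)
    (he : ∀ i, 0 ≤ e i) (Γ : Finset (P2 ℂ)) (hΓ : ∃ g ∈ Γ, g ≠ 0) (W0 : ℕ)
    (hW : ∀ g ∈ Γ, Ge α β W0 g) (t : ℝ) (ht : 0 ≤ t)
    (hint : IntNear (fun z => (∏ i, ‖ev (F i) z‖ ^ (-(2 * e i))) *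
      (∑ g ∈ Γ, ‖ev g z‖ ^ 2) ^ (-t))) :
    ∑ i, e i * w i + t * W0 < (α : ℝ) + β := by
  obtain ⟨g0, hg0, hg0n⟩ := hΓ
  choose C hC hCb using fun i => divl_ev (hw i)
  have hex : ∀ g : P2 ℂ, ∃ K : ℝ, 0 < K ∧ (g ∈ Γ → ∀ (ρ : ℝ), 0 < ρ → ρ ≤ 1 → ∀ z : ℂ × ℂ,
      ‖z.1‖ ≤ ρ ^ α → ‖z.2‖ ≤ ρ ^ β → ‖ev g z‖ ≤ K * ρ ^ W0) := by
    intro g
    by_cases hg : g ∈ Γ
    · obtain ⟨K, hK, hKb⟩ := divl_ev (hW g hg)
      exact ⟨K, hK, fun _ => hKb⟩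
    · exact ⟨1, one_pos, fun h => absurd h hg⟩
  choose K hK hKb using hex
  set K' : ℝ := ∑ g ∈ Γ, K g ^ 2 with hK'
  have hK'pos : 0 < K' := by
    rw [hK']
    exact Finset.sum_pos (fun g _ => by have := hK g; positivity) ⟨g0, hg0⟩
  refine div_lem hα hβ _ (∑ i, e i * w i + t * W0)
    ((∏ i, C i ^ (-(2 * e i))) * K' ^ (-t)) 1 ?_ one_pos ?_ hint
  · exact mul_pos (Finset.prod_pos fun i _ => Real.rpow_pos_of_pos (hC i) _)
      (Real.rpow_pos_of_pos hK'pos _)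
  intro ρ hρ hρ1
  have hae : ∀ᵐ z : ℂ × ℂ, ∀ i, ev (F i) z ≠ 0 := ae_all_iff.mpr fun i => ae_ne _ (hF i)
  filter_upwards [hae, ae_ne g0 hg0n] with z hz hz0 h1 h2
  have hp1 : ∀ i, C i ^ (-(2 * e i)) * (ρ ^ (((w i : ℕ) : ℝ) * (-(2 * e i)))) ≤
      ‖ev (F i) z‖ ^ (-(2 * e i)) := by
    intro i
    have e1 : C i ^ (-(2 * e i)) * (ρ ^ (((w i : ℕ) : ℝ) * (-(2 * e i)))) =
        (C i * ρ ^ w i) ^ (-(2 * e i)) := by
      rw [Real.mul_rpow (hC i).le (by positivity), Real.rpow_natCast_mul hρ.le]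
    rw [e1]
    apply Real.rpow_le_rpow_of_nonpos (norm_pos_iff.mpr (hz i)) (hCb i ρ hρ hρ1 z h1 h2)
    have := he i
    linarith
  have hpos : 0 < ∑ g ∈ Γ, ‖ev g z‖ ^ 2 := by
    apply lt_of_lt_of_le (pow_pos (norm_pos_iff.mpr hz0) 2)
    exact Finset.single_le_sum (f := fun g => ‖ev g z‖ ^ 2) (fun g _ => by positivity) hg0
  have hp2 : K' ^ (-t) * ρ ^ (((2 * W0 : ℕ) : ℝ) * (-t)) ≤ (∑ g ∈ Γ, ‖ev g z‖ ^ 2) ^ (-t) := by
    have e1 : K' ^ (-t) * ρ ^ (((2 * W0 : ℕ) : ℝ) * (-t)) = (K' * ρ ^ (2 * W0)) ^ (-t) := by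
      rw [Real.mul_rpow hK'pos.le (by positivity), Real.rpow_natCast_mul hρ.le]
    rw [e1]
    apply Real.rpow_le_rpow_of_nonpos hpos _ (by linarith)
    rw [hK', Finset.sum_mul]
    apply Finset.sum_le_sum
    intro g hg
    have := hKb g hg ρ hρ hρ1 z h1 h2
    calc ‖ev g z‖ ^ 2 ≤ (K g * ρ ^ W0) ^ 2 := pow_le_pow_left₀ (norm_nonneg _) this 2
      _ = K g ^ 2 * ρ ^ (2 * W0) := by rw [mul_pow, ← pow_mul, mul_comm W0 2]
  have hprod : (∏ i, C i ^ (-(2 * e i)) * (ρ ^ (((w i : ℕ) : ℝ) * (-(2 * e i))))) ≤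
      ∏ i, ‖ev (F i) z‖ ^ (-(2 * e i)) := by
    apply Finset.prod_le_prod
    · intro i _
      exact mul_nonneg (Real.rpow_nonneg (hC i).le _) (Real.rpow_nonneg hρ.le _)
    · intro i _
      exact hp1 i
  have hexp : ρ ^ (-(2 * (∑ i, e i * w i + t * W0))) =
      (∏ i, ρ ^ (((w i : ℕ) : ℝ) * (-(2 * e i)))) * ρ ^ (((2 * W0 : ℕ) : ℝ) * (-t)) := by
    rw [← Real.rpow_sum_of_pos hρ, ← Real.rpow_add hρ]
    congr 1
    have : ∑ i, (((w i : ℕ) : ℝ) * (-(2 * e i))) = -2 * ∑ i, e i * w i := by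
      rw [Finset.mul_sum]
      exact Finset.sum_congr rfl fun i _ => by ring
    rw [this]
    push_cast
    ring
  calc (∏ i, C i ^ (-(2 * e i))) * K' ^ (-t) * ρ ^ (-(2 * (∑ i, e i * w i + t * W0)))
      = (∏ i, C i ^ (-(2 * e i)) * (ρ ^ (((w i : ℕ) : ℝ) * (-(2 * e i))))) *
        (K' ^ (-t) * ρ ^ (((2 * W0 : ℕ) : ℝ) * (-t))) := by
        rw [hexp, Finset.prod_mul_distrib]
        ring
    _ ≤ _ := by
        apply mul_le_mul hprod hp2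
        · exact mul_nonneg (Real.rpow_nonneg hK'pos.le _) (Real.rpow_nonneg hρ.le _)
        · exact Finset.prod_nonneg fun i _ => Real.rpow_nonneg (norm_nonneg _) _

end FV
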