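import Pool.Agent.Lib.MP_9e8926_ag_FV.Ini

/-!
# Rescaled polynomials and slices
-/

set_option autoImplicit false

noncomputable section

namespace FV

open MvPolynomial MeasureTheory

/-- The rescaled polynomial `ρ^{-w} F(ρ^α x, ρ^β y)`, which makes sense for `ρ = 0`. -/
def FF (α β w : ℕ) (F : P2 ℂ) (ρ : ℝ) : P2 ℂ :=
  ∑ m ∈ F.support, monomial m (coeff m F * (ρ : ℂ) ^ (wt α β m - w))

/-- The restriction to the line `x = x₀`, centred at `y₀`. -/
def sliceY (H : P2 ℂ) (Q : ℂ × ℂ) : Polynomial ℂ :=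
  aeval ![Polynomial.C Q.1, Polynomial.C Q.2 + Polynomial.X] H

/-- The restriction to the line `y = y₀`, centred at `x₀`. -/
def sliceX (H : P2 ℂ) (Q : ℂ × ℂ) : Polynomial ℂ :=
  aeval ![Polynomial.C Q.1 + Polynomial.X, Polynomial.C Q.2] H

private theorem evL_eval (F : P2 ℂ) (z : ℂ × ℂ) :
    ev F z = ∑ m ∈ F.support, coeff m F * (z.1 ^ m 0 * z.2 ^ m 1) := by
  rw [ev, MvPolynomial.eval_eq']
  refine Finset.sum_congr rfl fun m _ => ?_
  rw [Fin.prod_univ_two]
  rfl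

/-- the coefficient of `y ^ b` -/
private def evL_P (F : P2 ℂ) (b : ℕ) : Polynomial ℂ :=
  ∑ m ∈ F.support.filter (fun m => m 1 = b), Polynomial.monomial (m 0) (coeff m F)

/-- the slice -/
private def evL_G (F : P2 ℂ) (x : ℂ) : Polynomial ℂ :=
  ∑ m ∈ F.support, Polynomial.monomial (m 1) (coeff m F * x ^ m 0)

private theorem evL_G_eval (F : P2 ℂ) (x y : ℂ) : (evL_G F x).eval y = ev F (x, y) := by
  rw [evL_eval, evL_G, Polynomial.eval_finsetSum]
  refine Finset.sum_congr rfl fun m _ => ?_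
  rw [Polynomial.eval_monomial, mul_assoc]

private theorem evL_G_coeff (F : P2 ℂ) (x : ℂ) (b : ℕ) :
    (evL_G F x).coeff b = (evL_P F b).eval x := by
  rw [evL_G, evL_P, Polynomial.finsetSum_coeff, Polynomial.eval_finsetSum, Finset.sum_filter]
  refine Finset.sum_congr rfl fun m _ => ?_
  rw [Polynomial.coeff_monomial, Polynomial.eval_monomial]

private theorem evL_P_ne {F : P2 ℂ} {m₀ : Fin 2 →₀ ℕ} (hm₀ : m₀ ∈ F.support) :
    evL_P F (m₀ 1) ≠ 0 := by
  intro h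
  have h1 : (evL_P F (m₀ 1)).coeff (m₀ 0) = coeff m₀ F := by
    rw [evL_P, Polynomial.finsetSum_coeff, Finset.sum_eq_single m₀]
    · rw [Polynomial.coeff_monomial, if_pos rfl]
    · intro m hm hne
      rw [Polynomial.coeff_monomial, if_neg]
      intro h0
      refine hne (Finsupp.ext fun i => ?_)
      fin_cases i
      · exact h0
      · exact (Finset.mem_filter.1 hm).2
    · intro h'
      exact (h' (Finset.mem_filter.2 ⟨hm₀, rfl⟩)).elim
  rw [h, Polynomial.coeff_zero] at h1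
  exact mem_support_iff.1 hm₀ h1.symm

private theorem evL_cont (F : P2 ℂ) : Continuous (ev F) := by
  have h : Continuous fun z : ℂ × ℂ =>
      ∑ m ∈ F.support, coeff m F * (z.1 ^ m 0 * z.2 ^ m 1) := by
    refine continuous_finsetSum _ fun m _ => continuous_const.mul ?_
    exact (continuous_fst.pow _).mul (continuous_snd.pow _)
  exact h.congr fun z => (evL_eval F z).symm

theorem ae_ne (F : P2 ℂ) (hF : F ≠ 0) : ∀ᵐ z : ℂ × ℂ, ev F z ≠ 0 := by
  obtain ⟨m₀, hm₀⟩ : F.support.Nonempty := by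
    rw [Finset.nonempty_iff_ne_empty, Ne, support_eq_empty]
    exact hF
  have hs : MeasurableSet {z : ℂ × ℂ | ev F z = 0} :=
    (isClosed_eq (evL_cont F) continuous_const).measurableSet
  have hfin : ∀ P : Polynomial ℂ, P ≠ 0 → volume {x : ℂ | P.eval x = 0} = 0 := by
    intro P hP
    refine Set.Finite.measure_zero (P.roots.toFinset.finite_toSet.subset fun x hx => ?_) _
    rw [Finset.mem_coe, Multiset.mem_toFinset, Polynomial.mem_roots hP]
    exact hx
  rw [ae_iff]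
  have h0 : {z : ℂ × ℂ | ¬ ev F z ≠ 0} = {z : ℂ × ℂ | ev F z = 0} := by
    ext z
    simp
  rw [h0, Measure.volume_eq_prod, Measure.measure_prod_null hs]
  have h1 : ∀ᵐ x : ℂ, (evL_P F (m₀ 1)).eval x ≠ 0 := by
    rw [ae_iff]
    simpa using hfin _ (evL_P_ne hm₀)
  filter_upwards [h1] with x hx
  have hG : evL_G F x ≠ 0 := by
    intro h
    rw [← evL_G_coeff, h, Polynomial.coeff_zero] at hx
    exact hx rfl
  have h2 := hfin _ hG
  simp only [evL_G_eval] at h2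
  exact h2

theorem ev_FF {α β w : ℕ} {F : P2 ℂ} (hF : Ge α β w F) (ρ : ℝ) (hρ : ρ ≠ 0) (z : ℂ × ℂ) :
    ev (FF α β w F ρ) z = (ρ : ℂ)⁻¹ ^ w * ev F ((ρ : ℂ) ^ α * z.1, (ρ : ℂ) ^ β * z.2) := by
  have hρ' : (ρ : ℂ) ≠ 0 := by exact_mod_cast hρ
  rw [evL_eval F, ev, FF, map_sum, Finset.mul_sum]
  refine Finset.sum_congr rfl fun m hm => ?_
  have h1 : (ρ : ℂ) ^ (wt α β m - w) = (ρ : ℂ)⁻¹ ^ w * (ρ : ℂ) ^ (wt α β m) := by
    rw [pow_sub₀ _ hρ' (hF m hm), inv_pow]
    ring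
  have h2 : (ρ : ℂ) ^ (wt α β m) = ((ρ : ℂ) ^ α) ^ m 0 * ((ρ : ℂ) ^ β) ^ m 1 := by
    rw [wt, pow_add, pow_mul, pow_mul]
  rw [eval_monomial, Finsupp.prod_fintype _ _ (fun i => pow_zero _), Fin.prod_univ_two, h1, h2]
  simp only [Matrix.cons_val_zero, Matrix.cons_val_one]
  ring

end FV
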