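import Pool.Agent.Lib.MP_9e8926_ag_FV.Tau

/-!
# Coordinate changes and integrability
-/

set_option autoImplicit false

noncomputable section

namespace FV

open MvPolynomial MeasureTheory

/-- the transfer of integrability near the origin -/
private theorem intNear_of (e : (ℂ × ℂ) ≃ᵐ (ℂ × ℂ)) (hc : ContinuousAt e 0) (h0 : e 0 = 0)
    (c : ENNReal) (hc' : c ≠ ⊤) (hm : Measure.map e volume = c • volume) (Φ : ℂ × ℂ → ℝ)
    (hΦ : IntNear Φ) : IntNear (fun z => Φ (e z)) := by
  obtain ⟨ρ, hρ, hint⟩ := hΦ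
  obtain ⟨ρ', hρ', h⟩ := Metric.continuousAt_iff.1 hc ρ hρ
  refine ⟨ρ', hρ', ?_⟩
  have h1 : IntegrableOn Φ (Metric.ball 0 ρ) (Measure.map e volume) := by
    rw [hm]
    unfold IntegrableOn
    rw [Measure.restrict_smul]
    exact Integrable.smul_measure hint hc'
  have h2 : IntegrableOn (Φ ∘ e) (e ⁻¹' (Metric.ball 0 ρ)) volume :=
    (e.measurableEmbedding.integrableOn_map_iff).1 h1
  refine h2.mono_set ?_
  intro z hz
  have h3 := h (x := z) hz
  rw [h0] at h3
  exact h3

/-- the shear of the plane -/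
private def shE (φ : Polynomial ℂ) : (ℂ × ℂ) ≃ᵐ (ℂ × ℂ) where
  toFun := fun z => (z.1, z.2 + φ.eval z.1)
  invFun := fun z => (z.1, z.2 - φ.eval z.1)
  left_inv := fun z => by
    ext
    · rfl
    · simp
  right_inv := fun z => by
    ext
    · rfl
    · simp
  measurable_toFun := by
    have : Continuous (fun z : ℂ × ℂ => (z.1, z.2 + φ.eval z.1)) :=
      continuous_fst.prodMk (continuous_snd.add (φ.continuous.comp continuous_fst))
    exact this.measurable
  measurable_invFun := by
    have : Continuous (fun z : ℂ × ℂ => (z.1, z.2 - φ.eval z.1)) :=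
      continuous_fst.prodMk (continuous_snd.sub (φ.continuous.comp continuous_fst))
    exact this.measurable

private theorem shE_apply (φ : Polynomial ℂ) (z : ℂ × ℂ) : shE φ z = (z.1, z.2 + φ.eval z.1) := rfl

private theorem intNear_sh (φ : Polynomial ℂ) (hφ : φ.coeff 0 = 0) (Φ : ℂ × ℂ → ℝ)
    (hΦ : IntNear Φ) : IntNear (fun z => Φ (shE φ z)) := by
  refine intNear_of (shE φ) ?_ ?_ 1 ENNReal.one_ne_top ?_ Φ hΦ
  · have : Continuous (fun z : ℂ × ℂ => (z.1, z.2 + φ.eval z.1)) :=
      continuous_fst.prodMk (continuous_snd.add (φ.continuous.comp continuous_fst))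
    exact this.continuousAt
  · rw [shE_apply]
    have h1 : φ.eval 0 = 0 := by rw [← Polynomial.coeff_zero_eq_eval_zero, hφ]
    simp [h1]
  · rw [one_smul]
    have h1 : MeasurePreserving (fun p : ℂ × ℂ => (id p.1, p.2 + φ.eval p.1))
        ((volume : Measure ℂ).prod volume) ((volume : Measure ℂ).prod volume) := by
      refine MeasurePreserving.skew_product (g := fun a b : ℂ => b + φ.eval a)
        (MeasurePreserving.id volume) ?_ ?_
      · have : Continuous (fun p : ℂ × ℂ => p.2 + φ.eval p.1) :=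
          continuous_snd.add (φ.continuous.comp continuous_fst)
        exact this.measurable
      · refine Filter.Eventually.of_forall fun a => ?_
        exact map_add_right_eq_self volume (φ.eval a)
    exact h1.map_eq

/-- the linear map -/
private def lnR (M : Matrix (Fin 2) (Fin 2) ℂ) : (ℂ × ℂ) →ₗ[ℝ] (ℂ × ℂ) where
  toFun := fun z => (M 0 0 * z.1 + M 0 1 * z.2, M 1 0 * z.1 + M 1 1 * z.2)
  map_add' := fun z w => by
    ext
    · simp only [Prod.fst_add, Prod.snd_add]
      ring
    · simp only [Prod.fst_add, Prod.snd_add]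
      ring
  map_smul' := fun a z => by
    ext
    · simp only [Prod.smul_fst, Prod.smul_snd, RingHom.id_apply, Complex.real_smul]
      ring
    · simp only [Prod.smul_fst, Prod.smul_snd, RingHom.id_apply, Complex.real_smul]
      ring

private theorem lnR_apply (M : Matrix (Fin 2) (Fin 2) ℂ) (z : ℂ × ℂ) :
    lnR M z = (M 0 0 * z.1 + M 0 1 * z.2, M 1 0 * z.1 + M 1 1 * z.2) := rfl

private theorem lnR_inv {M N : Matrix (Fin 2) (Fin 2) ℂ} (h : M * N = 1) (z : ℂ × ℂ) :
    lnR M (lnR N z) = z := by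
  have h00 := congrFun (congrFun h 0) 0
  have h01 := congrFun (congrFun h 0) 1
  have h10 := congrFun (congrFun h 1) 0
  have h11 := congrFun (congrFun h 1) 1
  rw [Matrix.mul_apply, Fin.sum_univ_two] at h00 h01 h10 h11
  rw [Matrix.one_apply_eq] at h00 h11
  rw [Matrix.one_apply_ne (by decide)] at h01 h10
  rw [lnR_apply, lnR_apply]
  ext
  · show M 0 0 * (N 0 0 * z.1 + N 0 1 * z.2) + M 0 1 * (N 1 0 * z.1 + N 1 1 * z.2) = z.1
    linear_combination z.1 * h00 + z.2 * h01
  · show M 1 0 * (N 0 0 * z.1 + N 0 1 * z.2) + M 1 1 * (N 1 0 * z.1 + N 1 1 * z.2) = z.2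
    linear_combination z.1 * h10 + z.2 * h11

private theorem lnR_cont (M : Matrix (Fin 2) (Fin 2) ℂ) : Continuous (lnR M) := by
  have : Continuous (fun z : ℂ × ℂ => (M 0 0 * z.1 + M 0 1 * z.2, M 1 0 * z.1 + M 1 1 * z.2)) := by
    fun_prop
  exact this

private def lnE (M N : Matrix (Fin 2) (Fin 2) ℂ) (h : M * N = 1) : (ℂ × ℂ) ≃ᵐ (ℂ × ℂ) where
  toFun := lnR M
  invFun := lnR N
  left_inv := fun z => lnR_inv (mul_eq_one_comm.1 h) z
  right_inv := fun z => lnR_inv h z
  measurable_toFun := (lnR_cont M).measurable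
  measurable_invFun := (lnR_cont N).measurable

private theorem intNear_ln (M N : Matrix (Fin 2) (Fin 2) ℂ) (h : M * N = 1) (Φ : ℂ × ℂ → ℝ)
    (hΦ : IntNear Φ) : IntNear (fun z => Φ (lnR M z)) := by
  have hdet : LinearMap.det (lnR M) ≠ 0 := by
    have h1 : (lnR M) ∘ₗ (lnR N) = LinearMap.id := LinearMap.ext fun z => lnR_inv h z
    have h2 := congrArg LinearMap.det h1
    rw [LinearMap.det_comp, LinearMap.det_id] at h2
    exact left_ne_zero_of_mul_eq_one h2
  have : (volume : Measure (ℂ × ℂ)).IsAddHaarMeasure := by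
    rw [Measure.volume_eq_prod]
    infer_instance
  have h1 : Measure.map (lnR M) (volume : Measure (ℂ × ℂ)) =
      ENNReal.ofReal |(LinearMap.det (lnR M))⁻¹| • volume :=
    Measure.map_linearMap_addHaar_eq_smul_addHaar volume hdet
  exact intNear_of (lnE M N h) (lnR_cont M).continuousAt (map_zero (lnR M)) _
    ENNReal.ofReal_ne_top h1 Φ hΦ

theorem intNear_tau (L L' : Matrix (Fin 2) (Fin 2) ℂ) (h : L * L' = 1) (φ : Polynomial ℂ)
    (hφ : φ.coeff 0 = 0) : ∃ T : ℂ × ℂ → ℂ × ℂ, (∀ (f : P2 ℂ) (z : ℂ × ℂ),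
      ev (tau L φ f) z = ev f (T z)) ∧ ∀ Φ : ℂ × ℂ → ℝ, IntNear Φ ↔ IntNear (fun z => Φ (T z)) := by
  refine ⟨fun z => lnR L (shE φ z), ?_, ?_⟩
  · intro f z
    have hX : ∀ i, eval ![z.1, z.2] (shear φ (lin L (X i))) =
        ![(lnR L (shE φ z)).1, (lnR L (shE φ z)).2] i := by
      intro i
      unfold lin
      rw [aeval_X, Fin.sum_univ_two, map_add, map_mul, map_mul]
      have h2 : ∀ a : ℂ, (shear φ) (C a) = C a := fun a => (shear φ).commutes a
      rw [h2, h2]
      unfold shear
      rw [aeval_X, aeval_X]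
      simp only [Matrix.cons_val_zero, Matrix.cons_val_one, map_add, map_mul, eval_C, eval_X]
      have h3 : (eval ![z.1, z.2]) (Polynomial.aeval (X 0 : P2 ℂ) φ) = φ.eval z.1 := by
        have h4 := Polynomial.hom_eval₂ φ (algebraMap ℂ (P2 ℂ)) (eval ![z.1, z.2]) (X 0 : P2 ℂ)
        rw [Polynomial.aeval_def, h4, eval_X]
        have h5 : (eval ![z.1, z.2]).comp (algebraMap ℂ (P2 ℂ)) = RingHom.id ℂ := by
          ext a
          simp [MvPolynomial.algebraMap_eq]
        rw [h5]
        rfl
      rw [h3, lnR_apply, shE_apply]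
      fin_cases i <;> rfl
    unfold ev tau
    rw [AlgHom.comp_apply]
    induction f using MvPolynomial.induction_on with
    | C a =>
      have h1 : (lin L) (C a) = C a := (lin L).commutes a
      have h2 : (shear φ) (C a) = C a := (shear φ).commutes a
      rw [h1, h2, eval_C, eval_C]
    | add p q hp hq => rw [map_add, map_add, map_add, map_add, hp, hq]
    | mul_X p i hp => rw [map_mul, map_mul, map_mul, map_mul, hp, hX, eval_X]
  · intro Φ
    constructor
    · intro hΦ
      exact intNear_sh φ hφ _ (intNear_ln L L' h Φ hΦ)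
    · intro hΦ
      -- undo the shear
      have h1 := intNear_sh (-φ) (by rw [Polynomial.coeff_neg, hφ, neg_zero]) _ hΦ
      have h2 : (fun z : ℂ × ℂ => Φ (lnR L (shE φ (shE (-φ) z)))) = fun z => Φ (lnR L z) := by
        funext z
        have h5 : shE φ (shE (-φ) z) = z := by
          rw [shE_apply, shE_apply, Polynomial.eval_neg]
          ext
          · rfl
          · simp
        rw [h5]
      rw [h2] at h1
      have h3 := intNear_ln L' L (mul_eq_one_comm.1 h) _ h1
      have h4 : (fun z : ℂ × ℂ => Φ (lnR L (lnR L' z))) = Φ := by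
        funext z
        rw [lnR_inv h]
      rw [h4] at h3
      exact h3

end FV
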