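import Pool.Agent.Lib.MP_9e8926_ag_FV.Maps
import Pool.Agent.Lib.MP_9e8926_ag_FV.TauInt
import Pool.Agent.Lib.MP_9e8926_ag_FV.DivL
import Pool.Agent.Lib.MP_9e8926_ag_FV.Ini

/-!
# The numerical consequence of the klt condition
-/

set_option autoImplicit false

noncomputable section

namespace FV

open MvPolynomial

private theorem NDel_ge_map {K L : Type*} [CommRing K] [CommRing L] (θ : K →+* L) {α β j : ℕ}
    {f : P2 K} (h : Ge α β j f) : Ge α β j (map θ f) := by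
  intro m hm
  exact h m (support_map_subset θ f hm)

theorem ndelta {K : Type*} [Field K] [Algebra K ℂ] {r : ℕ} (f : Fin r → P2 K)
    (hf : ∀ i, f i ≠ 0) (c : Fin r → ℚ) (hc : ∀ i, 0 ≤ c i)
    (hklt : Klt (fun i => map (algebraMap K ℂ) (f i)) c) :
    ∃ δ : ℝ, 0 < δ ∧ ∀ (L L' : Matrix (Fin 2) (Fin 2) K) (φ : Polynomial K), L * L' = 1 →
      φ.coeff 0 = 0 → ∀ α β : ℕ, 1 ≤ α → 1 ≤ β → ∀ (w : Fin r → ℕ) (H : Fin r → P2 K),
      (∀ i, IsInit α β (tau L φ (f i)) (w i) (H i)) →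
        (1 + δ) * ∑ i, (c i : ℝ) * w i < (α : ℝ) + β := by
  have _ := hf
  obtain ⟨δ, hδ, hint⟩ := hklt
  refine ⟨δ, hδ, ?_⟩
  intro L L' φ hL hφ α β hα hβ w H hI
  obtain ⟨T, hT, hTI⟩ := intNear_tau (L.map (algebraMap K ℂ)) (L'.map (algebraMap K ℂ))
    (by
      rw [← Matrix.map_mul, hL]
      exact Matrix.map_one _ (map_zero _) (map_one _)) (φ.map (algebraMap K ℂ))
    (by rw [Polynomial.coeff_map, hφ, map_zero])
  have h1 := (hTI _).1 hint
  have h2 : IntNear (fun z => (∏ i, ‖ev (map (algebraMap K ℂ) (tau L φ (f i))) z‖ ^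
      (-(2 * ((1 + δ) * (c i : ℝ))))) * (∑ g ∈ ({1} : Finset (P2 ℂ)), ‖ev g z‖ ^ 2) ^
      (-(0 : ℝ))) := by
    refine (iff_of_eq (congrArg IntNear ?_)).1 h1
    funext z
    rw [neg_zero, Real.rpow_zero, mul_one]
    refine Finset.prod_congr rfl fun i _ => ?_
    rw [← tau_map, hT]
  have h3 := div_poly hα hβ (fun i => map (algebraMap K ℂ) (tau L φ (f i)))
    (fun i => by
      intro h0
      exact (hI i).ne_zero (map_injective _ (algebraMap K ℂ).injective (by rw [h0, map_zero])))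
    w (fun i => NDel_ge_map _ (hI i).ge) (fun i => (1 + δ) * (c i : ℝ))
    (fun i => mul_nonneg (by linarith) (by exact_mod_cast hc i)) {1}
    ⟨1, Finset.mem_singleton_self _, one_ne_zero⟩ 0 (fun g _ m _ => Nat.zero_le _) 0 le_rfl h2
  rw [Nat.cast_zero, mul_zero, add_zero] at h3
  refine lt_of_eq_of_lt ?_ h3
  rw [Finset.mul_sum]
  exact Finset.sum_congr rfl fun i _ => by ring

end FV
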