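import Pool.Agent.Lib.MP_9e8926_ag_FV.Maps

/-!
# Spreading out: initial forms
-/

set_option autoImplicit false

noncomputable section

namespace FV

open MvPolynomial

/-- The part of weight `w` of a polynomial. -/
private def prt {R : Type*} [CommRing R] (α β w : ℕ) (F : P2 R) : P2 R :=
  ∑ m ∈ F.support.filter (fun m => wt α β m = w), monomial m (coeff m F)

private theorem coeff_prt {R : Type*} [CommRing R] (α β w : ℕ) (F : P2 R) (m : Fin 2 →₀ ℕ) :
    coeff m (prt α β w F) = if wt α β m = w then coeff m F else 0 := by
  classical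
  unfold prt
  rw [coeff_sum]
  simp only [coeff_monomial]
  rw [Finset.sum_ite_eq']
  by_cases h : wt α β m = w
  · by_cases h' : m ∈ F.support
    · simp [h, h']
    · simp [h, MvPolynomial.notMem_support_iff.mp h']
  · simp [h]

theorem isInit_spread {B K k : Type*} [CommRing B] [Field K] [Field k] (j : B →+* K)
    (hj : Function.Injective j) (Θ : B →+* k) {α β w : ℕ} (F : P2 B) (H : P2 K)
    (hI : IsInit α β (map j F) w H) (hinv : ∀ m ∈ H.support, ∃ b : B, j b * coeff m H = 1) :
    ∃ HB : P2 B, map j HB = H ∧ IsInit α β (map Θ F) w (map Θ HB) ∧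
      (map Θ HB).support = H.support := by
  classical
  have h1 : map j (prt α β w F) = H := by
    ext m
    rw [coeff_map, coeff_prt, hI.coeff_eq, coeff_map]
    split_ifs <;> simp
  have h2 : ∀ m, coeff m (map Θ (prt α β w F)) ≠ 0 ↔ coeff m H ≠ 0 := by
    intro m
    rw [← h1, coeff_map, coeff_map]
    constructor
    · intro h h0
      apply h
      have : coeff m (prt α β w F) = 0 := hj (by rw [h0, map_zero])
      rw [this, map_zero]
    · intro h h0
      have hm : m ∈ H.support := by
        rw [MvPolynomial.mem_support_iff, ← h1, coeff_map]; exact h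
      obtain ⟨b, hb⟩ := hinv m hm
      rw [← h1, coeff_map, ← map_mul] at hb
      have hb' : b * coeff m (prt α β w F) = 1 := hj (by rw [hb, map_one])
      have := congrArg Θ hb'
      rw [map_mul, h0, mul_zero, map_one] at this
      exact zero_ne_one this
  have hsupp : (map Θ (prt α β w F)).support = H.support := by
    ext m
    rw [MvPolynomial.mem_support_iff, MvPolynomial.mem_support_iff]
    exact h2 m
  refine ⟨prt α β w F, h1, ⟨?_, ?_, ?_⟩, hsupp⟩
  · intro h0
    apply hI.1
    rw [← MvPolynomial.support_eq_empty, ← hsupp, h0, MvPolynomial.support_zero]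
  · intro m hm
    rw [hsupp] at hm
    exact hI.2.1 m hm
  · intro m hm
    rw [MvPolynomial.mem_support_iff, coeff_sub, coeff_map, coeff_map, coeff_prt] at hm
    by_contra hlt
    push Not at hlt
    rcases Nat.lt_or_eq_of_le (Nat.lt_succ_iff.mp hlt) with h | h
    · have h3 : coeff m F = 0 := by
        by_contra h4
        have h5 : m ∈ (map j F).support := by
          rw [MvPolynomial.mem_support_iff, coeff_map]
          intro h6
          exact h4 (hj (by rw [h6, map_zero]))
        have := hI.ge m h5
        omega
      rw [h3] at hm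
      simp at hm
    · rw [if_pos h] at hm
      simp at hm

private theorem X_pow_dvd_iff {R : Type*} [Field R] (i : Fin 2) (n : ℕ) (H : P2 R) :
    (X i : P2 R) ^ n ∣ H ↔ ∀ m ∈ H.support, n ≤ m i := by
  classical
  rw [X_pow_eq_monomial, MvPolynomial.monomial_one_dvd_iff_modMonomial_eq_zero]
  constructor
  · intro h m hm
    by_contra hlt
    have h1 : ¬ Finsupp.single i n ≤ m := by
      rw [Finsupp.single_le_iff]; exact hlt
    have h2 := coeff_modMonomial_of_not_le H h1
    rw [h, coeff_zero] at h2
    exact (MvPolynomial.mem_support_iff.mp hm) h2.symm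
  · intro h
    ext m
    by_cases h1 : Finsupp.single i n ≤ m
    · rw [coeff_modMonomial_of_le H h1, coeff_zero]
    · rw [coeff_modMonomial_of_not_le H h1, coeff_zero]
      by_contra h2
      exact h1 (Finsupp.single_le_iff.mpr (h m (MvPolynomial.mem_support_iff.mpr h2)))

theorem opt_spread {K k : Type*} [Field K] [Field k] {α β r : ℕ} (c : Fin r → ℚ) (A : ℝ)
    (H : Fin r → P2 K) (H' : Fin r → P2 k) (hs : ∀ i, (H' i).support = (H i).support)
    (hO : OPT α β c A H) : OPT α β c A H' := by
  constructor
  · intro n hn
    refine hO.1 n fun i => ?_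
    rw [X_pow_dvd_iff, ← hs i, ← X_pow_dvd_iff]
    exact hn i
  · intro n hn
    refine hO.2 n fun i => ?_
    rw [X_pow_dvd_iff, ← hs i, ← X_pow_dvd_iff]
    exact hn i

end FV
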