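import Pool.Agent.Lib.MP_9e8926_ag_FV.Adap

/-!
# Invariant ideals computing the multiplicity
-/

set_option autoImplicit false

noncomputable section

namespace FV

open MvPolynomial

/-- an eigenvector of all substitutions of a finite group has an invariant power -/
private theorem ubc1_inv {k : Type*} [Field k] (G : Subgroup (GL (Fin 2) k)) [Finite G]
    (z : P2 k) (hz : z ≠ 0)
    (hev : ∀ σ ∈ G, ∃ a : k, lin (σ : Matrix (Fin 2) (Fin 2) k) z = C a * z) (n : ℕ) :
    z ^ (n * Nat.card G) ∈ Inv G := by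
  intro σ hσ
  obtain ⟨a, ha⟩ := hev σ hσ
  have h1 : ∀ j : ℕ, lin ((σ : Matrix (Fin 2) (Fin 2) k) ^ j) z = C (a ^ j) * z := by
    intro j
    induction j with
    | zero => rw [pow_zero, lin_one, AlgHom.id_apply, pow_zero, C_1, one_mul]
    | succ j ih =>
      rw [pow_succ, ← lin_comp, AlgHom.comp_apply, ih, map_mul, ha, ← mul_assoc]
      congr 1
      have h2 : lin (σ : Matrix (Fin 2) (Fin 2) k) (C (a ^ j) : P2 k) = C (a ^ j) := by
        rw [← algebraMap_eq]
        exact AlgHom.commutes _ _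
      rw [h2, ← C_mul, ← pow_succ]
  have h2 : (σ : Matrix (Fin 2) (Fin 2) k) ^ Nat.card G = 1 := by
    have h3 : (⟨σ, hσ⟩ : G) ^ Nat.card G = 1 := pow_card_eq_one'
    have h4 : σ ^ Nat.card G = 1 := by
      have h5 : ((⟨σ, hσ⟩ : G) : GL (Fin 2) k) ^ Nat.card G = 1 := by
        rw [← SubmonoidClass.coe_pow, h3, OneMemClass.coe_one]
      exact h5
    rw [← Units.val_pow_eq_pow_val, h4, Units.val_one]
  have h3 := h1 (Nat.card G)
  rw [h2, lin_one, AlgHom.id_apply] at h3
  have h4 : (C (a ^ Nat.card G) : P2 k) = 1 := by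
    have h5 : (1 : P2 k) * z = C (a ^ Nat.card G) * z := by rw [one_mul]; exact h3
    exact (mul_right_cancel₀ hz h5).symm
  have h5 : a ^ Nat.card G = 1 := by
    have h6 : (C (a ^ Nat.card G) : P2 k) = C 1 := by rw [h4, C_1]
    exact C_injective _ _ h6
  rw [map_pow, ha, mul_pow, ← C_pow, mul_comm n, pow_mul a, h5, one_pow, C_1, one_mul]

private theorem ubc1_ge {k : Type*} [Field k] {α β j : ℕ} (m : Fin 2 →₀ ℕ)
    (h : j ≤ wt α β m) : Ge α β j (monomial m (1 : k)) := by
  intro m' hm'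
  have h1 := support_monomial_subset hm'
  rw [Finset.mem_singleton] at h1
  rw [h1]
  exact h

private theorem ubc1_zero {k : Type*} [Field k] {α β j : ℕ} : Ge α β j (0 : P2 k) := by
  intro m' hm'
  simp at hm'

theorem ub_case1 {k : Type*} [Field k] (G : Subgroup (GL (Fin 2) k)) [Finite G] {α β : ℕ}
    (hα : 1 ≤ α) (hβ : 1 ≤ β) (L L' : Matrix (Fin 2) (Fin 2) k) (h : L * L' = 1)
    (φ : Polynomial k)
    (hev : ∀ σ ∈ G, ∃ a b : k, ∀ g : P2 k, tau L φ (lin (σ : Matrix (Fin 2) (Fin 2) k) g) =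
      dg a b (tau L φ g)) :
    ∃ u v : Inv G, UB α β (α * β * Nat.card G) (tau L φ (u : P2 k)) (tau L φ (v : P2 k)) := by
  obtain ⟨T, hT⟩ := exists_tauEquiv L L' h φ
  have hTC : ∀ c : k, T (C c) = C c := fun c => by
    rw [← algebraMap_eq]
    exact AlgEquiv.commutes _ _
  have hX0 : T.symm (X 0) ≠ 0 := fun h0 => by
    have := congrArg T h0
    rw [AlgEquiv.apply_symm_apply, map_zero] at this
    exact X_ne_zero _ this
  have hX1 : T.symm (X 1) ≠ 0 := fun h0 => by
    have := congrArg T h0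
    rw [AlgEquiv.apply_symm_apply, map_zero] at this
    exact X_ne_zero _ this
  have hu : T.symm (X 0) ^ (β * Nat.card G) ∈ Inv G := by
    refine ubc1_inv G _ hX0 (fun σ hσ => ?_) β
    obtain ⟨a, b, hab⟩ := hev σ hσ
    refine ⟨a, T.injective ?_⟩
    rw [map_mul, hTC, AlgEquiv.apply_symm_apply, hT, hab, ← hT, AlgEquiv.apply_symm_apply]
    simp [dg]
  have hv : T.symm (X 1) ^ (α * Nat.card G) ∈ Inv G := by
    refine ubc1_inv G _ hX1 (fun σ hσ => ?_) α
    obtain ⟨a, b, hab⟩ := hev σ hσ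
    refine ⟨b, T.injective ?_⟩
    rw [map_mul, hTC, AlgEquiv.apply_symm_apply, hT, hab, ← hT, AlgEquiv.apply_symm_apply]
    simp [dg]
  refine ⟨⟨_, hu⟩, ⟨_, hv⟩, ?_⟩
  have e1 : tau L φ (T.symm (X 0) ^ (β * Nat.card G)) =
      monomial (Finsupp.single 0 (β * Nat.card G)) 1 := by
    rw [map_pow, ← hT, AlgEquiv.apply_symm_apply, X_pow_eq_monomial]
  have e2 : tau L φ (T.symm (X 1) ^ (α * Nat.card G)) =
      monomial (Finsupp.single 1 (α * Nat.card G)) 1 := by
    rw [map_pow, ← hT, AlgEquiv.apply_symm_apply, X_pow_eq_monomial]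
  show UB α β (α * β * Nat.card G) (tau L φ (T.symm (X 0) ^ (β * Nat.card G)))
    (tau L φ (T.symm (X 1) ^ (α * Nat.card G)))
  rw [e1, e2]
  have w1 : wt α β (Finsupp.single 0 (β * Nat.card G)) = α * β * Nat.card G := by
    simp [wt, mul_assoc]
  have w2 : wt α β (Finsupp.single 1 (α * Nat.card G)) = α * β * Nat.card G := by
    simp [wt]
    ring
  refine ⟨ubc1_ge _ w1.ge, ubc1_ge _ w2.ge, fun m hm => ?_⟩
  have hsub : ∀ s : Fin 2 →₀ ℕ, s ≤ m → wt α β (m - s) = wt α β m - wt α β s := by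
    intro s hs
    have h0 := hs 0
    have h1 := hs 1
    unfold wt
    rw [Finsupp.tsub_apply, Finsupp.tsub_apply, Nat.mul_sub, Nat.mul_sub]
    have h2 : α * s 0 ≤ α * m 0 := Nat.mul_le_mul_left _ h0
    have h3 : β * s 1 ≤ β * m 1 := Nat.mul_le_mul_left _ h1
    omega
  by_cases hc : α * β * Nat.card G ≤ α * m 0
  · have hle : Finsupp.single 0 (β * Nat.card G) ≤ m := by
      rw [Finsupp.single_le_iff]
      rw [mul_assoc] at hc
      exact Nat.le_of_mul_le_mul_left hc hα
    refine ⟨monomial (m - Finsupp.single 0 (β * Nat.card G)) 1, 0, ubc1_ge _ ?_, ubc1_zero, ?_⟩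
    · rw [hsub _ hle, w1]
    · rw [monomial_mul, add_tsub_cancel_of_le hle, mul_zero, add_zero, mul_one]
  · have hle : Finsupp.single 1 (α * Nat.card G) ≤ m := by
      rw [Finsupp.single_le_iff]
      have h1 : β * (α * Nat.card G) ≤ β * m 1 := by
        have h2 : β * (α * Nat.card G) = α * β * Nat.card G := by ring
        unfold wt at hm
        omega
      exact Nat.le_of_mul_le_mul_left h1 hβ
    refine ⟨0, monomial (m - Finsupp.single 1 (α * Nat.card G)) 1, ubc1_zero, ubc1_ge _ ?_, ?_⟩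
    · rw [hsub _ hle, w2]
    · rw [monomial_mul, add_tsub_cancel_of_le hle, mul_zero, zero_add, mul_one]

end FV
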