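import Pool.Agent.Lib.MP_9e8926_ag_FV.Adap

/-!
# Invariant ideals computing the multiplicity: norms
-/

set_option autoImplicit false

noncomputable section

namespace FV

open MvPolynomial

private theorem ubc2_ge_C {k : Type*} [Field k] (c : k) : Ge 1 1 0 (C c : P2 k) :=
  fun _ _ => Nat.zero_le _

private theorem ubc2_ge_zero {k : Type*} [Field k] (j : ℕ) : Ge 1 1 j (0 : P2 k) := by
  intro m hm
  simp at hm

private theorem ubc2_ge_mon {k : Type*} [Field k] (m : Fin 2 →₀ ℕ) (j : ℕ)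
    (h : j ≤ m 0 + m 1) : Ge 1 1 j (monomial m (1 : k)) := by
  classical
  intro n hn
  have h1 := support_monomial_subset hn
  rw [Finset.mem_singleton] at h1
  subst h1
  unfold wt
  omega

private theorem ubc2_ge_X {k : Type*} [Field k] (i : Fin 2) : Ge 1 1 1 (X i : P2 k) := by
  have h : (X i : P2 k) = monomial (Finsupp.single i 1) 1 := rfl
  rw [h]
  refine ubc2_ge_mon _ _ ?_
  fin_cases i <;> simp

private theorem ubc2_ge_lin {k : Type*} [Field k] (a b : k) :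
    Ge 1 1 1 (C a * X 0 + C b * X 1 : P2 k) := by
  refine Ge.add ?_ ?_
  · exact Ge.mono (by omega) ((ubc2_ge_C a).mul (ubc2_ge_X 0))
  · exact Ge.mono (by omega) ((ubc2_ge_C b).mul (ubc2_ge_X 1))

private theorem ubc2_comb {k : Type*} [Field k] (l l' : Fin 2 → k)
    (h : l 0 * l' 1 - l 1 * l' 0 ≠ 0) (i : Fin 2) :
    ∃ c c' : k, (X i : P2 k) = C c * (C (l 0) * X 0 + C (l 1) * X 1) +
      C c' * (C (l' 0) * X 0 + C (l' 1) * X 1) := by
  fin_cases i
  · refine ⟨l' 1 / (l 0 * l' 1 - l 1 * l' 0), -l 1 / (l 0 * l' 1 - l 1 * l' 0), ?_⟩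
    have e1 : l' 1 / (l 0 * l' 1 - l 1 * l' 0) * l 0 +
        -l 1 / (l 0 * l' 1 - l 1 * l' 0) * l' 0 = 1 := by
      rw [div_mul_eq_mul_div, div_mul_eq_mul_div, ← add_div, div_eq_one_iff_eq h]
      ring
    have e2 : l' 1 / (l 0 * l' 1 - l 1 * l' 0) * l 1 +
        -l 1 / (l 0 * l' 1 - l 1 * l' 0) * l' 1 = 0 := by
      field_simp
      ring
    have f1 := congrArg (C : k → P2 k) e1
    have f2 := congrArg (C : k → P2 k) e2
    rw [C_add, C_mul, C_mul, C_1] at f1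
    rw [C_add, C_mul, C_mul, C_0] at f2
    show (X 0 : P2 k) = _
    linear_combination (-(X 0 : P2 k)) * f1 - (X 1 : P2 k) * f2
  · refine ⟨-l' 0 / (l 0 * l' 1 - l 1 * l' 0), l 0 / (l 0 * l' 1 - l 1 * l' 0), ?_⟩
    have e1 : -l' 0 / (l 0 * l' 1 - l 1 * l' 0) * l 0 +
        l 0 / (l 0 * l' 1 - l 1 * l' 0) * l' 0 = 0 := by
      field_simp
      ring
    have e2 : -l' 0 / (l 0 * l' 1 - l 1 * l' 0) * l 1 +
        l 0 / (l 0 * l' 1 - l 1 * l' 0) * l' 1 = 1 := by
      rw [div_mul_eq_mul_div, div_mul_eq_mul_div, ← add_div, div_eq_one_iff_eq h]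
      ring
    have f1 := congrArg (C : k → P2 k) e1
    have f2 := congrArg (C : k → P2 k) e2
    rw [C_add, C_mul, C_mul, C_0] at f1
    rw [C_add, C_mul, C_mul, C_1] at f2
    show (X 1 : P2 k) = _
    linear_combination (-(X 0 : P2 k)) * f1 - (X 1 : P2 k) * f2

/-- A product of linear forms. -/
theorem prod_forms {k : Type*} [Field k] (a b t : ℕ) (l : Fin a → Fin 2 → k)
    (l' : Fin b → Fin 2 → k) (h : ∀ i j, l i 0 * l' j 1 - l i 1 * l' j 0 ≠ 0)
    (m : Fin 2 →₀ ℕ) (hm : a + b + t ≤ m 0 + m 1 + 1) :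
    ∃ s s' : P2 k, Ge 1 1 (b + t - 1) s ∧ Ge 1 1 (a + t - 1) s' ∧
      monomial m (1 : k) = (∏ i, (C (l i 0) * X 0 + C (l i 1) * X 1)) * s +
        (∏ j, (C (l' j 0) * X 0 + C (l' j 1) * X 1)) * s' := by
  obtain ⟨N, hN⟩ : ∃ N, a + b = N := ⟨_, rfl⟩
  induction N generalizing a b m with
  | zero =>
    obtain rfl : a = 0 := by omega
    obtain rfl : b = 0 := by omega
    refine ⟨monomial m 1, 0, ubc2_ge_mon _ _ (by omega), ubc2_ge_zero _, ?_⟩
    simp
  | succ N ih =>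
    rcases a with _ | a
    · refine ⟨monomial m 1, 0, ubc2_ge_mon _ _ (by omega), ubc2_ge_zero _, ?_⟩
      simp
    rcases b with _ | b
    · refine ⟨0, monomial m 1, ubc2_ge_zero _, ubc2_ge_mon _ _ (by omega), ?_⟩
      simp
    obtain ⟨i, m', hmm, hdeg⟩ : ∃ (i : Fin 2) (m' : Fin 2 →₀ ℕ), m = Finsupp.single i 1 + m' ∧
        m 0 + m 1 = m' 0 + m' 1 + 1 := by
      rcases Nat.eq_zero_or_pos (m 0) with h0 | h0
      · have h1 : 1 ≤ m 1 := by omega
        refine ⟨1, m - Finsupp.single 1 1, ?_, ?_⟩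
        · rw [add_tsub_cancel_of_le]
          rw [Finsupp.single_le_iff]
          exact h1
        · simp
          omega
      · refine ⟨0, m - Finsupp.single 0 1, ?_, ?_⟩
        · rw [add_tsub_cancel_of_le]
          rw [Finsupp.single_le_iff]
          exact h0
        · simp
          omega
    obtain ⟨c, c', hc⟩ := ubc2_comb (l (Fin.last a)) (l' (Fin.last b)) (h _ _) i
    obtain ⟨s1, s1', g1, g1', e1⟩ := ih a (b + 1) (fun j => l j.castSucc) l'
      (fun _ _ => h _ _) m' (by omega) (by omega)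
    obtain ⟨s2, s2', g2, g2', e2⟩ := ih (a + 1) b l (fun j => l' j.castSucc)
      (fun _ _ => h _ _) m' (by omega) (by omega)
    have hmon : monomial m (1 : k) = X i * monomial m' 1 := by
      rw [hmm]
      show _ = monomial (Finsupp.single i 1) 1 * monomial m' 1
      rw [monomial_mul, one_mul]
    refine ⟨C c * s1 + C c' * ((C (l' (Fin.last b) 0) * X 0 + C (l' (Fin.last b) 1) * X 1) * s2),
      C c * ((C (l (Fin.last a) 0) * X 0 + C (l (Fin.last a) 1) * X 1) * s1') + C c' * s2',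
      ?_, ?_, ?_⟩
    · refine Ge.add ?_ ?_
      · exact Ge.mono (by omega) ((ubc2_ge_C c).mul g1)
      · exact Ge.mono (by omega) ((ubc2_ge_C c').mul ((ubc2_ge_lin _ _).mul g2))
    · refine Ge.add ?_ ?_
      · exact Ge.mono (by omega) ((ubc2_ge_C c).mul ((ubc2_ge_lin _ _).mul g1'))
      · exact Ge.mono (by omega) ((ubc2_ge_C c').mul g2')
    · rw [Fin.prod_univ_castSucc] at e2 ⊢
      rw [Fin.prod_univ_castSucc (n := b)] at e1 ⊢
      rw [hmon, hc]
      set L := (C (l (Fin.last a) 0) * X 0 + C (l (Fin.last a) 1) * X 1 : P2 k) with hL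
      set L' := (C (l' (Fin.last b) 0) * X 0 + C (l' (Fin.last b) 1) * X 1 : P2 k) with hL'
      linear_combination (C c * L) * e1 + (C c' * L') * e2

private theorem ubc2_lin_form {k : Type*} [Field k] (M : Matrix (Fin 2) (Fin 2) k)
    (a : Fin 2 → k) : lin M (C (a 0) * X 0 + C (a 1) * X 1) =
      C (Matrix.vecMul a M 0) * X 0 + C (Matrix.vecMul a M 1) * X 1 := by
  unfold lin
  rw [map_add, map_mul, map_mul, aeval_X, aeval_X, ← algebraMap_eq, AlgHom.commutes,
    AlgHom.commutes, algebraMap_eq, Fin.sum_univ_two, Fin.sum_univ_two]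
  simp only [Matrix.vecMul, dotProduct, Fin.sum_univ_two, C_add, C_mul]
  ring

private theorem ubc2_inv {k : Type*} [Field k] (G : Subgroup (GL (Fin 2) k)) [Finite G]
    (l : Fin 2 → k) (τ : GL (Fin 2) k) (hτ : τ ∈ G) :
    lin (τ : Matrix (Fin 2) (Fin 2) k) (∏ i : Fin (Nat.card G),
      (C (Matrix.vecMul l (((Finite.equivFin G).symm i : GL (Fin 2) k) :
        Matrix (Fin 2) (Fin 2) k) 0) * X 0 +
       C (Matrix.vecMul l (((Finite.equivFin G).symm i : GL (Fin 2) k) :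
        Matrix (Fin 2) (Fin 2) k) 1) * X 1)) =
    ∏ i : Fin (Nat.card G),
      (C (Matrix.vecMul l (((Finite.equivFin G).symm i : GL (Fin 2) k) :
        Matrix (Fin 2) (Fin 2) k) 0) * X 0 +
       C (Matrix.vecMul l (((Finite.equivFin G).symm i : GL (Fin 2) k) :
        Matrix (Fin 2) (Fin 2) k) 1) * X 1) := by
  have := Fintype.ofFinite G
  let f : G → P2 k := fun σ =>
    C (Matrix.vecMul l ((σ : GL (Fin 2) k) : Matrix (Fin 2) (Fin 2) k) 0) * X 0 +
    C (Matrix.vecMul l ((σ : GL (Fin 2) k) : Matrix (Fin 2) (Fin 2) k) 1) * X 1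
  have h1 : ∏ i : Fin (Nat.card G), f ((Finite.equivFin G).symm i) = ∏ σ : G, f σ :=
    Equiv.prod_comp (Finite.equivFin G).symm f
  show lin (τ : Matrix (Fin 2) (Fin 2) k) (∏ i : Fin (Nat.card G),
    f ((Finite.equivFin G).symm i)) = ∏ i : Fin (Nat.card G), f ((Finite.equivFin G).symm i)
  rw [h1, map_prod]
  have h2 : ∀ σ : G, lin (τ : Matrix (Fin 2) (Fin 2) k) (f σ) = f (σ * ⟨τ, hτ⟩) := by
    intro σ
    show lin (τ : Matrix (Fin 2) (Fin 2) k)
      (C (Matrix.vecMul l ((σ : GL (Fin 2) k) : Matrix (Fin 2) (Fin 2) k) 0) * X 0 +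
      C (Matrix.vecMul l ((σ : GL (Fin 2) k) : Matrix (Fin 2) (Fin 2) k) 1) * X 1) = _
    rw [ubc2_lin_form, Matrix.vecMul_vecMul]
    rfl
  rw [Finset.prod_congr rfl fun σ _ => h2 σ]
  exact Equiv.prod_comp (Equiv.mulRight (⟨τ, hτ⟩ : G)) f

theorem ub_case2 {k : Type*} [Field k] (G : Subgroup (GL (Fin 2) k)) [Finite G]
    (l l' : Fin 2 → k) (h : ∀ σ ∈ G, ∀ τ ∈ G,
      Matrix.vecMul l (σ : Matrix (Fin 2) (Fin 2) k) 0 *
        Matrix.vecMul l' (τ : Matrix (Fin 2) (Fin 2) k) 1 -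
      Matrix.vecMul l (σ : Matrix (Fin 2) (Fin 2) k) 1 *
        Matrix.vecMul l' (τ : Matrix (Fin 2) (Fin 2) k) 0 ≠ 0) :
    ∃ u v : Inv G, UB 1 1 (Nat.card G) (u : P2 k) (v : P2 k) := by
  refine ⟨⟨_, fun τ hτ => ubc2_inv G l τ hτ⟩, ⟨_, fun τ hτ => ubc2_inv G l' τ hτ⟩, ?_, ?_, ?_⟩
  · have h1 := Ge.prod (k := k) (α := 1) (β := 1) (Finset.univ : Finset (Fin (Nat.card G)))
      (w := fun _ => 1) (f := fun i =>
        (C (Matrix.vecMul l (((Finite.equivFin G).symm i : GL (Fin 2) k) :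
          Matrix (Fin 2) (Fin 2) k) 0) * X 0 +
        C (Matrix.vecMul l (((Finite.equivFin G).symm i : GL (Fin 2) k) :
          Matrix (Fin 2) (Fin 2) k) 1) * X 1)) (fun i _ => ubc2_ge_lin _ _)
    simpa using h1
  · have h1 := Ge.prod (k := k) (α := 1) (β := 1) (Finset.univ : Finset (Fin (Nat.card G)))
      (w := fun _ => 1) (f := fun i =>
        (C (Matrix.vecMul l' (((Finite.equivFin G).symm i : GL (Fin 2) k) :
          Matrix (Fin 2) (Fin 2) k) 0) * X 0 +
        C (Matrix.vecMul l' (((Finite.equivFin G).symm i : GL (Fin 2) k) :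
          Matrix (Fin 2) (Fin 2) k) 1) * X 1)) (fun i _ => ubc2_ge_lin _ _)
    simpa using h1
  · intro m hm
    have hw : wt 1 1 m = m 0 + m 1 := by unfold wt; omega
    rw [hw] at hm ⊢
    obtain ⟨s, s', g1, g2, e⟩ := prod_forms (Nat.card G) (Nat.card G)
      (m 0 + m 1 + 1 - 2 * Nat.card G)
      (fun i => Matrix.vecMul l (((Finite.equivFin G).symm i : GL (Fin 2) k) :
          Matrix (Fin 2) (Fin 2) k))
      (fun i => Matrix.vecMul l' (((Finite.equivFin G).symm i : GL (Fin 2) k) :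
          Matrix (Fin 2) (Fin 2) k))
      (fun i j => h _ ((Finite.equivFin G).symm i).2 _ ((Finite.equivFin G).symm j).2) m
      (by omega)
    exact ⟨s, s', g1.mono (by omega), g2.mono (by omega), e⟩

end FV
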