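import Pool.Agent.Lib.MP_9e8926_ag_FV.Defs

/-!
# Linear forms in general position
-/

set_option autoImplicit false

noncomputable section

namespace FV

open MvPolynomial

private theorem ubc3_expand {K : Type*} [Field K] (A B : Matrix (Fin 2) (Fin 2) K) (t : K) :
    Matrix.vecMul (![1, 0] : Fin 2 → K) A 0 * Matrix.vecMul ![1, t] B 1 -
      Matrix.vecMul (![1, 0] : Fin 2 → K) A 1 * Matrix.vecMul ![1, t] B 0 =
    (A 0 0 * B 0 1 - A 0 1 * B 0 0) + t * (A 0 0 * B 1 1 - A 0 1 * B 1 0) := by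
  simp only [Matrix.vecMul, dotProduct, Fin.sum_univ_two, Matrix.cons_val_zero,
    Matrix.cons_val_one]
  ring

private theorem ubc3_det {K : Type*} [Field K] (σ : GL (Fin 2) K) :
    (σ : Matrix (Fin 2) (Fin 2) K) 0 0 * (σ : Matrix (Fin 2) (Fin 2) K) 1 1 -
      (σ : Matrix (Fin 2) (Fin 2) K) 0 1 * (σ : Matrix (Fin 2) (Fin 2) K) 1 0 ≠ 0 := by
  rw [← Matrix.det_fin_two]
  exact ((Matrix.isUnit_iff_isUnit_det _).1 σ.isUnit).ne_zero

/-- Linear forms in general position. -/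
theorem exists_forms {K : Type*} [Field K] [CharZero K] (G : Subgroup (GL (Fin 2) K))
    [Finite G] : ∃ t : ℕ, ∀ σ ∈ G, ∀ τ ∈ G,
      Matrix.vecMul (![1, 0] : Fin 2 → K) (σ : Matrix (Fin 2) (Fin 2) K) 0 *
        Matrix.vecMul ![1, (t : K)] (τ : Matrix (Fin 2) (Fin 2) K) 1 -
      Matrix.vecMul (![1, 0] : Fin 2 → K) (σ : Matrix (Fin 2) (Fin 2) K) 1 *
        Matrix.vecMul ![1, (t : K)] (τ : Matrix (Fin 2) (Fin 2) K) 0 ≠ 0 := by
  classical
  set bad : G × G → Set ℕ := fun x => {t : ℕ |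
      Matrix.vecMul (![1, 0] : Fin 2 → K) ((x.1 : GL (Fin 2) K) : Matrix (Fin 2) (Fin 2) K) 0 *
        Matrix.vecMul ![1, (t : K)] ((x.2 : GL (Fin 2) K) : Matrix (Fin 2) (Fin 2) K) 1 -
      Matrix.vecMul (![1, 0] : Fin 2 → K) ((x.1 : GL (Fin 2) K) : Matrix (Fin 2) (Fin 2) K) 1 *
        Matrix.vecMul ![1, (t : K)] ((x.2 : GL (Fin 2) K) : Matrix (Fin 2) (Fin 2) K) 0 = 0}
    with hbad
  have hfin : ∀ x, (bad x).Finite := by
    intro x
    refine Set.Subsingleton.finite ?_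
    intro t ht t' ht'
    have h1 : _ = (0 : K) := ht
    have h2 : _ = (0 : K) := ht'
    rw [ubc3_expand] at h1 h2
    have hs := ubc3_det (x.1 : GL (Fin 2) K)
    have hτ := ubc3_det (x.2 : GL (Fin 2) K)
    set A : Matrix (Fin 2) (Fin 2) K := ((x.1 : GL (Fin 2) K) : Matrix (Fin 2) (Fin 2) K)
    set B : Matrix (Fin 2) (Fin 2) K := ((x.2 : GL (Fin 2) K) : Matrix (Fin 2) (Fin 2) K)
    by_contra hne
    have hne' : (t : K) - t' ≠ 0 := by
      rw [sub_ne_zero]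
      exact_mod_cast hne
    have hq : A 0 0 * B 1 1 - A 0 1 * B 1 0 = 0 := by
      have h3 : ((t : K) - t') * (A 0 0 * B 1 1 - A 0 1 * B 1 0) = 0 := by
        linear_combination h1 - h2
      exact (mul_eq_zero.1 h3).resolve_left hne'
    have hp : A 0 0 * B 0 1 - A 0 1 * B 0 0 = 0 := by
      rw [hq, mul_zero, add_zero] at h1
      exact h1
    have ha : A 0 0 = 0 := by
      have h3 : A 0 0 * (B 0 0 * B 1 1 - B 0 1 * B 1 0) = 0 := by
        linear_combination B 0 0 * hq - B 1 0 * hp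
      exact (mul_eq_zero.1 h3).resolve_right hτ
    have hb : A 0 1 = 0 := by
      have h3 : A 0 1 * (B 0 0 * B 1 1 - B 0 1 * B 1 0) = 0 := by
        linear_combination B 0 1 * hq - B 1 1 * hp
      exact (mul_eq_zero.1 h3).resolve_right hτ
    apply hs
    rw [ha, hb]
    ring
  have hU : (⋃ x, bad x).Finite := Set.finite_iUnion hfin
  obtain ⟨t, ht⟩ := hU.infinite_compl.nonempty
  refine ⟨t, fun σ hσ τ hτ h0 => ht ?_⟩
  rw [Set.mem_iUnion]
  exact ⟨(⟨σ, hσ⟩, ⟨τ, hτ⟩), h0⟩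

end FV
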