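import Pool.Agent.Lib.MP_9e8926_ag_FV.SpRing
import Pool.Agent.Lib.MP_9e8926_ag_FV.Bez
import Pool.Agent.Lib.MP_9e8926_ag_FV.SprdA
import Pool.Agent.Lib.MP_9e8926_ag_FV.UBc1
import Pool.Agent.Lib.MP_9e8926_ag_FV.UBc2
import Pool.Agent.Lib.MP_9e8926_ag_FV.UBc3

/-!
# Spreading out adapted coordinates
-/

set_option autoImplicit false

noncomputable section

namespace FV

open MvPolynomial Matrix

private theorem hasseDeriv_map' {R S : Type*} [CommRing R] [CommRing S] (j : R →+* S) (l : ℕ)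
    (h : Polynomial R) :
    (Polynomial.hasseDeriv l h).map j = Polynomial.hasseDeriv l (h.map j) := by
  ext n
  simp [Polynomial.hasseDeriv_coeff, Polynomial.coeff_map]

private theorem tau_one_zero {R : Type*} [CommRing R] (f : P2 R) :
    tau (1 : Matrix (Fin 2) (Fin 2) R) 0 f = f := by
  have h : tau (1 : Matrix (Fin 2) (Fin 2) R) 0 = AlgHom.id R (P2 R) := by
    unfold tau
    rw [lin_one, AlgHom.comp_id]
    apply MvPolynomial.algHom_ext
    intro i
    fin_cases i
    · simp [shear]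
    · simp [shear]
  rw [h]; rfl

private theorem poly_lift {A K : Type*} [CommRing A] [Field K] [Algebra A K]
    (B : Subalgebra A K) (φ : Polynomial K) (h : ∀ n, φ.coeff n ∈ B) :
    ∃ ψ : Polynomial B, ψ.map (B.val : B →+* K) = φ := by
  have h1 : φ ∈ Polynomial.lifts (B.val : B →+* K) := by
    rw [Polynomial.lifts_iff_coeff_lifts]
    intro n
    exact ⟨⟨φ.coeff n, h n⟩, rfl⟩
  exact (Polynomial.mem_lifts φ).mp h1

/-- The compatibility with the group descends along an injective ring homomorphism and is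
preserved by arbitrary ones. -/
private theorem ev_transfer {B K k : Type*} [CommRing B] [CommRing K] [CommRing k]
    (j : B →+* K) (hj : Function.Injective j) (Θ : B →+* k) (L M : Matrix (Fin 2) (Fin 2) B)
    (φ : Polynomial B) (a b : B)
    (h : ∀ g : P2 K, tau (L.map j) (φ.map j) (lin (M.map j) g) =
      dg (j a) (j b) (tau (L.map j) (φ.map j) g)) (g : P2 k) :
    tau (L.map Θ) (φ.map Θ) (lin (M.map Θ) g) =
      dg (Θ a) (Θ b) (tau (L.map Θ) (φ.map Θ) g) := by
  have h1 : ∀ i : Fin 2, tau L φ (lin M (X i)) = dg a b (tau L φ (X i)) := by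
    intro i
    apply map_injective (σ := Fin 2) j hj
    rw [← tau_map, ← lin_map, ← dg_map, ← tau_map]
    exact h _
  have h2 : (tau (L.map Θ) (φ.map Θ)).comp (lin (M.map Θ)) =
      (dg (Θ a) (Θ b)).comp (tau (L.map Θ) (φ.map Θ)) := by
    apply MvPolynomial.algHom_ext
    intro i
    rw [AlgHom.comp_apply, AlgHom.comp_apply]
    have h3 := congrArg (MvPolynomial.map Θ) (h1 i)
    rw [← tau_map, ← lin_map, ← dg_map, ← tau_map, MvPolynomial.map_X] at h3
    exact h3
  exact DFunLike.congr_fun h2 g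

/-- The relevant determinants. -/
private def dt {R : Type*} [CommRing R] (t : ℕ) (σ τ : Matrix (Fin 2) (Fin 2) R) : R :=
  Matrix.vecMul ![1, 0] σ 0 * Matrix.vecMul ![1, (t : R)] τ 1 -
    Matrix.vecMul ![1, 0] σ 1 * Matrix.vecMul ![1, (t : R)] τ 0

private theorem dt_map {R S : Type*} [CommRing R] [CommRing S] (j : R →+* S) (t : ℕ)
    (σ τ : Matrix (Fin 2) (Fin 2) R) : dt t (σ.map j) (τ.map j) = j (dt t σ τ) := by
  simp [dt, Matrix.vecMul, dotProduct, Fin.sum_univ_two]

theorem spread {A : Type} [CommRing A] [IsDomain A] {K : Type} [Field K] [CharZero K]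
    [Algebra A K] [IsFractionRing A K] [Algebra K ℂ] (G : Subgroup (GL (Fin 2) A)) [Finite G]
    (hG : ∀ σ ∈ G, σ ≠ 1 → ((σ : Matrix (Fin 2) (Fin 2) A) - 1).det ≠ 0) {r : ℕ}
    (f : Fin r → P2 A) (c : Fin r → ℚ) (hc : ∀ i, 0 ≤ c i) {α β : ℕ} (hα : 1 ≤ α)
    (hβ : 1 ≤ β) (hco : Nat.Coprime α β) (w : Fin r → ℕ) (A0 : ℝ)
    (hA : A0 = (α : ℝ) + β - ∑ i, (c i : ℝ) * w i) (hA0 : 0 < A0)
    (L L' : Matrix (Fin 2) (Fin 2) K) (φ : Polynomial K) (H : Fin r → P2 K) (hL : L * L' = 1)
    (hφ : φ.coeff 0 = 0)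
    (hI : ∀ i, IsInit α β (tau L φ (map (algebraMap A K) (f i))) (w i) (H i))
    (hO : OPT α β c A0 H) (hS : GSS ℂ α β c A0 H)
    (hcase : (∀ σ ∈ G.map (GeneralLinearGroup.map (algebraMap A K)), ∃ a b : K, ∀ g : P2 K,
      tau L φ (lin (σ : Matrix (Fin 2) (Fin 2) K) g) = dg a b (tau L φ g)) ∨
        (α = 1 ∧ β = 1 ∧ L = 1 ∧ φ = 0)) :
    ∃ a : A, a ≠ 0 ∧ ∀ (k : Type) [Field k] (θ : A →+* k), θ a ≠ 0 →
      Adapted (G.map (GeneralLinearGroup.map θ)) (fun i => map θ (f i)) c α β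
        (α * β * Nat.card G) w A0 ∧
      Nat.card (G.map (GeneralLinearGroup.map θ)) = Nat.card G ∧ (Nat.card G : k) ≠ 0 ∧
      ∀ σ ∈ G.map (GeneralLinearGroup.map θ), σ ≠ 1 →
        ((σ : Matrix (Fin 2) (Fin 2) k) - 1).det ≠ 0 := by
  classical
  have hinjK : Function.Injective (algebraMap A K) := IsFractionRing.injective A K
  -- the group over K
  have hfinK : Finite (G.map (GeneralLinearGroup.map (n := Fin 2) (algebraMap A K))) :=
    Finite.of_surjective
      (fun x : G => (⟨_, Subgroup.mem_map_of_mem _ x.2⟩ :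
        G.map (GeneralLinearGroup.map (n := Fin 2) (algebraMap A K))))
      (by rintro ⟨_, σ, hσ, rfl⟩; exact ⟨⟨σ, hσ⟩, rfl⟩)
  obtain ⟨t, ht⟩ := exists_forms (G.map (GeneralLinearGroup.map (n := Fin 2) (algebraMap A K)))
  have hAle : A0 ≤ (α : ℝ) + β := by
    have : 0 ≤ ∑ i, (c i : ℝ) * w i := Finset.sum_nonneg fun i _ =>
      mul_nonneg (by exact_mod_cast hc i) (by positivity)
    rw [hA]; linarith
  have hH0 : ∀ i, H i ≠ 0 := fun i => (hI i).1
  have hHw : ∀ i, Homog α β (w i) (H i) := fun i => (hI i).2.1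
  -- Bezout identities
  have hbez : ∀ n : Fin r → ℕ, (α : ℝ) * β * (1 - ∑ i, (c i : ℝ) * n i) < A0 / 2 →
      ∃ (M : ℕ) (U : Fin r → ℕ → Polynomial K), Polynomial.X ^ M =
        ∑ i, ∑ l ∈ Finset.range (n i), U i l * Polynomial.hasseDeriv l (dehom (H i)) :=
    fun n hn => exists_bez hα hβ c A0 hAle w H hH0 hHw hS n hn
  choose! M U hU using hbez
  -- the characters
  have hchar : ∀ σ : G, ∃ a b : K,
      (∀ σ ∈ G.map (GeneralLinearGroup.map (n := Fin 2) (algebraMap A K)), ∃ a b : K,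
        ∀ g : P2 K, tau L φ (lin (σ : Matrix (Fin 2) (Fin 2) K) g) = dg a b (tau L φ g)) →
      ∀ g : P2 K, tau L φ (lin (((σ : GL (Fin 2) A) : Matrix (Fin 2) (Fin 2) A).map
        (algebraMap A K)) g) = dg a b (tau L φ g) := by
    intro σ
    by_cases hx : (∀ σ ∈ G.map (GeneralLinearGroup.map (n := Fin 2) (algebraMap A K)),
        ∃ a b : K, ∀ g : P2 K,
          tau L φ (lin (σ : Matrix (Fin 2) (Fin 2) K) g) = dg a b (tau L φ g))
    · obtain ⟨a, b, hab⟩ := hx _ (Subgroup.mem_map_of_mem _ σ.2)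
      exact ⟨a, b, fun _ => hab⟩
    · exact ⟨0, 0, fun h => absurd h hx⟩
  choose ca cb hcab using hchar
  -- the finite set
  let T : Set K := (Set.range fun x : Fin 2 × Fin 2 => L x.1 x.2) ∪
    (Set.range fun x : Fin 2 × Fin 2 => L' x.1 x.2) ∪
    (φ.coeff '' (Finset.range (φ.natDegree + 1) : Set ℕ)) ∪
    (⋃ i, (fun m => (coeff m (H i))⁻¹) '' ((H i).support : Set (Fin 2 →₀ ℕ))) ∪
    (⋃ n ∈ (Fintype.piFinset fun i => Finset.range (w i + 1) : Finset (Fin r → ℕ)),
      ⋃ i, ⋃ l ∈ Finset.range (n i), (U n i l).coeff ''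
        (Finset.range ((U n i l).natDegree + 1) : Set ℕ)) ∪
    {((Nat.card G : ℕ) : K)⁻¹} ∪
    (Set.range fun σ : G => (algebraMap A K
      (((σ : GL (Fin 2) A) : Matrix (Fin 2) (Fin 2) A) - 1).det)⁻¹) ∪
    (Set.range ca) ∪ (Set.range cb) ∪
    (Set.range fun x : G × G => (dt t
      (((x.1 : GL (Fin 2) A) : Matrix (Fin 2) (Fin 2) A).map (algebraMap A K))
      (((x.2 : GL (Fin 2) A) : Matrix (Fin 2) (Fin 2) A).map (algebraMap A K)))⁻¹)
  have hT : T.Finite := by
    have hG' : Finite G := inferInstance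
    refine Set.Finite.union (Set.Finite.union (Set.Finite.union (Set.Finite.union
      (Set.Finite.union (Set.Finite.union (Set.Finite.union (Set.Finite.union
      (Set.Finite.union ?_ ?_) ?_) ?_) ?_) ?_) ?_) ?_) ?_) ?_
    · exact Set.finite_range _
    · exact Set.finite_range _
    · exact (Finset.finite_toSet _).image _
    · exact Set.finite_iUnion fun i => (Finset.finite_toSet _).image _
    · refine Set.Finite.biUnion (Finset.finite_toSet _) fun n _ => ?_
      refine Set.finite_iUnion fun i => ?_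
      exact Set.Finite.biUnion (Finset.finite_toSet _) fun l _ =>
        (Finset.finite_toSet _).image _
    · exact Set.finite_singleton _
    · exact Set.finite_range _
    · exact Set.finite_range _
    · exact Set.finite_range _
    · exact Set.finite_range _
  obtain ⟨a, ha, B, hSB, hB⟩ := spread_ring (A := A) (K := K) hT.toFinset
  have hTB : ∀ x ∈ T, x ∈ B := fun x hx => hSB x (hT.mem_toFinset.mpr hx)
  have hLB : ∀ i j, L i j ∈ B := fun i j => hTB _ (by
    simp only [T, Set.mem_union]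
    iterate 9 left
    exact ⟨(i, j), rfl⟩)
  have hL'B : ∀ i j, L' i j ∈ B := fun i j => hTB _ (by
    simp only [T, Set.mem_union]
    iterate 8 left
    right
    exact ⟨(i, j), rfl⟩)
  have hφB : ∀ n, φ.coeff n ∈ B := by
    intro n
    by_cases hn : n ≤ φ.natDegree
    · apply hTB
      simp only [T, Set.mem_union]
      iterate 7 left
      right
      exact ⟨n, by simpa using Nat.lt_succ_of_le hn, rfl⟩
    · rw [Polynomial.coeff_eq_zero_of_natDegree_lt (by omega)]
      exact B.zero_mem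
  have hHB : ∀ i, ∀ m ∈ (H i).support, (coeff m (H i))⁻¹ ∈ B := by
    intro i m hm
    apply hTB
    simp only [T, Set.mem_union]
    iterate 6 left
    right
    exact Set.mem_iUnion.mpr ⟨i, m, hm, rfl⟩
  have hUB : ∀ n : Fin r → ℕ, (∀ i, n i ≤ w i) → ∀ i, ∀ l < n i, ∀ d,
      (U n i l).coeff d ∈ B := by
    intro n hn i l hl d
    by_cases hd : d ≤ (U n i l).natDegree
    · apply hTB
      simp only [T, Set.mem_union]
      iterate 5 left
      right
      refine Set.mem_biUnion (x := n) ?_ ?_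
      · simpa [Nat.lt_succ_iff] using hn
      · refine Set.mem_iUnion.mpr ⟨i, Set.mem_biUnion (x := l) (by simpa using hl) ?_⟩
        exact ⟨d, by simpa using Nat.lt_succ_of_le hd, rfl⟩
    · rw [Polynomial.coeff_eq_zero_of_natDegree_lt (by omega)]
      exact B.zero_mem
  have hGB : ((Nat.card G : ℕ) : K)⁻¹ ∈ B := by
    apply hTB
    simp only [T, Set.mem_union]
    iterate 4 left
    right
    exact Set.mem_singleton _
  have hdB : ∀ σ : G, (algebraMap A K
      (((σ : GL (Fin 2) A) : Matrix (Fin 2) (Fin 2) A) - 1).det)⁻¹ ∈ B := by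
    intro σ
    apply hTB
    simp only [T, Set.mem_union]
    iterate 3 left
    right
    exact ⟨σ, rfl⟩
  have hcaB : ∀ σ, ca σ ∈ B := by
    intro σ
    apply hTB
    simp only [T, Set.mem_union]
    iterate 2 left
    right
    exact ⟨σ, rfl⟩
  have hcbB : ∀ σ, cb σ ∈ B := by
    intro σ
    apply hTB
    simp only [T, Set.mem_union]
    left
    right
    exact ⟨σ, rfl⟩
  have hdtB : ∀ σ τ : G, (dt t
      (((σ : GL (Fin 2) A) : Matrix (Fin 2) (Fin 2) A).map (algebraMap A K))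
      (((τ : GL (Fin 2) A) : Matrix (Fin 2) (Fin 2) A).map (algebraMap A K)))⁻¹ ∈ B := by
    intro σ τ
    apply hTB
    simp only [T, Set.mem_union]
    right
    exact ⟨(σ, τ), rfl⟩
  clear_value T
  refine ⟨a, ha, ?_⟩
  intro k _ θ hθ
  obtain ⟨Θ, hΘ⟩ := hB k θ hθ
  -- the inclusion
  set j : B →+* K := (B.val : B →+* K) with hj
  have hjinj : Function.Injective j := Subtype.val_injective
  have hjA : ∀ x : A, j (algebraMap A B x) = algebraMap A K x := fun x => rfl
  have hjA' : j.comp (algebraMap A B) = algebraMap A K := RingHom.ext hjA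
  have hΘA : Θ.comp (algebraMap A B) = θ := RingHom.ext hΘ
  -- units
  have hunit : ∀ x : A, x ≠ 0 → (algebraMap A K x)⁻¹ ∈ B → θ x ≠ 0 := by
    intro x hx hxB h0
    have h1 : algebraMap A B x * ⟨_, hxB⟩ = 1 := by
      apply hjinj
      rw [map_mul, hjA, map_one]
      exact mul_inv_cancel₀ fun h => hx (hinjK (by rw [h, map_zero]))
    have h2 := congrArg Θ h1
    rw [map_mul, hΘ, h0, zero_mul, map_one] at h2
    exact zero_ne_one h2
  -- the group over k
  have hdet : ∀ σ ∈ G, σ ≠ 1 →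
      θ (((σ : GL (Fin 2) A) : Matrix (Fin 2) (Fin 2) A) - 1).det ≠ 0 := fun σ hσ h1 =>
    hunit _ (hG σ hσ h1) (hdB ⟨σ, hσ⟩)
  have hdet' : ∀ σ ∈ G, (((GeneralLinearGroup.map θ σ : GL (Fin 2) k) :
      Matrix (Fin 2) (Fin 2) k) - 1).det =
      θ (((σ : GL (Fin 2) A) : Matrix (Fin 2) (Fin 2) A) - 1).det := by
    intro σ _
    have h1 : ((GeneralLinearGroup.map θ σ : GL (Fin 2) k) : Matrix (Fin 2) (Fin 2) k) =
      (σ : Matrix (Fin 2) (Fin 2) A).map θ := rfl
    rw [h1, RingHom.map_det]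
    congr 1
    ext x y
    by_cases hxy : x = y
    · subst hxy; simp
    · simp [hxy]
  have hinj : ∀ σ ∈ G, GeneralLinearGroup.map θ σ = 1 → σ = 1 := by
    intro σ hσ h1
    by_contra hne
    apply hdet σ hσ hne
    rw [← hdet' σ hσ, h1]
    simp
  have hfink : Finite (G.map (GeneralLinearGroup.map (n := Fin 2) θ)) :=
    Finite.of_surjective
      (fun x : G => (⟨_, Subgroup.mem_map_of_mem _ x.2⟩ :
        G.map (GeneralLinearGroup.map (n := Fin 2) θ)))
      (by rintro ⟨_, σ, hσ, rfl⟩; exact ⟨⟨σ, hσ⟩, rfl⟩)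
  have hcard : Nat.card (G.map (GeneralLinearGroup.map (n := Fin 2) θ)) = Nat.card G := by
    symm
    refine Nat.card_eq_of_bijective (fun x : G => (⟨_, Subgroup.mem_map_of_mem _ x.2⟩ :
        G.map (GeneralLinearGroup.map (n := Fin 2) θ))) ⟨?_, ?_⟩
    · intro x y hxy
      have h1 : GeneralLinearGroup.map θ (x : GL (Fin 2) A) =
        GeneralLinearGroup.map θ (y : GL (Fin 2) A) := congrArg Subtype.val hxy
      have h2 := hinj _ (G.mul_mem x.2 (G.inv_mem y.2)) (by
        rw [map_mul, h1, _root_.map_inv, mul_inv_cancel])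
      exact Subtype.ext (mul_inv_eq_one.mp h2)
    · rintro ⟨_, σ, hσ, rfl⟩
      exact ⟨⟨σ, hσ⟩, rfl⟩
  have hcardk : ((Nat.card G : ℕ) : k) ≠ 0 := by
    have h1 := hunit ((Nat.card G : ℕ) : A) (by
      intro h
      have h2 : ((Nat.card G : ℕ) : K) = 0 := by
        have := congrArg (algebraMap A K) h
        simpa using this
      exact (Nat.cast_ne_zero.mpr (Nat.card_pos (α := G)).ne') h2) (by simpa using hGB)
    simpa using h1
  refine ⟨?_, hcard, hcardk, ?_⟩
  swap
  · rintro _ ⟨σ, hσ, rfl⟩ hne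
    rw [hdet' σ hσ]
    refine hdet σ hσ fun h => hne ?_
    rw [h, map_one]
  -- lifts of the coordinate change
  let LB : Matrix (Fin 2) (Fin 2) B := fun x y => ⟨L x y, hLB x y⟩
  let LB' : Matrix (Fin 2) (Fin 2) B := fun x y => ⟨L' x y, hL'B x y⟩
  have hLBm : LB.map j = L := rfl
  have hLBm' : LB'.map j = L' := rfl
  have hLLB : LB * LB' = 1 := by
    have hmi : Function.Injective (fun N : Matrix (Fin 2) (Fin 2) B => N.map j) := by
      intro N N' h
      ext x y
      exact congrArg Subtype.val (hjinj (congrFun (congrFun h x) y))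
    apply hmi
    show (LB * LB').map j = (1 : Matrix (Fin 2) (Fin 2) B).map j
    rw [Matrix.map_mul, hLBm, hLBm', hL]
    simp [Matrix.map_one]
  obtain ⟨φB, hφBm⟩ := poly_lift B φ hφB
  have hφBm' : φB.map j = φ := hφBm
  have hφB0 : φB.coeff 0 = 0 := by
    apply hjinj
    rw [map_zero, ← Polynomial.coeff_map, hφBm', hφ]
  -- initial forms
  have hF : ∀ i, map j (tau LB φB (map (algebraMap A B) (f i))) =
      tau L φ (map (algebraMap A K) (f i)) := by
    intro i
    rw [← tau_map, hLBm, hφBm', MvPolynomial.map_map, hjA']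
  have hFk : ∀ i, map Θ (tau LB φB (map (algebraMap A B) (f i))) =
      tau (LB.map Θ) (φB.map Θ) (map θ (f i)) := by
    intro i
    rw [← tau_map, MvPolynomial.map_map, hΘA]
  have hinit : ∀ i, ∃ HB : P2 B, map j HB = H i ∧
      IsInit α β (tau (LB.map Θ) (φB.map Θ) (map θ (f i))) (w i) (map Θ HB) ∧
      (map Θ HB).support = (H i).support := by
    intro i
    have h1 := isInit_spread j hjinj Θ (α := α) (β := β) (w := w i)
      (tau LB φB (map (algebraMap A B) (f i))) (H i) (by rw [hF]; exact hI i) (by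
        intro m hm
        refine ⟨⟨_, hHB i m hm⟩, ?_⟩
        exact inv_mul_cancel₀ (MvPolynomial.mem_support_iff.mp hm))
    rwa [hFk] at h1
  choose HB hHB1 hHB2 hHB3 using hinit
  have hSS : SS α β c A0 (fun i => map Θ (HB i)) := by
    refine ss_of_gss (AlgebraicClosure k) hα hβ hco c A0 hA0.le _
      (opt_spread c A0 H _ hHB3 hO) ?_
    refine gss_spread Θ hα c A0 w HB (fun i => (hHB2 i).1) (fun i => (hHB2 i).2.1) hβ ?_
    intro n hn hbad
    have h1 := hU n hbad
    have h2 : ∀ (i : Fin r) (l : ℕ), ∃ V : Polynomial B, l < n i → V.map j = U n i l := by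
      intro i l
      by_cases hl : l < n i
      · obtain ⟨V, hV⟩ := poly_lift B (U n i l) (hUB n hn i l hl)
        exact ⟨V, fun _ => hV⟩
      · exact ⟨0, fun h => absurd h hl⟩
    choose V hV using h2
    refine ⟨M n, V, ?_⟩
    apply Polynomial.map_injective j hjinj
    rw [Polynomial.map_pow, Polynomial.map_X, h1, Polynomial.map_sum]
    refine Finset.sum_congr rfl fun i _ => ?_
    rw [Polynomial.map_sum]
    refine Finset.sum_congr rfl fun l hl => ?_
    rw [Polynomial.map_mul, hV i l (Finset.mem_range.mp hl), hasseDeriv_map', ← dehom_map,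
      hHB1]
  have hLLk : LB.map Θ * LB'.map Θ = 1 := by
    rw [← Matrix.map_mul, hLLB]
    simp [Matrix.map_one]
  have hφk : (φB.map Θ).coeff 0 = 0 := by
    rw [Polynomial.coeff_map, hφB0, map_zero]
  rcases hcase with hc1 | ⟨rfl, rfl, hL1, hφ1⟩
  · -- eigencoordinates
    have hev : ∀ σ ∈ G.map (GeneralLinearGroup.map (n := Fin 2) θ), ∃ a b : k, ∀ g : P2 k,
        tau (LB.map Θ) (φB.map Θ) (lin (σ : Matrix (Fin 2) (Fin 2) k) g) =
          dg a b (tau (LB.map Θ) (φB.map Θ) g) := by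
      rintro _ ⟨σ, hσ, rfl⟩
      have h1 := hcab ⟨σ, hσ⟩ hc1
      have h2 := ev_transfer j hjinj Θ LB
        ((σ : Matrix (Fin 2) (Fin 2) A).map (algebraMap A B)) φB ⟨_, hcaB ⟨σ, hσ⟩⟩
        ⟨_, hcbB ⟨σ, hσ⟩⟩ (by
          rw [hLBm, hφBm']
          exact h1)
      refine ⟨Θ ⟨_, hcaB ⟨σ, hσ⟩⟩, Θ ⟨_, hcbB ⟨σ, hσ⟩⟩, fun g => ?_⟩
      have h3 := h2 g
      rw [Matrix.map_map] at h3
      have h4 : (Θ ∘ (algebraMap A B) : A → k) = θ := funext hΘ
      rw [h4] at h3
      exact h3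
    obtain ⟨u, v, huv⟩ := ub_case1 (G.map (GeneralLinearGroup.map (n := Fin 2) θ)) hα hβ
      (LB.map Θ) (LB'.map Θ) hLLk (φB.map Θ) hev
    rw [hcard] at huv
    exact ⟨LB.map Θ, LB'.map Θ, φB.map Θ, fun i => map Θ (HB i), u, v, hLLk, hφk, hHB2, hSS,
      huv⟩
  · -- norms of linear forms
    have hLB1 : LB.map Θ = 1 := by
      have h1 : LB = 1 := by
        ext x y
        show L x y = _
        rw [hL1]
        by_cases hxy : x = y
        · subst hxy; simp
        · simp [hxy]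
      rw [h1]
      simp [Matrix.map_one]
    have hφB1 : φB.map Θ = 0 := by
      have h1 : φB = 0 := by
        apply Polynomial.map_injective j hjinj
        rw [hφBm', hφ1, Polynomial.map_zero]
      rw [h1, Polynomial.map_zero]
    have hdt : ∀ σ ∈ G, ∀ τ ∈ G, dt t ((σ : Matrix (Fin 2) (Fin 2) A).map θ)
        ((τ : Matrix (Fin 2) (Fin 2) A).map θ) ≠ 0 := by
      intro σ hσ τ hτ
      rw [dt_map]
      refine hunit _ ?_ ?_
      · intro h0
        apply ht _ (Subgroup.mem_map_of_mem _ hσ) _ (Subgroup.mem_map_of_mem _ hτ)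
        have := dt_map (algebraMap A K) t (σ : Matrix (Fin 2) (Fin 2) A)
          (τ : Matrix (Fin 2) (Fin 2) A)
        rw [h0, map_zero] at this
        exact this
      · have := hdtB ⟨σ, hσ⟩ ⟨τ, hτ⟩
        rwa [dt_map] at this
    obtain ⟨u, v, huv⟩ := ub_case2 (G.map (GeneralLinearGroup.map (n := Fin 2) θ))
      ![1, 0] ![1, (t : k)] (by
        rintro _ ⟨σ, hσ, rfl⟩ _ ⟨τ, hτ, rfl⟩
        exact hdt σ hσ τ hτ)
    rw [hcard] at huv
    refine ⟨1, 1, 0, fun i => map Θ (HB i), u, v, by simp, by simp, ?_, hSS, ?_⟩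
    · intro i
      have h1 := hHB2 i
      rw [hLB1, hφB1] at h1
      exact h1
    · rw [tau_one_zero, tau_one_zero, one_mul, one_mul]
      exact huv

end FV
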