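import Pool.Agent.Lib.MP_9e8926_ag_FV.LctLow

/-!
# The normalized volume
-/

set_option autoImplicit false

noncomputable section

namespace FV

open MvPolynomial

/-- The ideal of the polynomials of weight at least `j`. -/
private def vhGe (k : Type*) [Field k] (α β j : ℕ) : Ideal (P2 k) where
  carrier := {f | Ge α β j f}
  add_mem' := fun ha hb => Ge.add ha hb
  zero_mem' := fun m hm => by simp at hm
  smul_mem' := fun a f hf => by
    have h0 : Ge α β 0 a := fun m _ => Nat.zero_le _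
    have h1 := Ge.mul h0 hf
    rw [zero_add] at h1
    exact h1

private theorem vh_emult_map {k : Type*} [Field k] {I I' : Ideal (P2 k)}
    (T : P2 k ≃ₐ[k] P2 k) (h : I' = I.map (T : P2 k →+* P2 k)) : emult k I = emult k I' := by
  unfold emult
  congr 1
  funext n
  have h1 : I' ^ n = (I ^ n).map (T : P2 k →+* P2 k) := by
    rw [h, Ideal.map_pow]
  have h2 := (Ideal.quotientEquivAlg (I ^ n) (I' ^ n) T h1).toLinearEquiv.finrank_eq
  rw [h2]

private theorem vh_bound (G : Subgroup (GL (Fin 2) ℂ)) [Finite G]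
    (hg : (Nat.card G : ℂ) ≠ 0) (I : Ideal (Inv G))
    (hI : IsPrim G I) : ∃ C0 : ℝ, ∀ n : ℕ, 1 ≤ n →
      (Module.finrank ℂ (Inv G ⧸ I ^ n) : ℝ) ≤ C0 * (n : ℝ) ^ 2 := by
  obtain ⟨N, hN, -⟩ := ext_prim G I hI
  obtain ⟨C0, hC⟩ := finrank_pow_le (ext G I) N hN
  refine ⟨C0, fun n hn => ?_⟩
  have h1 := hC n hn
  rw [← ext_pow] at h1
  refine le_trans ?_ h1.2
  exact_mod_cast (finrank_inv_le G hg (I ^ n) h1.1).2

private theorem vh_emult_nonneg (G : Subgroup (GL (Fin 2) ℂ)) [Finite G]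
    (hg : (Nat.card G : ℂ) ≠ 0) (I : Ideal (Inv G))
    (hI : IsPrim G I) : 0 ≤ emult ℂ I := emult_nonneg I (vh_bound G hg I hI)

private theorem vh_lct_nonneg (G : Subgroup (GL (Fin 2) ℂ)) {r : ℕ} (f : Fin r → P2 ℂ)
    (c : Fin r → ℚ) (I : Ideal (Inv G)) : 0 ≤ lct G f c I :=
  Real.sSup_nonneg fun _ ht => ht.1

private theorem vh_key (G : Subgroup (GL (Fin 2) ℂ)) {r : ℕ} (f : Fin r → P2 ℂ) (c : Fin r → ℚ)
    [Finite G] (hg : (Nat.card G : ℂ) ≠ 0)
    (hG : ∀ σ ∈ G, σ ≠ 1 → ((σ : Matrix (Fin 2) (Fin 2) ℂ) - 1).det ≠ 0)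
    (hc : ∀ i, 0 ≤ c i) {α β W0 : ℕ} (hα : 1 ≤ α) (hβ : 1 ≤ β) (hW : 1 ≤ W0)
    (w : Fin r → ℕ) (A : ℝ) (hA : A = (α : ℝ) + β - ∑ i, (c i : ℝ) * w i) (hA0 : 0 ≤ A)
    (h : Adapted G f c α β W0 w A) :
    ∃ I : Ideal (Inv G), IsPrim G I ∧
      emult ℂ I * lct G f c I ^ 2 ≤ A ^ 2 / (α * β * (Nat.card G : ℕ)) := by
  obtain ⟨L, L', φ, H, u, v, hLL, hφ, hI, -, hUB⟩ := h
  obtain ⟨T, hT⟩ := exists_tauEquiv L L' hLL φ
  set I : Ideal (Inv G) := Ideal.span {u, v} with hIdef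
  have hext : ext G I = Ideal.span {(u : P2 ℂ), (v : P2 ℂ)} := by
    unfold ext
    rw [hIdef, Ideal.map_span, Set.image_pair]
    rfl
  have hmap : Ideal.span {tau L φ (u : P2 ℂ), tau L φ (v : P2 ℂ)} =
      (ext G I).map (T : P2 ℂ →+* P2 ℂ) := by
    rw [hext, Ideal.map_span, Set.image_pair]
    congr 2
    · exact (hT u).symm
    · congr 1
      exact (hT v).symm
  have hcc : ∀ x : P2 ℂ, constantCoeff (T x) = constantCoeff x := fun x => by
    rw [hT, constantCoeff_tau L φ hφ]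
  have hW' : ∀ x : P2 ℂ, Ge α β W0 (tau L φ x) → x ∈ m0 ℂ := by
    intro x hx
    unfold m0
    rw [RingHom.mem_ker, ← hcc, hT, constantCoeff_eq]
    by_contra hne
    have h1 := hx 0 (mem_support_iff.2 hne)
    unfold wt at h1
    simp at h1
    omega
  have hextle : ext G I ≤ m0 ℂ := by
    rw [hext, Ideal.span_le]
    rintro x (rfl | rfl)
    · exact hW' _ hUB.1
    · exact hW' _ hUB.2.1
  obtain ⟨N, hN⟩ := UB.m0_pow_le hα hβ hUB
  have hm0 : m0 ℂ ^ N ≤ ext G I := by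
    intro x hx
    have h1 : T x ∈ m0 ℂ ^ N := by
      have h2 : (m0 ℂ).map (T : P2 ℂ →+* P2 ℂ) ≤ m0 ℂ := by
        rw [Ideal.map_le_iff_le_comap]
        intro y hy
        show T y ∈ m0 ℂ
        unfold m0 at hy ⊢
        rw [RingHom.mem_ker] at hy ⊢
        rw [hcc, hy]
      have h3 : T x ∈ (m0 ℂ ^ N).map (T : P2 ℂ →+* P2 ℂ) := Ideal.mem_map_of_mem _ hx
      rw [Ideal.map_pow] at h3
      exact Ideal.pow_right_mono h2 N h3
    have h4 := hN h1
    rw [hmap] at h4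
    obtain ⟨y, hy, hyx⟩ := (Ideal.mem_map_iff_of_surjective (T : P2 ℂ →+* P2 ℂ)
      T.surjective).1 h4
    have h5 : y = x := T.injective hyx
    rwa [← h5]
  have hprim : IsPrim G I := isPrim_of_ext G hg I N hm0 hextle
  refine ⟨I, hprim, ?_⟩
  have hα' : (0 : ℝ) < α := by exact_mod_cast hα
  have hβ' : (0 : ℝ) < β := by exact_mod_cast hβ
  have hW0 : (0 : ℝ) < W0 := by exact_mod_cast hW
  have hcard : 0 < Nat.card G := Nat.card_pos
  have hcard' : (0 : ℝ) < (Nat.card G : ℕ) := by exact_mod_cast hcard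
  have hem : emult ℂ I ≤ (W0 : ℝ) ^ 2 / (α * β) / (Nat.card G : ℕ) := by
    rw [le_div_iff₀ hcard', mul_comm, ← emult_ext G hg hG I hprim, vh_emult_map T hmap]
    exact UB.emult_le hα hβ hUB
  have hlct : lct G f c I ≤ A / W0 := by
    refine Real.sSup_le ?_ (by positivity)
    rintro t ⟨ht0, Γ, hΓ, hint⟩
    rw [le_div_iff₀ hW0]
    obtain ⟨S, hS, hSint⟩ := intNear_tau L L' hLL φ hφ
    have h1 := (hSint _).1 hint
    classical
    set Γ' : Finset (P2 ℂ) := Γ.image (fun g : Inv G => tau L φ (g : P2 ℂ)) with hΓ'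
    have hinj : Function.Injective (fun g : Inv G => tau L φ (g : P2 ℂ)) := by
      intro a b hab
      have h2 : T (a : P2 ℂ) = T (b : P2 ℂ) := by
        rw [hT, hT]
        exact hab
      exact Subtype.ext (T.injective h2)
    have h3 : IntNear (fun z => (∏ i, ‖ev (tau L φ (f i)) z‖ ^ (-(2 * (c i : ℝ)))) *
        (∑ g ∈ Γ', ‖ev g z‖ ^ 2) ^ (-t)) := by
      have h4 : (fun z => (∏ i, ‖ev (tau L φ (f i)) z‖ ^ (-(2 * (c i : ℝ)))) *
          (∑ g ∈ Γ', ‖ev g z‖ ^ 2) ^ (-t)) =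
          (fun z => (∏ i, ‖ev (f i) (S z)‖ ^ (-(2 * (c i : ℝ)))) *
            (∑ g ∈ Γ, ‖ev (g : P2 ℂ) (S z)‖ ^ 2) ^ (-t)) := by
        funext z
        rw [hΓ', Finset.sum_image (fun a _ b _ hab => hinj hab)]
        simp only [hS]
      rw [h4]
      exact h1
    have hgeW : ∀ g ∈ Γ', Ge α β W0 g := by
      intro g hg'
      rw [hΓ', Finset.mem_image] at hg'
      obtain ⟨a, ha, rfl⟩ := hg'
      have h5 : a ∈ I := by
        rw [← hΓ]
        exact Ideal.subset_span ha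
      have h6 : (a : P2 ℂ) ∈ ext G I := Ideal.mem_map_of_mem _ h5
      have h7 : T (a : P2 ℂ) ∈ (ext G I).map (T : P2 ℂ →+* P2 ℂ) := Ideal.mem_map_of_mem _ h6
      rw [← hmap, hT] at h7
      have h8 : Ideal.span {tau L φ (u : P2 ℂ), tau L φ (v : P2 ℂ)} ≤ vhGe ℂ α β W0 := by
        rw [Ideal.span_le]
        rintro x (rfl | rfl)
        · exact hUB.1
        · exact hUB.2.1
      exact h8 h7
    have hne : ∃ g ∈ Γ', g ≠ 0 := by
      by_contra hcon
      push Not at hcon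
      have h5 : I ≤ ⊥ := by
        rw [← hΓ, Ideal.span_le]
        intro a ha
        have h6 : tau L φ (a : P2 ℂ) = 0 :=
          hcon _ (by rw [hΓ']; exact Finset.mem_image_of_mem _ ha)
        have h7 : T (a : P2 ℂ) = 0 := by rw [hT, h6]
        have h8 : (a : P2 ℂ) = 0 := by
          apply T.injective
          rw [h7, map_zero]
        exact Subtype.ext h8
      have h6 : ext G I = ⊥ := by
        unfold ext
        rw [le_bot_iff.1 h5, Ideal.map_bot]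
      rw [h6] at hm0
      have h7 : (X 0 : P2 ℂ) ^ N ∈ m0 ℂ ^ N := by
        refine Ideal.pow_mem_pow ?_ N
        unfold m0
        rw [RingHom.mem_ker, constantCoeff_X]
      have h8 := hm0 h7
      rw [Ideal.mem_bot] at h8
      exact (pow_ne_zero N (X_ne_zero (0 : Fin 2))) h8
    have h9 := div_poly hα hβ (fun i => tau L φ (f i)) (fun i => (hI i).ne_zero) w
      (fun i => (hI i).ge) (fun i => (c i : ℝ)) (fun i => by exact_mod_cast hc i) Γ' hne W0 hgeW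
      t ht0 h3
    linarith
  have h0 := vh_emult_nonneg G hg I hprim
  have h1 := vh_lct_nonneg G f c I
  calc emult ℂ I * lct G f c I ^ 2
      ≤ ((W0 : ℝ) ^ 2 / (α * β) / (Nat.card G : ℕ)) * (A / W0) ^ 2 := by gcongr
    _ = _ := by
      field_simp

theorem volhat_eq (G : Subgroup (GL (Fin 2) ℂ)) {r : ℕ} (f : Fin r → P2 ℂ) (c : Fin r → ℚ)
    [Finite G] (hG : ∀ σ ∈ G, σ ≠ 1 → ((σ : Matrix (Fin 2) (Fin 2) ℂ) - 1).det ≠ 0)
    (hc : ∀ i, 0 ≤ c i) (hf : ∀ i, f i ∈ Inv G) {α β W0 : ℕ} (hα : 1 ≤ α) (hβ : 1 ≤ β)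
    (hco : Nat.Coprime α β) (hW : 1 ≤ W0) (w : Fin r → ℕ) (A : ℝ)
    (hA : A = (α : ℝ) + β - ∑ i, (c i : ℝ) * w i) (hA0 : 0 < A)
    (h : Adapted G f c α β W0 w A) :
    volhat G f c = A ^ 2 / (α * β * (Nat.card G : ℕ)) := by
  have hg : (Nat.card G : ℂ) ≠ 0 := by
    have h1 : 0 < Nat.card G := Nat.card_pos
    exact_mod_cast h1.ne'
  obtain ⟨I, hI, hle⟩ := vh_key G f c hg hG hc hα hβ hW w A hA hA0.le h
  have hbdd : ∀ x ∈ {v : ℝ | ∃ I : Ideal (Inv G), IsPrim G I ∧ v = emult ℂ I * lct G f c I ^ 2},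
      0 ≤ x := by
    rintro x ⟨I', hI', rfl⟩
    have := vh_emult_nonneg G hg I' hI'
    positivity
  refine le_antisymm ((csInf_le ⟨0, fun x hx => hbdd x hx⟩ ⟨I, hI, rfl⟩).trans hle) ?_
  refine le_csInf ⟨_, I, hI, rfl⟩ ?_
  rintro x ⟨I', hI', rfl⟩
  exact lct_low G f c hG hc hf hα hβ hco w A hA hA0 h I' hI'

end FV
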