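import Pool.Agent.Lib.MP_9e8926_ag_FV.Coord
import Pool.Agent.Lib.MP_9e8926_ag_FV.Sprd
import Pool.Agent.Lib.MP_9e8926_ag_FV.NDel
import Pool.Agent.Lib.MP_9e8926_ag_FV.ResF
import Pool.Agent.Lib.MP_9e8926_ag_FV.VolHat
import Pool.Agent.Lib.MP_9e8926_ag_FV.FvUp

/-!
# Frobenius volumes of surface pairs converge to the normalized volume
-/

set_option autoImplicit false

noncomputable section

namespace FV

open MvPolynomial Matrix

/-- **Main theorem.** -/
theorem main (A : Type) [CommRing A] [IsDomain A] [Algebra.FiniteType ℤ A] (ι : A →+* ℂ)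
    (hι : Function.Injective ι) (G : Subgroup (GL (Fin 2) A)) [Finite G]
    (hG : ∀ σ ∈ G, σ ≠ 1 → ((σ : Matrix (Fin 2) (Fin 2) A) - 1).det ≠ 0) (r : ℕ)
    (f : Fin r → P2 A) (hf : ∀ i, f i ≠ 0) (hfG : ∀ i, f i ∈ Inv G) (c : Fin r → ℚ)
    (hc : ∀ i, 0 ≤ c i) (hklt : Klt (fun i => map ι (f i)) c) :
    ∃ C : ℝ, ∃ a : A, a ≠ 0 ∧ ∀ μ : Ideal A, μ.IsMaximal → a ∉ μ → ∀ p : ℕ, CharP (A ⧸ μ) p →
      |Fvol p (G.map (GeneralLinearGroup.map (Ideal.Quotient.mk μ)))
          (fun i => map (Ideal.Quotient.mk μ) (f i)) c -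
        volhat (G.map (GeneralLinearGroup.map ι)) (fun i => map ι (f i)) c| ≤ C / p := by
  classical
  have : CharZero A := by
    constructor
    intro m n h
    have := congrArg ι h
    simpa using this
  let K := FractionRing A
  let ιK : K →+* ℂ := IsFractionRing.lift (A := A) (K := K) hι
  letI : Algebra K ℂ := ιK.toAlgebra
  have : CharZero K := inferInstance
  have hcomp : ∀ x : A, algebraMap K ℂ (algebraMap A K x) = ι x := fun x =>
    IsFractionRing.lift_algebraMap hι x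
  have hcomp' : (algebraMap K ℂ).comp (algebraMap A K) = ι := RingHom.ext hcomp
  have hinjK : Function.Injective (algebraMap A K) := IsFractionRing.injective A K
  -- the data over K
  set fK : Fin r → P2 K := fun i => map (algebraMap A K) (f i) with hfK
  have hfK0 : ∀ i, fK i ≠ 0 := fun i h => hf i
    (map_injective (σ := Fin 2) (algebraMap A K) hinjK (by rw [map_zero]; exact h))
  have hfKC : (fun i => map (algebraMap K ℂ) (fK i)) = fun i => map ι (f i) := by
    funext i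
    simp only [hfK]
    rw [MvPolynomial.map_map, hcomp']
  obtain ⟨δ, hδ, hN⟩ := ndelta fK hfK0 c hc (by rw [hfKC]; exact hklt)
  have : Finite (G.map (GeneralLinearGroup.map (n := Fin 2) (algebraMap A K))) := by
    exact Finite.of_surjective
      (fun x : G => (⟨_, Subgroup.mem_map_of_mem _ x.2⟩ :
        G.map (GeneralLinearGroup.map (n := Fin 2) (algebraMap A K))))
      (by rintro ⟨_, σ, hσ, rfl⟩; exact ⟨⟨σ, hσ⟩, rfl⟩)
  obtain ⟨α, β, w, L, L', φ, H, hα, hβ, hco, hL, hφ, hI, hO, hS, hcase⟩ :=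
    coord (G.map (GeneralLinearGroup.map (n := Fin 2) (algebraMap A K))) fK hfK0
      (fun i => map_inv _ G _ (hfG i)) c hc δ hδ hN
  have hpos : 0 < (α : ℝ) + β - ∑ i, (c i : ℝ) * w i := by
    have h1 := hN L L' φ hL hφ α β hα hβ w H hI
    have h2 : 0 ≤ ∑ i, (c i : ℝ) * w i := Finset.sum_nonneg fun i _ =>
      mul_nonneg (by exact_mod_cast hc i) (by positivity)
    nlinarith
  set A0 : ℝ := (α : ℝ) + β - ∑ i, (c i : ℝ) * w i with hA0
  obtain ⟨a, ha, hsp⟩ := spread G hG f c hc hα hβ hco w A0 hA0 hpos L L' φ H hL hφ hI hO hS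
    hcase
  have hg1 : 1 ≤ Nat.card G := Nat.card_pos
  have hW : 1 ≤ α * β * Nat.card G := Nat.mul_pos (Nat.mul_pos hα hβ) hg1
  have hfin : ∀ (k : Type) [Field k] (θ : A →+* k),
      Finite (G.map (GeneralLinearGroup.map (n := Fin 2) θ)) := by
    intro k _ θ
    exact Finite.of_surjective
      (fun x : G => (⟨_, Subgroup.mem_map_of_mem _ x.2⟩ :
        G.map (GeneralLinearGroup.map (n := Fin 2) θ)))
      (by rintro ⟨_, σ, hσ, rfl⟩; exact ⟨⟨σ, hσ⟩, rfl⟩)
  -- the normalized volume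
  have hvol : volhat (G.map (GeneralLinearGroup.map ι)) (fun i => map ι (f i)) c =
      A0 ^ 2 / (α * β * (Nat.card G : ℕ)) := by
    have := hfin ℂ ι
    obtain ⟨h1, h2, h3, h4⟩ := hsp ℂ ι (fun h => ha (hι (by rw [h, map_zero])))
    have := volhat_eq (G.map (GeneralLinearGroup.map ι)) (fun i => map ι (f i)) c h4 hc
      (fun i => map_inv _ G _ (hfG i)) hα hβ hco hW w A0 hA0 hpos h1
    rw [this, h2]
  refine ⟨4 * A0 * (∑ i, (w i : ℝ)) / (α * β * (Nat.card G : ℕ)), a, ha, ?_⟩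
  intro μ hμ haμ p hp
  let _ : Field (A ⧸ μ) := Ideal.Quotient.field μ
  have : Finite (A ⧸ μ) := finite_of_surj A (A ⧸ μ) (Ideal.Quotient.mk μ)
    Ideal.Quotient.mk_surjective
  have := hfin (A ⧸ μ) (Ideal.Quotient.mk μ)
  have hpr : Fact p.Prime := by
    have := hp
    exact ⟨CharP.char_is_prime (A ⧸ μ) p⟩
  obtain ⟨h1, h2, h3, h4⟩ := hsp (A ⧸ μ) (Ideal.Quotient.mk μ)
    (fun h => haμ (Ideal.Quotient.eq_zero_iff_mem.mp h))
  rw [hvol, ← h2]
  have h3' : ((Nat.card (G.map (GeneralLinearGroup.map (n := Fin 2)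
      (Ideal.Quotient.mk μ))) : ℕ) : A ⧸ μ) ≠ 0 := by rw [h2]; exact h3
  exact fvol_est p (G.map (GeneralLinearGroup.map (Ideal.Quotient.mk μ)))
      (fun i => map (Ideal.Quotient.mk μ) (f i)) c h3' h4 hc
      (fun i => map_inv _ G _ (hfG i)) hα hβ hW w A0 hA0 hpos h1

end FV
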