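import Pool.Agent.Lib.MP_9e8926_ag_FV.Ini

/-!
# Frobenius on the polynomial ring
-/

set_option autoImplicit false

noncomputable section

namespace FV

open MvPolynomial

private def fexp (q i j : ℕ) (m : Fin 2 →₀ ℕ) : Fin 2 →₀ ℕ :=
  q • m + Finsupp.single 0 i + Finsupp.single 1 j

private theorem fexp_zero (q i j : ℕ) (m : Fin 2 →₀ ℕ) : fexp q i j m 0 = q * m 0 + i := by
  simp [fexp]

private theorem fexp_one (q i j : ℕ) (m : Fin 2 →₀ ℕ) : fexp q i j m 1 = q * m 1 + j := by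
  simp [fexp]

private theorem fin2_ext {m n : Fin 2 →₀ ℕ} (h0 : m 0 = n 0) (h1 : m 1 = n 1) : m = n := by
  ext a
  fin_cases a
  · exact h0
  · exact h1

private theorem fexp_inj {q : ℕ} (i j : ℕ) (hq : 0 < q) : Function.Injective (fexp q i j) := by
  intro m n h
  have h0 : fexp q i j m 0 = fexp q i j n 0 := by rw [h]
  have h1 : fexp q i j m 1 = fexp q i j n 1 := by rw [h]
  rw [fexp_zero, fexp_zero] at h0
  rw [fexp_one, fexp_one] at h1
  exact fin2_ext (Nat.eq_of_mul_eq_mul_left hq (Nat.add_right_cancel h0))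
    (Nat.eq_of_mul_eq_mul_left hq (Nat.add_right_cancel h1))

private theorem frob_le_of_le {Q q a b : ℕ} (hb : b < Q) (h : Q * q ≤ Q * a + b) :
    q ≤ a := by
  have h3 : Q * q < Q * (a + 1) := by
    rw [mul_add, mul_one]
    omega
  exact Nat.lt_succ_iff.1 (lt_of_mul_lt_mul_left h3 (Nat.zero_le _))

private theorem fexp_le {q i j : ℕ} (hi : i < q) (hj : j < q) (s m : Fin 2 →₀ ℕ) :
    q • s ≤ fexp q i j m ↔ s ≤ m := by
  have hq : 0 < q := lt_of_le_of_lt (Nat.zero_le _) hi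
  have key : ∀ a b c : ℕ, c < q → (q * a ≤ q * b + c ↔ a ≤ b) := by
    intro a b c hc
    constructor
    · intro h
      by_contra hcon
      have h1 : b + 1 ≤ a := by omega
      have h2 : q * (b + 1) ≤ q * a := Nat.mul_le_mul_left q h1
      rw [mul_add, mul_one] at h2
      omega
    · intro h
      exact le_trans (Nat.mul_le_mul_left q h) (Nat.le_add_right _ _)
  constructor
  · intro h a
    have ha := h a
    rw [Finsupp.smul_apply, smul_eq_mul] at ha
    fin_cases a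
    · change q * s 0 ≤ fexp q i j m 0 at ha
      rw [fexp_zero] at ha
      exact (key _ _ _ hi).1 ha
    · change q * s 1 ≤ fexp q i j m 1 at ha
      rw [fexp_one] at ha
      exact (key _ _ _ hj).1 ha
  · intro h a
    have ha := h a
    rw [Finsupp.smul_apply, smul_eq_mul]
    fin_cases a
    · change q * s 0 ≤ fexp q i j m 0
      rw [fexp_zero]
      exact (key _ _ _ hi).2 ha
    · change q * s 1 ≤ fexp q i j m 1
      rw [fexp_one]
      exact (key _ _ _ hj).2 ha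

private theorem fexp_sub {q i j : ℕ} (s m : Fin 2 →₀ ℕ) (h : s ≤ m) :
    fexp q i j m - q • s = fexp q i j (m - s) := by
  have key : ∀ a b c : ℕ, a ≤ b → q * b + c - q * a = q * (b - a) + c := by
    intro a b c hab
    obtain ⟨d, rfl⟩ := Nat.exists_eq_add_of_le hab
    rw [Nat.add_sub_cancel_left, mul_add]
    omega
  refine fin2_ext ?_ ?_
  · rw [Finsupp.tsub_apply, fexp_zero, fexp_zero, Finsupp.smul_apply, smul_eq_mul,
      Finsupp.tsub_apply]
    exact key _ _ _ (h 0)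
  · rw [Finsupp.tsub_apply, fexp_one, fexp_one, Finsupp.smul_apply, smul_eq_mul,
      Finsupp.tsub_apply]
    exact key _ _ _ (h 1)

section

variable {k : Type*} [Field k]

private def psi0 (r : k ≃+* k) (q i j : ℕ) (hq : 0 < q) (u : P2 k) : P2 k :=
  AddMonoidAlgebra.ofCoeff ((Finsupp.comapDomain (fexp q i j) (AddMonoidAlgebra.coeff u)
    (fexp_inj i j hq).injOn).mapRange r (map_zero r))

private theorem coeff_psi0 (r : k ≃+* k) (q i j : ℕ) (hq : 0 < q) (u : P2 k)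
    (m : Fin 2 →₀ ℕ) : coeff m (psi0 r q i j hq u) = r (coeff (fexp q i j m) u) := rfl

private def psi1 (r : k ≃+* k) (q i j : ℕ) (hq : 0 < q) : P2 k →+ P2 k where
  toFun := psi0 r q i j hq
  map_zero' := by
    ext m
    rw [coeff_psi0, coeff_zero, coeff_zero, map_zero]
  map_add' u v := by
    ext m
    rw [coeff_psi0, coeff_add, coeff_add, coeff_psi0, coeff_psi0, map_add]

private theorem coeff_psi1 (r : k ≃+* k) (q i j : ℕ) (hq : 0 < q) (u : P2 k)
    (m : Fin 2 →₀ ℕ) : coeff m (psi1 r q i j hq u) = r (coeff (fexp q i j m) u) := rfl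

end

variable {k : Type*} [Field k] (p : ℕ) [Fact p.Prime] [CharP k p] [PerfectField k]

/-- The `p^{-e}`-linear projections. -/
theorem exists_psi (e i j : ℕ) (hi : i < p ^ e) (hj : j < p ^ e) :
    ∃ ψ : P2 k →+ P2 k, (∀ a b : P2 k, ψ (a ^ p ^ e * b) = a * ψ b) ∧
      ∀ (u : P2 k) (m : Fin 2 →₀ ℕ), (coeff m (ψ u)) ^ p ^ e =
        coeff (p ^ e • m + Finsupp.single 0 i + Finsupp.single 1 j) u := by
  classical
  have hq : 0 < p ^ e := lt_of_le_of_lt (Nat.zero_le _) hi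
  have hr : ∀ x : k, (iterateFrobeniusEquiv k p e).symm x ^ p ^ e = x := fun x =>
    (iterateFrobeniusEquiv k p e).apply_symm_apply x
  have hr' : ∀ x : k, (iterateFrobeniusEquiv k p e).symm (x ^ p ^ e) = x := fun x =>
    (iterateFrobeniusEquiv k p e).symm_apply_apply x
  refine ⟨psi1 (iterateFrobeniusEquiv k p e).symm (p ^ e) i j hq, fun a b => ?_, fun u m => ?_⟩
  · induction a using MvPolynomial.induction_on' with
    | monomial s c =>
      rw [monomial_pow]
      ext m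
      rw [coeff_psi1, coeff_monomial_mul', coeff_monomial_mul', coeff_psi1]
      by_cases hsm : s ≤ m
      · rw [if_pos hsm, if_pos ((fexp_le hi hj s m).2 hsm), map_mul, hr', fexp_sub s m hsm]
      · rw [if_neg hsm, if_neg (fun h => hsm ((fexp_le hi hj s m).1 h)), map_zero]
    | add a a' ha ha' =>
      rw [add_pow_char_pow, add_mul, map_add, ha, ha', add_mul]
  · rw [coeff_psi1, hr]
    rfl

/-- If `u ∉ (x^q, y^q)`, `q = p^e`, then a projection of `u` is a unit at the origin. -/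
theorem exists_psi_unit (e : ℕ) (u : P2 k) (hu : u ∉ J k (p ^ e)) :
    ∃ ψ : P2 k →+ P2 k, (∀ a b : P2 k, ψ (a ^ p ^ e * b) = a * ψ b) ∧
      constantCoeff (ψ u) ≠ 0 ∧ ∀ (q : ℕ) (z : P2 k), z ∈ J k (p ^ e * q) → ψ z ∈ J k q := by
  have hq : 0 < p ^ e := pow_pos (Fact.out : p.Prime).pos e
  rw [mem_J] at hu
  push Not at hu
  obtain ⟨n, hn, hn0, hn1⟩ := hu
  obtain ⟨ψ, hψ1, hψ2⟩ := exists_psi (k := k) p e (n 0) (n 1) hn0 hn1
  refine ⟨ψ, hψ1, ?_, fun q z hz => ?_⟩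
  · intro h0
    have h1 := hψ2 u 0
    rw [constantCoeff_eq] at h0
    rw [h0, zero_pow hq.ne', smul_zero, zero_add] at h1
    have h2 : Finsupp.single 0 (n 0) + Finsupp.single 1 (n 1) = n := by
      refine fin2_ext ?_ ?_ <;> simp
    rw [h2] at h1
    exact (mem_support_iff.1 hn) h1.symm
  · rw [mem_J] at hz ⊢
    intro m hm
    rw [mem_support_iff] at hm
    have h1 : coeff (p ^ e • m + Finsupp.single 0 (n 0) + Finsupp.single 1 (n 1)) z ≠ 0 := by
      rw [← hψ2]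
      exact pow_ne_zero _ hm
    have h2 := hz _ (mem_support_iff.2 h1)
    change p ^ e * q ≤ fexp (p ^ e) (n 0) (n 1) m 0 ∨ p ^ e * q ≤ fexp (p ^ e) (n 0) (n 1) m 1
      at h2
    rw [fexp_zero, fexp_one] at h2
    rcases h2 with h2 | h2
    · exact Or.inl (frob_le_of_le hn0 h2)
    · exact Or.inr (frob_le_of_le hn1 h2)

/-- Flatness of Frobenius. -/
theorem flat (e q : ℕ) (u z : P2 k) (hu : u ∉ J k (p ^ e)) (hz : z ∉ J k q) :
    u * z ^ p ^ e ∉ J k (p ^ e * q) := by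
  intro h
  obtain ⟨ψ, hψ1, hψ2, hψ3⟩ := exists_psi_unit p e u hu
  have h1 := hψ3 q _ h
  rw [mul_comm u, hψ1] at h1
  exact hz (mem_J_of_mul hψ2 h1)

theorem Gap.frob {α β q : ℕ} {μ : ℝ} {H : P2 k} (h : Gap α β q μ H) (e : ℕ) :
    Gap α β (p ^ e * q) ((p ^ e : ℕ) * μ) (H ^ p ^ e) := by
  have hq : 0 < p ^ e := pow_pos (Fact.out : p.Prime).pos e
  intro u hu m hm
  obtain ⟨ψ, hψ1, hψ2⟩ := exists_psi (k := k) p e (m 0 % p ^ e) (m 1 % p ^ e)
    (Nat.mod_lt _ hq) (Nat.mod_lt _ hq)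
  have hmod : p ^ e • (Finsupp.single 0 (m 0 / p ^ e) + Finsupp.single 1 (m 1 / p ^ e)) +
      Finsupp.single 0 (m 0 % p ^ e) + Finsupp.single 1 (m 1 % p ^ e) = m := by
    refine fin2_ext ?_ ?_
    · simpa using Nat.div_add_mod (m 0) (p ^ e)
    · simpa using Nat.div_add_mod (m 1) (p ^ e)
  have h1 := hψ2 u (Finsupp.single 0 (m 0 / p ^ e) + Finsupp.single 1 (m 1 / p ^ e))
  rw [hmod] at h1
  have h2 : coeff (Finsupp.single 0 (m 0 / p ^ e) + Finsupp.single 1 (m 1 / p ^ e)) (ψ u) ≠ 0 := by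
    intro h0
    rw [h0, zero_pow hq.ne'] at h1
    exact (mem_support_iff.1 hm) h1.symm
  have h3 : ψ u * H ∈ J k q := by
    rw [mul_comm, ← hψ1, mul_comm]
    rw [mem_J] at hu ⊢
    intro n hn
    rw [mem_support_iff] at hn
    have h4 : coeff (p ^ e • n + Finsupp.single 0 (m 0 % p ^ e) +
        Finsupp.single 1 (m 1 % p ^ e)) (u * H ^ p ^ e) ≠ 0 := by
      rw [← hψ2]
      exact pow_ne_zero _ hn
    have h5 := hu _ (mem_support_iff.2 h4)
    change p ^ e * q ≤ fexp (p ^ e) (m 0 % p ^ e) (m 1 % p ^ e) n 0 ∨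
      p ^ e * q ≤ fexp (p ^ e) (m 0 % p ^ e) (m 1 % p ^ e) n 1 at h5
    rw [fexp_zero, fexp_one] at h5
    rcases h5 with h5 | h5
    · exact Or.inl (frob_le_of_le (Nat.mod_lt _ hq) h5)
    · exact Or.inr (frob_le_of_le (Nat.mod_lt _ hq) h5)
  have h4 := h _ h3 _ (mem_support_iff.2 h2)
  have h5 : p ^ e * wt α β (Finsupp.single 0 (m 0 / p ^ e) + Finsupp.single 1 (m 1 / p ^ e)) ≤
      wt α β m := by
    have h6 : wt α β (Finsupp.single 0 (m 0 / p ^ e) + Finsupp.single 1 (m 1 / p ^ e)) =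
        α * (m 0 / p ^ e) + β * (m 1 / p ^ e) := by
      simp [wt]
    rw [h6, wt, mul_add]
    refine add_le_add ?_ ?_
    · calc p ^ e * (α * (m 0 / p ^ e)) = α * (p ^ e * (m 0 / p ^ e)) := by ring
        _ ≤ α * m 0 := Nat.mul_le_mul_left _ (Nat.mul_div_le _ _)
    · calc p ^ e * (β * (m 1 / p ^ e)) = β * (p ^ e * (m 1 / p ^ e)) := by ring
        _ ≤ β * m 1 := Nat.mul_le_mul_left _ (Nat.mul_div_le _ _)
  calc ((p ^ e : ℕ) : ℝ) * μ ≤ ((p ^ e : ℕ) : ℝ) *
        (wt α β (Finsupp.single 0 (m 0 / p ^ e) + Finsupp.single 1 (m 1 / p ^ e)) : ℝ) :=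
        mul_le_mul_of_nonneg_left h4 (Nat.cast_nonneg _)
    _ ≤ (wt α β m : ℝ) := by
      rw [← Nat.cast_mul]
      exact_mod_cast h5

end FV
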