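import Pool.Agent.Lib.MP_9e8926_ag_FV.Ini

/-!
# A divisibility by a product of powers
-/

set_option autoImplicit false

noncomputable section

namespace FV

open MvPolynomial

private theorem gapA_mul_pderiv_pow {k : Type*} [Field k] (H : P2 k) (b : ℕ) (i : Fin 2) :
    H * pderiv i (H ^ b) = H ^ b * ((b : P2 k) * pderiv i H) := by
  rcases b with _ | n
  · simp
  · rw [Derivation.leibniz_pow, Nat.add_sub_cancel, nsmul_eq_mul, smul_eq_mul, pow_succ]
    ring

private theorem gapA_logder {k : Type*} [Field k] {r : ℕ} (H : Fin r → P2 k) (b : Fin r → ℕ)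
    (i : Fin 2) (s : Finset (Fin r)) : ∃ M : P2 k,
      (∏ l ∈ s, H l) * pderiv i (∏ l ∈ s, H l ^ b l) = (∏ l ∈ s, H l ^ b l) * M := by
  classical
  induction s using Finset.induction_on with
  | empty => exact ⟨0, by simp⟩
  | insert a s ha ih =>
    obtain ⟨M, hM⟩ := ih
    refine ⟨(∏ l ∈ s, H l) * ((b a : P2 k) * pderiv i (H a)) + H a * M, ?_⟩
    rw [Finset.prod_insert ha, Finset.prod_insert ha, Derivation.leibniz, smul_eq_mul,
      smul_eq_mul]
    linear_combination (H a * H a ^ b a) * hM +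
      ((∏ l ∈ s, H l) * ∏ l ∈ s, H l ^ b l) * gapA_mul_pderiv_pow (H a) (b a) i

private theorem gapA_pderiv_X_pow {k : Type*} [Field k] (p : ℕ) [CharP k p] (i j : Fin 2) :
    pderiv i ((X j : P2 k) ^ p) = 0 := by
  rw [Derivation.leibniz_pow, nsmul_eq_mul, CharP.cast_eq_zero, zero_mul]

private theorem gapA_not_dvd {k : Type*} [Field k] (p : ℕ) :
    ¬ (X 0 : P2 k) ∣ (X 1 : P2 k) ^ p := by
  intro h
  have h1 : eval (![0, 1] : Fin 2 → k) (X 0 : P2 k) ∣ eval ![0, 1] ((X 1 : P2 k) ^ p) :=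
    map_dvd _ h
  simp at h1

theorem wronskian {k : Type*} [Field k] (p : ℕ) [Fact p.Prime] [CharP k p] {r : ℕ}
    (H : Fin r → P2 k) (b : Fin r → ℕ) (u A B : P2 k) (hu : u ≠ 0) (hH : ∀ i, H i ≠ 0)
    (h : u * ∏ i, H i ^ b i = A * X 0 ^ p + B * X 1 ^ p) (i : Fin 2) :
    (∏ i, H i ^ b i) ∣ (∏ i, H i) * (A * pderiv i B - B * pderiv i A) := by
  obtain ⟨M, hM⟩ := gapA_logder H b i Finset.univ
  generalize (∏ l, H l ^ b l) = P at *
  generalize (∏ l, H l) = L at *
  have hD : pderiv i u * P + u * pderiv i P =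
      pderiv i A * X 0 ^ p + pderiv i B * X 1 ^ p := by
    have h1 := congrArg (pderiv i) h
    rw [Derivation.leibniz, map_add, Derivation.leibniz, Derivation.leibniz,
      gapA_pderiv_X_pow, gapA_pderiv_X_pow] at h1
    simp only [smul_eq_mul, mul_zero, zero_add] at h1
    linear_combination h1
  set V : P2 k := u * M + L * pderiv i u with hV
  have h3 : (V * A - u * L * pderiv i A) * X 0 ^ p =
      (u * L * pderiv i B - V * B) * X 1 ^ p := by
    linear_combination (-V) * h + u * L * hD - u * u * hM + (u * P) * hV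
  have hX : Prime (X 0 : P2 k) := MvPolynomial.X_prime
  have hdvd : (X 0 : P2 k) ^ p ∣ u * L * pderiv i B - V * B := by
    refine hX.pow_dvd_of_dvd_mul_left p (gapA_not_dvd p) ?_
    rw [mul_comm, ← h3]
    exact dvd_mul_left _ _
  obtain ⟨Q, hQ⟩ := hdvd
  have hX0 : (X 0 : P2 k) ^ p ≠ 0 := pow_ne_zero _ hX.ne_zero
  have hQ2 : V * A - u * L * pderiv i A = X 1 ^ p * Q := by
    apply mul_right_cancel₀ hX0
    rw [h3, hQ]
    ring
  refine ⟨Q, mul_left_cancel₀ hu ?_⟩
  linear_combination A * hQ + B * hQ2 - Q * h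

end FV
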