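import Pool.Agent.Lib.MP_9e8926_ag_FV.Ini

/-!
# Pairs of polynomials with constant ratio modulo derivations
-/

set_option autoImplicit false

noncomputable section

namespace FV

open MvPolynomial

private theorem dvd_of_mem {k : Type*} [Field k] (p : ℕ) [Fact p.Prime] [CharP k p]
    (a : P2 k) (h : ∀ i, pderiv i a = 0) (m : Fin 2 →₀ ℕ) (hm : m ∈ a.support) (i : Fin 2) :
    p ∣ m i := by
  by_cases h0 : m i = 0
  · rw [h0]; exact dvd_zero p
  · have h1 := coeff_pderiv (i := i) a (m - Finsupp.single i 1)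
    rw [h i, coeff_zero] at h1
    have h2 : m - Finsupp.single i 1 + Finsupp.single i 1 = m := by
      apply tsub_add_cancel_of_le
      intro j
      by_cases hj : i = j
      · subst hj
        rw [Finsupp.single_eq_same]
        omega
      · rw [Finsupp.single_eq_of_ne' hj]
        exact Nat.zero_le _
    rw [h2] at h1
    have h3 : coeff m a ≠ 0 := mem_support_iff.1 hm
    have h4 := (mul_eq_zero.1 h1.symm).resolve_left h3
    have h6 : (m - Finsupp.single i 1 : Fin 2 →₀ ℕ) i = m i - 1 := by simp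
    rw [h6] at h4
    have h7 : ((m i : ℕ) : k) = 0 := by
      have h8 : ((m i : ℕ) : k) = ((m i - 1 : ℕ) : k) + 1 := by
        rw [← Nat.cast_one (R := k), ← Nat.cast_add]
        congr 1
        omega
      rw [h8, h4]
    exact (CharP.cast_eq_zero_iff k p _).1 h7

/-- A polynomial all of whose partial derivatives vanish is a `p`-th power. -/
theorem exists_pow_of_pderiv {k : Type*} [Field k] (p : ℕ) [Fact p.Prime] [CharP k p]
    [PerfectField k] (a : P2 k) (h : ∀ i, pderiv i a = 0) : ∃ b : P2 k, a = b ^ p := by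
  have : PerfectRing k p := PerfectField.toPerfectRing p
  have hsur : ∀ c : k, ∃ d : k, d ^ p = c := fun c => surjective_frobenius k p c
  choose r hr using hsur
  refine ⟨∑ m ∈ a.support, monomial (m.mapRange (fun n => n / p) (Nat.zero_div p)) (r (coeff m a)),
    ?_⟩
  rw [sum_pow_char p]
  conv_lhs => rw [← support_sum_monomial_coeff a]
  refine Finset.sum_congr rfl fun m hm => ?_
  have he : p • m.mapRange (fun n => n / p) (Nat.zero_div p) = m := by
    ext i
    rw [Finsupp.smul_apply, Finsupp.mapRange_apply, smul_eq_mul]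
    exact Nat.mul_div_cancel' (dvd_of_mem p a h m hm i)
  rw [monomial_pow, hr, he]

private theorem pderiv_eq_zero_of_dvd {k : Type*} [Field k] (i : Fin 2) (a : P2 k)
    (h : a ∣ pderiv i a) : pderiv i a = 0 := by
  by_contra h0
  obtain ⟨c, hc⟩ := h
  have ha : a ≠ 0 := by
    rintro rfl
    exact h0 (map_zero _)
  have hc0 : c ≠ 0 := by
    rintro rfl
    exact h0 (by rw [hc, mul_zero])
  have h1 : degreeOf i a ≤ degreeOf i (pderiv i a) := by
    rw [hc, degreeOf_mul_eq ha hc0]
    exact Nat.le_add_right _ _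
  obtain ⟨m, hm⟩ := ne_zero_iff.1 h0
  have h2 : degreeOf i (pderiv i a) < degreeOf i a := by
    have h3 : ∀ m ∈ (pderiv i a).support, m i + 1 ≤ degreeOf i a := by
      intro m hm
      have h4 := mem_support_iff.1 hm
      rw [coeff_pderiv] at h4
      have h5 := left_ne_zero_of_mul h4
      have h6 := monomial_le_degreeOf i (mem_support_iff.2 h5)
      simpa using h6
    have hpos : 0 < degreeOf i a := lt_of_lt_of_le (Nat.succ_pos _) (h3 m (mem_support_iff.2 hm))
    rw [degreeOf_lt_iff hpos]
    intro m hm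
    exact h3 m hm
  omega

theorem common_pow {k : Type*} [Field k] (p : ℕ) [Fact p.Prime] [CharP k p] [PerfectField k]
    (A B : P2 k) (h0 : ∀ i : Fin 2, A * pderiv i B = B * pderiv i A) :
    ∃ δ a b : P2 k, A = δ * a ^ p ∧ B = δ * b ^ p := by
  have hp : p ≠ 0 := (Fact.out : p.Prime).ne_zero
  by_cases hA : A = 0
  · exact ⟨B, 0, 1, by rw [hA, zero_pow hp, mul_zero], by rw [one_pow, mul_one]⟩
  by_cases hB : B = 0
  · exact ⟨A, 1, 0, by rw [one_pow, mul_one], by rw [hB, zero_pow hp, mul_zero]⟩
  obtain ⟨a, b, g, hrel, rfl, rfl⟩ := UniqueFactorizationMonoid.exists_reduced_factors A hA B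
  have hg : g ≠ 0 := left_ne_zero_of_mul hA
  have h1 : ∀ i : Fin 2, a * pderiv i b = b * pderiv i a := by
    intro i
    have h2 := h0 i
    rw [pderiv_mul, pderiv_mul] at h2
    have h3 : g * g * (a * pderiv i b) = g * g * (b * pderiv i a) := by
      linear_combination h2
    exact mul_left_cancel₀ (mul_ne_zero hg hg) h3
  have h2 : ∀ i : Fin 2, pderiv i a = 0 := by
    intro i
    apply pderiv_eq_zero_of_dvd
    have h3 : a ∣ b * pderiv i a := ⟨pderiv i b, (h1 i).symm⟩
    exact hrel.dvd_of_dvd_mul_left h3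
  have h3 : ∀ i : Fin 2, pderiv i b = 0 := by
    intro i
    apply pderiv_eq_zero_of_dvd
    have h4 : b ∣ a * pderiv i b := ⟨pderiv i a, h1 i⟩
    exact hrel.symm.dvd_of_dvd_mul_left h4
  obtain ⟨a1, ha1⟩ := exists_pow_of_pderiv p a h2
  obtain ⟨b1, hb1⟩ := exists_pow_of_pderiv p b h3
  exact ⟨g, a1, b1, by rw [← ha1], by rw [← hb1]⟩

end FV
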