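import Pool.Agent.Lib.MP_9e8926_ag_FV.GapA
import Pool.Agent.Lib.MP_9e8926_ag_FV.GapB

/-!
# The gap lemma at level `p`
-/

set_option autoImplicit false

noncomputable section

namespace FV

open MvPolynomial

private theorem gapC_mem_sum {k : Type*} [Field k] {ι : Type*} (s : Finset ι) (f : ι → P2 k)
    {m : Fin 2 →₀ ℕ} (hm : m ∈ (∑ i ∈ s, f i).support) : ∃ i ∈ s, m ∈ (f i).support := by
  classical
  by_contra hc
  push Not at hc
  rw [mem_support_iff, coeff_sum] at hm
  exact hm (Finset.sum_eq_zero fun i hi => by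
    have := hc i hi
    rwa [notMem_support_iff] at this)

private theorem gapC_mem_mul {k : Type*} [Field k] {f g : P2 k} {m : Fin 2 →₀ ℕ}
    (hm : m ∈ (f * g).support) : ∃ a ∈ f.support, ∃ b ∈ g.support, a + b = m := by
  classical
  have h := MvPolynomial.support_mul f g hm
  rw [Finset.mem_add] at h
  exact h

private theorem gapC_split {k : Type*} [Field k] {α β p N : ℕ} {F : P2 k} (hF : F ∈ J k p)
    (hN : Homog α β N F) : ∃ A B : P2 k, F = A * X 0 ^ p + B * X 1 ^ p ∧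
      (∀ m ∈ A.support, wt α β m + α * p = N) ∧ (∀ m ∈ B.support, wt α β m + β * p = N) := by
  classical
  rw [mem_J] at hF
  have key : ∀ (i : Fin 2) (m : Fin 2 →₀ ℕ), p ≤ m i →
      m - Finsupp.single i p + Finsupp.single i p = m := by
    intro i m hm
    apply tsub_add_cancel_of_le
    rw [Finsupp.single_le_iff]
    exact hm
  have hmul : ∀ (i : Fin 2) (m : Fin 2 →₀ ℕ) (c : k), p ≤ m i →
      monomial (m - Finsupp.single i p) c * (X i : P2 k) ^ p = monomial m c := by
    intro i m c hm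
    rw [X_pow_eq_monomial, monomial_mul, mul_one, key i m hm]
  refine ⟨∑ m ∈ F.support.filter (fun m => p ≤ m 0),
      monomial (m - Finsupp.single 0 p) (coeff m F),
    ∑ m ∈ F.support.filter (fun m => ¬ p ≤ m 0),
      monomial (m - Finsupp.single 1 p) (coeff m F), ?_, ?_, ?_⟩
  · rw [Finset.sum_mul, Finset.sum_mul]
    have h1 : ∑ m ∈ F.support.filter (fun m => p ≤ m 0),
        (monomial (m - Finsupp.single 0 p) (coeff m F) : P2 k) * X 0 ^ p =
        ∑ m ∈ F.support.filter (fun m => p ≤ m 0), monomial m (coeff m F) :=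
      Finset.sum_congr rfl fun m hm => hmul 0 m _ (Finset.mem_filter.1 hm).2
    have h2 : ∑ m ∈ F.support.filter (fun m => ¬ p ≤ m 0),
        (monomial (m - Finsupp.single 1 p) (coeff m F) : P2 k) * X 1 ^ p =
        ∑ m ∈ F.support.filter (fun m => ¬ p ≤ m 0), monomial m (coeff m F) :=
      Finset.sum_congr rfl fun m hm => hmul 1 m _ (by
        have h3 := Finset.mem_filter.1 hm
        rcases hF m h3.1 with h | h
        · exact absurd h h3.2
        · exact h)
    rw [h1, h2, Finset.sum_filter_add_sum_filter_not]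
    exact (support_sum_monomial_coeff F).symm
  · intro m hm
    obtain ⟨m', hm', h⟩ := gapC_mem_sum _ _ hm
    have h3 := Finset.mem_filter.1 hm'
    have h4 : m = m' - Finsupp.single 0 p := by
      have := support_monomial_subset h
      simpa using this
    have h5 := key 0 m' h3.2
    have h6 := hN m' h3.1
    rw [← h5, ← h4, wt_add] at h6
    rw [← h6]
    congr 1
    unfold wt
    simp
  · intro m hm
    obtain ⟨m', hm', h⟩ := gapC_mem_sum _ _ hm
    have h3 := Finset.mem_filter.1 hm'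
    have h4 : m = m' - Finsupp.single 1 p := by
      have := support_monomial_subset h
      simpa using this
    have h5 := key 1 m' ((hF m' h3.1).resolve_left h3.2)
    have h6 := hN m' h3.1
    rw [← h5, ← h4, wt_add] at h6
    rw [← h6]
    congr 1
    unfold wt
    simp

private theorem gapC_mem_pderiv {k : Type*} [Field k] {i : Fin 2} {f : P2 k} {m : Fin 2 →₀ ℕ}
    (hm : m ∈ (pderiv i f).support) : m + Finsupp.single i 1 ∈ f.support := by
  rw [mem_support_iff, coeff_pderiv] at hm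
  exact mem_support_iff.2 (left_ne_zero_of_mul hm)

private theorem gapC_case1 {k : Type*} [Field k] {α β p N : ℕ} {A B : P2 k}
    (hA : ∀ m ∈ A.support, wt α β m + α * p = N) (hB : ∀ m ∈ B.support, wt α β m + β * p = N)
    (i : Fin 2) (m : Fin 2 →₀ ℕ) (hm : m ∈ (A * pderiv i B - B * pderiv i A).support) :
    wt α β m + wt α β (Finsupp.single i 1) + (α + β) * p = 2 * N := by
  classical
  have h : m ∈ (A * pderiv i B).support ∨ m ∈ (B * pderiv i A).support :=
    Finset.mem_union.1 (support_sub _ _ _ hm)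
  rcases h with h | h
  · obtain ⟨a, ha, b, hb, rfl⟩ := gapC_mem_mul h
    have h1 := hA a ha
    have h2 := hB _ (gapC_mem_pderiv hb)
    rw [wt_add] at h2 ⊢
    rw [add_mul]
    omega
  · obtain ⟨a, ha, b, hb, rfl⟩ := gapC_mem_mul h
    have h1 := hB a ha
    have h2 := hA _ (gapC_mem_pderiv hb)
    rw [wt_add] at h2 ⊢
    rw [add_mul]
    omega

private theorem gapC_weight {k : Type*} [Field k] {α β v j n : ℕ} {π f : P2 k}
    (hπ : Homog α β v π) (h0 : π ≠ 0) (hf : Homog α β j f) (hf0 : f ≠ 0) (h : π ^ n ∣ f) :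
    n * v ≤ j := by
  obtain ⟨i, hi, h1⟩ := hf.of_dvd hf0 h
  rw [(hπ.pow n).unique h1 (pow_ne_zero _ h0)]
  exact hi

private theorem gapC_pos {k : Type*} [Field k] {α β v : ℕ} (hα : 1 ≤ α) (hβ : 1 ≤ β) {π : P2 k}
    (hπ : Homog α β v π) (hirr : Irreducible π) : 1 ≤ v := by
  by_contra hv
  have hv0 : v = 0 := by omega
  subst hv0
  have h1 : π = C (coeff 0 π) := by
    ext m
    rw [coeff_C]
    split_ifs with h
    · rw [h]
    · by_contra hc
      have h2 := hπ m (mem_support_iff.2 hc)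
      unfold wt at h2
      have h3 : α * m 0 = 0 := by omega
      have h4 : β * m 1 = 0 := by omega
      have h5 : m 0 = 0 := by
        rcases Nat.mul_eq_zero.1 h3 with h | h
        · omega
        · exact h
      have h6 : m 1 = 0 := by
        rcases Nat.mul_eq_zero.1 h4 with h | h
        · omega
        · exact h
      apply h
      ext i
      fin_cases i
      · exact h5.symm
      · exact h6.symm
  have h2 : coeff 0 π ≠ 0 := by
    intro h3
    rw [h3, C_0] at h1
    exact hirr.ne_zero h1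
  apply hirr.not_isUnit
  rw [h1]
  exact (isUnit_iff_ne_zero.2 h2).map C

private theorem gapC_mult {k : Type*} [Field k] {p r : ℕ} {π U : P2 k} (hπ : Prime π)
    (hU : U ≠ 0) (H : Fin r → P2 k) (hH : ∀ i, H i ≠ 0) (b : Fin r → ℕ)
    (h : π ^ p ∣ U * ∏ i, H i ^ b i) :
    ∃ (l : ℕ) (n : Fin r → ℕ), π ^ l ∣ U ∧ (∀ i, π ^ n i ∣ H i) ∧ p ≤ l + ∑ i, b i * n i := by
  classical
  have hfin : ∀ f : P2 k, f ≠ 0 → FiniteMultiplicity π f := fun f hf =>
    FiniteMultiplicity.of_prime_left hπ hf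
  refine ⟨multiplicity π U, fun i => multiplicity π (H i), pow_multiplicity_dvd _ _,
    fun i => pow_multiplicity_dvd _ _, ?_⟩
  have h1 := le_emultiplicity_of_pow_dvd h
  rw [emultiplicity_mul hπ, Finset.emultiplicity_prod hπ] at h1
  have h2 : ∑ i, emultiplicity π (H i ^ b i) = ((∑ i, b i * multiplicity π (H i) : ℕ) : ℕ∞) := by
    rw [Nat.cast_sum]
    refine Finset.sum_congr rfl fun i _ => ?_
    rw [emultiplicity_pow hπ, (hfin _ (hH i)).emultiplicity_eq_multiplicity, Nat.cast_mul]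
  rw [h2, (hfin _ hU).emultiplicity_eq_multiplicity, ← Nat.cast_add] at h1
  exact_mod_cast h1

theorem gap_prime {k : Type*} [Field k] (p : ℕ) [Fact p.Prime] [CharP k p] [PerfectField k]
    {α β : ℕ} (hα : 1 ≤ α) (hβ : 1 ≤ β) {r : ℕ} (c : Fin r → ℚ) (hc : ∀ i, 0 ≤ c i)
    (w : Fin r → ℕ) (H : Fin r → P2 k) (hH : ∀ i, H i ≠ 0)
    (hw : ∀ i, Homog α β (w i) (H i)) (A : ℝ)
    (hA : A = (α : ℝ) + β - ∑ i, (c i : ℝ) * w i) (hSS : SS α β c A H) :
    Gap α β p (A / 2 * p - ∑ i, (w i : ℝ)) (∏ i, H i ^ ⌈(c i : ℝ) * p⌉₊) := by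
  classical
  intro u hu m hm
  have hp : p.Prime := Fact.out
  have hu0 : u ≠ 0 := by
    rintro rfl
    simp at hm
  set b : Fin r → ℕ := fun i => ⌈(c i : ℝ) * p⌉₊ with hb
  have hPdef : (∏ i, H i ^ ⌈(c i : ℝ) * p⌉₊) = ∏ i, H i ^ b i := rfl
  rw [hPdef] at hu
  set h : ℕ := ∑ i, b i * w i with hh
  have hP0 : (∏ i, H i ^ b i) ≠ 0 := Finset.prod_ne_zero_iff.2 fun i _ => pow_ne_zero _ (hH i)
  have hPh : Homog α β h (∏ i, H i ^ b i) := Homog.prod _ fun i _ => (hw i).pow (b i)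
  have hPinit : IsInit α β (∏ i, H i ^ b i) h (∏ i, H i ^ b i) := by
    refine ⟨hP0, hPh, ?_⟩
    intro m' hm'
    rw [sub_self] at hm'
    simp at hm'
  obtain ⟨j, U, hU⟩ := exists_isInit α β hu0
  have hjm : j ≤ wt α β m := hU.ge m hm
  have hUJ : U * ∏ i, H i ^ b i ∈ J k p := hPinit.mem_J hU hu
  have hU0 : U ≠ 0 := hU.1
  have hUj : Homog α β j U := hU.2.1
  suffices hmain : A / 2 * p - ∑ i, (w i : ℝ) ≤ (j : ℝ) by
    exact hmain.trans (by exact_mod_cast hjm)
  have hbc : ∀ i, (b i : ℝ) ≤ (c i : ℝ) * p + 1 := by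
    intro i
    have h1 : (0 : ℝ) ≤ (c i : ℝ) * p :=
      mul_nonneg (by exact_mod_cast hc i) (Nat.cast_nonneg _)
    exact (Nat.ceil_lt_add_one h1).le
  have hF0 : U * ∏ i, H i ^ b i ≠ 0 := mul_ne_zero hU0 hP0
  have hFh : Homog α β (j + h) (U * ∏ i, H i ^ b i) := hUj.mul hPh
  obtain ⟨A0, B0, hAB, hA0, hB0⟩ := gapC_split hUJ hFh
  by_cases hW : ∀ i : Fin 2, A0 * pderiv i B0 = B0 * pderiv i A0
  · obtain ⟨δ, a, b', ha, hb'⟩ := common_pow p A0 B0 hW
    have hFg : U * ∏ i, H i ^ b i = δ * (a * X 0 + b' * X 1) ^ p := by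
      rw [hAB, ha, hb', add_pow_char, mul_pow, mul_pow]
      ring
    set g : P2 k := a * X 0 + b' * X 1 with hg
    have hg0 : g ≠ 0 := by
      intro h0
      rw [hFg, h0, zero_pow hp.ne_zero, mul_zero] at hF0
      exact hF0 rfl
    have hgc : constantCoeff g = 0 := by
      rw [hg, map_add, map_mul, map_mul, constantCoeff_X, constantCoeff_X, mul_zero, mul_zero,
        add_zero]
    have hgu : ¬ IsUnit g := by
      intro h0
      have h1 := h0.map (constantCoeff (R := k) (σ := Fin 2))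
      rw [hgc] at h1
      exact not_isUnit_zero h1
    obtain ⟨π, hirr, hπg⟩ := WfDvdMonoid.exists_irreducible_factor hgu hg0
    have hπF : π ^ p ∣ U * ∏ i, H i ^ b i := by
      rw [hFg]
      exact (pow_dvd_pow_of_dvd hπg p).mul_left δ
    have hπ1 : π ∣ U * ∏ i, H i ^ b i := (dvd_pow_self π hp.ne_zero).trans hπF
    obtain ⟨v, -, hv⟩ := hFh.of_dvd hF0 hπ1
    have hv1 : 1 ≤ v := gapC_pos hα hβ hv hirr
    have hπ : Prime π := hirr.prime
    obtain ⟨l, n, hl, hn, hle⟩ := gapC_mult hπ hU0 H hH b hπF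
    have hlj : l * v ≤ j := gapC_weight hv hirr.ne_zero hUj hU0 hl
    have hnw : ∀ i, n i * v ≤ w i := fun i =>
      gapC_weight hv hirr.ne_zero (hw i) (hH i) (hn i)
    have hSS1 := hSS π v hirr hv hv1 n hn
    have hlj' : (l : ℝ) * v ≤ j := by exact_mod_cast hlj
    have hnw' : ∀ i, (n i : ℝ) * v ≤ w i := fun i => by exact_mod_cast hnw i
    have hle' : (p : ℝ) ≤ l + ∑ i, (b i : ℝ) * n i := by exact_mod_cast hle
    have h1 : ∑ i, (b i : ℝ) * n i ≤ ∑ i, ((c i : ℝ) * p + 1) * n i :=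
      Finset.sum_le_sum fun i _ => mul_le_mul_of_nonneg_right (hbc i) (Nat.cast_nonneg _)
    have h2 : ∑ i, ((c i : ℝ) * p + 1) * n i = p * ∑ i, (c i : ℝ) * n i + ∑ i, (n i : ℝ) := by
      rw [Finset.mul_sum, ← Finset.sum_add_distrib]
      exact Finset.sum_congr rfl fun i _ => by ring
    have h3 : (∑ i, (n i : ℝ)) * v ≤ ∑ i, (w i : ℝ) := by
      rw [Finset.sum_mul]
      exact Finset.sum_le_sum fun i _ => hnw' i
    have hv0 : (0 : ℝ) ≤ v := Nat.cast_nonneg _
    have h4 : ((p : ℝ) - (p * ∑ i, (c i : ℝ) * n i + ∑ i, (n i : ℝ))) * v ≤ l * v := by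
      refine mul_le_mul_of_nonneg_right ?_ hv0
      linarith
    have h5 : A / 2 * p ≤ (v : ℝ) * (1 - ∑ i, (c i : ℝ) * n i) * p :=
      mul_le_mul_of_nonneg_right hSS1 (Nat.cast_nonneg _)
    nlinarith
  · push Not at hW
    obtain ⟨i, hi⟩ := hW
    have hdvd := wronskian p H b U A0 B0 hU0 hH hAB i
    set W : P2 k := A0 * pderiv i B0 - B0 * pderiv i A0 with hWdef
    have hW0 : W ≠ 0 := sub_ne_zero.2 hi
    have hWs := gapC_case1 hA0 hB0 i
    rw [← hWdef] at hWs
    obtain ⟨m1, hm1⟩ := support_nonempty.2 hW0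
    have hWh : Homog α β (wt α β m1) W := by
      intro m2 hm2
      have e1 := hWs m1 hm1
      have e2 := hWs m2 hm2
      omega
    have hL0 : (∏ i, H i) ≠ 0 := Finset.prod_ne_zero_iff.2 fun i _ => hH i
    have hLh : Homog α β (∑ i, w i) (∏ i, H i) := Homog.prod _ fun i _ => hw i
    obtain ⟨i', hi', hPi'⟩ := (hLh.mul hWh).of_dvd (mul_ne_zero hL0 hW0) hdvd
    have hhi : h = i' := hPh.unique hPi' hP0
    have e1 := hWs m1 hm1
    have e2 : h + (α + β) * p ≤ ∑ i, w i + 2 * (j + h) := by omega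
    have e3 : ((h : ℝ)) + ((α : ℝ) + β) * p ≤ ∑ i, (w i : ℝ) + 2 * ((j : ℝ) + h) := by
      exact_mod_cast e2
    have e4 : (h : ℝ) ≤ p * ∑ i, (c i : ℝ) * w i + ∑ i, (w i : ℝ) := by
      rw [hh, Nat.cast_sum, Finset.mul_sum, ← Finset.sum_add_distrib]
      refine Finset.sum_le_sum fun i _ => ?_
      rw [Nat.cast_mul]
      have := mul_le_mul_of_nonneg_right (hbc i) (Nat.cast_nonneg (α := ℝ) (w i))
      linarith
    rw [hA]
    linarith

end FV
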