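import Mathlib

/-!
# Integrals of `|z - w|^{-2θ}` over discs
-/

set_option autoImplicit false

noncomputable section

namespace FV

open MeasureTheory

private theorem planar_unit (θ : ℝ) (hθ : θ < 1) :
    ∫⁻ z in Metric.ball (0 : ℂ) 1, ENNReal.ofReal (‖z‖ ^ (-(2 * θ))) ≠ ⊤ := by
  have hd : 1 ≤ Module.finrank ℝ ℂ := by rw [Complex.finrank_real_complex]; norm_num
  have hα : 2 * θ < (Module.finrank ℝ ℂ : ℝ) := by
    rw [Complex.finrank_real_complex]
    push_cast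
    linarith
  have hm : Measurable fun z : ℂ => ‖z‖ ^ (-(2 * θ)) := by fun_prop
  have h := integrableOn_ball_of_norm_le_rpow (μ := (volume : Measure ℂ)) (r := 1) (C := 1) hd hα
    (f := fun z : ℂ => ‖z‖ ^ (-(2 * θ)))
    (Filter.Eventually.of_forall fun z => by
      rw [one_mul, Real.norm_of_nonneg (by positivity)]) hm.aestronglyMeasurable
  exact h.lintegral_lt_top.ne

theorem planar (θ : ℝ) (hθ0 : 0 ≤ θ) (hθ : θ < 1) (ρ : ℝ) : ∃ C : ℝ, ∀ w : ℂ,
    ∫⁻ z in Metric.ball (0 : ℂ) ρ, ENNReal.ofReal (‖z - w‖ ^ (-(2 * θ))) ≤ ENNReal.ofReal C := by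
  have hI := planar_unit θ hθ
  set I := ∫⁻ z in Metric.ball (0 : ℂ) 1, ENNReal.ofReal (‖z‖ ^ (-(2 * θ))) with hIdef
  have hV : volume (Metric.ball (0 : ℂ) ρ) ≠ ⊤ := measure_ball_lt_top.ne
  refine ⟨(volume (Metric.ball (0 : ℂ) ρ) + I).toReal, fun w => ?_⟩
  rw [ENNReal.ofReal_toReal (ENNReal.add_ne_top.mpr ⟨hV, hI⟩)]
  have hpt : ∀ z : ℂ, ENNReal.ofReal (‖z - w‖ ^ (-(2 * θ))) ≤ 1 +
      (Metric.ball (0 : ℂ) 1).indicator (fun z => ENNReal.ofReal (‖z‖ ^ (-(2 * θ)))) (z - w) := by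
    intro z
    by_cases hz : z - w ∈ Metric.ball (0 : ℂ) 1
    · rw [Set.indicator_of_mem hz]
      exact le_add_self
    · rw [Set.indicator_of_notMem hz, add_zero]
      rw [Metric.mem_ball, dist_zero_right, not_lt] at hz
      rw [ENNReal.ofReal_le_one]
      exact Real.rpow_le_one_of_one_le_of_nonpos hz (by linarith)
  have hm : Measurable fun z : ℂ => (Metric.ball (0 : ℂ) 1).indicator
      (fun z => ENNReal.ofReal (‖z‖ ^ (-(2 * θ)))) z := by
    refine Measurable.indicator ?_ measurableSet_ball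
    fun_prop
  calc ∫⁻ z in Metric.ball (0 : ℂ) ρ, ENNReal.ofReal (‖z - w‖ ^ (-(2 * θ)))
      ≤ ∫⁻ z in Metric.ball (0 : ℂ) ρ, (1 + (Metric.ball (0 : ℂ) 1).indicator
        (fun z => ENNReal.ofReal (‖z‖ ^ (-(2 * θ)))) (z - w)) := lintegral_mono hpt
    _ = volume (Metric.ball (0 : ℂ) ρ) + ∫⁻ z in Metric.ball (0 : ℂ) ρ,
        (Metric.ball (0 : ℂ) 1).indicator
          (fun z => ENNReal.ofReal (‖z‖ ^ (-(2 * θ)))) (z - w) := by
        rw [lintegral_add_left measurable_const, lintegral_const, one_mul,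
          Measure.restrict_apply_univ]
    _ ≤ volume (Metric.ball (0 : ℂ) ρ) + ∫⁻ z : ℂ, (Metric.ball (0 : ℂ) 1).indicator
          (fun z => ENNReal.ofReal (‖z‖ ^ (-(2 * θ)))) (z - w) :=
        add_le_add le_rfl (setLIntegral_le_lintegral _ _)
    _ = volume (Metric.ball (0 : ℂ) ρ) + I := by
        rw [lintegral_sub_right_eq_self (fun z : ℂ => (Metric.ball (0 : ℂ) 1).indicator
          (fun z => ENNReal.ofReal (‖z‖ ^ (-(2 * θ)))) z) w,
          lintegral_indicator measurableSet_ball]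

end FV
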