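import Pool.Agent.Lib.MP_9e8926_ag_FV.OneVar
import Pool.Agent.Lib.MP_9e8926_ag_FV.Planar

/-!
# Uniform integrability of products of powers of polynomials in one variable
-/

set_option autoImplicit false

noncomputable section

namespace FV

open MeasureTheory

private lemma exists_lower {ι : Type*} [Fintype ι] (r : ι → ℝ) (hr : ∀ i, 0 < r i) :
    ∃ r0 : ℝ, 0 < r0 ∧ ∀ i, r0 ≤ r i := by
  have h1 : ∀ᶠ x in nhdsWithin (0:ℝ) (Set.Ioi 0), ∀ i, x ≤ r i := by
    rw [Filter.eventually_all]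
    intro i
    apply mem_nhdsWithin_of_mem_nhds
    exact Iic_mem_nhds (hr i)
  obtain ⟨x, hx1, hx2⟩ := (h1.and self_mem_nhdsWithin).exists
  exact ⟨x, hx2, hx1⟩

private lemma prod_ge {u : ℝ} (hu : 1 ≤ u) {z : ℂ} (s : Multiset ℂ) (n : ℕ) (hs : s.card ≤ n)
    (h : ∀ w ∈ s, u⁻¹ ≤ ‖z - w‖) : (u⁻¹) ^ n ≤ (s.map fun w => ‖z - w‖).prod := by
  have hu0 : 0 < u := one_pos.trans_le hu
  have h1 : (u⁻¹) ^ n ≤ (u⁻¹) ^ s.card :=
    pow_le_pow_of_le_one (inv_nonneg.2 hu0.le) (inv_le_one_of_one_le₀ hu) hs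
  refine h1.trans ?_
  clear h1 hs
  induction s using Multiset.induction_on with
  | empty => simp
  | cons w s ih =>
    rw [Multiset.map_cons, Multiset.prod_cons, Multiset.card_cons, pow_succ, mul_comm]
    exact mul_le_mul (h w (Multiset.mem_cons_self w s))
      (ih fun v hv => h v (Multiset.mem_cons_of_mem hv)) (by positivity) (norm_nonneg _)

theorem unif_one {ι : Type*} [Fintype ι] (n : ι → ℕ) (e : ι → ℝ) (he : ∀ i, 0 ≤ e i)
    (hn : ∑ i, e i * n i < 1) (d : ℕ) (c K : ℝ) (hc : 0 < c) :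
    ∃ r0 : ℝ, 0 < r0 ∧ ∃ C : ℝ, ∀ F : ι → Polynomial ℂ, (∀ i, (F i).natDegree ≤ d) →
      (∀ i j, ‖(F i).coeff j‖ ≤ K) → (∀ i, c ≤ ‖(F i).coeff (n i)‖) →
        ∫⁻ z in Metric.ball (0 : ℂ) r0, ENNReal.ofReal (∏ i, ‖(F i).eval z‖ ^ (-(2 * e i))) ≤
          ENNReal.ofReal C := by
  classical
  have h1 := fun i => one_var (n i) d c K hc
  choose r hr c' hc' h using h1
  obtain ⟨r0, hr0, hr0le⟩ := exists_lower r hr
  obtain ⟨c0, hc0, hc0le⟩ := exists_lower c' hc'
  set θ := ∑ i, e i * n i with hθ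
  have hθ0 : 0 ≤ θ := Finset.sum_nonneg fun i _ => mul_nonneg (he i) (Nat.cast_nonneg _)
  obtain ⟨C0, hC0⟩ := planar θ hθ0 hn r0
  set A : ℝ := ∏ i, c0 ^ (-(2 * e i)) with hA
  have hA0 : 0 ≤ A := Finset.prod_nonneg fun i _ => by positivity
  have hV : volume (Metric.ball (0 : ℂ) r0) ≠ ⊤ := measure_ball_lt_top.ne
  refine ⟨r0, hr0, A * ((volume (Metric.ball (0 : ℂ) r0)).toReal + (∑ i, n i : ℕ) * max C0 0),
    fun F hFd hFK hFc => ?_⟩
  choose s hs hsz using fun i => h i (F i) (hFd i) (hFK i) (hFc i)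
  set W : Finset ℂ := Finset.univ.biUnion fun i => (s i).toFinset with hW
  have hWcard : W.card ≤ ∑ i, n i := by
    refine Finset.card_biUnion_le.trans (Finset.sum_le_sum fun i _ => ?_)
    exact (Multiset.toFinset_card_le _).trans (hs i)
  have hWmem : ∀ i, ∀ w ∈ s i, w ∈ W := fun i w hw =>
    Finset.mem_biUnion.2 ⟨i, Finset.mem_univ _, Multiset.mem_toFinset.2 hw⟩
  have hpt : ∀ z : ℂ, ‖z‖ ≤ r0 → z ∉ W → ∏ i, ‖(F i).eval z‖ ^ (-(2 * e i)) ≤
      A * (1 + ∑ w ∈ W, ‖z - w‖ ^ (-(2 * θ))) := by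
    intro z hz hzW
    have hpos : ∀ w ∈ W, 0 < ‖z - w‖ := fun w hw => norm_pos_iff.2 (sub_ne_zero.2 (by
      rintro rfl
      exact hzW hw))
    set S : Finset ℝ := insert 1 (W.image fun w => ‖z - w‖⁻¹) with hS
    have hSne : S.Nonempty := ⟨1, Finset.mem_insert_self _ _⟩
    set u := S.max' hSne with hu
    have hu1 : 1 ≤ u := S.le_max' _ (Finset.mem_insert_self _ _)
    have hu0 : 0 < u := one_pos.trans_le hu1
    have huw : ∀ w ∈ W, u⁻¹ ≤ ‖z - w‖ := by
      intro w hw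
      have h2 : ‖z - w‖⁻¹ ≤ u :=
        S.le_max' _ (Finset.mem_insert_of_mem (Finset.mem_image_of_mem _ hw))
      exact (inv_le_comm₀ (hpos w hw) hu0).1 h2
    have hsum0 : ∀ w ∈ W, 0 ≤ ‖z - w‖ ^ (-(2 * θ)) := fun w _ => by positivity
    have huθ : u ^ (2 * θ) ≤ 1 + ∑ w ∈ W, ‖z - w‖ ^ (-(2 * θ)) := by
      have h3 := S.max'_mem hSne
      rw [← hu, hS, Finset.mem_insert] at h3
      rcases h3 with h3 | h3
      · rw [h3, Real.one_rpow]
        have := Finset.sum_nonneg hsum0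
        linarith
      · obtain ⟨w, hw, h4⟩ := Finset.mem_image.1 h3
        rw [← h4, Real.inv_rpow (norm_nonneg _), ← Real.rpow_neg (norm_nonneg _)]
        have := Finset.single_le_sum hsum0 hw
        linarith
    have hFi : ∀ i, ‖(F i).eval z‖ ^ (-(2 * e i)) ≤ c0 ^ (-(2 * e i)) * u ^ (2 * (e i * n i)) := by
      intro i
      have h5 := hsz i z (hz.trans (hr0le i))
      have h6 := prod_ge hu1 (s i) (n i) (hs i) (z := z) fun w hw => huw w (hWmem i w hw)
      have h7 : c0 * (u⁻¹) ^ n i ≤ ‖(F i).eval z‖ := by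
        refine le_trans ?_ h5
        exact mul_le_mul (hc0le i) h6 (by positivity) (hc' i).le
      have h8 : 0 < c0 * (u⁻¹) ^ n i := by positivity
      have h9 : ‖(F i).eval z‖ ^ (-(2 * e i)) ≤ (c0 * (u⁻¹) ^ n i) ^ (-(2 * e i)) :=
        Real.rpow_le_rpow_of_nonpos h8 h7 (by have := he i; linarith)
      refine h9.trans (le_of_eq ?_)
      rw [Real.mul_rpow hc0.le (by positivity), inv_pow, Real.inv_rpow (by positivity),
        ← Real.rpow_neg (by positivity), neg_neg, ← Real.rpow_natCast, ← Real.rpow_mul hu0.le]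
      congr 2
      ring
    calc ∏ i, ‖(F i).eval z‖ ^ (-(2 * e i)) ≤ ∏ i, (c0 ^ (-(2 * e i)) * u ^ (2 * (e i * n i))) :=
          Finset.prod_le_prod (fun i _ => by positivity) fun i _ => hFi i
      _ = A * u ^ (2 * θ) := by
          rw [Finset.prod_mul_distrib, ← Real.rpow_sum_of_pos hu0, ← Finset.mul_sum]
      _ ≤ A * (1 + ∑ w ∈ W, ‖z - w‖ ^ (-(2 * θ))) := mul_le_mul_of_nonneg_left huθ hA0
  have hnull : ∀ᵐ z : ℂ ∂(volume.restrict (Metric.ball (0 : ℂ) r0)), z ∉ W := by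
    apply ae_restrict_of_ae
    have h2 : volume (W : Set ℂ) = 0 := W.finite_toSet.measure_zero _
    exact measure_eq_zero_iff_ae_notMem.1 h2
  have hball : ∀ᵐ z : ℂ ∂(volume.restrict (Metric.ball (0 : ℂ) r0)),
      z ∈ Metric.ball (0 : ℂ) r0 := ae_restrict_mem measurableSet_ball
  have hm : ∀ w : ℂ, Measurable fun z : ℂ => ENNReal.ofReal (‖z - w‖ ^ (-(2 * θ))) := fun w => by
    fun_prop
  calc ∫⁻ z in Metric.ball (0 : ℂ) r0, ENNReal.ofReal (∏ i, ‖(F i).eval z‖ ^ (-(2 * e i)))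
      ≤ ∫⁻ z in Metric.ball (0 : ℂ) r0, ENNReal.ofReal A *
          (1 + ∑ w ∈ W, ENNReal.ofReal (‖z - w‖ ^ (-(2 * θ)))) := by
        apply lintegral_mono_ae
        filter_upwards [hnull, hball] with z hz1 hz2
        have h2 := hpt z (mem_ball_zero_iff.1 hz2).le hz1
        refine (ENNReal.ofReal_le_ofReal h2).trans (le_of_eq ?_)
        rw [ENNReal.ofReal_mul hA0, ENNReal.ofReal_add zero_le_one
          (Finset.sum_nonneg fun w _ => by positivity), ENNReal.ofReal_one,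
          ENNReal.ofReal_sum_of_nonneg fun w _ => by positivity]
    _ = ENNReal.ofReal A * (volume (Metric.ball (0 : ℂ) r0) +
          ∑ w ∈ W, ∫⁻ z in Metric.ball (0 : ℂ) r0, ENNReal.ofReal (‖z - w‖ ^ (-(2 * θ)))) := by
        rw [lintegral_const_mul _ (by fun_prop), lintegral_add_left measurable_const,
          lintegral_finsetSum _ fun w _ => hm w]
        simp
    _ ≤ ENNReal.ofReal A * (volume (Metric.ball (0 : ℂ) r0) +
          ((∑ i, n i : ℕ) : ENNReal) * ENNReal.ofReal (max C0 0)) := by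
        gcongr
        calc ∑ w ∈ W, ∫⁻ z in Metric.ball (0 : ℂ) r0, ENNReal.ofReal (‖z - w‖ ^ (-(2 * θ)))
            ≤ ∑ _w ∈ W, ENNReal.ofReal (max C0 0) := Finset.sum_le_sum fun w _ =>
              (hC0 w).trans (ENNReal.ofReal_le_ofReal (le_max_left _ _))
          _ = (W.card : ENNReal) * ENNReal.ofReal (max C0 0) := by
              rw [Finset.sum_const, nsmul_eq_mul]
          _ ≤ _ := by
              gcongr
    _ = ENNReal.ofReal (A * ((volume (Metric.ball (0 : ℂ) r0)).toReal +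
          (∑ i, n i : ℕ) * max C0 0)) := by
        rw [ENNReal.ofReal_mul hA0, ENNReal.ofReal_add ENNReal.toReal_nonneg (by positivity),
          ENNReal.ofReal_toReal hV, ENNReal.ofReal_mul (Nat.cast_nonneg _),
          ENNReal.ofReal_natCast]

end FV
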