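import Pool.Agent.Lib.MP_9e8926_ag_FV.EvL
import Pool.Agent.Lib.MP_9e8926_ag_FV.Unif

/-!
# Uniform local integrability of the rescaled functions
-/

set_option autoImplicit false

noncomputable section

namespace FV

open MvPolynomial MeasureTheory

/-! ### The one variable part -/

private theorem LocU_fam {ι : Type*} [Fintype ι] (G : ι → ℝ → ℂ → Polynomial ℂ) (n : ι → ℕ)
    (e : ι → ℝ) (he : ∀ i, 0 ≤ e i) (hn : ∑ i, e i * n i < 1) (d : ℕ) (a0 : ℂ)
    (hd : ∀ i ρ a, (G i ρ a).natDegree ≤ d)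
    (hc : ∀ i j, Continuous (fun p : ℝ × ℂ => (G i p.1 p.2).coeff j))
    (h0 : ∀ i, (G i 0 a0).coeff (n i) ≠ 0) :
    ∃ ρ1 : ℝ, 0 < ρ1 ∧ ∃ r1 : ℝ, 0 < r1 ∧ ∃ r0 : ℝ, 0 < r0 ∧ ∃ C : ℝ, ∀ ρ : ℝ, 0 ≤ ρ →
      ρ ≤ ρ1 → ∀ a ∈ Metric.ball a0 r1, ∫⁻ z in Metric.ball (0 : ℂ) r0,
        ENNReal.ofReal (∏ i, ‖(G i ρ a).eval z‖ ^ (-(2 * e i))) ≤ ENNReal.ofReal C := by
  obtain ⟨c, hc0, hcl⟩ : ∃ c : ℝ, 0 < c ∧ ∀ i, c < ‖(G i 0 a0).coeff (n i)‖ := by
    have h1 : ∀ᶠ c in nhdsWithin (0 : ℝ) (Set.Ioi 0), ∀ i, c ∈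
        Set.Ioo 0 ‖(G i 0 a0).coeff (n i)‖ :=
      Filter.eventually_all.2 fun i => Ioo_mem_nhdsGT (norm_pos_iff.2 (h0 i))
    have h2 : ∀ᶠ c in nhdsWithin (0 : ℝ) (Set.Ioi 0), c ∈ Set.Ioi (0 : ℝ) :=
      self_mem_nhdsWithin
    obtain ⟨c, hc1, hc2⟩ := (h1.and h2).exists
    exact ⟨c, hc2, fun i => (hc1 i).2⟩
  set K : ℝ := ∑ i, ∑ j ∈ Finset.range (d + 1), (‖(G i 0 a0).coeff j‖ + 1) with hK
  have hK0 : 0 ≤ K := by
    rw [hK]
    exact Finset.sum_nonneg fun i _ => Finset.sum_nonneg fun j _ => by positivity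
  have hKj : ∀ i, ∀ j ∈ Finset.range (d + 1), ‖(G i 0 a0).coeff j‖ < K := by
    intro i j hj
    have h1 : ‖(G i 0 a0).coeff j‖ + 1 ≤
        ∑ j ∈ Finset.range (d + 1), (‖(G i 0 a0).coeff j‖ + 1) :=
      Finset.single_le_sum (f := fun j => ‖(G i 0 a0).coeff j‖ + 1)
        (fun j _ => by positivity) hj
    have h2 : ∑ j ∈ Finset.range (d + 1), (‖(G i 0 a0).coeff j‖ + 1) ≤ K :=
      Finset.single_le_sum
        (f := fun i => ∑ j ∈ Finset.range (d + 1), (‖(G i 0 a0).coeff j‖ + 1))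
        (fun i _ => Finset.sum_nonneg fun j _ => by positivity) (Finset.mem_univ i)
    linarith
  have hev : ∀ᶠ p in nhds ((0 : ℝ), a0), (∀ i, c < ‖(G i p.1 p.2).coeff (n i)‖) ∧
      ∀ i, ∀ j ∈ Finset.range (d + 1), ‖(G i p.1 p.2).coeff j‖ < K := by
    refine Filter.Eventually.and (Filter.eventually_all.2 fun i => ?_)
      (Filter.eventually_all.2 fun i => (Finset.eventually_all _).2 fun j hj => ?_)
    · exact ((hc i (n i)).norm.tendsto ((0 : ℝ), a0)).eventually (lt_mem_nhds (hcl i))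
    · exact ((hc i j).norm.tendsto ((0 : ℝ), a0)).eventually (gt_mem_nhds (hKj i j hj))
  obtain ⟨ε, hε, hball⟩ := Metric.eventually_nhds_iff_ball.1 hev
  obtain ⟨r0, hr0, C, hC⟩ := unif_one n e he hn d c K hc0
  refine ⟨ε / 2, half_pos hε, ε, hε, r0, hr0, C, fun ρ hρ0 hρ1 a ha => ?_⟩
  have hmem : (ρ, a) ∈ Metric.ball ((0 : ℝ), a0) ε := by
    rw [Metric.mem_ball, Prod.dist_eq, max_lt_iff]
    refine ⟨?_, Metric.mem_ball.1 ha⟩
    rw [Real.dist_eq, sub_zero, abs_of_nonneg hρ0]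
    linarith
  obtain ⟨k1, k2⟩ := hball _ hmem
  refine hC (fun i => G i ρ a) (fun i => hd i ρ a) (fun i j => ?_) (fun i => (k1 i).le)
  rcases Nat.lt_or_ge j (d + 1) with hj | hj
  · exact (k2 i j (Finset.mem_range.2 hj)).le
  · rw [Polynomial.coeff_eq_zero_of_natDegree_lt (by have := hd i ρ a; omega), norm_zero]
    exact hK0

/-! ### Tonelli -/

private theorem LocU_shift (f : ℂ → ENNReal) (q : ℂ) (r : ℝ) :
    ∫⁻ y in Metric.ball q r, f y = ∫⁻ z in Metric.ball (0 : ℂ) r, f (q + z) := by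
  rw [← lintegral_indicator Metric.isOpen_ball.measurableSet,
    ← lintegral_indicator Metric.isOpen_ball.measurableSet,
    ← lintegral_add_left_eq_self (μ := volume) _ q]
  refine lintegral_congr fun z => ?_
  by_cases hz : z ∈ Metric.ball (0 : ℂ) r
  · rw [Set.indicator_of_mem hz, Set.indicator_of_mem]
    rw [Metric.mem_ball, dist_eq_norm] at hz ⊢
    simpa using hz
  · rw [Set.indicator_of_notMem hz, Set.indicator_of_notMem]
    intro h
    apply hz
    rw [Metric.mem_ball, dist_eq_norm] at h ⊢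
    simpa using h

private theorem LocU_tonY (f : ℂ × ℂ → ENNReal) (hf : Measurable f) (Q : ℂ × ℂ) (r1 r0 : ℝ)
    (C : ENNReal) (h : ∀ a ∈ Metric.ball Q.1 r1,
      ∫⁻ z in Metric.ball (0 : ℂ) r0, f (a, Q.2 + z) ≤ C) :
    ∫⁻ z in Metric.ball Q.1 r1 ×ˢ Metric.ball Q.2 r0, f z ≤
      C * volume (Metric.ball Q.1 r1) := by
  rw [Measure.volume_eq_prod, ← Measure.prod_restrict, lintegral_prod _ hf.aemeasurable]
  calc ∫⁻ a in Metric.ball Q.1 r1, ∫⁻ y in Metric.ball Q.2 r0, f (a, y)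
      ≤ ∫⁻ _ in Metric.ball Q.1 r1, C := by
        refine setLIntegral_mono measurable_const fun a ha => ?_
        rw [LocU_shift (fun y => f (a, y))]
        exact h a ha
    _ = C * volume (Metric.ball Q.1 r1) := by rw [setLIntegral_const]

private theorem LocU_tonX (f : ℂ × ℂ → ENNReal) (hf : Measurable f) (Q : ℂ × ℂ) (r1 r0 : ℝ)
    (C : ENNReal) (h : ∀ b ∈ Metric.ball Q.2 r1,
      ∫⁻ z in Metric.ball (0 : ℂ) r0, f (Q.1 + z, b) ≤ C) :
    ∫⁻ z in Metric.ball Q.1 r0 ×ˢ Metric.ball Q.2 r1, f z ≤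
      C * volume (Metric.ball Q.2 r1) := by
  rw [Measure.volume_eq_prod, ← Measure.prod_restrict, lintegral_prod_symm _ hf.aemeasurable]
  calc ∫⁻ b in Metric.ball Q.2 r1, ∫⁻ x in Metric.ball Q.1 r0, f (x, b)
      ≤ ∫⁻ _ in Metric.ball Q.2 r1, C := by
        refine setLIntegral_mono measurable_const fun b hb => ?_
        rw [LocU_shift (fun x => f (x, b))]
        exact h b hb
    _ = C * volume (Metric.ball Q.2 r1) := by rw [setLIntegral_const]

/-! ### The rescaled polynomials -/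

private theorem LocU_meas {ι : Type*} [Fintype ι] (F : ι → P2 ℂ) (e : ι → ℝ) :
    Measurable (fun z : ℂ × ℂ => ENNReal.ofReal (∏ i, ‖ev (F i) z‖ ^ (-(2 * e i)))) := by
  have h1 : ∀ i, Continuous (fun z : ℂ × ℂ => ev (F i) z) := by
    intro i
    unfold ev
    refine (MvPolynomial.continuous_eval (F i)).comp ?_
    refine continuous_pi fun j => ?_
    fin_cases j
    · exact continuous_fst
    · exact continuous_snd
  refine Measurable.ennreal_ofReal (Finset.measurable_prod _ fun i _ => ?_)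
  exact (h1 i).norm.measurable.pow_const _

private theorem LocU_FF_zero {α β w : ℕ} {F H : P2 ℂ} (h : IsInit α β F w H) :
    FF α β w F 0 = H := by
  classical
  ext m
  unfold FF
  rw [coeff_sum, h.coeff_eq m]
  simp only [coeff_monomial]
  rw [Finset.sum_ite_eq']
  by_cases hm : m ∈ F.support
  · rw [if_pos hm]
    have hw := h.ge m hm
    by_cases hmw : wt α β m = w
    · rw [if_pos hmw, hmw]
      simp
    · rw [if_neg hmw, Complex.ofReal_zero, zero_pow (by omega), mul_zero]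
  · rw [if_neg hm]
    split_ifs
    · exact (notMem_support_iff.1 hm).symm
    · rfl

private theorem LocU_aeval (v : Fin 2 → Polynomial ℂ) (α β w : ℕ) (F : P2 ℂ) (ρ : ℝ) :
    aeval v (FF α β w F ρ) = ∑ m ∈ F.support,
      Polynomial.C (coeff m F * (ρ : ℂ) ^ (wt α β m - w)) * (v 0 ^ m 0 * v 1 ^ m 1) := by
  unfold FF
  rw [map_sum]
  refine Finset.sum_congr rfl fun m _ => ?_
  rw [aeval_monomial, Finsupp.prod_fintype _ _ (fun i => pow_zero _), Fin.prod_univ_two]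
  rfl

private theorem LocU_eval_aeval (F : P2 ℂ) (v : Fin 2 → Polynomial ℂ) (z : ℂ) :
    (aeval v F).eval z = MvPolynomial.eval (fun i => (v i).eval z) F := by
  have h : (Polynomial.evalRingHom z).comp (aeval v : P2 ℂ →ₐ[ℂ] Polynomial ℂ).toRingHom =
      MvPolynomial.eval (fun i => (v i).eval z) := by
    apply MvPolynomial.ringHom_ext
    · intro r
      simp
    · intro i
      simp
  exact congrArg (fun g : P2 ℂ →+* ℂ => g F) h

private theorem LocU_deg {F : P2 ℂ} {m : Fin 2 →₀ ℕ} (hm : m ∈ F.support) (i : Fin 2) :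
    m i ≤ F.totalDegree := by
  refine le_trans ?_ (le_totalDegree hm)
  rw [Finsupp.sum_fintype _ _ (fun i => rfl)]
  exact Finset.single_le_sum (f := fun i => m i) (fun _ _ => Nat.zero_le _) (Finset.mem_univ i)

private theorem LocU_main {α β : ℕ} {ι : Type*} [Fintype ι] (F H : ι → P2 ℂ) (w : ι → ℕ)
    (hI : ∀ i, IsInit α β (F i) (w i) (H i)) (e : ι → ℝ) (he : ∀ i, 0 ≤ e i)
    (n : ι → ℕ) (hn : ∑ i, e i * n i < 1) (a0 : ℂ) (v : ℂ → Fin 2 → Polynomial ℂ)
    (hv : (∃ b : ℂ, ∀ a, v a = ![Polynomial.C a, Polynomial.C b + Polynomial.X]) ∨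
      (∃ b : ℂ, ∀ a, v a = ![Polynomial.C b + Polynomial.X, Polynomial.C a]))
    (h : ∀ i, (aeval (v a0) (H i)).coeff (n i) ≠ 0) :
    ∃ ρ1 : ℝ, 0 < ρ1 ∧ ∃ r1 : ℝ, 0 < r1 ∧ ∃ r0 : ℝ, 0 < r0 ∧ ∃ C : ℝ, ∀ ρ : ℝ, 0 ≤ ρ →
      ρ ≤ ρ1 → ∀ a ∈ Metric.ball a0 r1, ∫⁻ z in Metric.ball (0 : ℂ) r0,
        ENNReal.ofReal (∏ i, ‖(aeval (v a) (FF α β (w i) (F i) ρ)).eval z‖ ^ (-(2 * e i))) ≤
          ENNReal.ofReal C := by
  refine LocU_fam (fun i ρ a => aeval (v a) (FF α β (w i) (F i) ρ)) n e he hn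
    (∑ i, (F i).totalDegree) a0 ?_ ?_ ?_
  · intro i ρ a
    have hi : (F i).totalDegree ≤ ∑ i, (F i).totalDegree :=
      Finset.single_le_sum (f := fun i => (F i).totalDegree) (fun _ _ => Nat.zero_le _)
        (Finset.mem_univ i)
    refine le_trans ?_ hi
    rw [LocU_aeval]
    refine Polynomial.natDegree_sum_le_of_forall_le _ _ fun m hm => ?_
    refine (Polynomial.natDegree_C_mul_le _ _).trans ?_
    have hX : ∀ b : ℂ, (Polynomial.C b + Polynomial.X : Polynomial ℂ).natDegree ≤ 1 :=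
      fun b => (Polynomial.natDegree_C_add.trans_le Polynomial.natDegree_X_le)
    have hpow : ∀ (b : ℂ) (j : ℕ),
        ((Polynomial.C b + Polynomial.X : Polynomial ℂ) ^ j).natDegree ≤ j := by
      intro b j
      refine Polynomial.natDegree_pow_le.trans ?_
      calc j * (Polynomial.C b + Polynomial.X : Polynomial ℂ).natDegree ≤ j * 1 :=
            Nat.mul_le_mul_left j (hX b)
        _ = j := mul_one j
    rcases hv with ⟨b, hb⟩ | ⟨b, hb⟩
    · rw [hb a]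
      refine le_trans ?_ (LocU_deg hm 1)
      show (Polynomial.C a ^ m 0 * (Polynomial.C b + Polynomial.X) ^ m 1).natDegree ≤ m 1
      rw [← Polynomial.C_pow]
      exact (Polynomial.natDegree_C_mul_le _ _).trans (hpow b _)
    · rw [hb a]
      refine le_trans ?_ (LocU_deg hm 0)
      show ((Polynomial.C b + Polynomial.X) ^ m 0 * Polynomial.C a ^ m 1).natDegree ≤ m 0
      rw [← Polynomial.C_pow]
      exact (Polynomial.natDegree_mul_C_le _ _).trans (hpow b _)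
  · intro i j
    have h1 : (fun p : ℝ × ℂ => (aeval (v p.2) (FF α β (w i) (F i) p.1)).coeff j) =
        fun p : ℝ × ℂ => ∑ m ∈ (F i).support,
          coeff m (F i) * (p.1 : ℂ) ^ (wt α β m - w i) *
            ((v p.2 0) ^ m 0 * (v p.2 1) ^ m 1).coeff j := by
      funext p
      rw [LocU_aeval, Polynomial.finsetSum_coeff]
      exact Finset.sum_congr rfl fun m _ => Polynomial.coeff_C_mul _
    show Continuous (fun p : ℝ × ℂ => (aeval (v p.2) (FF α β (w i) (F i) p.1)).coeff j)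
    rw [h1]
    refine continuous_finsetSum _ fun m _ => ?_
    refine Continuous.mul (continuous_const.mul
      ((Complex.continuous_ofReal.comp continuous_fst).pow _)) ?_
    rcases hv with ⟨b, hb⟩ | ⟨b, hb⟩
    · have h2 : (fun p : ℝ × ℂ => ((v p.2 0) ^ m 0 * (v p.2 1) ^ m 1).coeff j) =
          fun p : ℝ × ℂ => p.2 ^ m 0 *
            ((Polynomial.C b + Polynomial.X : Polynomial ℂ) ^ m 1).coeff j := by
        funext p
        rw [hb p.2]
        show (Polynomial.C p.2 ^ m 0 * (Polynomial.C b + Polynomial.X) ^ m 1).coeff j = _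
        rw [← Polynomial.C_pow, Polynomial.coeff_C_mul]
      rw [h2]
      exact (continuous_snd.pow _).mul continuous_const
    · have h2 : (fun p : ℝ × ℂ => ((v p.2 0) ^ m 0 * (v p.2 1) ^ m 1).coeff j) =
          fun p : ℝ × ℂ => ((Polynomial.C b + Polynomial.X : Polynomial ℂ) ^ m 0).coeff j *
            p.2 ^ m 1 := by
        funext p
        rw [hb p.2]
        show ((Polynomial.C b + Polynomial.X) ^ m 0 * Polynomial.C p.2 ^ m 1).coeff j = _
        rw [← Polynomial.C_pow, Polynomial.coeff_mul_C]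
      rw [h2]
      exact continuous_const.mul (continuous_snd.pow _)
  · intro i
    show (aeval (v a0) (FF α β (w i) (F i) 0)).coeff (n i) ≠ 0
    rw [LocU_FF_zero (hI i)]
    exact h i

theorem loc_unif {α β : ℕ} {ι : Type*} [Fintype ι] (F H : ι → P2 ℂ) (w : ι → ℕ)
    (hI : ∀ i, IsInit α β (F i) (w i) (H i)) (e : ι → ℝ) (he : ∀ i, 0 ≤ e i) (Q : ℂ × ℂ)
    (n : ι → ℕ) (hn : ∑ i, e i * n i < 1)
    (h : (∀ i, (sliceY (H i) Q).coeff (n i) ≠ 0) ∨ (∀ i, (sliceX (H i) Q).coeff (n i) ≠ 0)) :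
    ∃ U ∈ nhds Q, ∃ ρ1 : ℝ, 0 < ρ1 ∧ ∃ C : ℝ, ∀ ρ : ℝ, 0 ≤ ρ → ρ ≤ ρ1 →
      ∫⁻ z in U, ENNReal.ofReal (∏ i, ‖ev (FF α β (w i) (F i) ρ) z‖ ^ (-(2 * e i))) ≤
        ENNReal.ofReal C := by
  rcases h with h | h
  · obtain ⟨ρ1, hρ1, r1, hr1, r0, hr0, C, hC⟩ := LocU_main F H w hI e he n hn Q.1
      (fun a => ![Polynomial.C a, Polynomial.C Q.2 + Polynomial.X])
      (Or.inl ⟨Q.2, fun a => rfl⟩) h
    refine ⟨Metric.ball Q.1 r1 ×ˢ Metric.ball Q.2 r0,
      prod_mem_nhds (Metric.ball_mem_nhds _ hr1) (Metric.ball_mem_nhds _ hr0), ρ1, hρ1,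
      (ENNReal.ofReal C * volume (Metric.ball Q.1 r1)).toReal, fun ρ hρ0 hρ => ?_⟩
    rw [ENNReal.ofReal_toReal (ENNReal.mul_ne_top ENNReal.ofReal_ne_top
      measure_ball_lt_top.ne)]
    refine LocU_tonY _ (LocU_meas (fun i => FF α β (w i) (F i) ρ) e) Q r1 r0 _
      fun a ha => ?_
    refine le_trans (le_of_eq ?_) (hC ρ hρ0 hρ a ha)
    refine lintegral_congr fun z => ?_
    congr 1
    refine Finset.prod_congr rfl fun i _ => ?_
    rw [LocU_eval_aeval]
    unfold ev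
    have e1 : ![(a, Q.2 + z).1, (a, Q.2 + z).2] =
        fun i => ((![Polynomial.C a, Polynomial.C Q.2 + Polynomial.X] :
          Fin 2 → Polynomial ℂ) i).eval z := by
      funext i
      fin_cases i
      · simp
      · simp
    rw [e1]
  · obtain ⟨ρ1, hρ1, r1, hr1, r0, hr0, C, hC⟩ := LocU_main F H w hI e he n hn Q.2
      (fun a => ![Polynomial.C Q.1 + Polynomial.X, Polynomial.C a])
      (Or.inr ⟨Q.1, fun a => rfl⟩) h
    refine ⟨Metric.ball Q.1 r0 ×ˢ Metric.ball Q.2 r1,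
      prod_mem_nhds (Metric.ball_mem_nhds _ hr0) (Metric.ball_mem_nhds _ hr1), ρ1, hρ1,
      (ENNReal.ofReal C * volume (Metric.ball Q.2 r1)).toReal, fun ρ hρ0 hρ => ?_⟩
    rw [ENNReal.ofReal_toReal (ENNReal.mul_ne_top ENNReal.ofReal_ne_top
      measure_ball_lt_top.ne)]
    refine LocU_tonX _ (LocU_meas (fun i => FF α β (w i) (F i) ρ) e) Q r1 r0 _
      fun a ha => ?_
    refine le_trans (le_of_eq ?_) (hC ρ hρ0 hρ a ha)
    refine lintegral_congr fun z => ?_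
    congr 1
    refine Finset.prod_congr rfl fun i _ => ?_
    rw [LocU_eval_aeval]
    unfold ev
    have e1 : ![(Q.1 + z, a).1, (Q.1 + z, a).2] =
        fun i => ((![Polynomial.C Q.1 + Polynomial.X, Polynomial.C a] :
          Fin 2 → Polynomial ℂ) i).eval z := by
      funext i
      fin_cases i
      · simp
      · simp
    rw [e1]

end FV
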