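import Pool.Agent.Lib.MP_9e8926_ag_FV.Defs

/-!
# Integration over weighted shells
-/

set_option autoImplicit false

noncomputable section

namespace FV

open MeasureTheory

/-- The weighted shell. -/
def shellZ (α β : ℕ) : Set (ℂ × ℂ) :=
  {z | ‖z.1‖ ≤ 1 ∧ ‖z.2‖ ≤ 1 ∧ ((1 / 2 : ℝ) ^ α ≤ ‖z.1‖ ∨ (1 / 2 : ℝ) ^ β ≤ ‖z.2‖)}

private theorem Shell_closed (α β : ℕ) : IsClosed (shellZ α β) := by
  have h1 : Continuous fun z : ℂ × ℂ => ‖z.1‖ := continuous_fst.norm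
  have h2 : Continuous fun z : ℂ × ℂ => ‖z.2‖ := continuous_snd.norm
  have e : shellZ α β = {z | ‖z.1‖ ≤ 1} ∩ ({z | ‖z.2‖ ≤ 1} ∩
      ({z | (1 / 2 : ℝ) ^ α ≤ ‖z.1‖} ∪ {z | (1 / 2 : ℝ) ^ β ≤ ‖z.2‖})) := rfl
  rw [e]
  exact (isClosed_le h1 continuous_const).inter ((isClosed_le h2 continuous_const).inter
    ((isClosed_le continuous_const h1).union (isClosed_le continuous_const h2)))

theorem shell_compact (α β : ℕ) : IsCompact (shellZ α β) := by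
  apply Metric.isCompact_of_isClosed_isBounded (Shell_closed α β)
  apply Metric.isBounded_closedBall (x := (0 : ℂ × ℂ)) (r := 1) |>.subset
  intro z hz
  rw [mem_closedBall_zero_iff, Prod.norm_def]
  exact max_le hz.1 hz.2.1

theorem zero_not_mem_shell (α β : ℕ) : (0 : ℂ × ℂ) ∉ shellZ α β := by
  rintro ⟨-, -, h | h⟩
  · have : (0 : ℝ) < (1 / 2 : ℝ) ^ α := by positivity
    simp only [Prod.fst_zero, norm_zero] at h
    linarith
  · have : (0 : ℝ) < (1 / 2 : ℝ) ^ β := by positivity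
    simp only [Prod.snd_zero, norm_zero] at h
    linarith

/-- The rescaled shell. -/
private def Shell_A (α β : ℕ) (ρ : ℝ) : Set (ℂ × ℂ) :=
  {z | ‖z.1‖ ≤ ρ ^ α ∧ ‖z.2‖ ≤ ρ ^ β ∧ ((ρ / 2) ^ α ≤ ‖z.1‖ ∨ (ρ / 2) ^ β ≤ ‖z.2‖)}

private theorem Shell_A_meas (α β : ℕ) (ρ : ℝ) : MeasurableSet (Shell_A α β ρ) := by
  have h1 : Continuous fun z : ℂ × ℂ => ‖z.1‖ := continuous_fst.norm
  have h2 : Continuous fun z : ℂ × ℂ => ‖z.2‖ := continuous_snd.norm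
  have e : Shell_A α β ρ = {z | ‖z.1‖ ≤ ρ ^ α} ∩ ({z | ‖z.2‖ ≤ ρ ^ β} ∩
      ({z | (ρ / 2) ^ α ≤ ‖z.1‖} ∪ {z | (ρ / 2) ^ β ≤ ‖z.2‖})) := rfl
  rw [e]
  exact ((isClosed_le h1 continuous_const).inter ((isClosed_le h2 continuous_const).inter
    ((isClosed_le continuous_const h1).union
      (isClosed_le continuous_const h2)))).measurableSet

private theorem Shell_norm (ρ : ℝ) (hρ : 0 < ρ) (n : ℕ) (w : ℂ) :
    ‖(ρ : ℂ) ^ n * w‖ = ρ ^ n * ‖w‖ := by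
  rw [norm_mul, norm_pow, Complex.norm_real, Real.norm_of_nonneg hρ.le]

private theorem Shell_mem (α β : ℕ) (ρ : ℝ) (hρ : 0 < ρ) (z : ℂ × ℂ) :
    ((ρ : ℂ) ^ α * z.1, (ρ : ℂ) ^ β * z.2) ∈ Shell_A α β ρ ↔ z ∈ shellZ α β := by
  have hα : 0 < ρ ^ α := pow_pos hρ α
  have hβ : 0 < ρ ^ β := pow_pos hρ β
  have e1 : ∀ n : ℕ, (ρ / 2) ^ n = ρ ^ n * (1 / 2 : ℝ) ^ n := by
    intro n
    rw [← mul_pow, mul_one_div]
  change (_ ∧ _ ∧ (_ ∨ _)) ↔ (_ ∧ _ ∧ (_ ∨ _))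
  dsimp only
  rw [Shell_norm ρ hρ, Shell_norm ρ hρ, e1, e1]
  refine and_congr ?_ (and_congr ?_ (or_congr ?_ ?_))
  · exact mul_le_iff_le_one_right hα
  · exact mul_le_iff_le_one_right hβ
  · exact mul_le_mul_iff_right₀ hα
  · exact mul_le_mul_iff_right₀ hβ

private theorem Shell_map (ρ : ℝ) (hρ : 0 < ρ) (n : ℕ) :
    Measure.map (fun w : ℂ => (ρ : ℂ) ^ n * w) volume =
      ENNReal.ofReal ((ρ ^ (2 * n))⁻¹) • (volume : Measure ℂ) := by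
  have h1 := Measure.map_addHaar_smul (volume : Measure ℂ) (r := ρ ^ n) (pow_pos hρ n).ne'
  have h2 : (fun w : ℂ => (ρ : ℂ) ^ n * w) = ((ρ ^ n) • ·) := by
    funext w
    rw [Complex.real_smul]
    push_cast
    rfl
  rw [h2, h1, Complex.finrank_real_complex, ← pow_mul, mul_comm n 2,
    abs_of_pos (inv_pos.2 (pow_pos hρ _))]

private theorem Shell_scale (α β : ℕ) (Φ : ℂ × ℂ → ENNReal) (hΦ : Measurable Φ) (ρ : ℝ)
    (hρ : 0 < ρ) : ∫⁻ z in Shell_A α β ρ, Φ z = ENNReal.ofReal (ρ ^ (2 * (α + β))) *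
      ∫⁻ z in shellZ α β, Φ ((ρ : ℂ) ^ α * z.1, (ρ : ℂ) ^ β * z.2) := by
  set c1 : ENNReal := ENNReal.ofReal ((ρ ^ (2 * α))⁻¹) with hc1
  set c2 : ENNReal := ENNReal.ofReal ((ρ ^ (2 * β))⁻¹) with hc2
  have hm1 : Measurable fun w : ℂ => (ρ : ℂ) ^ α * w := measurable_const_mul _
  have hm2 : Measurable fun w : ℂ => (ρ : ℂ) ^ β * w := measurable_const_mul _
  have hmap : Measure.map (Prod.map (fun w : ℂ => (ρ : ℂ) ^ α * w)
      (fun w : ℂ => (ρ : ℂ) ^ β * w)) (volume : Measure (ℂ × ℂ)) =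
      (c1 * c2) • (volume : Measure (ℂ × ℂ)) := by
    rw [Measure.volume_eq_prod]
    rw [← Measure.map_prod_map _ _ hm1 hm2, Shell_map ρ hρ, Shell_map ρ hρ,
      Measure.prod_smul_left, Measure.prod_smul_right, smul_smul]
  have hmeas : Measurable ((Shell_A α β ρ).indicator Φ) := hΦ.indicator (Shell_A_meas α β ρ)
  have h1 : ∫⁻ z, (Shell_A α β ρ).indicator Φ z ∂(Measure.map (Prod.map
      (fun w : ℂ => (ρ : ℂ) ^ α * w) (fun w : ℂ => (ρ : ℂ) ^ β * w)) volume) =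
      ∫⁻ z, (Shell_A α β ρ).indicator Φ (Prod.map
      (fun w : ℂ => (ρ : ℂ) ^ α * w) (fun w : ℂ => (ρ : ℂ) ^ β * w) z) :=
    lintegral_map hmeas (hm1.prodMap hm2)
  rw [hmap, lintegral_smul_measure, lintegral_indicator (Shell_A_meas α β ρ)] at h1
  have h2 : ∀ z : ℂ × ℂ, (Shell_A α β ρ).indicator Φ (Prod.map
      (fun w : ℂ => (ρ : ℂ) ^ α * w) (fun w : ℂ => (ρ : ℂ) ^ β * w) z) =
      (shellZ α β).indicator (fun z => Φ ((ρ : ℂ) ^ α * z.1, (ρ : ℂ) ^ β * z.2)) z := by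
    intro z
    by_cases hz : z ∈ shellZ α β
    · rw [Set.indicator_of_mem hz, Set.indicator_of_mem]
      · rfl
      · exact (Shell_mem α β ρ hρ z).2 hz
    · rw [Set.indicator_of_notMem hz, Set.indicator_of_notMem]
      exact fun hc => hz ((Shell_mem α β ρ hρ z).1 hc)
  simp only [h2] at h1
  rw [lintegral_indicator (Shell_closed α β).measurableSet] at h1
  rw [← h1, smul_eq_mul, ← mul_assoc]
  have h3 : ENNReal.ofReal (ρ ^ (2 * (α + β))) * (c1 * c2) = 1 := by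
    rw [hc1, hc2, ← ENNReal.ofReal_mul (by positivity), ← ENNReal.ofReal_mul (by positivity),
      ← mul_inv, ← pow_add, ← mul_add, mul_inv_cancel₀ (by positivity), ENNReal.ofReal_one]
  rw [h3, one_mul]

private theorem Shell_cover {α β : ℕ} (hα : 1 ≤ α) (hβ : 1 ≤ β) (ρ0 : ℝ)
    (z : ℂ × ℂ) (hz : z ≠ 0) (h1 : ‖z.1‖ ≤ ρ0 ^ α) (h2 : ‖z.2‖ ≤ ρ0 ^ β) :
    ∃ j : ℕ, z ∈ Shell_A α β (ρ0 * (1 / 2) ^ j) := by
  classical
  have hlim : ∀ n : ℕ, 1 ≤ n → ∀ t : ℝ, 0 < t → ∃ j : ℕ, (ρ0 * (1 / 2) ^ j) ^ n < t := by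
    intro n hn t ht
    have l1 : Filter.Tendsto (fun j : ℕ => (ρ0 * (1 / 2 : ℝ) ^ j) ^ n) Filter.atTop
        (nhds ((ρ0 * 0) ^ n)) :=
      ((tendsto_pow_atTop_nhds_zero_of_lt_one (by norm_num) (by norm_num)).const_mul ρ0).pow n
    rw [mul_zero, zero_pow (by omega)] at l1
    obtain ⟨j, hj⟩ := (l1.eventually (gt_mem_nhds ht)).exists
    exact ⟨j, hj⟩
  have hex : ∃ j : ℕ, ¬ (‖z.1‖ ≤ (ρ0 * (1 / 2) ^ j) ^ α ∧ ‖z.2‖ ≤ (ρ0 * (1 / 2) ^ j) ^ β) := by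
    by_cases hz1 : z.1 = 0
    · have hz2 : z.2 ≠ 0 := fun hc => hz (Prod.ext hz1 hc)
      obtain ⟨j, hj⟩ := hlim β hβ _ (norm_pos_iff.2 hz2)
      exact ⟨j, fun hc => absurd hc.2 (not_le.2 hj)⟩
    · obtain ⟨j, hj⟩ := hlim α hα _ (norm_pos_iff.2 hz1)
      exact ⟨j, fun hc => absurd hc.1 (not_le.2 hj)⟩
  obtain ⟨j, hj⟩ : ∃ j, Nat.find hex = j + 1 := by
    apply Nat.exists_eq_succ_of_ne_zero
    intro hc
    apply Nat.find_spec hex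
    rw [hc, pow_zero, mul_one]
    exact ⟨h1, h2⟩
  have hspec := Nat.find_spec hex
  rw [hj] at hspec
  have hmin : ‖z.1‖ ≤ (ρ0 * (1 / 2) ^ j) ^ α ∧ ‖z.2‖ ≤ (ρ0 * (1 / 2) ^ j) ^ β := by
    by_contra hc
    have := Nat.find_min' hex hc
    omega
  refine ⟨j, hmin.1, hmin.2, ?_⟩
  have e : ρ0 * (1 / 2 : ℝ) ^ j / 2 = ρ0 * (1 / 2) ^ (j + 1) := by
    rw [pow_succ]
    ring
  rw [e]
  by_contra hc
  rw [not_or, not_le, not_le] at hc
  exact hspec ⟨hc.1.le, hc.2.le⟩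

/-- If the integrals over the rescaled shells are at most `C ρ^{-2s}` with `s < α + β` then the
function is integrable near the origin. -/
theorem shell_sum {α β : ℕ} (hα : 1 ≤ α) (hβ : 1 ≤ β) (Φ : ℂ × ℂ → ENNReal)
    (hΦ : Measurable Φ) (s C ρ0 : ℝ) (hs : s < (α : ℝ) + β) (hρ0 : 0 < ρ0)
    (h : ∀ ρ : ℝ, 0 < ρ → ρ ≤ ρ0 →
      ∫⁻ z in shellZ α β, Φ ((ρ : ℂ) ^ α * z.1, (ρ : ℂ) ^ β * z.2) ≤
        ENNReal.ofReal (C * ρ ^ (-(2 * s)))) :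
    ∃ ρ : ℝ, 0 < ρ ∧ ∫⁻ z in Metric.ball (0 : ℂ × ℂ) ρ, Φ z < ⊤ := by
  refine ⟨min (ρ0 ^ α) (ρ0 ^ β), lt_min (pow_pos hρ0 α) (pow_pos hρ0 β), ?_⟩
  set r : ℕ → ℝ := fun j => ρ0 * (1 / 2) ^ j with hr
  have hrpos : ∀ j, 0 < r j := fun j => by positivity
  have hrle : ∀ j, r j ≤ ρ0 := by
    intro j
    have : ((1 : ℝ) / 2) ^ j ≤ 1 := pow_le_one₀ (by norm_num) (by norm_num)
    calc ρ0 * (1 / 2) ^ j ≤ ρ0 * 1 := by gcongr
      _ = ρ0 := mul_one _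
  have hsub : Metric.ball (0 : ℂ × ℂ) (min (ρ0 ^ α) (ρ0 ^ β)) ⊆
      {0} ∪ ⋃ j, Shell_A α β (r j) := by
    intro z hz
    rw [mem_ball_zero_iff, Prod.norm_def, lt_min_iff, max_lt_iff, max_lt_iff] at hz
    by_cases h0 : z = 0
    · exact Or.inl h0
    · right
      rw [Set.mem_iUnion]
      exact Shell_cover hα hβ ρ0 z h0 hz.1.1.le hz.2.2.le
  set γ : ℝ := 2 * ((α : ℝ) + β - s) with hγ
  have hγpos : 0 < γ := by
    rw [hγ]
    linarith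
  set q : ℝ := (1 / 2 : ℝ) ^ γ with hq
  have hq0 : 0 ≤ q := by positivity
  have hq1 : q < 1 := Real.rpow_lt_one (by norm_num) (by norm_num) hγpos
  have hterm : ∀ j, ∫⁻ z in Shell_A α β (r j), Φ z ≤
      ENNReal.ofReal (|C| * ρ0 ^ γ * q ^ j) := by
    intro j
    rw [Shell_scale α β Φ hΦ (r j) (hrpos j)]
    refine (mul_le_mul_right (h (r j) (hrpos j) (hrle j)) _).trans ?_
    rw [← ENNReal.ofReal_mul (by positivity)]
    apply ENNReal.ofReal_le_ofReal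
    have e1 : r j ^ (2 * (α + β)) = r j ^ (2 * ((α : ℝ) + β)) := by
      rw [← Real.rpow_natCast]
      push_cast
      rfl
    have e2 : r j ^ (2 * (α + β)) * r j ^ (-(2 * s)) = r j ^ γ := by
      rw [e1, ← Real.rpow_add (hrpos j)]
      congr 1
      rw [hγ]
      ring
    have e3 : r j ^ γ = ρ0 ^ γ * q ^ j := by
      rw [hr, hq]
      dsimp only
      rw [Real.mul_rpow hρ0.le (by positivity), ← Real.rpow_natCast, ← Real.rpow_natCast,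
        ← Real.rpow_mul (by norm_num), ← Real.rpow_mul (by norm_num), mul_comm γ]
    calc r j ^ (2 * (α + β)) * (C * r j ^ (-(2 * s)))
        = C * (r j ^ (2 * (α + β)) * r j ^ (-(2 * s))) := by ring
      _ = C * (ρ0 ^ γ * q ^ j) := by rw [e2, e3]
      _ ≤ |C| * (ρ0 ^ γ * q ^ j) := by
          gcongr
          exact le_abs_self C
      _ = |C| * ρ0 ^ γ * q ^ j := by ring
  have hsum : ∑' j, ENNReal.ofReal (|C| * ρ0 ^ γ * q ^ j) < ⊤ := by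
    rw [← ENNReal.ofReal_tsum_of_nonneg]
    · exact ENNReal.ofReal_lt_top
    · intro j
      positivity
    · exact (summable_geometric_of_lt_one hq0 hq1).mul_left _
  have hnull : (volume : Measure (ℂ × ℂ)) {0} = 0 := by
    have e : ({0} : Set (ℂ × ℂ)) = {0} ×ˢ {0} := by
      rw [Set.singleton_prod_singleton]
      rfl
    rw [e, Measure.volume_eq_prod, Measure.prod_prod, measure_singleton, zero_mul]
  calc ∫⁻ z in Metric.ball (0 : ℂ × ℂ) (min (ρ0 ^ α) (ρ0 ^ β)), Φ z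
      ≤ ∫⁻ z in {0} ∪ ⋃ j, Shell_A α β (r j), Φ z := lintegral_mono_set hsub
    _ ≤ (∫⁻ z in {0}, Φ z) + ∫⁻ z in ⋃ j, Shell_A α β (r j), Φ z := lintegral_union_le _ _ _
    _ = ∫⁻ z in ⋃ j, Shell_A α β (r j), Φ z := by
        rw [setLIntegral_measure_zero _ _ hnull, zero_add]
    _ ≤ ∑' j, ∫⁻ z in Shell_A α β (r j), Φ z := lintegral_iUnion_le _ _
    _ ≤ ∑' j, ENNReal.ofReal (|C| * ρ0 ^ γ * q ^ j) := ENNReal.tsum_le_tsum hterm
    _ < ⊤ := hsum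

end FV
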