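import Pool.Agent.Lib.MP_9e8926_ag_FV.SliceL
import Pool.Agent.Lib.MP_9e8926_ag_FV.Shell
import Pool.Agent.Lib.MP_9e8926_ag_FV.LocU

/-!
# The integrability lemma
-/

set_option autoImplicit false

noncomputable section

namespace FV

open MvPolynomial MeasureTheory

/-- Uniform integrability over the shell. -/
theorem shell_unif {α β : ℕ} (hα : 1 ≤ α) (hβ : 1 ≤ β) (hco : Nat.Coprime α β) {ι : Type*}
    [Fintype ι] (F H : ι → P2 ℂ) (w : ι → ℕ) (hI : ∀ i, IsInit α β (F i) (w i) (H i))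
    (e : ι → ℝ) (he : ∀ i, 0 ≤ e i)
    (hπ : ∀ (π : P2 ℂ) (v : ℕ), Irreducible π → Homog α β v π → 1 ≤ v →
      ∀ n : ι → ℕ, (∀ i, π ^ n i ∣ H i) → ∑ i, e i * n i < 1) :
    ∃ ρ1 : ℝ, 0 < ρ1 ∧ ∃ C : ℝ, ∀ ρ : ℝ, 0 ≤ ρ → ρ ≤ ρ1 →
      ∫⁻ z in shellZ α β, ENNReal.ofReal
        (∏ i, ‖ev (FF α β (w i) (F i) ρ) z‖ ^ (-(2 * e i))) ≤ ENNReal.ofReal C := by
  have hloc : ∀ Q ∈ shellZ α β, ∃ U ∈ nhds Q, ∃ ρ1 : ℝ, 0 < ρ1 ∧ ∃ C : ℝ, ∀ ρ : ℝ, 0 ≤ ρ →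
      ρ ≤ ρ1 → ∫⁻ z in U, ENNReal.ofReal
        (∏ i, ‖ev (FF α β (w i) (F i) ρ) z‖ ^ (-(2 * e i))) ≤ ENNReal.ofReal C := by
    intro Q hQ
    have hQ0 : Q ≠ 0 := fun h => zero_not_mem_shell α β (h ▸ hQ)
    obtain ⟨π, v, hπ1, hπ2, hv, hs⟩ := slice hα hβ hco Q hQ0
    rcases hs with hs | hs
    · choose n hn1 hn2 using fun i => hs (H i) (w i) (hI i).1 (hI i).2.1
      exact loc_unif F H w hI e he Q n (hπ π v hπ1 hπ2 hv n hn1) (Or.inl hn2)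
    · choose n hn1 hn2 using fun i => hs (H i) (w i) (hI i).1 (hI i).2.1
      exact loc_unif F H w hI e he Q n (hπ π v hπ1 hπ2 hv n hn1) (Or.inr hn2)
  choose! U hU ρQ hρQ CQ hCQ using hloc
  obtain ⟨t, ht, hcov⟩ := (shell_compact α β).elim_nhds_subcover U hU
  have hev : ∀ᶠ ρ : ℝ in nhdsWithin 0 (Set.Ioi 0), ∀ Q ∈ t, ρ ≤ ρQ Q := by
    rw [Filter.eventually_all_finset]
    intro Q hQ
    exact Filter.Eventually.filter_mono nhdsWithin_le_nhds (eventually_le_nhds (hρQ Q (ht Q hQ)))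
  obtain ⟨ρ1, hρ1, hρ1'⟩ := (hev.and self_mem_nhdsWithin).exists
  refine ⟨ρ1, hρ1', ∑ Q : t, max (CQ Q) 0, fun ρ h0 h1 => ?_⟩
  have hcov' : shellZ α β ⊆ ⋃ Q : t, U Q := by
    refine hcov.trans ?_
    intro z hz
    simp only [Set.mem_iUnion] at hz ⊢
    obtain ⟨Q, hQ, hz⟩ := hz
    exact ⟨⟨Q, hQ⟩, hz⟩
  refine (lintegral_mono_set hcov').trans ((lintegral_iUnion_le _ _).trans ?_)
  rw [tsum_fintype, ENNReal.ofReal_sum_of_nonneg (fun Q _ => le_max_right _ _)]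
  refine Finset.sum_le_sum fun Q _ => ?_
  exact (hCQ Q (ht Q Q.2) ρ h0 (h1.trans (hρ1 Q Q.2))).trans
    (ENNReal.ofReal_le_ofReal (le_max_left _ _))

private theorem ilem_cont (f : P2 ℂ) : Continuous (fun z : ℂ × ℂ => ev f z) := by
  unfold ev
  have h : Continuous (fun z : ℂ × ℂ => (![z.1, z.2] : Fin 2 → ℂ)) := by
    refine continuous_pi fun i => ?_
    fin_cases i
    · exact continuous_fst
    · exact continuous_snd
  exact (MvPolynomial.continuous_eval f).comp h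

private theorem ilem_meas {ι : Type*} [Fintype ι] (F : ι → P2 ℂ) (e : ι → ℝ) :
    Measurable (fun z : ℂ × ℂ => ∏ i, ‖ev (F i) z‖ ^ (-(2 * e i))) :=
  Finset.measurable_fun_prod _ fun i _ => (ilem_cont (F i)).norm.measurable.pow_const _

theorem ilem {α β : ℕ} (hα : 1 ≤ α) (hβ : 1 ≤ β) (hco : Nat.Coprime α β) {ι : Type*}
    [Fintype ι] (F H : ι → P2 ℂ) (w : ι → ℕ) (hI : ∀ i, IsInit α β (F i) (w i) (H i))
    (e : ι → ℝ) (he : ∀ i, 0 ≤ e i) (hw : ∑ i, e i * w i < (α : ℝ) + β)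
    (hπ : ∀ (π : P2 ℂ) (v : ℕ), Irreducible π → Homog α β v π → 1 ≤ v →
      ∀ n : ι → ℕ, (∀ i, π ^ n i ∣ H i) → ∑ i, e i * n i < 1) :
    IntNear (fun z => ∏ i, ‖ev (F i) z‖ ^ (-(2 * e i))) := by
  obtain ⟨ρ1, hρ1, C, hC⟩ := shell_unif hα hβ hco F H w hI e he hπ
  have hmeas := ilem_meas F e
  have hnn : ∀ z, 0 ≤ ∏ i, ‖ev (F i) z‖ ^ (-(2 * e i)) := fun z =>
    Finset.prod_nonneg fun i _ => Real.rpow_nonneg (norm_nonneg _) _
  have hsh : ∀ r : ℝ, 0 < r → r ≤ ρ1 → ∫⁻ z in shellZ α β,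
      (fun z => ENNReal.ofReal (∏ i, ‖ev (F i) z‖ ^ (-(2 * e i))))
        ((r : ℂ) ^ α * z.1, (r : ℂ) ^ β * z.2) ≤
        ENNReal.ofReal (max C 0 * r ^ (-(2 * ∑ i, e i * w i))) := by
    intro r hr0 hr1
    have key : ∀ z : ℂ × ℂ,
        (∏ i, ‖ev (F i) ((r : ℂ) ^ α * z.1, (r : ℂ) ^ β * z.2)‖ ^ (-(2 * e i))) =
        r ^ (-(2 * ∑ i, e i * w i)) *
          ∏ i, ‖ev (FF α β (w i) (F i) r) z‖ ^ (-(2 * e i)) := by
      intro z
      have h1 : ∀ i, ‖ev (F i) ((r : ℂ) ^ α * z.1, (r : ℂ) ^ β * z.2)‖ ^ (-(2 * e i)) =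
          r ^ (-(2 * (e i * w i))) * ‖ev (FF α β (w i) (F i) r) z‖ ^ (-(2 * e i)) := by
        intro i
        have h2 : ev (F i) ((r : ℂ) ^ α * z.1, (r : ℂ) ^ β * z.2) =
            (r : ℂ) ^ (w i) * ev (FF α β (w i) (F i) r) z := by
          rw [ev_FF (hI i).ge r hr0.ne', ← mul_assoc, ← mul_pow,
            mul_inv_cancel₀ (by exact_mod_cast hr0.ne'), one_pow, one_mul]
        rw [h2, norm_mul, Real.mul_rpow (norm_nonneg _) (norm_nonneg _), norm_pow,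
          Complex.norm_real, Real.norm_of_nonneg hr0.le, ← Real.rpow_natCast r (w i),
          ← Real.rpow_mul hr0.le]
        congr 2
        ring
      simp only [h1]
      rw [Finset.prod_mul_distrib]
      congr 1
      rw [← Real.rpow_sum_of_pos hr0]
      congr 1
      rw [Finset.mul_sum, ← Finset.sum_neg_distrib]
    simp only [key]
    have h3 : ∀ z : ℂ × ℂ, ENNReal.ofReal (r ^ (-(2 * ∑ i, e i * w i)) *
          ∏ i, ‖ev (FF α β (w i) (F i) r) z‖ ^ (-(2 * e i))) =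
        ENNReal.ofReal (r ^ (-(2 * ∑ i, e i * w i))) *
          ENNReal.ofReal (∏ i, ‖ev (FF α β (w i) (F i) r) z‖ ^ (-(2 * e i))) := fun z =>
      ENNReal.ofReal_mul (Real.rpow_nonneg hr0.le _)
    simp only [h3]
    rw [lintegral_const_mul _ (ilem_meas (fun i => FF α β (w i) (F i) r) e).ennreal_ofReal,
      ENNReal.ofReal_mul (le_max_right _ _), mul_comm (ENNReal.ofReal (max C 0))]
    gcongr
    exact (hC r hr0.le hr1).trans (ENNReal.ofReal_le_ofReal (le_max_left _ _))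
  obtain ⟨ρ, hρ, hfin⟩ := shell_sum hα hβ
    (fun z => ENNReal.ofReal (∏ i, ‖ev (F i) z‖ ^ (-(2 * e i)))) hmeas.ennreal_ofReal
    (∑ i, e i * w i) (max C 0) ρ1 hw hρ1 hsh
  refine ⟨ρ, hρ, hmeas.aestronglyMeasurable, ?_⟩
  rw [hasFiniteIntegral_iff_ofReal (Filter.Eventually.of_forall hnn)]
  exact hfin

end FV
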