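import Mathlib

/-!
# The numerical part of the lower bound
-/

set_option autoImplicit false

noncomputable section

namespace FV

open Filter Topology

/-- The sum of the squares. -/
private theorem lctNum_sq (n : ℕ) :
    ∑ N ∈ Finset.range n, ((N : ℝ) + 1) ^ 2 ≤ ((n : ℝ) + 1) ^ 3 / 3 := by
  induction n with
  | zero => norm_num
  | succ n ih =>
    rw [Finset.sum_range_succ]
    push_cast
    have h0 : (0 : ℝ) ≤ n := Nat.cast_nonneg n
    nlinarith [ih, h0]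

private theorem lctNum_D {e' : ℝ} (he : 0 ≤ e') (d : ℕ → ℝ) (N0 : ℕ)
    (hd : ∀ n : ℕ, N0 ≤ n → d n ≤ e' / 2 * (n : ℝ) ^ 2) (n : ℕ) :
    ∑ N ∈ Finset.range n, d (N + 1) ≤
      ∑ N ∈ Finset.range N0, |d (N + 1)| + e' / 6 * ((n : ℝ) + 1) ^ 3 := by
  have h1 : ∑ N ∈ Finset.range n, d (N + 1) ≤
      ∑ N ∈ Finset.range n, ((if N < N0 then |d (N + 1)| else 0) +
        e' / 2 * ((N : ℝ) + 1) ^ 2) := by
    refine Finset.sum_le_sum fun N _ => ?_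
    have h2 : 0 ≤ e' / 2 * ((N : ℝ) + 1) ^ 2 := by positivity
    split_ifs with h
    · linarith [le_abs_self (d (N + 1))]
    · have h3 := hd (N + 1) (by omega)
      push_cast at h3
      linarith
  rw [Finset.sum_add_distrib, ← Finset.mul_sum] at h1
  have h4 : ∑ N ∈ Finset.range n, (if N < N0 then |d (N + 1)| else 0) ≤
      ∑ N ∈ Finset.range N0, |d (N + 1)| := by
    rw [← Finset.sum_filter]
    refine Finset.sum_le_sum_of_subset_of_nonneg ?_ fun _ _ _ => abs_nonneg _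
    intro N hN
    rw [Finset.mem_filter] at hN
    exact Finset.mem_range.2 hN.2
  have h5 := mul_le_mul_of_nonneg_left (lctNum_sq n) (by positivity : 0 ≤ e' / 2)
  linarith

private theorem lctNum_lim {α β : ℕ} (hα : 1 ≤ α) (hβ : 1 ≤ β) (A e' C ν : ℝ) (hν : 0 ≤ ν) :
    Tendsto (fun W : ℕ => 3 * (α : ℝ) * β * A / ((W : ℝ) + α + β + 1) ^ 3 *
      ((⌊ν * W⌋₊ : ℝ) * ((W : ℝ) ^ 2 / (2 * α * β)) - (C + e' / 6 * ((⌊ν * W⌋₊ : ℝ) + 1) ^ 3)))
      atTop (𝓝 (3 * α * β * A * (ν / (2 * α * β) - e' / 6 * ν ^ 3))) := by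
  have hα0 : (0 : ℝ) < α := by exact_mod_cast hα
  have hβ0 : (0 : ℝ) < β := by exact_mod_cast hβ
  have t1 : Tendsto (fun W : ℕ => (⌊ν * W⌋₊ : ℝ) / W) atTop (𝓝 ν) :=
    (tendsto_nat_floor_mul_div_atTop (R := ℝ) hν).comp tendsto_natCast_atTop_atTop
  have t2 : Tendsto (fun W : ℕ => (1 : ℝ) / W) atTop (𝓝 0) := tendsto_one_div_atTop_nhds_zero_nat
  have t3 : Tendsto (fun W : ℕ => 1 + ((α : ℝ) + β + 1) * (1 / W)) atTop (𝓝 1) := by
    have := (t2.const_mul ((α : ℝ) + β + 1)).const_add 1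
    rwa [mul_zero, add_zero] at this
  have t4 : Tendsto (fun W : ℕ => ((1 + ((α : ℝ) + β + 1) * (1 / W)) ^ 3)⁻¹) atTop (𝓝 1) := by
    have := (t3.pow 3).inv₀ (by norm_num)
    rwa [one_pow, inv_one] at this
  have t5 : Tendsto (fun W : ℕ => 3 * (α : ℝ) * β * A *
      ((1 + ((α : ℝ) + β + 1) * (1 / W)) ^ 3)⁻¹ *
      (((⌊ν * W⌋₊ : ℝ) / W) / (2 * α * β) - (C * (1 / W) ^ 3 +
        e' / 6 * ((⌊ν * W⌋₊ : ℝ) / W + 1 / W) ^ 3))) atTop
      (𝓝 (3 * α * β * A * 1 * (ν / (2 * α * β) - (C * 0 ^ 3 + e' / 6 * (ν + 0) ^ 3)))) := by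
    refine (tendsto_const_nhds.mul t4).mul ?_
    refine (t1.div_const _).sub ?_
    exact ((t2.pow 3).const_mul C).add (((t1.add t2).pow 3).const_mul _)
  have e1 : 3 * α * β * A * 1 * (ν / (2 * α * β) - (C * 0 ^ 3 + e' / 6 * (ν + 0) ^ 3)) =
      3 * α * β * A * (ν / (2 * α * β) - e' / 6 * ν ^ 3) := by ring
  rw [e1] at t5
  refine t5.congr' ?_
  filter_upwards [eventually_ge_atTop 1] with W hW
  have hW0 : (0 : ℝ) < W := by exact_mod_cast hW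
  have h1 : (0 : ℝ) < (W : ℝ) + α + β + 1 := by positivity
  have h2 : 1 + ((α : ℝ) + β + 1) * (1 / W) = ((W : ℝ) + α + β + 1) / W := by
    field_simp
    ring
  rw [h2]
  field_simp

/-- Numerical part. -/
theorem lct_num (α β : ℕ) (hα : 1 ≤ α) (hβ : 1 ≤ β) (A e ℓ : ℝ) (hA : 0 < A) (he : 0 ≤ e)
    (hℓ : 0 ≤ ℓ) (d : ℕ → ℝ) (hd : ∀ ε : ℝ, 0 < ε → ∃ N0 : ℕ, ∀ n : ℕ, N0 ≤ n →
      d n ≤ (e + ε) / 2 * (n : ℝ) ^ 2)
    (h : ∀ W n : ℕ, ∀ x : ℝ, 0 < x → x < 3 * α * β * A / ((W : ℝ) + α + β + 1) ^ 3 →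
      x * ((n : ℝ) * ((W : ℝ) ^ 2 / (2 * α * β)) - ∑ N ∈ Finset.range n, d (N + 1)) ≤ ℓ) :
    A ^ 2 / (α * β) ≤ e * ℓ ^ 2 := by
  have hα0 : (0 : ℝ) < α := by exact_mod_cast hα
  have hβ0 : (0 : ℝ) < β := by exact_mod_cast hβ
  have key : ∀ ε : ℝ, 0 < ε → A ^ 2 / (α * β) ≤ (e + ε) * ℓ ^ 2 := by
    intro ε hε
    obtain ⟨N0, hN0⟩ := hd ε hε
    set e' := e + ε with he'
    have he0 : 0 < e' := by linarith
    set C : ℝ := ∑ N ∈ Finset.range N0, |d (N + 1)| with hC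
    have hD := lctNum_D he0.le d N0 hN0
    set ν : ℝ := (Real.sqrt (α * β * e'))⁻¹ with hνd
    have hs : 0 < Real.sqrt (α * β * e') := Real.sqrt_pos.2 (by positivity)
    have hν : 0 < ν := inv_pos.2 hs
    have hν2 : α * β * e' * ν ^ 2 = 1 := by
      rw [hνd, inv_pow, Real.sq_sqrt (by positivity)]
      exact mul_inv_cancel₀ (by positivity)
    have hb : ∀ W : ℕ, 3 * (α : ℝ) * β * A / ((W : ℝ) + α + β + 1) ^ 3 *
        ((⌊ν * W⌋₊ : ℝ) * ((W : ℝ) ^ 2 / (2 * α * β)) -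
          (C + e' / 6 * ((⌊ν * W⌋₊ : ℝ) + 1) ^ 3)) ≤ ℓ := by
      intro W
      set X : ℝ := 3 * (α : ℝ) * β * A / ((W : ℝ) + α + β + 1) ^ 3 with hX
      have hX0 : 0 < X := by positivity
      set y : ℝ := (⌊ν * W⌋₊ : ℝ) * ((W : ℝ) ^ 2 / (2 * α * β)) -
        ∑ N ∈ Finset.range ⌊ν * W⌋₊, d (N + 1) with hy
      have h1 : X * y ≤ ℓ := by
        by_contra hc
        push Not at hc
        have hy0 : 0 < y := by
          by_contra hy1
          push Not at hy1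
          have := mul_nonpos_of_nonneg_of_nonpos hX0.le hy1
          linarith
        have h2 : ℓ / y < X := by
          rw [div_lt_iff₀ hy0]
          exact hc
        have h3 : 0 ≤ ℓ / y := by positivity
        have h4 := h W ⌊ν * W⌋₊ ((X + ℓ / y) / 2) (by linarith) (by linarith)
        rw [← hy] at h4
        have h5 : (X + ℓ / y) / 2 * y = (X * y + ℓ) / 2 := by
          field_simp
        rw [h5] at h4
        linarith
      refine le_trans (mul_le_mul_of_nonneg_left ?_ hX0.le) h1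
      have h6 := hD ⌊ν * W⌋₊
      rw [hy]
      linarith
    have hl := le_of_tendsto' (lctNum_lim hα hβ A e' C ν hν.le) hb
    have h7 : 3 * (α : ℝ) * β * A * (ν / (2 * α * β) - e' / 6 * ν ^ 3) = A * ν := by
      have h8 : 3 * (α : ℝ) * β * A * (ν / (2 * α * β) - e' / 6 * ν ^ 3) =
          A * ν * (3 / 2 - (α * β * e' * ν ^ 2) / 2) := by
        field_simp
        ring
      rw [h8, hν2]
      ring
    rw [h7] at hl
    have h9 : (A * ν) ^ 2 ≤ ℓ ^ 2 := pow_le_pow_left₀ (by positivity) hl 2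
    calc A ^ 2 / (α * β) = e' * (A * ν) ^ 2 := by
          have h10 : (α : ℝ) * β ≠ 0 := by positivity
          rw [div_eq_iff h10]
          calc A ^ 2 = A ^ 2 * (α * β * e' * ν ^ 2) := by rw [hν2, mul_one]
            _ = e' * (A * ν) ^ 2 * (α * β) := by ring
      _ ≤ e' * ℓ ^ 2 := mul_le_mul_of_nonneg_left h9 he0.le
  refine le_of_forall_pos_le_add fun δ hδ => ?_
  have h1 := key (δ / (ℓ ^ 2 + 1)) (by positivity)
  have h2 : δ / (ℓ ^ 2 + 1) * ℓ ^ 2 ≤ δ := by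
    rw [div_mul_eq_mul_div, div_le_iff₀ (by positivity)]
    nlinarith
  calc A ^ 2 / (α * β) ≤ (e + δ / (ℓ ^ 2 + 1)) * ℓ ^ 2 := h1
    _ = e * ℓ ^ 2 + δ / (ℓ ^ 2 + 1) * ℓ ^ 2 := by ring
    _ ≤ e * ℓ ^ 2 + δ := by linarith

end FV
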