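import Pool.Agent.Lib.MP_9e8926_ag_FV.Defs

/-!
# Elements of powers of an ideal and its generators
-/

set_option autoImplicit false

noncomputable section

namespace FV

open MvPolynomial

/-- the bound -/
private def NormPB (Γ : Finset (P2 ℂ)) (M : ℕ) (h : P2 ℂ) : Prop :=
  ∃ C : ℝ, 0 < C ∧ ∀ z : ℂ × ℂ, ‖z‖ ≤ 1 → ‖ev h z‖ ^ 2 ≤ C * (∑ g ∈ Γ, ‖ev g z‖ ^ 2) ^ M

private theorem normP_cont (h : P2 ℂ) : Continuous (ev h) := by
  unfold ev
  refine (MvPolynomial.continuous_eval h).comp ?_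
  refine continuous_pi fun i => ?_
  fin_cases i
  · exact continuous_fst
  · exact continuous_snd

private theorem normP_zero (Γ : Finset (P2 ℂ)) (h : P2 ℂ) : NormPB Γ 0 h := by
  obtain ⟨C, hC⟩ := (isCompact_closedBall (0 : ℂ × ℂ) 1).exists_bound_of_continuousOn
    (f := fun z => ev h z ^ 2) ((normP_cont h).pow 2).continuousOn
  refine ⟨max C 1, lt_max_of_lt_right one_pos, fun z hz => ?_⟩
  have h1 := hC z (by rw [mem_closedBall_zero_iff]; exact hz)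
  rw [norm_pow] at h1
  rw [pow_zero, mul_one]
  exact h1.trans (le_max_left _ _)

private theorem normP_add {Γ : Finset (P2 ℂ)} {M : ℕ} {h g : P2 ℂ} (hh : NormPB Γ M h)
    (hg : NormPB Γ M g) : NormPB Γ M (h + g) := by
  obtain ⟨C, hC, hCb⟩ := hh
  obtain ⟨D, hD, hDb⟩ := hg
  refine ⟨2 * C + 2 * D, by positivity, fun z hz => ?_⟩
  have h1 := hCb z hz
  have h2 := hDb z hz
  have h3 : ev (h + g) z = ev h z + ev g z := by
    unfold ev
    exact map_add _ _ _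
  rw [h3]
  have h4 : ‖ev h z + ev g z‖ ^ 2 ≤ (‖ev h z‖ + ‖ev g z‖) ^ 2 :=
    pow_le_pow_left₀ (norm_nonneg _) (norm_add_le _ _) 2
  have h5 : (‖ev h z‖ + ‖ev g z‖) ^ 2 ≤ 2 * ‖ev h z‖ ^ 2 + 2 * ‖ev g z‖ ^ 2 := by
    nlinarith [sq_nonneg (‖ev h z‖ - ‖ev g z‖)]
  calc _ ≤ 2 * ‖ev h z‖ ^ 2 + 2 * ‖ev g z‖ ^ 2 := h4.trans h5
    _ ≤ 2 * (C * (∑ g ∈ Γ, ‖ev g z‖ ^ 2) ^ M) + 2 * (D * (∑ g ∈ Γ, ‖ev g z‖ ^ 2) ^ M) := by
        linarith
    _ = _ := by ring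

private theorem normP_mul {Γ : Finset (P2 ℂ)} {M N : ℕ} {h g : P2 ℂ} (hh : NormPB Γ M h)
    (hg : NormPB Γ N g) : NormPB Γ (M + N) (h * g) := by
  obtain ⟨C, hC, hCb⟩ := hh
  obtain ⟨D, hD, hDb⟩ := hg
  refine ⟨C * D, by positivity, fun z hz => ?_⟩
  have h3 : ev (h * g) z = ev h z * ev g z := by
    unfold ev
    exact map_mul _ _ _
  rw [h3, norm_mul, mul_pow]
  calc ‖ev h z‖ ^ 2 * ‖ev g z‖ ^ 2 ≤ (C * (∑ g ∈ Γ, ‖ev g z‖ ^ 2) ^ M) *
        (D * (∑ g ∈ Γ, ‖ev g z‖ ^ 2) ^ N) :=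
        mul_le_mul (hCb z hz) (hDb z hz) (by positivity) (by positivity)
    _ = _ := by rw [pow_add]; ring

private theorem normP_span {Γ : Finset (P2 ℂ)} {h : P2 ℂ}
    (hh : h ∈ Ideal.span (Γ : Set (P2 ℂ))) : NormPB Γ 1 h := by
  refine Submodule.span_induction (p := fun h _ => NormPB Γ 1 h) ?_ ?_ ?_ ?_ hh
  · intro g hg
    refine ⟨1, one_pos, fun z _ => ?_⟩
    rw [one_mul, pow_one]
    exact Finset.single_le_sum (f := fun g => ‖ev g z‖ ^ 2) (fun _ _ => by positivity)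
      (Finset.mem_coe.1 hg)
  · refine ⟨1, one_pos, fun z _ => ?_⟩
    have h3 : ev (0 : P2 ℂ) z = 0 := by
      unfold ev
      exact map_zero _
    rw [h3, norm_zero, one_mul, pow_one, zero_pow two_ne_zero]
    exact Finset.sum_nonneg fun _ _ => by positivity
  · intro a b _ _ ha hb
    exact normP_add ha hb
  · intro a b _ hb
    rw [smul_eq_mul]
    have := normP_mul (normP_zero Γ a) hb
    rwa [zero_add] at this

/-- Elements of `b ^ M` are bounded by the `M`-th power of the generators. -/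
theorem norm_le_of_mem_pow (Γ : Finset (P2 ℂ)) (M : ℕ) (h : P2 ℂ)
    (hh : h ∈ Ideal.span (Γ : Set (P2 ℂ)) ^ M) :
    ∃ C : ℝ, 0 < C ∧ ∀ z : ℂ × ℂ, ‖z‖ ≤ 1 →
      ‖ev h z‖ ^ 2 ≤ C * (∑ g ∈ Γ, ‖ev g z‖ ^ 2) ^ M := by
  have key : NormPB Γ M h := by
    induction M generalizing h with
    | zero => exact normP_zero Γ h
    | succ M ih =>
      rw [pow_succ] at hh
      refine Submodule.mul_induction_on hh ?_ ?_
      · intro a ha b hb
        exact normP_mul (ih a ha) (normP_span hb)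
      · intro a b ha hb
        exact normP_add ha hb
  exact key

end FV
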