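import Pool.Agent.Lib.MP_9e8926_ag_FV.Adap
import Pool.Agent.Lib.MP_9e8926_ag_FV.ILem
import Pool.Agent.Lib.MP_9e8926_ag_FV.DivL
import Pool.Agent.Lib.MP_9e8926_ag_FV.TauInt
import Pool.Agent.Lib.MP_9e8926_ag_FV.BasP
import Pool.Agent.Lib.MP_9e8926_ag_FV.RankE
import Pool.Agent.Lib.MP_9e8926_ag_FV.NormP
import Pool.Agent.Lib.MP_9e8926_ag_FV.LctNum

/-!
# The normalized volume of a pair with adapted coordinates
-/

set_option autoImplicit false

noncomputable section

namespace FV

open MvPolynomial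

private theorem measurable_ev (f : P2 ℂ) : Measurable (ev f) := by
  have h1 : Continuous (fun x : Fin 2 → ℂ => MvPolynomial.eval x f) :=
    MvPolynomial.continuous_eval f
  have h2 : Continuous (fun z : ℂ × ℂ => (![z.1, z.2] : Fin 2 → ℂ)) := by
    apply continuous_pi
    intro i
    fin_cases i
    · exact continuous_fst
    · exact continuous_snd
  exact (h1.comp h2).measurable

variable (G : Subgroup (GL (Fin 2) ℂ)) {r : ℕ} (f : Fin r → P2 ℂ) (c : Fin r → ℚ)

/-- Boundedness of the set defining the log canonical threshold. -/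
theorem lct_set_le [Finite G] (hc : ∀ i, 0 ≤ c i) (hf : ∀ i, f i ≠ 0) (I : Ideal (Inv G))
    (hI : IsPrim G I) (t : ℝ) (ht : 0 ≤ t) (Γ : Finset (Inv G))
    (hΓ : Ideal.span (Γ : Set (Inv G)) = I)
    (hint : IntNear (fun z => (∏ i, ‖ev (f i) z‖ ^ (-(2 * (c i : ℝ)))) *
      (∑ g ∈ Γ, ‖ev (g : P2 ℂ) z‖ ^ 2) ^ (-t))) : t ≤ 2 := by
  classical
  obtain ⟨N, hN1, hN2⟩ := ext_prim G I hI
  have h0 : ∃ g ∈ Γ.image (fun g : Inv G => (g : P2 ℂ)), g ≠ 0 := by
    by_contra hcon
    push Not at hcon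
    have h1 : ∀ g ∈ Γ, g = 0 := fun g hg =>
      Subtype.ext (hcon _ (Finset.mem_image_of_mem _ hg))
    have h2 : I = ⊥ := by
      rw [← hΓ, Ideal.span_eq_bot]
      exact fun g hg => h1 g hg
    have h3 : ext G I = ⊥ := by rw [h2]; exact Ideal.map_bot
    have h4 : (X 0 : P2 ℂ) ^ N ∈ m0 ℂ ^ N :=
      Ideal.pow_mem_pow (by rw [m0, RingHom.mem_ker, constantCoeff_X]) N
    have h5 := hN1 h4
    rw [h3, Ideal.mem_bot] at h5
    exact pow_ne_zero N (X_ne_zero 0) h5
  have hlt := div_poly (α := 1) (β := 1) le_rfl le_rfl f hf (fun _ => 0)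
    (fun i m _ => Nat.zero_le _) (fun i => (c i : ℝ)) (fun i => by exact_mod_cast hc i)
    (Γ.image (fun g : Inv G => (g : P2 ℂ))) h0 1 (by
      intro g hg m hm
      obtain ⟨g', hg', rfl⟩ := Finset.mem_image.mp hg
      have h1 : g' ∈ mO G := hI.1 (hΓ ▸ Ideal.subset_span hg')
      rw [mem_mO] at h1
      by_contra hlt
      have h2 : m = 0 := by
        unfold wt at hlt
        ext i
        fin_cases i
        · simp; omega
        · simp; omega
      rw [h2, MvPolynomial.mem_support_iff] at hm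
      exact hm h1) t ht (by
      have : (fun z => (∏ i, ‖ev (f i) z‖ ^ (-(2 * (c i : ℝ)))) *
          (∑ g ∈ Γ.image (fun g : Inv G => (g : P2 ℂ)), ‖ev g z‖ ^ 2) ^ (-t)) =
          (fun z => (∏ i, ‖ev (f i) z‖ ^ (-(2 * (c i : ℝ)))) *
          (∑ g ∈ Γ, ‖ev (g : P2 ℂ) z‖ ^ 2) ^ (-t)) := by
        funext z
        rw [Finset.sum_image (fun _ _ _ _ h => Subtype.ext h)]
      rw [this]
      exact hint)
  simp at hlt
  linarith

theorem lct_low [Finite G] (hG : ∀ σ ∈ G, σ ≠ 1 → ((σ : Matrix (Fin 2) (Fin 2) ℂ) - 1).det ≠ 0)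
    (hc : ∀ i, 0 ≤ c i) (_hf : ∀ i, f i ∈ Inv G) {α β W0 : ℕ} (hα : 1 ≤ α) (hβ : 1 ≤ β)
    (hco : Nat.Coprime α β) (w : Fin r → ℕ) (A : ℝ)
    (hA : A = (α : ℝ) + β - ∑ i, (c i : ℝ) * w i) (hA0 : 0 < A)
    (h : Adapted G f c α β W0 w A) (I : Ideal (Inv G)) (hI : IsPrim G I) :
    A ^ 2 / (α * β * (Nat.card G : ℕ)) ≤ emult ℂ I * lct G f c I ^ 2 := by
  classical
  have hg1 : 1 ≤ Nat.card G := Nat.card_pos
  have hg : ((Nat.card G : ℕ) : ℂ) ≠ 0 := by exact_mod_cast Nat.one_le_iff_ne_zero.mp hg1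
  obtain ⟨L, L', φ, H, u, v, hL, hφ, hIn, hSS, -⟩ := h
  have hαr : (0 : ℝ) < α := by exact_mod_cast hα
  have hβr : (0 : ℝ) < β := by exact_mod_cast hβ
  obtain ⟨T, hT⟩ := exists_tauEquiv L L' hL φ
  have hf0 : ∀ i, f i ≠ 0 := by
    intro i h0
    have := (hIn i).ne_zero
    rw [h0, map_zero] at this
    exact this rfl
  obtain ⟨N, hN1, hN2⟩ := ext_prim G I hI
  set b := ext G I with hb
  set b' : Ideal (P2 ℂ) := b.map (T : P2 ℂ →+* P2 ℂ) with hb'
  have hmap : ∀ n, b' ^ n = (b ^ n).map (T : P2 ℂ →+* P2 ℂ) := fun n => by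
    rw [hb', Ideal.map_pow]
  have hfr : ∀ n, Module.finrank ℂ (P2 ℂ ⧸ b' ^ n) = Module.finrank ℂ (P2 ℂ ⧸ b ^ n) := by
    intro n
    exact ((Ideal.quotientEquivAlg (b ^ n) (b' ^ n) T (hmap n)).toLinearEquiv.finrank_eq).symm
  have hem : emult ℂ b' = emult ℂ b := by
    unfold emult
    simp only [hfr]
  have hm0 : m0 ℂ ^ N ≤ b' := by
    have h1 : m0 ℂ ≤ (m0 ℂ).map (T : P2 ℂ →+* P2 ℂ) := by
      intro x hx
      have h2 : T.symm x ∈ m0 ℂ := by
        rw [m0, RingHom.mem_ker] at hx ⊢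
        rw [← constantCoeff_tau L φ hφ, ← hT, AlgEquiv.apply_symm_apply, hx]
      have h3 := Ideal.mem_map_of_mem (T : P2 ℂ →+* P2 ℂ) h2
      have h4 : (T : P2 ℂ →+* P2 ℂ) (T.symm x) = x := T.apply_symm_apply x
      rwa [h4] at h3
    calc m0 ℂ ^ N ≤ ((m0 ℂ).map (T : P2 ℂ →+* P2 ℂ)) ^ N := Ideal.pow_right_mono h1 N
      _ = (m0 ℂ ^ N).map (T : P2 ℂ →+* P2 ℂ) := by rw [Ideal.map_pow]
      _ ≤ b' := Ideal.map_mono hN1
  have hbd : ∃ C0 : ℝ, ∀ n : ℕ, 1 ≤ n →
      (Module.finrank ℂ (P2 ℂ ⧸ b' ^ n) : ℝ) ≤ C0 * (n : ℝ) ^ 2 := by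
    obtain ⟨C0, hC0⟩ := finrank_pow_le b' N hm0
    exact ⟨C0, fun n hn => (hC0 n hn).2⟩
  have hℓ0 : 0 ≤ lct G f c I := Real.sSup_nonneg fun t ht => ht.1
  have hbdd : BddAbove {t : ℝ | 0 ≤ t ∧ ∃ Γ : Finset (Inv G),
      Ideal.span (Γ : Set (Inv G)) = I ∧
      IntNear (fun z => (∏ i, ‖ev (f i) z‖ ^ (-(2 * (c i : ℝ)))) *
      (∑ g ∈ Γ, ‖ev (g : P2 ℂ) z‖ ^ 2) ^ (-t))} :=
    ⟨2, fun t ⟨ht, Γ, hΓ, hint⟩ => lct_set_le G f c hc hf0 I hI t ht Γ hΓ hint⟩
  obtain ⟨Γ, hΓ⟩ := exists_generators G hg I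
  have hspan : b = Ideal.span ((Γ.image (fun g : Inv G => (g : P2 ℂ)) : Finset (P2 ℂ)) :
      Set (P2 ℂ)) := by
    rw [hb, ext, ← hΓ, Ideal.map_span, Finset.coe_image]
    rfl
  have key := lct_num α β hα hβ A (emult ℂ b') (lct G f c I) hA0 (emult_nonneg b' hbd) hℓ0
    (fun n => (Module.finrank ℂ (P2 ℂ ⧸ b' ^ n) : ℝ))
    (fun ε hε => finrank_le_of_emult b' hbd ε hε) (by
      intro W n x hx0 hx
      obtain ⟨h', Hh, Ω, M, hI', hM, hΩ, hMM, hmult⟩ := basis_prod hα hβ b' N hm0 W n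
      have hx3 : x * ((W : ℝ) + α + β + 1) ^ 3 < 3 * α * β * A := by
        rwa [lt_div_iff₀ (by positivity)] at hx
      have hsum0 : x * (n * (((W : ℝ)) ^ 2 / (2 * α * β)) -
          ∑ N ∈ Finset.range n, (Module.finrank ℂ (P2 ℂ ⧸ b' ^ (N + 1)) : ℝ)) ≤ x * M := by
        apply mul_le_mul_of_nonneg_left _ hx0.le
        refine le_trans ?_ hMM
        have := mul_le_mul_of_nonneg_left (cnt_lower hα hβ W) (Nat.cast_nonneg (α := ℝ) n)
        linarith
      refine le_trans hsum0 ?_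
      -- integrability
      have hint1 := ilem hα hβ hco (ι := Option (Fin r))
        (fun i => i.elim h' (fun i => tau L φ (f i))) (fun i => i.elim Hh H)
        (fun i => i.elim Ω w)
        (by intro i; cases i with
          | none => exact hI'
          | some i => exact hIn i)
        (fun i => i.elim x (fun i => (c i : ℝ)))
        (by intro i; cases i with
          | none => exact hx0.le
          | some i =>
            show (0 : ℝ) ≤ (c i : ℝ)
            exact_mod_cast hc i)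
        (by
          rw [Fintype.sum_option]
          simp only [Option.elim_none, Option.elim_some]
          have h1 : x * (Ω : ℝ) < A := by
            calc x * (Ω : ℝ) ≤ x * (((W : ℝ) + α + β + 1) ^ 3 / (3 * α * β)) :=
                  mul_le_mul_of_nonneg_left hΩ hx0.le
              _ = (x * ((W : ℝ) + α + β + 1) ^ 3) / (3 * α * β) := by ring
              _ < A := by
                  rw [div_lt_iff₀ (by positivity)]
                  linarith
          rw [hA] at h1
          linarith)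
        (by
          intro π v hπ hv hv1 n' hn'
          rw [Fintype.sum_option]
          simp only [Option.elim_none, Option.elim_some]
          have h1 := hmult π v hπ hv hv1 (n' none) (hn' none)
          have h2 := hSS π v hπ hv hv1 (fun i => n' (some i)) (fun i => hn' (some i))
          have hv0 : (0 : ℝ) < v := by exact_mod_cast hv1
          have h3 : x * ((W : ℝ) + α + β) ^ 3 ≤ x * ((W : ℝ) + α + β + 1) ^ 3 := by
            apply mul_le_mul_of_nonneg_left _ hx0.le
            apply pow_le_pow_left₀ (by positivity)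
            linarith
          have h4 : (v : ℝ) * (x * n' none) < A / 2 := by
            calc (v : ℝ) * (x * n' none) = x * ((v : ℝ) * n' none) := by ring
              _ ≤ x * (((W : ℝ) + α + β) ^ 3 / (6 * α * β)) :=
                  mul_le_mul_of_nonneg_left h1 hx0.le
              _ = (x * ((W : ℝ) + α + β) ^ 3) / (6 * α * β) := by ring
              _ < A / 2 := by
                  rw [div_lt_iff₀ (by positivity)]
                  nlinarith
          have h5 := lt_of_lt_of_le h4 h2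
          have h6 := lt_of_mul_lt_mul_left h5 hv0.le
          linarith)
      obtain ⟨Tm, hTm1, hTm2⟩ := intNear_tau L L' hL φ hφ
      have hh'' : T.symm h' ∈ b ^ M := by
        have h1 : h' ∈ (b ^ M).map (T : P2 ℂ →+* P2 ℂ) := by rw [← hmap]; exact hM
        obtain ⟨y, hy, hy2⟩ := (Ideal.mem_map_iff_of_surjective
          (T : P2 ℂ →+* P2 ℂ) T.surjective).mp h1
        have h2 : T.symm h' = y := by rw [← hy2]; exact T.symm_apply_apply y
        rw [h2]; exact hy
      have hh0 : T.symm h' ≠ 0 := by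
        intro h0
        apply hI'.ne_zero
        rw [← T.apply_symm_apply h', h0, map_zero]
      have hint2 : IntNear (fun z => ‖ev (T.symm h') z‖ ^ (-(2 * x)) *
          ∏ i, ‖ev (f i) z‖ ^ (-(2 * (c i : ℝ)))) := by
        rw [hTm2]
        have h1 : (fun z => ‖ev (T.symm h') (Tm z)‖ ^ (-(2 * x)) *
            ∏ i, ‖ev (f i) (Tm z)‖ ^ (-(2 * (c i : ℝ)))) =
            (fun z => ∏ i : Option (Fin r), ‖ev (i.elim h' (fun i => tau L φ (f i))) z‖ ^
              (-(2 * i.elim x (fun i => (c i : ℝ))))) := by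
          funext z
          rw [Fintype.prod_option]
          simp only [Option.elim_none, Option.elim_some]
          rw [← hTm1, ← hT, AlgEquiv.apply_symm_apply]
          simp only [hTm1]
        rw [h1]
        exact hint1
      rw [hspan] at hh''
      obtain ⟨C, hC, hCb⟩ := norm_le_of_mem_pow _ M _ hh''
      refine le_csSup hbdd ⟨mul_nonneg hx0.le (Nat.cast_nonneg M), Γ, hΓ, ?_⟩
      obtain ⟨ρ, hρ, hρi⟩ := hint2
      refine ⟨min ρ 1, lt_min hρ one_pos, ?_⟩
      have hρi' := hρi.mono_set (Metric.ball_subset_ball (min_le_left ρ 1))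
      refine MeasureTheory.Integrable.mono' (hρi'.const_mul (C ^ x)) ?_ ?_
      · apply Measurable.aestronglyMeasurable
        apply Measurable.mul
        · exact Finset.measurable_prod _ fun i _ => (measurable_ev (f i)).norm.pow_const _
        · apply Measurable.pow_const
          exact Finset.measurable_sum _ fun g _ => ((measurable_ev _).norm.pow_const _)
      · rw [MeasureTheory.ae_restrict_iff' measurableSet_ball]
        filter_upwards [ae_ne _ hh0] with z hz hzb
        have hz1 : ‖z‖ ≤ 1 := by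
          rw [mem_ball_zero_iff] at hzb
          exact (lt_of_lt_of_le hzb (min_le_right _ _)).le
        have h1 := hCb z hz1
        rw [Finset.sum_image (fun _ _ _ _ h => Subtype.ext h)] at h1
        set S : ℝ := ∑ g ∈ Γ, ‖ev (g : P2 ℂ) z‖ ^ 2 with hS
        have hS0 : 0 ≤ S := Finset.sum_nonneg fun g _ => by positivity
        have hpos : 0 < ‖ev (T.symm h') z‖ := norm_pos_iff.mpr hz
        have h2 : S ^ (-(x * (M : ℝ))) ≤ C ^ x * ‖ev (T.symm h') z‖ ^ (-(2 * x)) := by
          have e1 : S ^ (-(x * (M : ℝ))) = (S ^ M) ^ (-x) := by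
            rw [← Real.rpow_natCast S M, ← Real.rpow_mul hS0]
            congr 1
            ring
          have e2 : 0 < ‖ev (T.symm h') z‖ ^ 2 / C := by positivity
          have e3 : ‖ev (T.symm h') z‖ ^ 2 / C ≤ S ^ M := by
            rw [div_le_iff₀ hC]; linarith
          have e4 := (Real.rpow_le_rpow_iff_of_neg (lt_of_lt_of_le e2 e3) e2
            (by linarith : -x < 0)).mpr e3
          rw [e1]
          refine e4.trans (le_of_eq ?_)
          rw [Real.div_rpow (by positivity) hC.le, Real.rpow_neg hC.le, div_inv_eq_mul,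
            ← Real.rpow_natCast, ← Real.rpow_mul hpos.le, mul_comm]
          congr 2
          push_cast
          ring
        have h3 : 0 ≤ ∏ i, ‖ev (f i) z‖ ^ (-(2 * (c i : ℝ))) :=
          Finset.prod_nonneg fun i _ => Real.rpow_nonneg (norm_nonneg _) _
        rw [Real.norm_of_nonneg (mul_nonneg h3 (Real.rpow_nonneg hS0 _))]
        calc (∏ i, ‖ev (f i) z‖ ^ (-(2 * (c i : ℝ)))) * S ^ (-(x * (M : ℝ)))
            ≤ (∏ i, ‖ev (f i) z‖ ^ (-(2 * (c i : ℝ)))) *
              (C ^ x * ‖ev (T.symm h') z‖ ^ (-(2 * x))) := mul_le_mul_of_nonneg_left h2 h3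
          _ = C ^ x * (‖ev (T.symm h') z‖ ^ (-(2 * x)) *
              ∏ i, ‖ev (f i) z‖ ^ (-(2 * (c i : ℝ)))) := by ring)
  rw [hem, hb, emult_ext G hg hG I hI] at key
  have hgr : (0 : ℝ) < (Nat.card G : ℕ) := by exact_mod_cast hg1
  rw [← div_div, div_le_iff₀ hgr]
  linarith

end FV
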