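import Pool.Agent.Lib.MP_9e8926_ag_FV.SSred

/-!
# Compatibility with ring homomorphisms
-/

set_option autoImplicit false

noncomputable section

namespace FV

open MvPolynomial Matrix

variable {A B : Type*} [CommRing A] [CommRing B] (θ : A →+* B)

theorem lin_map (M : Matrix (Fin 2) (Fin 2) A) (f : P2 A) :
    lin (M.map θ) (map θ f) = map θ (lin M f) := by
  induction f using MvPolynomial.induction_on with
  | C a => simp [lin]
  | add p q hp hq => simp only [map_add, hp, hq]
  | mul_X p i hp =>
    simp only [map_mul, hp, MvPolynomial.map_X]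
    congr 1
    simp [lin]

theorem map_inv (G : Subgroup (GL (Fin 2) A)) (f : P2 A) (hf : f ∈ Inv G) :
    map θ f ∈ Inv (G.map (GeneralLinearGroup.map θ)) := by
  rintro _ ⟨σ, hσ, rfl⟩
  have h1 := hf σ hσ
  have h2 : ((GeneralLinearGroup.map θ σ : GL (Fin 2) B) : Matrix (Fin 2) (Fin 2) B) =
      (σ : Matrix (Fin 2) (Fin 2) A).map θ := rfl
  rw [h2, lin_map, h1]

theorem shear_map (φ : Polynomial A) (f : P2 A) :
    shear (φ.map θ) (map θ f) = map θ (shear φ f) := by
  have key : Polynomial.aeval (X 0 : P2 B) (φ.map θ) =
      map θ (Polynomial.aeval (X 0 : P2 A) φ) := by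
    rw [Polynomial.aeval_def, Polynomial.aeval_def, Polynomial.eval₂_map,
      Polynomial.hom_eval₂, MvPolynomial.map_X]
    congr 1
    ext a : 1
    simp [MvPolynomial.algebraMap_eq]
  induction f using MvPolynomial.induction_on with
  | C a => simp [shear]
  | add p q hp hq => simp only [map_add, hp, hq]
  | mul_X p i hp =>
    simp only [map_mul, hp, MvPolynomial.map_X]
    congr 1
    fin_cases i
    · simp [shear]
    · simp [shear, key]

theorem tau_map (L : Matrix (Fin 2) (Fin 2) A) (φ : Polynomial A) (f : P2 A) :
    tau (L.map θ) (φ.map θ) (map θ f) = map θ (tau L φ f) := by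
  simp only [tau, AlgHom.comp_apply, lin_map, shear_map]

theorem dg_map (a b : A) (f : P2 A) : dg (θ a) (θ b) (map θ f) = map θ (dg a b f) := by
  induction f using MvPolynomial.induction_on with
  | C a => simp [dg]
  | add p q hp hq => simp only [map_add, hp, hq]
  | mul_X p i hp =>
    simp only [map_mul, hp, MvPolynomial.map_X]
    congr 1
    fin_cases i
    · simp [dg]
    · simp [dg]

theorem dehom_map (f : P2 A) : dehom (map θ f) = (dehom f).map θ := by
  induction f using MvPolynomial.induction_on with
  | C a => simp [dehom, Polynomial.algebraMap_eq]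
  | add p q hp hq => simp only [map_add, hp, hq, Polynomial.map_add]
  | mul_X p i hp =>
    simp only [map_mul, hp, MvPolynomial.map_X, Polynomial.map_mul]
    congr 1
    fin_cases i
    · simp [dehom]
    · simp [dehom]

end FV
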