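import Mathlib

/-!
# Lower bounds for polynomials in one variable near a zero of given order
-/

set_option autoImplicit false

noncomputable section

namespace FV

namespace OneVarA

open Polynomial

lemma coeff_prod_le {ρ : ℝ} (hρ : 0 < ρ) (s : Multiset ℂ) (hs : ∀ w ∈ s, ρ ≤ ‖w‖) (k : ℕ) :
    ‖((s.map fun w => (X : ℂ[X]) - C w).prod).coeff k‖ ≤
      (s.map fun w => ‖w‖).prod * (s.card.choose k) * (ρ⁻¹) ^ k := by
  induction s using Multiset.induction_on generalizing k with
  | empty =>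
    rcases k with _ | k
    · simp
    · simp [coeff_one]
  | cons w s ih =>
    have hs' : ∀ w ∈ s, ρ ≤ ‖w‖ := fun v hv => hs v (Multiset.mem_cons_of_mem hv)
    have hw : ρ ≤ ‖w‖ := hs w (Multiset.mem_cons_self w s)
    have hP : 0 ≤ (s.map fun w => ‖w‖).prod := Multiset.prod_nonneg (by
      intro a ha
      obtain ⟨v, _, rfl⟩ := Multiset.mem_map.1 ha
      exact norm_nonneg v)
    have hw0 : 0 < ‖w‖ := hρ.trans_le hw
    rw [Multiset.map_cons, Multiset.prod_cons, Multiset.map_cons, Multiset.prod_cons,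
      Multiset.card_cons]
    rcases k with _ | k
    · have h1 := ih hs' 0
      rw [mul_coeff_zero]
      simp only [coeff_sub, coeff_X_zero, coeff_C_zero, zero_sub, norm_mul, norm_neg,
        Nat.choose_zero_right, Nat.cast_one, mul_one, pow_zero] at h1 ⊢
      exact mul_le_mul_of_nonneg_left h1 (norm_nonneg _)
    · have h1 := ih hs' k
      have h2 := ih hs' (k + 1)
      set P := (s.map fun w => (X : ℂ[X]) - C w).prod with hPdef
      have h3 : ((X - C w) * P).coeff (k + 1) = P.coeff k - w * P.coeff (k + 1) := by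
        rw [sub_mul, coeff_sub, coeff_X_mul, coeff_C_mul]
      rw [h3]
      have h4 : (1 : ℝ) ≤ ‖w‖ * ρ⁻¹ := by
        rw [← div_eq_mul_inv, one_le_div hρ]
        exact hw
      set Q := (s.map fun w => ‖w‖).prod with hQ
      have h5 : 0 ≤ Q * (s.card.choose k) * (ρ⁻¹) ^ k := by positivity
      calc ‖P.coeff k - w * P.coeff (k + 1)‖ ≤ ‖P.coeff k‖ + ‖w‖ * ‖P.coeff (k + 1)‖ := by
            rw [← norm_mul]
            exact norm_sub_le _ _
        _ ≤ Q * (s.card.choose k) * (ρ⁻¹) ^ k * (‖w‖ * ρ⁻¹) +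
            ‖w‖ * (Q * (s.card.choose (k + 1)) * (ρ⁻¹) ^ (k + 1)) := by
            apply add_le_add
            · exact h1.trans (le_mul_of_one_le_right h5 h4)
            · exact mul_le_mul_of_nonneg_left h2 hw0.le
        _ = ‖w‖ * Q * ((s.card + 1).choose (k + 1) : ℕ) * (ρ⁻¹) ^ (k + 1) := by
            rw [Nat.choose_succ_succ]
            push_cast
            ring

lemma eval_prod_ge {ρ : ℝ} (s : Multiset ℂ) (hs : ∀ w ∈ s, 2 * ρ ≤ ‖w‖) {z : ℂ}
    (hz : ‖z‖ ≤ ρ) :
    (s.map fun w => ‖w‖).prod * (2⁻¹ : ℝ) ^ s.card ≤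
      ‖((s.map fun w => (X : ℂ[X]) - C w).prod).eval z‖ := by
  induction s using Multiset.induction_on with
  | empty => simp
  | cons w s ih =>
    have hs' : ∀ w ∈ s, 2 * ρ ≤ ‖w‖ := fun v hv => hs v (Multiset.mem_cons_of_mem hv)
    have hw : 2 * ρ ≤ ‖w‖ := hs w (Multiset.mem_cons_self w s)
    have hP : 0 ≤ (s.map fun w => ‖w‖).prod := Multiset.prod_nonneg (by
      intro a ha
      obtain ⟨v, _, rfl⟩ := Multiset.mem_map.1 ha
      exact norm_nonneg v)
    have h1 := ih hs'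
    rw [Multiset.map_cons, Multiset.prod_cons, Multiset.map_cons, Multiset.prod_cons,
      Multiset.card_cons, eval_mul, norm_mul]
    have h2 : ‖w‖ * 2⁻¹ ≤ ‖eval z (X - C w)‖ := by
      rw [eval_sub, eval_X, eval_C, norm_sub_rev]
      have h3 := norm_sub_norm_le w z
      linarith
    calc ‖w‖ * (s.map fun w => ‖w‖).prod * (2⁻¹ : ℝ) ^ (s.card + 1)
        = (‖w‖ * 2⁻¹) * ((s.map fun w => ‖w‖).prod * (2⁻¹ : ℝ) ^ s.card) := by ring
      _ ≤ _ := mul_le_mul h2 h1 (by positivity) (norm_nonneg _)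

/-- the quotient by a small root -/
lemma quot_coeff {F G : ℂ[X]} {w : ℂ} {K : ℝ} (hK : 0 ≤ K) (hFG : F = (X - C w) * G)
    (hF : ∀ j, ‖F.coeff j‖ ≤ K) (hw : ‖w‖ ≤ 1 / 2) : ∀ j, ‖G.coeff j‖ ≤ 2 * K := by
  have hrec : ∀ j, G.coeff j = F.coeff (j + 1) + w * G.coeff (j + 1) := by
    intro j
    rw [hFG, sub_mul, coeff_sub, coeff_X_mul, coeff_C_mul]
    ring
  have h1 : ∀ m j, G.natDegree < j + m → ‖G.coeff j‖ ≤ 2 * K := by
    intro m
    induction m with
    | zero =>
      intro j hj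
      rw [coeff_eq_zero_of_natDegree_lt (by simpa using hj), norm_zero]
      linarith
    | succ m ih =>
      intro j hj
      rw [hrec j]
      have h2 := ih (j + 1) (by omega)
      have h3 := hF (j + 1)
      refine (norm_add_le _ _).trans ?_
      rw [norm_mul]
      have h4 : ‖w‖ * ‖G.coeff (j + 1)‖ ≤ 1 / 2 * (2 * K) :=
        mul_le_mul hw h2 (norm_nonneg _) (by norm_num)
      linarith
  intro j
  exact h1 (G.natDegree + 1) j (by omega)

lemma one_var_pos (d : ℕ) (n : ℕ) : ∀ (c K : ℝ), 0 < c → 0 < K →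
    ∃ r0 : ℝ, 0 < r0 ∧ ∃ c' : ℝ, 0 < c' ∧ ∀ F : Polynomial ℂ, F.natDegree ≤ d →
      (∀ j, ‖F.coeff j‖ ≤ K) → c ≤ ‖F.coeff n‖ → ∃ s : Multiset ℂ, s.card ≤ n ∧
        ∀ z : ℂ, ‖z‖ ≤ r0 → c' * (s.map (fun w => ‖z - w‖)).prod ≤ ‖F.eval z‖ := by
  induction n with
  | zero =>
    intro c K hc hK
    refine ⟨min 1 (c / (2 * (d * K + 1))), lt_min one_pos (by positivity), c / 2, by linarith,
      fun F hd hF hc0 => ⟨0, by simp, fun z hz => ?_⟩⟩
    have hz1 : ‖z‖ ≤ 1 := hz.trans (min_le_left _ _)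
    have hz2 : ‖z‖ * (d * K) ≤ c / 2 := by
      have h1 : ‖z‖ ≤ c / (2 * (d * K + 1)) := hz.trans (min_le_right _ _)
      rw [le_div_iff₀ (by positivity)] at h1
      have h2 : 0 ≤ ‖z‖ := norm_nonneg z
      nlinarith
    have h1 : F.eval z = F.coeff 0 + ∑ i ∈ Finset.range d, F.coeff (i + 1) * z ^ (i + 1) := by
      rw [eval_eq_sum_range' (Nat.lt_succ_of_le hd), Finset.sum_range_succ']
      simp [add_comm]
    have h2 : ‖∑ i ∈ Finset.range d, F.coeff (i + 1) * z ^ (i + 1)‖ ≤ ‖z‖ * (d * K) := by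
      refine (norm_sum_le _ _).trans ?_
      have h3 : ∀ i ∈ Finset.range d, ‖F.coeff (i + 1) * z ^ (i + 1)‖ ≤ ‖z‖ * K := by
        intro i _
        rw [norm_mul, norm_pow, pow_succ]
        have h4 : ‖z‖ ^ i ≤ 1 := pow_le_one₀ (norm_nonneg _) hz1
        have h5 : ‖z‖ ^ i * ‖z‖ ≤ ‖z‖ := mul_le_of_le_one_left (norm_nonneg _) h4
        rw [mul_comm ‖z‖ K]
        exact mul_le_mul (hF _) h5 (by positivity) hK.le
      refine (Finset.sum_le_sum h3).trans ?_
      rw [Finset.sum_const, Finset.card_range, nsmul_eq_mul]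
      apply le_of_eq
      ring
    simp only [Multiset.map_zero, Multiset.prod_zero, mul_one]
    rw [h1]
    have h6 := norm_sub_le (F.coeff 0 + ∑ i ∈ Finset.range d, F.coeff (i + 1) * z ^ (i + 1))
      (∑ i ∈ Finset.range d, F.coeff (i + 1) * z ^ (i + 1))
    rw [add_sub_cancel_right] at h6
    linarith
  | succ n ih =>
    intro c K hc hK
    set r : ℝ := min (1 / 4) (c / (8 * K)) with hr
    have hr0 : 0 < r := lt_min (by norm_num) (by positivity)
    have hr1 : r ≤ 1 / 4 := min_le_left _ _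
    have hr2 : r * (8 * K) ≤ c := by
      have h1 : r ≤ c / (8 * K) := min_le_right _ _
      rwa [le_div_iff₀ (by positivity)] at h1
    obtain ⟨r1, hr1p, c1, hc1, h1⟩ := ih (c / 2) (2 * K) (by linarith) (by linarith)
    set c2 : ℝ := c * (2 * r) ^ (n + 1) * (4⁻¹) ^ d with hc2
    have hc2p : 0 < c2 := by positivity
    refine ⟨min r1 r, lt_min hr1p hr0, min c1 c2, lt_min hc1 hc2p, fun F hd hF hcF => ?_⟩
    have hF0 : F ≠ 0 := by
      rintro rfl
      rw [coeff_zero, norm_zero] at hcF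
      linarith
    by_cases hroot : ∃ w, F.IsRoot w ∧ ‖w‖ ≤ 2 * r
    · obtain ⟨w, hw, hwr⟩ := hroot
      obtain ⟨G, hG⟩ := dvd_iff_isRoot.2 hw
      have hG0 : G ≠ 0 := by
        rintro rfl
        rw [mul_zero] at hG
        exact hF0 hG
      have hGd : G.natDegree ≤ d := by
        have h2 : F.natDegree = 1 + G.natDegree := by
          rw [hG, natDegree_mul (X_sub_C_ne_zero w) hG0, natDegree_X_sub_C]
        omega
      have hGK := quot_coeff hK.le hG hF (by linarith)
      have hGc : c / 2 ≤ ‖G.coeff n‖ := by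
        have h3 : F.coeff (n + 1) = G.coeff n - w * G.coeff (n + 1) := by
          rw [hG, sub_mul, coeff_sub, coeff_X_mul, coeff_C_mul]
        have h4 : ‖w * G.coeff (n + 1)‖ ≤ 2 * r * (2 * K) := by
          rw [norm_mul]
          exact mul_le_mul hwr (hGK _) (norm_nonneg _) (by positivity)
        have h5 := norm_sub_le (G.coeff n) (w * G.coeff (n + 1))
        rw [← h3] at h5
        nlinarith
      obtain ⟨s, hs, hsz⟩ := h1 G hGd hGK hGc
      refine ⟨w ::ₘ s, by simpa using hs, fun z hz => ?_⟩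
      have h6 := hsz z (hz.trans (min_le_left _ _))
      have hP : 0 ≤ (s.map fun w => ‖z - w‖).prod := Multiset.prod_nonneg (by
        intro a ha
        obtain ⟨v, _, rfl⟩ := Multiset.mem_map.1 ha
        exact norm_nonneg _)
      rw [Multiset.map_cons, Multiset.prod_cons, hG, eval_mul, eval_sub, eval_X, eval_C, norm_mul]
      calc min c1 c2 * (‖z - w‖ * (s.map fun w => ‖z - w‖).prod)
          = ‖z - w‖ * (min c1 c2 * (s.map fun w => ‖z - w‖).prod) := by ring
        _ ≤ ‖z - w‖ * (c1 * (s.map fun w => ‖z - w‖).prod) := by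
            apply mul_le_mul_of_nonneg_left _ (norm_nonneg _)
            exact mul_le_mul_of_nonneg_right (min_le_left _ _) hP
        _ ≤ _ := mul_le_mul_of_nonneg_left h6 (norm_nonneg _)
    · push Not at hroot
      have hsp : F.roots.card = F.natDegree := (IsAlgClosed.splits F).natDegree_eq_card_roots.symm
      have hfac := C_leadingCoeff_mul_prod_multiset_X_sub_C hsp
      have hbig : ∀ w ∈ F.roots, 2 * r ≤ ‖w‖ := fun w hw =>
        (hroot w (isRoot_of_mem_roots hw)).le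
      refine ⟨0, by simp, fun z hz => ?_⟩
      simp only [Multiset.map_zero, Multiset.prod_zero, mul_one]
      refine (min_le_right _ _).trans ?_
      have h2 := eval_prod_ge F.roots hbig (hz.trans (min_le_right _ _))
      have h3 := coeff_prod_le (by positivity : 0 < 2 * r) F.roots hbig (n + 1)
      set Q := (F.roots.map fun w => ‖w‖).prod with hQ
      have hQ0 : 0 ≤ Q := Multiset.prod_nonneg (by
        intro a ha
        obtain ⟨v, _, rfl⟩ := Multiset.mem_map.1 ha
        exact norm_nonneg _)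
      have ha0 : 0 ≤ ‖F.leadingCoeff‖ := norm_nonneg _
      have h4 : c ≤ ‖F.leadingCoeff‖ * (Q * 2 ^ d * ((2 * r)⁻¹) ^ (n + 1)) := by
        refine hcF.trans ?_
        conv_lhs => rw [← hfac]
        rw [coeff_C_mul, norm_mul]
        apply mul_le_mul_of_nonneg_left _ ha0
        refine h3.trans ?_
        apply mul_le_mul_of_nonneg_right _ (by positivity)
        apply mul_le_mul_of_nonneg_left _ hQ0
        have h5 : F.roots.card.choose (n + 1) ≤ 2 ^ d := by
          refine (Nat.choose_le_two_pow _ _).trans ?_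
          exact Nat.pow_le_pow_right (by norm_num) (by omega)
        exact_mod_cast h5
      have h6 : (2⁻¹ : ℝ) ^ d ≤ (2⁻¹ : ℝ) ^ F.roots.card :=
        pow_le_pow_of_le_one (by norm_num) (by norm_num) (by omega)
      have h7 : ‖F.eval z‖ = ‖F.leadingCoeff‖ *
          ‖((F.roots.map fun w => (X : ℂ[X]) - C w).prod).eval z‖ := by
        conv_lhs => rw [← hfac]
        rw [eval_mul, eval_C, norm_mul]
      rw [h7]
      have h8 : ‖F.leadingCoeff‖ * (Q * (2⁻¹ : ℝ) ^ d) ≤ ‖F.leadingCoeff‖ *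
          ‖((F.roots.map fun w => (X : ℂ[X]) - C w).prod).eval z‖ := by
        apply mul_le_mul_of_nonneg_left _ ha0
        exact (mul_le_mul_of_nonneg_left h6 hQ0).trans h2
      refine le_trans ?_ h8
      rw [hc2]
      have h9 : c * (2 * r) ^ (n + 1) ≤ ‖F.leadingCoeff‖ * (Q * 2 ^ d) := by
        have h10 : ‖F.leadingCoeff‖ * (Q * 2 ^ d * ((2 * r)⁻¹) ^ (n + 1)) * (2 * r) ^ (n + 1) =
            ‖F.leadingCoeff‖ * (Q * 2 ^ d) := by
          rw [inv_pow]
          field_simp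
        rw [← h10]
        exact mul_le_mul_of_nonneg_right h4 (by positivity)
      calc c * (2 * r) ^ (n + 1) * (4⁻¹) ^ d ≤ ‖F.leadingCoeff‖ * (Q * 2 ^ d) * (4⁻¹) ^ d :=
            mul_le_mul_of_nonneg_right h9 (by positivity)
        _ = ‖F.leadingCoeff‖ * (Q * (2⁻¹ : ℝ) ^ d) := by
            have : (2 : ℝ) ^ d * (4⁻¹) ^ d = (2⁻¹) ^ d := by
              rw [← mul_pow]
              norm_num
            rw [← this]
            ring

end OneVarA

theorem one_var (n d : ℕ) (c K : ℝ) (hc : 0 < c) :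
    ∃ r0 : ℝ, 0 < r0 ∧ ∃ c' : ℝ, 0 < c' ∧ ∀ F : Polynomial ℂ, F.natDegree ≤ d →
      (∀ j, ‖F.coeff j‖ ≤ K) → c ≤ ‖F.coeff n‖ → ∃ s : Multiset ℂ, s.card ≤ n ∧
        ∀ z : ℂ, ‖z‖ ≤ r0 → c' * (s.map (fun w => ‖z - w‖)).prod ≤ ‖F.eval z‖ := by
  obtain ⟨r0, hr0, c', hc', h⟩ := OneVarA.one_var_pos d n c (max K 1) hc
    (lt_of_lt_of_le one_pos (le_max_right _ _))
  exact ⟨r0, hr0, c', hc', fun F hd hF hcF =>
    h F hd (fun j => (hF j).trans (le_max_left _ _)) hcF⟩

end FV
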