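import Pool.Agent.Lib.MP_9e8926_ag_FV.Ini
import Pool.Agent.Lib.MP_9e8926_ag_FV.Cnt

/-!
# Isotropic ideals
-/

set_option autoImplicit false

noncomputable section

namespace FV

open MvPolynomial

private def pb_mo (a : ℕ × ℕ) : Fin 2 →₀ ℕ := Finsupp.single 0 a.1 + Finsupp.single 1 a.2

private lemma pb_mo_zero (a : ℕ × ℕ) : pb_mo a 0 = a.1 := by simp [pb_mo]

private lemma pb_mo_one (a : ℕ × ℕ) : pb_mo a 1 = a.2 := by simp [pb_mo]

private lemma pb_mo_inj : Function.Injective pb_mo := by
  intro a b h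
  have h0 := DFunLike.congr_fun h 0
  have h1 := DFunLike.congr_fun h 1
  rw [pb_mo_zero, pb_mo_zero] at h0
  rw [pb_mo_one, pb_mo_one] at h1
  exact Prod.ext h0 h1

private lemma pb_wt_mo (α β : ℕ) (a : ℕ × ℕ) : wt α β (pb_mo a) = α * a.1 + β * a.2 := by
  rw [wt, pb_mo_zero, pb_mo_one]

private lemma pb_fin2_ext {m n : Fin 2 →₀ ℕ} (h0 : m 0 = n 0) (h1 : m 1 = n 1) : m = n := by
  ext i
  fin_cases i
  · exact h0
  · exact h1

variable {k : Type*} [Field k] {α β q : ℕ}

private lemma pb_coeff_eq_zero (hq : 1 ≤ q) {z : P2 k} (hz : z ∈ J k q) :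
    coeff (pb_mo (q - 1, q - 1)) z = 0 := by
  by_contra hcon
  have h := mem_J.1 hz _ (mem_support_iff.2 hcon)
  rw [pb_mo_zero, pb_mo_one] at h
  simp only at h
  omega

private lemma pb_sep {x : P2 k} (hx : x ∉ J k q) :
    ∃ g : P2 k, coeff (pb_mo (q - 1, q - 1)) (x * g) ≠ 0 := by
  rw [mem_J] at hx
  push Not at hx
  obtain ⟨m, hm, h0, h1⟩ := hx
  refine ⟨monomial (pb_mo (q - 1 - m 0, q - 1 - m 1)) 1, ?_⟩
  have e : pb_mo (q - 1, q - 1) = m + pb_mo (q - 1 - m 0, q - 1 - m 1) := by
    apply pb_fin2_ext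
    · rw [Finsupp.add_apply, pb_mo_zero, pb_mo_zero]
      simp only
      omega
    · rw [Finsupp.add_apply, pb_mo_one, pb_mo_one]
      simp only
      omega
  rw [e, coeff_mul_monomial, mul_one]
  exact mem_support_iff.1 hm

private lemma pb_homog_ge {j : ℕ} {f : P2 k} (hf : Homog α β j f) : Ge α β j f :=
  fun m hm => (hf m hm).ge

private lemma pb_coeff_ge {j : ℕ} {f : P2 k} (hf : Ge α β j f) (n : Fin 2 →₀ ℕ)
    (hn : wt α β n < j) : coeff n f = 0 := by
  by_contra hcon
  have := hf n (mem_support_iff.2 hcon)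
  omega

private lemma pb_coeff_homog {j : ℕ} {f : P2 k} (hf : Homog α β j f) (n : Fin 2 →₀ ℕ)
    (hn : wt α β n ≠ j) : coeff n f = 0 := by
  by_contra hcon
  exact hn (hf n (mem_support_iff.2 hcon))

private lemma pb_homog_mono (a : ℕ × ℕ) :
    Homog α β (α * a.1 + β * a.2) (monomial (pb_mo a) 1 : P2 k) := by
  intro m hm
  have h := support_monomial_subset hm
  rw [Finset.mem_singleton] at h
  rw [h, pb_wt_mo]

/-- the part of weight `j` -/
private def pb_part (α β j : ℕ) (f : P2 k) : P2 k :=
  ∑ m ∈ f.support.filter (fun m => wt α β m = j), monomial m (coeff m f)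

private lemma pb_coeff_part (α β j : ℕ) (f : P2 k) (n : Fin 2 →₀ ℕ) :
    coeff n (pb_part α β j f) = if wt α β n = j then coeff n f else 0 := by
  classical
  unfold pb_part
  rw [coeff_sum]
  simp only [coeff_monomial]
  rw [Finset.sum_ite_eq']
  simp only [Finset.mem_filter, mem_support_iff]
  by_cases h1 : wt α β n = j
  · by_cases h2 : coeff n f = 0
    · simp [h2]
    · simp [h1, h2]
  · simp [h1]

private lemma pb_part_homog (α β j : ℕ) (f : P2 k) : Homog α β j (pb_part α β j f) := by
  intro n hn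
  by_contra hcon
  rw [mem_support_iff, pb_coeff_part, if_neg hcon] at hn
  exact hn rfl

private lemma pb_coeff_mul_part {i j : ℕ} {x : P2 k} (hx : Homog α β i x) (y : P2 k)
    (n : Fin 2 →₀ ℕ) (hn : wt α β n = i + j) :
    coeff n (x * pb_part α β j y) = coeff n (x * y) := by
  classical
  rw [coeff_mul, coeff_mul]
  refine Finset.sum_congr rfl ?_
  rintro ⟨a, b⟩ hab
  rw [Finset.HasAntidiagonal.mem_antidiagonal] at hab
  simp only at hab ⊢
  by_cases ha : wt α β a = i
  · rw [pb_coeff_part, if_pos]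
    have h1 := wt_add (α := α) (β := β) a b
    rw [hab] at h1
    omega
  · rw [pb_coeff_homog hx a ha, zero_mul, zero_mul]

/-- the dual elements -/
private lemma pb_dual (hα : 1 ≤ α) (hβ : 1 ≤ β) (H : P2 k) (W : ℕ)
    (hG : Gap α β q (W : ℝ) H) (a : {x // x ∈ E α β W}) :
    ∃ G : P2 k, ∀ b : {x // x ∈ E α β W},
      coeff (pb_mo (q - 1, q - 1)) (H * monomial (pb_mo b.1) 1 * G) = if b = a then 1 else 0 := by
  classical
  let lam : P2 k →ₗ[k] k :=
    { toFun := fun f => coeff (pb_mo (q - 1, q - 1)) f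
      map_add' := fun f g => coeff_add _ f g
      map_smul' := fun c f => coeff_smul _ c f }
  let Φ : P2 k →ₗ[k] ({x // x ∈ E α β W} → k) :=
    LinearMap.pi fun b => lam ∘ₗ LinearMap.mulLeft k (H * monomial (pb_mo b.1) 1)
  have hΦ : LinearMap.range Φ = ⊤ := by
    by_contra hne
    obtain ⟨f, hf0, hf⟩ := Submodule.exists_le_ker_of_lt_top _ (lt_top_iff_ne_top.2 hne)
    set c : {x // x ∈ E α β W} → k := fun b => f (fun j => if b = j then 1 else 0) with hc
    have hfc : ∀ v, f v = ∑ b, v b * c b := fun v => by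
      rw [LinearMap.pi_apply_eq_sum_univ f v]
      rfl
    set u : P2 k := ∑ b : {x // x ∈ E α β W}, C (c b) * monomial (pb_mo b.1) 1 with hu
    have h1 : ∀ g : P2 k, coeff (pb_mo (q - 1, q - 1)) (u * H * g) = 0 := by
      intro g
      have h2 : f (Φ g) = 0 := by
        have h3 := hf (LinearMap.mem_range_self Φ g)
        rwa [LinearMap.mem_ker] at h3
      rw [hfc] at h2
      rw [hu, Finset.sum_mul, Finset.sum_mul, coeff_sum, ← h2]
      refine Finset.sum_congr rfl fun b _ => ?_
      have e : C (c b) * monomial (pb_mo b.1) 1 * H * g =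
          C (c b) * (H * monomial (pb_mo b.1) 1 * g) := by ring
      rw [e, coeff_C_mul, mul_comm]
      rfl
    have h2 : u * H ∈ J k q := by
      by_contra hcon
      obtain ⟨g, hg⟩ := pb_sep hcon
      exact hg (h1 g)
    have h3 : ∀ b, coeff (pb_mo b.1) u = c b := by
      intro b
      rw [hu, coeff_sum]
      have e : ∀ x : {x // x ∈ E α β W}, coeff (pb_mo b.1) (C (c x) * monomial (pb_mo x.1) 1) =
          if x = b then c x else 0 := by
        intro x
        rw [coeff_C_mul, coeff_monomial]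
        by_cases hxb : x = b
        · subst hxb; simp
        · have : pb_mo x.1 ≠ pb_mo b.1 := fun h => hxb (Subtype.ext (pb_mo_inj h))
          rw [if_neg this, if_neg hxb, mul_zero]
      rw [Finset.sum_congr rfl fun x _ => e x, Finset.sum_ite_eq']
      simp
    have h4 : ∀ b, c b = 0 := by
      intro b
      by_contra hcon
      rw [← h3 b] at hcon
      have h5 := hG u h2 _ (mem_support_iff.2 hcon)
      rw [Nat.cast_le, pb_wt_mo] at h5
      have h6 := (mem_E hα hβ b.1).1 b.2
      omega
    apply hf0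
    refine LinearMap.ext fun v => ?_
    rw [hfc, LinearMap.zero_apply]
    exact Finset.sum_eq_zero fun b _ => by rw [h4 b, mul_zero]
  obtain ⟨G, hG'⟩ := LinearMap.range_eq_top.1 hΦ (fun b => if b = a then 1 else 0)
  refine ⟨G, fun b => ?_⟩
  exact congrFun hG' b

theorem pair_bound {k : Type*} [Field k] {α β q : ℕ} (hα : 1 ≤ α) (hβ : 1 ≤ β) (hq : 1 ≤ q)
    (F H : P2 k) (h W : ℕ) (hI : IsInit α β F h H) (hG : Gap α β q (W : ℝ) H)
    (hW : 2 * W + h ≤ (α + β) * (q - 1)) (b : Ideal (P2 k)) [Module.Finite k (P2 k ⧸ b)]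
    (hb : ∀ x ∈ b, ∀ y ∈ b, F * x * y ∈ J k q) :
    (E α β W).card ≤ Module.finrank k (P2 k ⧸ b) := by
  classical
  obtain ⟨s, hs⟩ : ∃ s, s + h = (α + β) * (q - 1) := ⟨(α + β) * (q - 1) - h, by omega⟩
  have hsW : 2 * W ≤ s := by omega
  have hT : wt α β (pb_mo (q - 1, q - 1)) = s + h := by
    rw [pb_wt_mo, hs]
    ring
  have hEW : ∀ a : {x // x ∈ E α β W}, α * a.1.1 + β * a.1.2 < W := fun a =>
    (mem_E hα hβ a.1).1 a.2
  have hHom : Homog α β h H := hI.2.1
  have hGe : Ge α β (h + 1) (F - H) := hI.2.2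
  choose G0 hG0 using pb_dual hα hβ H W hG
  set G : {x // x ∈ E α β W} → P2 k :=
    fun a => pb_part α β (s - (α * a.1.1 + β * a.1.2)) (G0 a) with hGdef
  have hGhom : ∀ a, Homog α β (s - (α * a.1.1 + β * a.1.2)) (G a) := fun a =>
    pb_part_homog _ _ _ _
  have hGd : ∀ a c : {x // x ∈ E α β W},
      coeff (pb_mo (q - 1, q - 1)) (H * monomial (pb_mo c.1) 1 * G a) =
        if c = a then 1 else 0 := by
    intro a c
    have ha := hEW a
    have hc := hEW c
    by_cases hw : α * c.1.1 + β * c.1.2 = α * a.1.1 + β * a.1.2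
    · rw [← hG0 a c, hGdef]
      refine pb_coeff_mul_part (hHom.mul (pb_homog_mono c.1)) _ _ ?_
      rw [hT]
      omega
    · have hne : c ≠ a := fun hca => hw (by rw [hca])
      rw [if_neg hne]
      refine pb_coeff_homog ((hHom.mul (pb_homog_mono c.1)).mul (hGhom a)) _ ?_
      rw [hT]
      omega
  -- the family of `2 |E|` elements
  let ι := {x // x ∈ E α β W} ⊕ {x // x ∈ E α β W}
  let z : ι → P2 k := Sum.elim (fun a => monomial (pb_mo a.1) 1) G
  let z' : ι → P2 k := Sum.elim G (fun a => monomial (pb_mo a.1) 1)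
  let w : ι → ℕ := Sum.elim (fun a => α * a.1.1 + β * a.1.2)
    (fun a => s - (α * a.1.1 + β * a.1.2))
  have hws : ∀ i, w i ≤ s := by
    rintro (a | a)
    · have := hEW a
      simp only [w, Sum.elim_inl]
      omega
    · simp only [w, Sum.elim_inr]
      omega
  have hz : ∀ i, Homog α β (w i) (z i) := by
    rintro (a | a)
    · exact pb_homog_mono a.1
    · exact hGhom a
  have hz' : ∀ i, Homog α β (s - w i) (z' i) := by
    rintro (a | a)
    · exact hGhom a
    · have := hEW a
      have e : s - w (Sum.inr a) = α * a.1.1 + β * a.1.2 := by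
        simp only [w, Sum.elim_inr]
        omega
      rw [e]
      exact pb_homog_mono a.1
  have hgram1 : ∀ i j, w j < w i → coeff (pb_mo (q - 1, q - 1)) (F * z i * z' j) = 0 := by
    intro i j hij
    refine pb_coeff_ge ((hI.ge.mul (pb_homog_ge (hz i))).mul (pb_homog_ge (hz' j))) _ ?_
    have := hws i
    have := hws j
    rw [hT]
    omega
  have hgram2 : ∀ i j, w i = w j → coeff (pb_mo (q - 1, q - 1)) (F * z i * z' j) =
      if i = j then 1 else 0 := by
    intro i j hij
    have e : F * z i * z' j = (F - H) * z i * z' j + H * z i * z' j := by ring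
    have e1 : coeff (pb_mo (q - 1, q - 1)) ((F - H) * z i * z' j) = 0 := by
      refine pb_coeff_ge ((hGe.mul (pb_homog_ge (hz i))).mul (pb_homog_ge (hz' j))) _ ?_
      have := hws i
      have := hws j
      rw [hT]
      omega
    rw [e, coeff_add, e1, zero_add]
    rcases i with a | a <;> rcases j with c | c
    · have h1 := hGd c a
      simp only [z, z', Sum.elim_inl]
      rw [h1]
      by_cases hac : a = c
      · rw [if_pos hac, if_pos (congrArg Sum.inl hac)]
      · rw [if_neg hac, if_neg fun h' => hac (Sum.inl_injective h')]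
    · exfalso
      have := hEW a
      have := hEW c
      simp only [w, Sum.elim_inl, Sum.elim_inr] at hij
      omega
    · exfalso
      have := hEW a
      have := hEW c
      simp only [w, Sum.elim_inl, Sum.elim_inr] at hij
      omega
    · have h1 := hGd a c
      simp only [z, z', Sum.elim_inr]
      have e2 : H * G a * monomial (pb_mo c.1) 1 = H * monomial (pb_mo c.1) 1 * G a := by ring
      rw [e2, h1]
      by_cases hac : c = a
      · rw [if_pos hac, if_pos (congrArg Sum.inr hac.symm)]
      · rw [if_neg hac, if_neg fun h' => hac (Sum.inr_injective h').symm]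
  let lam : P2 k →ₗ[k] k :=
    { toFun := fun f => coeff (pb_mo (q - 1, q - 1)) f
      map_add' := fun f g => coeff_add _ f g
      map_smul' := fun c f => coeff_smul _ c f }
  let BF : P2 k →ₗ[k] Module.Dual k (P2 k) :=
    ((LinearMap.mul k (P2 k)).compr₂ lam) ∘ₗ (LinearMap.mulLeft k F)
  have hBF : ∀ x y, BF x y = coeff (pb_mo (q - 1, q - 1)) (F * x * y) := fun x y => rfl
  let T : (ι → k) →ₗ[k] P2 k := Fintype.linearCombination k z
  have hTc : ∀ c : ι → k, T c = ∑ i, c i • z i := fun c => Fintype.linearCombination_apply k z c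
  have hinj : ∀ c : ι → k, BF (T c) = 0 → c = 0 := by
    intro c hc
    by_contra hne
    have hne2 : (Finset.univ.filter fun i => c i ≠ 0).Nonempty := by
      by_contra hcon
      rw [Finset.not_nonempty_iff_eq_empty, Finset.filter_eq_empty_iff] at hcon
      apply hne
      funext i
      by_contra h1
      exact hcon (Finset.mem_univ i) h1
    obtain ⟨j, hj, hmin⟩ := Finset.exists_min_image _ w hne2
    rw [Finset.mem_filter] at hj
    have h1 : BF (T c) (z' j) = 0 := by rw [hc]; rfl
    rw [hTc, map_sum, LinearMap.sum_apply] at h1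
    have h2 : ∀ i, (BF (c i • z i)) (z' j) = if i = j then c j else 0 := by
      intro i
      rw [map_smul, LinearMap.smul_apply, smul_eq_mul, hBF]
      by_cases hci : c i = 0
      · rw [hci, zero_mul]
        by_cases hij : i = j
        · rw [if_pos hij, ← hij, hci]
        · rw [if_neg hij]
      · have h3 := hmin i (by rw [Finset.mem_filter]; exact ⟨Finset.mem_univ i, hci⟩)
        rcases h3.eq_or_lt with h4 | h4
        · rw [hgram2 i j h4.symm]
          by_cases hij : i = j
          · rw [if_pos hij, if_pos hij, mul_one, hij]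
          · rw [if_neg hij, if_neg hij, mul_zero]
        · rw [hgram1 i j h4, mul_zero]
          by_cases hij : i = j
          · rw [hij] at h4
            exact absurd h4 (lt_irrefl _)
          · rw [if_neg hij]
    rw [Finset.sum_congr rfl fun i _ => h2 i, Finset.sum_ite_eq'] at h1
    simp only [Finset.mem_univ, if_true] at h1
    exact hj.2 h1
  let π : P2 k →ₗ[k] (P2 k ⧸ b) := (Ideal.Quotient.mkₐ k b).toLinearMap
  have hπ : Function.Surjective π := Ideal.Quotient.mk_surjective
  have hker : ∀ x, π x = 0 ↔ x ∈ b := fun x => Ideal.Quotient.eq_zero_iff_mem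
  let K := LinearMap.ker (π ∘ₗ T)
  have hd1 := LinearMap.finrank_range_add_finrank_ker (π ∘ₗ T)
  have hd2 : Module.finrank k (LinearMap.range (π ∘ₗ T)) ≤ Module.finrank k (P2 k ⧸ b) :=
    Submodule.finrank_le _
  have hd3 : Module.finrank k (ι → k) = 2 * (E α β W).card := by
    rw [Module.finrank_fintype_fun_eq_card, Fintype.card_sum, Fintype.card_coe]
    ring
  let S : K →ₗ[k] Module.Dual k (P2 k) := BF ∘ₗ T ∘ₗ K.subtype
  have hS : Function.Injective S := by
    rw [← LinearMap.ker_eq_bot, LinearMap.ker_eq_bot']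
    intro c hc
    exact Subtype.ext (hinj c.1 hc)
  have hle : LinearMap.range S ≤ LinearMap.range π.dualMap := by
    rw [LinearMap.range_dualMap_eq_dualAnnihilator_ker_of_surjective π hπ]
    rintro _ ⟨c, rfl⟩
    rw [Submodule.mem_dualAnnihilator]
    intro y hy
    rw [LinearMap.mem_ker, hker] at hy
    have hc : T c.1 ∈ b := (hker _).1 c.2
    exact pb_coeff_eq_zero hq (hb _ hc _ hy)
  have hd4 : Module.finrank k K ≤ Module.finrank k (P2 k ⧸ b) := by
    calc Module.finrank k K = Module.finrank k (LinearMap.range S) :=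
          (LinearMap.finrank_range_of_inj hS).symm
      _ ≤ Module.finrank k (LinearMap.range π.dualMap) := Submodule.finrank_mono hle
      _ ≤ Module.finrank k (Module.Dual k (P2 k ⧸ b)) := LinearMap.finrank_range_le _
      _ = Module.finrank k (P2 k ⧸ b) := Subspace.dual_finrank_eq
  have hd5 : Module.finrank k K = Module.finrank k (LinearMap.ker (π ∘ₗ T)) := rfl
  omega

end FV
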