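import Pool.Agent.Lib.MP_9e8926_ag_FV.Rey

/-!
# The polynomial ring as a module over the ring of invariants
-/

set_option autoImplicit false

noncomputable section

namespace FV

open MvPolynomial

variable {k : Type*} [Field k] (G : Subgroup (GL (Fin 2) k))

private theorem Rank_lin_lin (M N : Matrix (Fin 2) (Fin 2) k) (f : P2 k) :
    lin M (lin N f) = lin (N * M) f := by
  rw [← lin_comp, AlgHom.comp_apply]

private theorem Rank_lin_X (M : Matrix (Fin 2) (Fin 2) k) (i j : Fin 2) :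
    (lin M (X i)).coeff (Finsupp.single j 1) = M i j := by
  unfold lin
  rw [aeval_X, Fin.sum_univ_two, coeff_add, coeff_C_mul, coeff_C_mul, coeff_X, coeff_X]
  have h : ∀ a b : Fin 2, (Finsupp.single a 1 = (Finsupp.single b 1 : Fin 2 →₀ ℕ)) ↔ a = b :=
    fun a b => Finsupp.single_left_inj one_ne_zero
  simp only [h]
  fin_cases j <;> simp

private theorem Rank_det_zero (A B : Matrix (Fin 2) (Fin 2) k) (h0 : A 0 0 = B 0 0)
    (h1 : A 0 1 = B 0 1) : (A - B).det = 0 := by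
  rw [Matrix.det_fin_two, Matrix.sub_apply, Matrix.sub_apply, Matrix.sub_apply, Matrix.sub_apply,
    h0, h1]
  ring

private theorem Rank_inj
    (hG : ∀ σ ∈ G, σ ≠ 1 → ((σ : Matrix (Fin 2) (Fin 2) k) - 1).det ≠ 0)
    (σ τ : GL (Fin 2) k) (hσ : σ ∈ G) (hτ : τ ∈ G)
    (h : lin (σ : Matrix (Fin 2) (Fin 2) k) (X 0) = lin (τ : Matrix (Fin 2) (Fin 2) k) (X 0)) :
    σ = τ := by
  by_contra hne
  have h1 : σ * τ⁻¹ ≠ 1 := fun h => hne (mul_inv_eq_one.1 h)
  have h2 := hG (σ * τ⁻¹) (G.mul_mem hσ (G.inv_mem hτ)) h1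
  apply h2
  have h3 : (((σ * τ⁻¹ : GL (Fin 2) k) : Matrix (Fin 2) (Fin 2) k) - 1) *
      (τ : Matrix (Fin 2) (Fin 2) k) =
      (σ : Matrix (Fin 2) (Fin 2) k) - (τ : Matrix (Fin 2) (Fin 2) k) := by
    rw [sub_mul, one_mul, ← Units.val_mul, inv_mul_cancel_right]
  have h4 : ((σ : Matrix (Fin 2) (Fin 2) k) - (τ : Matrix (Fin 2) (Fin 2) k)).det = 0 := by
    have hc : ∀ j : Fin 2, (σ : Matrix (Fin 2) (Fin 2) k) 0 j =
        (τ : Matrix (Fin 2) (Fin 2) k) 0 j := by
      intro j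
      have h6 := congrArg (coeff (Finsupp.single j 1)) h
      rwa [Rank_lin_X, Rank_lin_X] at h6
    exact Rank_det_zero _ _ (hc 0) (hc 1)
  rw [← h3, Matrix.det_mul] at h4
  have h5 : (τ : Matrix (Fin 2) (Fin 2) k).det ≠ 0 := by
    have := (Matrix.isUnit_iff_isUnit_det _).1 τ.isUnit
    exact this.ne_zero
  exact (mul_eq_zero.1 h4).resolve_right h5

/-- The images of `x` under the group are distinct; Vandermonde. -/
theorem vander [Finite G] (hG : ∀ σ ∈ G, σ ≠ 1 → ((σ : Matrix (Fin 2) (Fin 2) k) - 1).det ≠ 0)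
    (t : Fin (Nat.card G) → P2 k)
    (h : ∀ σ ∈ G, ∑ j, t j * (lin (σ : Matrix (Fin 2) (Fin 2) k) (X 0)) ^ (j : ℕ) = 0) :
    t = 0 := by
  classical
  let e : Fin (Nat.card G) ≃ G := (Finite.equivFin G).symm
  let v : Fin (Nat.card G) → P2 k :=
    fun i => lin (((e i : G) : GL (Fin 2) k) : Matrix (Fin 2) (Fin 2) k) (X 0)
  have hv : Function.Injective v := by
    intro i j hij
    apply e.injective
    apply Subtype.ext
    exact Rank_inj G hG _ _ (e i).2 (e j).2 hij
  have hd : (Matrix.vandermonde v).det ≠ 0 := Matrix.det_vandermonde_ne_zero_iff.2 hv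
  apply Matrix.eq_zero_of_mulVec_eq_zero hd
  funext i
  have h1 := h _ (e i).2
  rw [Pi.zero_apply, ← h1]
  simp only [Matrix.mulVec, dotProduct, Matrix.vandermonde_apply]
  exact Finset.sum_congr rfl fun j _ => mul_comm _ _

/-- Cramer's rule: a non-zero invariant `D` with `D · k[x,y] ⊆ ∑ R x^j`. -/
theorem exists_cramer [Finite G]
    (hG : ∀ σ ∈ G, σ ≠ 1 → ((σ : Matrix (Fin 2) (Fin 2) k) - 1).det ≠ 0) :
    ∃ D : Inv G, D ≠ 0 ∧
      (∀ s : P2 k, ∃ a : Fin (Nat.card G) → Inv G,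
        (D : P2 k) * s = ∑ j, (a j : P2 k) * X 0 ^ (j : ℕ)) ∧
      (∀ b : Fin (Nat.card G) → Inv G, ∃ a : Fin (Nat.card G) → Inv G, ∀ j : Fin (Nat.card G),
        ∑ᶠ σ : G, lin ((σ : GL (Fin 2) k) : Matrix (Fin 2) (Fin 2) k)
          (X 0 ^ (j : ℕ) * ∑ l, (a l : P2 k) * X 0 ^ (l : ℕ)) = (D : P2 k) * (b j : P2 k)) := by
  classical
  let _ : Fintype G := Fintype.ofFinite G
  let e : Fin (Nat.card G) ≃ G := (Finite.equivFin G).symm
  let L : G → P2 k →ₐ[k] P2 k :=
    fun σ => lin ((σ : GL (Fin 2) k) : Matrix (Fin 2) (Fin 2) k)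
  have hLL : ∀ (σ τ : G) (f : P2 k), L τ (L σ f) = L (σ * τ) f := by
    intro σ τ f
    exact Rank_lin_lin _ _ _
  have hL1 : ∀ f : P2 k, L 1 f = f := by
    intro f
    have h1 : L 1 = AlgHom.id k (P2 k) := by
      have : L 1 = lin (1 : Matrix (Fin 2) (Fin 2) k) := rfl
      rw [this, lin_one]
    rw [h1, AlgHom.id_apply]
  have hLinv : ∀ (σ : G) (a : Inv G), L σ (a : P2 k) = a := fun σ a => a.2 σ σ.2
  let v : Fin (Nat.card G) → P2 k := fun i => L (e i) (X 0)
  have hv : Function.Injective v := by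
    intro i j hij
    apply e.injective
    apply Subtype.ext
    exact Rank_inj G hG _ _ (e i).2 (e j).2 hij
  let M : Matrix (Fin (Nat.card G)) (Fin (Nat.card G)) (P2 k) := Matrix.vandermonde v
  have hd : M.det ≠ 0 := Matrix.det_vandermonde_ne_zero_iff.2 hv
  let perm : G → Equiv.Perm (Fin (Nat.card G)) :=
    fun τ => (e.trans (Equiv.mulRight τ)).trans e.symm
  have hperm : ∀ (τ : G) (i : Fin (Nat.card G)) (f : P2 k),
      L τ (L (e i) f) = L (e (perm τ i)) f := by
    intro τ i f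
    rw [hLL]
    simp [perm]
  -- matrices whose rows are permuted
  have key : ∀ (A : Matrix (Fin (Nat.card G)) (Fin (Nat.card G)) (P2 k)),
      (∀ (τ : G) i j, L τ (A i j) = A (perm τ i) j) →
      ∀ τ : G, L τ A.det = ((Equiv.Perm.sign (perm τ) : ℤ) : P2 k) * A.det := by
    intro A hA τ
    have h1 : L τ A.det = (A.map (L τ)).det := by
      rw [AlgHom.map_det]
      rfl
    have h2 : A.map (L τ) = A.submatrix (perm τ) id := by
      ext i j : 1
      rw [Matrix.map_apply, Matrix.submatrix_apply, hA, id]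
    rw [h1, h2, Matrix.det_permute]
  have key2 : ∀ (A B : Matrix (Fin (Nat.card G)) (Fin (Nat.card G)) (P2 k)),
      (∀ (τ : G) i j, L τ (A i j) = A (perm τ i) j) →
      (∀ (τ : G) i j, L τ (B i j) = B (perm τ i) j) → A.det * B.det ∈ Inv G := by
    intro A B hA hB τ hτ
    change L ⟨τ, hτ⟩ _ = _
    rw [map_mul, key A hA, key B hB]
    have h1 : ((Equiv.Perm.sign (perm ⟨τ, hτ⟩) : ℤ) : P2 k) *
        ((Equiv.Perm.sign (perm ⟨τ, hτ⟩) : ℤ) : P2 k) = 1 := by
      rw [← Int.cast_mul, ← Units.val_mul, Int.units_mul_self, Units.val_one, Int.cast_one]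
    calc ((Equiv.Perm.sign (perm ⟨τ, hτ⟩) : ℤ) : P2 k) * A.det *
          (((Equiv.Perm.sign (perm ⟨τ, hτ⟩) : ℤ) : P2 k) * B.det) =
          (((Equiv.Perm.sign (perm ⟨τ, hτ⟩) : ℤ) : P2 k) *
            ((Equiv.Perm.sign (perm ⟨τ, hτ⟩) : ℤ) : P2 k)) * (A.det * B.det) := by ring
      _ = A.det * B.det := by rw [h1, one_mul]
  have hM : ∀ (τ : G) i j, L τ (M i j) = M (perm τ i) j := by
    intro τ i j
    change L τ (v i ^ (j : ℕ)) = v (perm τ i) ^ (j : ℕ)
    have h1 : L τ (v i) = v (perm τ i) := hperm τ i (X 0)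
    rw [map_pow, h1]
  let D : Inv G := ⟨M.det * M.det, key2 M M hM hM⟩
  refine ⟨D, ?_, ?_, ?_⟩
  · intro h
    have h1 : M.det * M.det = 0 := congrArg Subtype.val h
    exact hd (mul_self_eq_zero.1 h1)
  · intro s
    let b : Fin (Nat.card G) → P2 k := fun i => L (e i) s
    have hN : ∀ (l : Fin (Nat.card G)) (τ : G) i j,
        L τ ((M.updateCol l b) i j) = (M.updateCol l b) (perm τ i) j := by
      intro l τ i j
      rw [Matrix.updateCol_apply, Matrix.updateCol_apply]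
      split_ifs with hjl
      · exact hperm τ i s
      · exact hM τ i j
    refine ⟨fun j => ⟨M.det * (M.updateCol j b).det, key2 M _ hM (hN j)⟩, ?_⟩
    have h1 := congrFun (Matrix.mulVec_cramer M b) (e.symm 1)
    rw [Pi.smul_apply, smul_eq_mul] at h1
    have h2 : b (e.symm 1) = s := by
      change L (e (e.symm 1)) s = s
      rw [Equiv.apply_symm_apply, hL1]
    have h3 : ∀ j, M (e.symm 1) j = X 0 ^ (j : ℕ) := by
      intro j
      change (L (e (e.symm 1)) (X 0)) ^ (j : ℕ) = _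
      rw [Equiv.apply_symm_apply, hL1]
    rw [h2] at h1
    change M.det * M.det * s = _
    rw [mul_assoc, ← h1]
    simp only [Matrix.mulVec, dotProduct, h3, Matrix.cramer_apply]
    rw [Finset.mul_sum]
    refine Finset.sum_congr rfl fun j _ => ?_
    ring
  · intro b
    have hNinv : ∀ j l : Fin (Nat.card G),
        (∑ i, v i ^ (j : ℕ) * v i ^ (l : ℕ)) ∈ Inv G := by
      intro j l τ hτ
      change L ⟨τ, hτ⟩ _ = _
      rw [map_sum]
      refine Fintype.sum_equiv (perm ⟨τ, hτ⟩) _ _ fun i => ?_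
      rw [map_mul, map_pow, map_pow]
      have h1 : L ⟨τ, hτ⟩ (v i) = v (perm ⟨τ, hτ⟩ i) := hperm _ i (X 0)
      rw [h1]
    let N : Matrix (Fin (Nat.card G)) (Fin (Nat.card G)) (Inv G) :=
      Matrix.of fun j l => ⟨∑ i, v i ^ (j : ℕ) * v i ^ (l : ℕ), hNinv j l⟩
    have hN1 : N.map (Inv G).val = M.transpose * M := by
      ext j l : 1
      rw [Matrix.map_apply, Matrix.mul_apply]
      rfl
    have hN2 : N.det = D := by
      apply Subtype.ext
      change (Inv G).val N.det = M.det * M.det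
      rw [AlgHom.map_det]
      change (N.map (Inv G).val).det = _
      rw [hN1, Matrix.det_mul, Matrix.det_transpose]
    have hN3 : N.mulVec (N.adjugate.mulVec b) = D • b := by
      rw [Matrix.mulVec_mulVec, Matrix.mul_adjugate, hN2, Matrix.smul_mulVec, Matrix.one_mulVec]
    refine ⟨N.adjugate.mulVec b, fun j => ?_⟩
    have h4 := congrArg (Subtype.val) (congrFun hN3 j)
    rw [Pi.smul_apply, smul_eq_mul, Subalgebra.coe_mul] at h4
    rw [← h4, finsum_eq_sum_of_fintype]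
    rw [← Equiv.sum_comp e]
    have h5 : ∀ i : Fin (Nat.card G),
        lin (((e i : G) : GL (Fin 2) k) : Matrix (Fin 2) (Fin 2) k)
          (X 0 ^ (j : ℕ) * ∑ l : Fin (Nat.card G),
            ((N.adjugate.mulVec b) l : P2 k) * X 0 ^ (l : ℕ)) =
        ∑ l : Fin (Nat.card G), (v i ^ (j : ℕ) * v i ^ (l : ℕ)) * ((N.adjugate.mulVec b) l : P2 k) := by
      intro i
      change L (e i) _ = _
      rw [map_mul, map_pow, map_sum, Finset.mul_sum]
      refine Finset.sum_congr rfl fun l _ => ?_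
      rw [map_mul, map_pow, hLinv]
      change v i ^ (j : ℕ) * (_ * v i ^ (l : ℕ)) = _
      ring
    simp only [h5]
    rw [Finset.sum_comm]
    have h6 : (((N.mulVec (N.adjugate.mulVec b)) j : Inv G) : P2 k) =
        ∑ l : Fin (Nat.card G), (∑ i, v i ^ (j : ℕ) * v i ^ (l : ℕ)) * ((N.adjugate.mulVec b) l : P2 k) := by
      change (Inv G).val _ = _
      simp only [Matrix.mulVec, dotProduct]
      rw [map_sum]
      rfl
    rw [h6]
    refine Finset.sum_congr rfl fun l _ => ?_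
    rw [Finset.sum_mul]

end FV
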