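import Pool.Agent.Lib.MP_9e8926_ag_FV.Colen
import Pool.Agent.Lib.MP_9e8926_ag_FV.Tau

/-!
# The ring of invariants
-/

set_option autoImplicit false

noncomputable section

namespace FV

open MvPolynomial

variable {k : Type*} [Field k] (G : Subgroup (GL (Fin 2) k))

/-- The extension of an ideal of the ring of invariants to the polynomial ring. -/
def ext (I : Ideal (Inv G)) : Ideal (P2 k) := I.map (Inv G).val.toRingHom

private theorem Rey_constantCoeff_lin (M : Matrix (Fin 2) (Fin 2) k) (f : P2 k) :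
    constantCoeff (lin M f) = constantCoeff f := by
  induction f using MvPolynomial.induction_on with
  | C a => simp [lin]
  | add p q hp hq => rw [map_add, map_add, map_add, hp, hq]
  | mul_X p i hp =>
    rw [map_mul, map_mul, map_mul, hp]
    have : constantCoeff (lin M (X i : P2 k)) = 0 := by
      simp [lin]
    rw [this, constantCoeff_X]

private theorem Rey_lin_lin (M N : Matrix (Fin 2) (Fin 2) k) (f : P2 k) :
    lin M (lin N f) = lin (N * M) f := by
  rw [← lin_comp, AlgHom.comp_apply]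

private theorem Rey_sum_inv [Fintype G] (s : P2 k) (τ : GL (Fin 2) k) (hτ : τ ∈ G) :
    lin (τ : Matrix (Fin 2) (Fin 2) k)
      (∑ σ : G, lin ((σ : GL (Fin 2) k) : Matrix (Fin 2) (Fin 2) k) s) =
      ∑ σ : G, lin ((σ : GL (Fin 2) k) : Matrix (Fin 2) (Fin 2) k) s := by
  rw [map_sum]
  refine Fintype.sum_equiv (Equiv.mulRight (⟨τ, hτ⟩ : G)) _ _ fun σ => ?_
  rw [Rey_lin_lin]
  simp

/-- The Reynolds operator. -/
theorem exists_reynolds [Finite G] (hg : (Nat.card G : k) ≠ 0) :
    ∃ ϱ : P2 k →ₗ[k] Inv G, (∀ (a : Inv G) (s : P2 k), ϱ ((a : P2 k) * s) = a * ϱ s) ∧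
      (∀ a : Inv G, ϱ (a : P2 k) = a) ∧
      ∀ s : P2 k, constantCoeff ((ϱ s : Inv G) : P2 k) = constantCoeff s := by
  classical
  let _ : Fintype G := Fintype.ofFinite G
  let S : P2 k →ₗ[k] P2 k :=
    ∑ σ : G, (lin ((σ : GL (Fin 2) k) : Matrix (Fin 2) (Fin 2) k)).toLinearMap
  have hS : ∀ s, S s = ∑ σ : G, lin ((σ : GL (Fin 2) k) : Matrix (Fin 2) (Fin 2) k) s := by
    intro s
    simp [S]
  have hmem : ∀ s, ((Nat.card G : k)⁻¹ • S) s ∈ Subalgebra.toSubmodule (Inv G) := by
    intro s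
    rw [Subalgebra.mem_toSubmodule, LinearMap.smul_apply]
    apply Subalgebra.smul_mem
    intro τ hτ
    rw [hS]
    exact Rey_sum_inv G s τ hτ
  let ϱ : P2 k →ₗ[k] Inv G :=
    LinearMap.codRestrict (Subalgebra.toSubmodule (Inv G)) ((Nat.card G : k)⁻¹ • S) hmem
  have hϱ : ∀ s, ((ϱ s : Inv G) : P2 k) = (Nat.card G : k)⁻¹ •
      ∑ σ : G, lin ((σ : GL (Fin 2) k) : Matrix (Fin 2) (Fin 2) k) s := by
    intro s
    rw [← hS]
    rfl
  have hcard : (Fintype.card G : k) = (Nat.card G : k) := by rw [Nat.card_eq_fintype_card]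
  refine ⟨ϱ, ?_, ?_, ?_⟩
  · intro a s
    apply Subtype.ext
    rw [Subalgebra.coe_mul, hϱ, hϱ, mul_smul_comm, Finset.mul_sum]
    congr 1
    refine Finset.sum_congr rfl fun σ _ => ?_
    rw [map_mul]
    congr 1
    exact a.2 σ σ.2
  · intro a
    apply Subtype.ext
    rw [hϱ]
    have h1 : ∀ σ : G, lin ((σ : GL (Fin 2) k) : Matrix (Fin 2) (Fin 2) k) (a : P2 k) = a :=
      fun σ => a.2 σ σ.2
    simp only [h1]
    rw [Finset.sum_const, Finset.card_univ, ← Nat.cast_smul_eq_nsmul k, smul_smul, hcard,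
      inv_mul_cancel₀ hg, one_smul]
  · intro s
    rw [hϱ, constantCoeff_smul, map_sum]
    simp only [Rey_constantCoeff_lin]
    rw [Finset.sum_const, Finset.card_univ, nsmul_eq_mul, hcard, smul_eq_mul, ← mul_assoc,
      inv_mul_cancel₀ hg, one_mul]

theorem mem_mO (a : Inv G) : a ∈ mO G ↔ constantCoeff (a : P2 k) = 0 := by
  unfold mO
  rw [RingHom.mem_ker]
  rfl

theorem ext_pow (I : Ideal (Inv G)) (n : ℕ) : ext G (I ^ n) = ext G I ^ n :=
  Ideal.map_pow _ _ _

private theorem Rey_mem_ext (I : Ideal (Inv G)) (a : Inv G) (h : a ∈ I) :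
    (a : P2 k) ∈ ext G I := Ideal.mem_map_of_mem (Inv G).val.toRingHom h

private theorem Rey_ext_mono {I I' : Ideal (Inv G)} (h : I ≤ I') : ext G I ≤ ext G I' :=
  Ideal.map_mono h

theorem mem_of_mem_ext [Finite G] (hg : (Nat.card G : k) ≠ 0) (I : Ideal (Inv G)) (a : Inv G)
    (h : (a : P2 k) ∈ ext G I) : a ∈ I := by
  obtain ⟨ϱ, h1, h2, -⟩ := exists_reynolds G hg
  have key : ∀ x ∈ ext G I, ∀ s : P2 k, ϱ (s * x) ∈ I := by
    intro x hx
    unfold ext Ideal.map at hx
    induction hx using Submodule.span_induction with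
    | mem x hx =>
      obtain ⟨b, hb, rfl⟩ := hx
      intro s
      have : ϱ (s * (b : P2 k)) = b * ϱ s := by rw [mul_comm, h1]
      change ϱ (s * (b : P2 k)) ∈ I
      rw [this]
      exact I.mul_mem_right _ hb
    | zero =>
      intro s
      rw [mul_zero, map_zero]
      exact I.zero_mem
    | add x y _ _ hx hy =>
      intro s
      rw [mul_add, map_add]
      exact I.add_mem (hx s) (hy s)
    | smul r x _ hx =>
      intro s
      rw [smul_eq_mul, ← mul_assoc]
      exact hx _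
  have h3 := key _ h 1
  rwa [one_mul, h2] at h3

theorem exists_generators [Finite G] (hg : (Nat.card G : k) ≠ 0) (I : Ideal (Inv G)) :
    ∃ Γ : Finset (Inv G), Ideal.span (Γ : Set (Inv G)) = I := by
  classical
  have h1 : (ext G I).FG := (isNoetherianRing_iff_ideal_fg (P2 k)).1 inferInstance _
  unfold ext Ideal.map Ideal.FG at h1
  obtain ⟨s', hs', hspan⟩ := Submodule.fg_span_iff_fg_span_finset_subset _ |>.1 h1
  obtain ⟨Γ, hΓI, hΓ⟩ := Finset.subset_set_image_iff.1 hs'
  refine ⟨Γ, le_antisymm (Ideal.span_le.2 hΓI) ?_⟩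
  intro a ha
  apply mem_of_mem_ext G hg
  have h2 := Rey_mem_ext G I a ha
  have h3 : ext G I = ext G (Ideal.span (Γ : Set (Inv G))) := by
    unfold ext
    rw [Ideal.map_span]
    rw [← hΓ, Finset.coe_image] at hspan
    exact hspan
  rwa [h3] at h2

private theorem Rey_ext_le (I : Ideal (Inv G)) (h : I ≤ mO G) : ext G I ≤ m0 k := by
  unfold ext
  rw [Ideal.map_le_iff_le_comap]
  intro a ha
  rw [Ideal.mem_comap]
  unfold m0
  rw [RingHom.mem_ker]
  exact (mem_mO G a).1 (h ha)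

private theorem Rey_X_pow [Fintype G] (i : Fin 2) :
    (X i : P2 k) ^ Fintype.card G ∈ ext G (mO G) := by
  classical
  let q : Polynomial (P2 k) := ∏ σ : G, (Polynomial.X -
    Polynomial.C (lin ((σ : GL (Fin 2) k) : Matrix (Fin 2) (Fin 2) k) (X i)))
  have hqm : q.Monic := Polynomial.monic_prod_of_monic _ _ fun σ _ => Polynomial.monic_X_sub_C _
  have hqd : q.natDegree = Fintype.card G := by
    have := Polynomial.natDegree_prod_of_monic (Finset.univ : Finset G)
      (fun σ : G => (Polynomial.X -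
        Polynomial.C (lin ((σ : GL (Fin 2) k) : Matrix (Fin 2) (Fin 2) k) (X i : P2 k))))
      (fun σ _ => Polynomial.monic_X_sub_C _)
    rw [show q = _ from rfl, this]
    simp
  have hroot : q.eval (X i : P2 k) = 0 := by
    rw [show q = _ from rfl, Polynomial.eval_prod]
    apply Finset.prod_eq_zero (Finset.mem_univ (1 : G))
    simp [lin_one]
  have hinv : ∀ τ ∈ G, q.map (lin (τ : Matrix (Fin 2) (Fin 2) k)).toRingHom = q := by
    intro τ hτ
    rw [show q = _ from rfl, Polynomial.map_prod]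
    refine Fintype.prod_equiv (Equiv.mulRight (⟨τ, hτ⟩ : G)) _ _ fun σ => ?_
    rw [Polynomial.map_sub, Polynomial.map_X, Polynomial.map_C]
    have h1 : (lin (τ : Matrix (Fin 2) (Fin 2) k)).toRingHom
        (lin ((σ : GL (Fin 2) k) : Matrix (Fin 2) (Fin 2) k) (X i : P2 k)) =
        lin (((Equiv.mulRight (⟨τ, hτ⟩ : G) σ : G) : GL (Fin 2) k) :
          Matrix (Fin 2) (Fin 2) k) (X i : P2 k) := by
      have h2 : (((Equiv.mulRight (⟨τ, hτ⟩ : G) σ : G) : GL (Fin 2) k) :
          Matrix (Fin 2) (Fin 2) k) = ((σ : GL (Fin 2) k) : Matrix (Fin 2) (Fin 2) k) *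
            (τ : Matrix (Fin 2) (Fin 2) k) := rfl
      rw [h2]
      exact Rey_lin_lin _ _ _
    rw [h1]
  have hcoeff : ∀ j, q.coeff j ∈ Inv G := by
    intro j τ hτ
    conv_rhs => rw [← hinv τ hτ]
    rw [Polynomial.coeff_map]
    rfl
  have hcc : q.map (constantCoeff (R := k) (σ := Fin 2)) = Polynomial.X ^ Fintype.card G := by
    rw [show q = _ from rfl, Polynomial.map_prod]
    have : ∀ σ : G, (Polynomial.X - Polynomial.C
        (lin ((σ : GL (Fin 2) k) : Matrix (Fin 2) (Fin 2) k) (X i : P2 k))).map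
          (constantCoeff (R := k) (σ := Fin 2)) = Polynomial.X := by
      intro σ
      rw [Polynomial.map_sub, Polynomial.map_X, Polynomial.map_C, Rey_constantCoeff_lin,
        constantCoeff_X, Polynomial.C_0, sub_zero]
    simp only [this]
    rw [Finset.prod_const, Finset.card_univ]
  have hlow : ∀ j < Fintype.card G, q.coeff j ∈ ext G (mO G) := by
    intro j hj
    have h1 : (⟨q.coeff j, hcoeff j⟩ : Inv G) ∈ mO G := by
      rw [mem_mO]
      change constantCoeff (q.coeff j) = 0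
      rw [← Polynomial.coeff_map, hcc, Polynomial.coeff_X_pow, if_neg hj.ne]
    exact Rey_mem_ext G (mO G) _ h1
  rw [Polynomial.eval_eq_sum_range, hqd, Finset.sum_range_succ] at hroot
  have htop : q.coeff (Fintype.card G) = 1 := by
    rw [← hqd]
    exact hqm
  rw [htop, one_mul] at hroot
  rw [eq_neg_of_add_eq_zero_right hroot]
  apply Ideal.neg_mem_iff _ |>.2
  refine Ideal.sum_mem _ fun j hj => ?_
  exact Ideal.mul_mem_right _ _ (hlow j (Finset.mem_range.1 hj))

theorem ext_prim [Finite G] (I : Ideal (Inv G)) (hI : IsPrim G I) :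
    ∃ N : ℕ, m0 k ^ N ≤ ext G I ∧ ext G I ≤ m0 k := by
  let _ : Fintype G := Fintype.ofFinite G
  obtain ⟨h1, N, h2⟩ := hI
  refine ⟨2 * Fintype.card G * N, ?_, Rey_ext_le G I h1⟩
  have h3 : J k (Fintype.card G) ≤ ext G (mO G) := by
    unfold J
    rw [Ideal.span_le]
    rintro f (rfl | rfl)
    · exact Rey_X_pow G 0
    · exact Rey_X_pow G 1
  calc m0 k ^ (2 * Fintype.card G * N) = (m0 k ^ (2 * Fintype.card G)) ^ N := pow_mul _ _ _
    _ ≤ (J k (Fintype.card G)) ^ N := Ideal.pow_right_mono (J_ge_m0_pow _) N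
    _ ≤ ext G (mO G) ^ N := Ideal.pow_right_mono h3 N
    _ = ext G (mO G ^ N) := (ext_pow G _ _).symm
    _ ≤ ext G I := Rey_ext_mono G h2

theorem isPrim_of_ext [Finite G] (hg : (Nat.card G : k) ≠ 0) (I : Ideal (Inv G)) (N : ℕ)
    (h : m0 k ^ N ≤ ext G I) (h' : ext G I ≤ m0 k) : IsPrim G I := by
  refine ⟨?_, N, ?_⟩
  · intro a ha
    rw [mem_mO]
    exact (RingHom.mem_ker).1 (h' (Rey_mem_ext G I a ha))
  · intro a ha
    apply mem_of_mem_ext G hg
    apply h
    have h1 := Rey_mem_ext G _ a ha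
    rw [ext_pow] at h1
    exact Ideal.pow_right_mono (Rey_ext_le G _ le_rfl) N h1

/-- Colengths in the ring of invariants are bounded by those in the polynomial ring. -/
theorem finrank_inv_le [Finite G] (hg : (Nat.card G : k) ≠ 0) (I : Ideal (Inv G))
    (hf : Module.Finite k (P2 k ⧸ ext G I)) :
    Module.Finite k (Inv G ⧸ I) ∧
      Module.finrank k (Inv G ⧸ I) ≤ Module.finrank k (P2 k ⧸ ext G I) := by
  have h1 : I ≤ (ext G I).comap (Inv G).val := Ideal.le_comap_map
  let F : Inv G ⧸ I →ₐ[k] P2 k ⧸ ext G I := Ideal.quotientMapₐ (ext G I) (Inv G).val h1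
  have hF : Function.Injective F.toLinearMap := by
    rw [← LinearMap.ker_eq_bot, LinearMap.ker_eq_bot']
    intro x hx
    obtain ⟨a, rfl⟩ := Ideal.Quotient.mk_surjective x
    have h2 : Ideal.Quotient.mk (ext G I) (a : P2 k) = 0 := hx
    rw [Ideal.Quotient.eq_zero_iff_mem] at h2 ⊢
    exact mem_of_mem_ext G hg I a h2
  exact ⟨Module.Finite.of_injective F.toLinearMap hF,
    LinearMap.finrank_le_finrank_of_injective hF⟩

end FV
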