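import Pool.Agent.Lib.MP_9e8926_ag_FV.Adap

/-!
# Semistability in terms of roots
-/

set_option autoImplicit false

noncomputable section

namespace FV

open MvPolynomial

/-- The polynomial `H(1, z)`. -/
def dehom {k : Type*} [CommRing k] : P2 k →ₐ[k] Polynomial k := aeval ![1, Polynomial.X]

/-- The conditions at the roots in an extension field. -/
def GSS {k : Type*} [Field k] (Ω : Type*) [Field Ω] [Algebra k Ω] (α β : ℕ) {r : ℕ}
    (c : Fin r → ℚ) (A : ℝ) (H : Fin r → P2 k) : Prop :=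
  ∀ z : Ω, z ≠ 0 → ∀ n : Fin r → ℕ,
    (∀ i, (Polynomial.X - Polynomial.C z) ^ n i ∣ (dehom (H i)).map (algebraMap k Ω)) →
      A / 2 ≤ (α : ℝ) * β * (1 - ∑ i, (c i : ℝ) * n i)

/-- The conditions at the two coordinate axes. -/
def OPT {k : Type*} [Field k] (α β : ℕ) {r : ℕ} (c : Fin r → ℚ) (A : ℝ) (H : Fin r → P2 k) :
    Prop :=
  (∀ n : Fin r → ℕ, (∀ i, (X 0 : P2 k) ^ n i ∣ H i) →
    A / 2 ≤ (α : ℝ) * (1 - ∑ i, (c i : ℝ) * n i)) ∧
  (∀ n : Fin r → ℕ, (∀ i, (X 1 : P2 k) ^ n i ∣ H i) →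
    A / 2 ≤ (β : ℝ) * (1 - ∑ i, (c i : ℝ) * n i))

private lemma X_dvd_of_support {k : Type*} [Field k] (i : Fin 2) (f : P2 k)
    (h : ∀ m ∈ f.support, m i ≠ 0) : (X i : P2 k) ∣ f := by
  rw [X_dvd_iff_modMonomial_eq_zero]
  ext m
  rw [coeff_zero]
  by_cases hm : Finsupp.single i 1 ≤ m
  · exact coeff_modMonomial_of_le _ hm
  · rw [coeff_modMonomial_of_not_le _ hm]
    by_contra h1
    have h2 := h m (mem_support_iff.2 h1)
    apply hm
    rw [Finsupp.single_le_iff]
    omega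

/-- the weight of an irreducible homogeneous polynomial divisible by a coordinate -/
private lemma weight_of_X_dvd {k : Type*} [Field k] {α β v : ℕ} (i : Fin 2) {π : P2 k}
    (hπ : Irreducible π) (hv : Homog α β v π) (hd : (X i : P2 k) ∣ π) :
    v = wt α β (Finsupp.single i 1) := by
  obtain ⟨u, hu⟩ := hd
  have hX : ¬ IsUnit (X i : P2 k) := by
    intro h
    exact (MvPolynomial.X_prime (R := k) (i := i)).not_isUnit h
  have hu1 : IsUnit u := (hπ.isUnit_or_isUnit hu).resolve_left hX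
  obtain ⟨a, ha, hau⟩ := MvPolynomial.isUnit_iff_eq_C_of_isReduced.1 hu1
  have ha0 : a ≠ 0 := ha.ne_zero
  symm
  apply hv
  rw [mem_support_iff, hu, hau, mul_comm, coeff_C_mul, coeff_X, if_pos rfl, mul_one]
  exact ha0

private lemma coeff_dehom {k : Type*} [Field k] (f : P2 k) (j : ℕ) :
    (dehom f).coeff j = ∑ m ∈ f.support, if m 1 = j then coeff m f else 0 := by
  unfold dehom
  rw [MvPolynomial.aeval_def, MvPolynomial.eval₂_eq', Polynomial.finsetSum_coeff]
  refine Finset.sum_congr rfl fun m _ => ?_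
  rw [Fin.prod_univ_two]
  simp only [Matrix.cons_val_zero, Matrix.cons_val_one, one_pow, one_mul]
  rw [← Polynomial.C_eq_algebraMap, Polynomial.coeff_C_mul, Polynomial.coeff_X_pow]
  by_cases h : j = m 1
  · rw [if_pos h, if_pos h.symm, mul_one]
  · rw [if_neg h, if_neg (fun h' => h h'.symm), mul_zero]

private lemma coeff_dehom_homog {k : Type*} [Field k] {α β v : ℕ} (hα : 1 ≤ α) {f : P2 k}
    (hf : Homog α β v f) {m : Fin 2 →₀ ℕ} (hm : m ∈ f.support) :
    (dehom f).coeff (m 1) = coeff m f := by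
  rw [coeff_dehom, Finset.sum_eq_single m]
  · rw [if_pos rfl]
  · intro m' hm' hne
    rw [if_neg]
    intro h1
    apply hne
    have h2 := hf m hm
    have h3 := hf m' hm'
    unfold wt at h2 h3
    rw [h1] at h3
    have h4 : α * m' 0 = α * m 0 := by omega
    have h5 : m' 0 = m 0 := Nat.eq_of_mul_eq_mul_left (by omega) h4
    ext i
    fin_cases i
    · exact h5
    · exact h1
  · intro h
    exact absurd hm h

theorem ss_of_gss {k : Type*} [Field k] (Ω : Type*) [Field Ω] [Algebra k Ω] [IsAlgClosed Ω]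
    {α β : ℕ} (hα : 1 ≤ α) (hβ : 1 ≤ β) (hco : Nat.Coprime α β) {r : ℕ} (c : Fin r → ℚ)
    (A : ℝ) (hA : 0 ≤ A) (H : Fin r → P2 k) (hO : OPT α β c A H) (hS : GSS Ω α β c A H) :
    SS α β c A H := by
  intro π v hπ hv hv1 n hn
  by_cases h0 : (X 0 : P2 k) ∣ π
  · have h1 := weight_of_X_dvd 0 hπ hv h0
    have h2 : v = α := by
      rw [h1]
      simp [wt]
    rw [h2]
    exact hO.1 n fun i => (pow_dvd_pow_of_dvd h0 _).trans (hn i)
  by_cases h1 : (X 1 : P2 k) ∣ π
  · have h3 := weight_of_X_dvd 1 hπ hv h1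
    have h2 : v = β := by
      rw [h3]
      simp [wt]
    rw [h2]
    exact hO.2 n fun i => (pow_dvd_pow_of_dvd h1 _).trans (hn i)
  obtain ⟨ma, hma, hma1⟩ : ∃ m ∈ π.support, m 1 = 0 := by
    by_contra hcon
    push Not at hcon
    exact h1 (X_dvd_of_support 1 π hcon)
  obtain ⟨mb, hmb, hmb0⟩ : ∃ m ∈ π.support, m 0 = 0 := by
    by_contra hcon
    push Not at hcon
    exact h0 (X_dvd_of_support 0 π hcon)
  have ea : α * ma 0 = v := by
    have := hv ma hma
    unfold wt at this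
    rw [hma1] at this
    omega
  have eb : β * mb 1 = v := by
    have := hv mb hmb
    unfold wt at this
    rw [hmb0] at this
    omega
  have hdv : α * β ∣ v := hco.mul_dvd_of_dvd_of_dvd ⟨_, ea.symm⟩ ⟨_, eb.symm⟩
  have hle : α * β ≤ v := Nat.le_of_dvd hv1 hdv
  have ca : (dehom π).coeff 0 ≠ 0 := by
    rw [← hma1, coeff_dehom_homog hα hv hma]
    exact mem_support_iff.1 hma
  have cb : (dehom π).coeff (mb 1) ≠ 0 := by
    rw [coeff_dehom_homog hα hv hmb]
    exact mem_support_iff.1 hmb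
  have hmb1 : 1 ≤ mb 1 := by
    by_contra hcon
    have : mb 1 = 0 := by omega
    rw [this] at eb
    omega
  set P : Polynomial Ω := (dehom π).map (algebraMap k Ω) with hP
  have hinj : Function.Injective (algebraMap k Ω) := (algebraMap k Ω).injective
  have cP : P.coeff (mb 1) ≠ 0 := by
    rw [hP, Polynomial.coeff_map]
    exact (map_ne_zero_iff _ hinj).2 cb
  have cP0 : P.coeff 0 ≠ 0 := by
    rw [hP, Polynomial.coeff_map]
    exact (map_ne_zero_iff _ hinj).2 ca
  have hdeg : P.degree ≠ 0 := by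
    intro hd
    apply cP
    apply Polynomial.coeff_eq_zero_of_degree_lt
    rw [hd]
    exact_mod_cast hmb1
  obtain ⟨z, hz⟩ := IsAlgClosed.exists_root P hdeg
  have hz0 : z ≠ 0 := by
    rintro rfl
    apply cP0
    rw [Polynomial.coeff_zero_eq_eval_zero]
    exact hz
  have hdvd : (Polynomial.X - Polynomial.C z) ∣ P := Polynomial.dvd_iff_isRoot.2 hz
  have hG := hS z hz0 n (by
    intro i
    refine (pow_dvd_pow_of_dvd hdvd (n i)).trans ?_
    rw [hP, ← Polynomial.map_pow, ← map_pow]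
    exact Polynomial.map_dvd _ (map_dvd dehom (hn i)))
  have hαβ : (0:ℝ) < (α : ℝ) * β := by
    have h2 : (1:ℝ) ≤ α := by exact_mod_cast hα
    have h3 : (1:ℝ) ≤ β := by exact_mod_cast hβ
    positivity
  have hS0 : 0 ≤ 1 - ∑ i, (c i : ℝ) * n i := by
    by_contra hcon
    push Not at hcon
    have := mul_neg_of_pos_of_neg hαβ hcon
    linarith
  have hvr : (α : ℝ) * β ≤ (v : ℝ) := by exact_mod_cast hle
  exact hG.trans (mul_le_mul_of_nonneg_right hvr hS0)

end FV
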