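import Pool.Agent.Lib.MP_9e8926_ag_FV.Rey
import Pool.Agent.Lib.MP_9e8926_ag_FV.Frob

/-!
# From the polynomial ring to the ring of invariants
-/

set_option autoImplicit false

noncomputable section

namespace FV

open MvPolynomial

variable {k : Type*} [Field k] (p : ℕ) [Fact p.Prime] [CharP k p] [PerfectField k]
  (G : Subgroup (GL (Fin 2) k)) {r : ℕ} (f : Fin r → P2 k) (c : Fin r → ℚ)

omit [Fact p.Prime] [CharP k p] [PerfectField k] in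
/-- the exponents -/
private theorem sfrUp_exp (hc : ∀ i, 0 ≤ c i) (e₁ e : ℕ) (i : Fin r) :
    ⌈(c i : ℝ) * (((p ^ (e₁ + e) : ℕ) : ℝ) - 1)⌉₊ ≤
      ⌈(c i : ℝ) * (((p ^ e₁ : ℕ) : ℝ) - 1)⌉₊ +
        ⌈(c i : ℝ) * (((p ^ e : ℕ) : ℝ) - 1)⌉₊ * p ^ e₁ := by
  have h0 : (0 : ℝ) ≤ (c i : ℝ) := by exact_mod_cast hc i
  rw [Nat.ceil_le]
  have h1 := Nat.le_ceil ((c i : ℝ) * (((p ^ e₁ : ℕ) : ℝ) - 1))
  have h2 := Nat.le_ceil ((c i : ℝ) * (((p ^ e : ℕ) : ℝ) - 1))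
  have h3 : (0 : ℝ) ≤ ((p ^ e₁ : ℕ) : ℝ) := Nat.cast_nonneg _
  have h4 := mul_le_mul_of_nonneg_right h2 h3
  calc (c i : ℝ) * (((p ^ (e₁ + e) : ℕ) : ℝ) - 1)
      = (c i : ℝ) * (((p ^ e₁ : ℕ) : ℝ) - 1) +
        (c i : ℝ) * (((p ^ e : ℕ) : ℝ) - 1) * ((p ^ e₁ : ℕ) : ℝ) := by
        rw [pow_add]
        push_cast
        ring
    _ ≤ _ := by
        push_cast at h1 h4 ⊢
        linarith

omit [PerfectField k] [CharP k p] [Fact p.Prime] in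
private theorem sfrUp_Fq (hc : ∀ i, 0 ≤ c i) (hf : ∀ i, f i ∈ Inv G) (e₁ e : ℕ) :
    ∃ y : Inv G, Fq f c (p ^ e₁) * Fq f c (p ^ e) ^ p ^ e₁ = Fq f c (p ^ (e₁ + e)) *
      (y : P2 k) := by
  refine ⟨⟨∏ i, f i ^ (⌈(c i : ℝ) * (((p ^ e₁ : ℕ) : ℝ) - 1)⌉₊ +
    ⌈(c i : ℝ) * (((p ^ e : ℕ) : ℝ) - 1)⌉₊ * p ^ e₁ -
      ⌈(c i : ℝ) * (((p ^ (e₁ + e) : ℕ) : ℝ) - 1)⌉₊),
    Subalgebra.prod_mem _ fun i _ => Subalgebra.pow_mem _ (hf i) _⟩, ?_⟩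
  unfold Fq
  rw [← Finset.prod_pow, ← Finset.prod_mul_distrib, ← Finset.prod_mul_distrib]
  refine Finset.prod_congr rfl fun i _ => ?_
  rw [← pow_mul, ← pow_add, ← pow_add, Nat.add_sub_cancel' (sfrUp_exp p c hc e₁ e i)]

theorem sfr_of_not_mem [Finite G] (hg : (Nat.card G : k) ≠ 0) (hc : ∀ i, 0 ≤ c i)
    (hf : ∀ i, f i ∈ Inv G)
    (hbase : ∀ d : P2 k, d ≠ 0 → ∃ e : ℕ, 1 ≤ e ∧ d * Fq f c (p ^ e) ∉ J k (p ^ e))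
    (I : Ideal (Inv G)) (t : ℝ) (ht : 0 ≤ t) (e : ℕ) (he : 1 ≤ e) (x : P2 k)
    (hx : x ∈ ext G I ^ ⌈t * ((p ^ e : ℕ) : ℝ)⌉₊)
    (h : Fq f c (p ^ e) * x ∉ J k (p ^ e)) : SFR p G f c I t := by
  obtain ⟨a, ha, hFa⟩ : ∃ a ∈ I ^ ⌈t * ((p ^ e : ℕ) : ℝ)⌉₊,
      Fq f c (p ^ e) * (a : P2 k) ∉ J k (p ^ e) := by
    by_contra hcon
    push Not at hcon
    rw [← ext_pow] at hx
    have hle : ext G (I ^ ⌈t * ((p ^ e : ℕ) : ℝ)⌉₊) ≤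
        Submodule.comap (LinearMap.mulLeft (P2 k) (Fq f c (p ^ e))) (J k (p ^ e)) :=
      Ideal.map_le_iff_le_comap.2 fun a ha => hcon a ha
    exact h (hle hx)
  intro d hd
  obtain ⟨e₁, he₁, hu⟩ := hbase (d : P2 k) fun h0 => hd (Subtype.ext h0)
  have hflat := flat p e₁ (p ^ e) _ _ hu hFa
  obtain ⟨y, hy⟩ := sfrUp_Fq p G f c hc hf e₁ e
  obtain ⟨F, hF⟩ : ∃ F : Inv G, (F : P2 k) = Fq f c (p ^ (e₁ + e)) :=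
    ⟨⟨Fq f c (p ^ (e₁ + e)), Subalgebra.prod_mem _ fun i _ => Subalgebra.pow_mem _ (hf i) _⟩,
      rfl⟩
  obtain ⟨z, hz⟩ : ∃ z : Inv G, z = d * F * (a ^ p ^ e₁ * y) := ⟨_, rfl⟩
  have hz1 : (z : P2 k) = (d : P2 k) * Fq f c (p ^ (e₁ + e)) *
      ((a ^ p ^ e₁ * y : Inv G) : P2 k) := by
    rw [hz, ← hF]
    rfl
  have hz2 : (z : P2 k) = (d : P2 k) * Fq f c (p ^ e₁) *
      (Fq f c (p ^ e) * (a : P2 k)) ^ p ^ e₁ := by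
    have h1 : ((a ^ p ^ e₁ * y : Inv G) : P2 k) = (a : P2 k) ^ p ^ e₁ * (y : P2 k) := rfl
    rw [hz1, h1, mul_pow]
    linear_combination (-(d : P2 k) * (a : P2 k) ^ p ^ e₁) * hy
  have hzJ : (z : P2 k) ∉ J k (p ^ (e₁ + e)) := by
    rw [hz2, pow_add]
    exact hflat
  obtain ⟨ψ, hψ1, hψ2, -⟩ := exists_psi_unit p (e₁ + e) (z : P2 k) hzJ
  obtain ⟨ϱ, hϱ1, -, hϱ3⟩ := exists_reynolds G hg
  refine ⟨e₁ + e, by omega, (ϱ.toAddMonoidHom.comp ψ).comp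
    (Inv G).val.toRingHom.toAddMonoidHom, ?_, a ^ p ^ e₁ * y, ?_, z, hz1, ?_⟩
  · intro a b
    change ϱ (ψ ((a : P2 k) ^ p ^ (e₁ + e) * (b : P2 k))) = a * ϱ (ψ (b : P2 k))
    rw [hψ1, hϱ1]
  · refine Ideal.mul_mem_right _ _ ?_
    have h1 : a ^ p ^ e₁ ∈ I ^ (⌈t * ((p ^ e : ℕ) : ℝ)⌉₊ * p ^ e₁) := by
      rw [pow_mul]
      exact Ideal.pow_mem_pow ha _
    refine Ideal.pow_le_pow_right ?_ h1
    rw [Nat.ceil_le]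
    have h2 := Nat.le_ceil (t * ((p ^ e : ℕ) : ℝ))
    have h3 : (0 : ℝ) ≤ ((p ^ e₁ : ℕ) : ℝ) := Nat.cast_nonneg _
    have h4 := mul_le_mul_of_nonneg_right h2 h3
    calc t * (((p ^ (e₁ + e) : ℕ) : ℝ) - 1) ≤ t * ((p ^ e : ℕ) : ℝ) * ((p ^ e₁ : ℕ) : ℝ) := by
          rw [pow_add]
          push_cast
          nlinarith
      _ ≤ _ := by
          push_cast at h4 ⊢
          exact h4
  · rw [mem_mO]
    change constantCoeff ((ϱ (ψ (z : P2 k)) : Inv G) : P2 k) ≠ 0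
    rw [hϱ3]
    exact hψ2

end FV
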