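import Pool.Agent.Lib.MP_9e8926_ag_FV.EvL

/-!
# Orders of vanishing of homogeneous polynomials along slices
-/

set_option autoImplicit false

noncomputable section

namespace FV

open MvPolynomial

private def slY (Q : ℂ × ℂ) : P2 ℂ →ₐ[ℂ] Polynomial ℂ :=
  aeval ![Polynomial.C Q.1, Polynomial.C Q.2 + Polynomial.X]

private def slX (Q : ℂ × ℂ) : P2 ℂ →ₐ[ℂ] Polynomial ℂ :=
  aeval ![Polynomial.C Q.1 + Polynomial.X, Polynomial.C Q.2]

private theorem slY_coeff_zero (Q : ℂ × ℂ) (H : P2 ℂ) : (slY Q H).coeff 0 = ev H Q := by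
  have h : (Polynomial.aeval (0 : ℂ)).comp (slY Q) = (aeval ![Q.1, Q.2] : P2 ℂ →ₐ[ℂ] ℂ) := by
    unfold slY
    apply MvPolynomial.algHom_ext
    intro i
    fin_cases i <;> simp
  have h1 := congrArg (fun φ : P2 ℂ →ₐ[ℂ] ℂ => φ H) h
  rw [Polynomial.coeff_zero_eq_eval_zero]
  unfold ev
  simpa [Polynomial.aeval_def, MvPolynomial.aeval_def] using h1

private theorem slX_coeff_zero (Q : ℂ × ℂ) (H : P2 ℂ) : (slX Q H).coeff 0 = ev H Q := by
  have h : (Polynomial.aeval (0 : ℂ)).comp (slX Q) = (aeval ![Q.1, Q.2] : P2 ℂ →ₐ[ℂ] ℂ) := by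
    unfold slX
    apply MvPolynomial.algHom_ext
    intro i
    fin_cases i <;> simp
  have h1 := congrArg (fun φ : P2 ℂ →ₐ[ℂ] ℂ => φ H) h
  rw [Polynomial.coeff_zero_eq_eval_zero]
  unfold ev
  simpa [Polynomial.aeval_def, MvPolynomial.aeval_def] using h1

private theorem ev_mul' (F G : P2 ℂ) (Q : ℂ × ℂ) : ev (F * G) Q = ev F Q * ev G Q := by
  unfold ev
  rw [map_mul]

/-- irreducibility of the equation of an orbit -/
private theorem slice_irr {α β v : ℕ} {π : P2 ℂ} {Q : ℂ × ℂ} (hπ0 : π ≠ 0)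
    (hπ : Homog α β v π) (hev : ev π Q = 0)
    (ha : ∀ (H : P2 ℂ) (j : ℕ), H ≠ 0 → Homog α β j H → ev H Q = 0 → π ∣ H) :
    Irreducible π := by
  refine ⟨fun hu => ?_, fun g h hgh => ?_⟩
  · have h1 : IsUnit (eval ![Q.1, Q.2] π) := hu.map (eval ![Q.1, Q.2])
    exact h1.ne_zero hev
  · have hg0 : g ≠ 0 := fun h0 => hπ0 (by rw [hgh, h0, zero_mul])
    have hh0 : h ≠ 0 := fun h0 => hπ0 (by rw [hgh, h0, mul_zero])
    obtain ⟨i, -, hgi⟩ := hπ.of_dvd hπ0 (hgh ▸ dvd_mul_right g h)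
    obtain ⟨l, -, hhl⟩ := hπ.of_dvd hπ0 (hgh ▸ dvd_mul_left h g)
    have h1 : ev g Q * ev h Q = 0 := by rw [← ev_mul', ← hgh, hev]
    rcases mul_eq_zero.1 h1 with h2 | h2
    · right
      obtain ⟨t, ht⟩ := ha g i hg0 hgi h2
      have h3 : π * (t * h) = π * 1 := by
        rw [← mul_assoc, ← ht, ← hgh, mul_one]
      exact IsUnit.of_mul_eq_one_right t (mul_left_cancel₀ hπ0 h3)
    · left
      obtain ⟨t, ht⟩ := ha h l hh0 hhl h2
      have h3 : π * (g * t) = π * 1 := by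
        rw [mul_one, mul_left_comm, ← ht, ← hgh]
      exact IsUnit.of_mul_eq_one t (mul_left_cancel₀ hπ0 h3)

/-- stripping off the powers of the equation of an orbit -/
private theorem slice_strip {α β v : ℕ} {π : P2 ℂ} {Q : ℂ × ℂ} (hv : 1 ≤ v)
    (hπ : Homog α β v π)
    (ha : ∀ (H : P2 ℂ) (j : ℕ), H ≠ 0 → Homog α β j H → ev H Q = 0 → π ∣ H)
    (sl : P2 ℂ →ₐ[ℂ] Polynomial ℂ) (h0 : ∀ H, (sl H).coeff 0 = ev H Q)
    (g : Polynomial ℂ) (hg : sl π = Polynomial.X * g) (hg0 : g.coeff 0 ≠ 0) (j : ℕ) :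
    ∀ H : P2 ℂ, H ≠ 0 → Homog α β j H →
      ∃ (n : ℕ) (G : Polynomial ℂ), π ^ n ∣ H ∧ sl H = Polynomial.X ^ n * G ∧ G.coeff 0 ≠ 0 := by
  induction j using Nat.strong_induction_on with
  | _ j ih =>
    intro H hH0 hH
    by_cases hev : ev H Q = 0
    · obtain ⟨H1, hH1⟩ := ha H j hH0 hH hev
      have hH10 : H1 ≠ 0 := fun h => hH0 (by rw [hH1, h, mul_zero])
      obtain ⟨i, -, hi⟩ := hH.of_dvd hH0 (hH1 ▸ dvd_mul_left H1 π)
      have h2 : Homog α β (v + i) H := by
        rw [hH1]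
        exact hπ.mul hi
      have h3 : j = v + i := hH.unique h2 hH0
      obtain ⟨n, G, hn1, hn2, hn3⟩ := ih i (by omega) H1 hH10 hi
      refine ⟨n + 1, g * G, ?_, ?_, ?_⟩
      · rw [hH1, pow_succ']
        exact mul_dvd_mul_left π hn1
      · rw [hH1, map_mul, hg, hn2]
        ring
      · rw [Polynomial.mul_coeff_zero]
        exact mul_ne_zero hg0 hn3
    · exact ⟨0, sl H, by simp, by simp, by rw [h0]; exact hev⟩

private theorem slice_final {α β v : ℕ} {π : P2 ℂ} {Q : ℂ × ℂ} (hv : 1 ≤ v)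
    (hπ : Homog α β v π)
    (ha : ∀ (H : P2 ℂ) (j : ℕ), H ≠ 0 → Homog α β j H → ev H Q = 0 → π ∣ H)
    (sl : P2 ℂ →ₐ[ℂ] Polynomial ℂ) (h0 : ∀ H, (sl H).coeff 0 = ev H Q)
    (g : Polynomial ℂ) (hg : sl π = Polynomial.X * g) (hg0 : g.coeff 0 ≠ 0)
    (H : P2 ℂ) (j : ℕ) (hH0 : H ≠ 0) (hH : Homog α β j H) :
    ∃ n, π ^ n ∣ H ∧ (sl H).coeff n ≠ 0 := by
  obtain ⟨n, G, h1, h2, h3⟩ := slice_strip hv hπ ha sl h0 g hg hg0 j H hH0 hH
  refine ⟨n, h1, ?_⟩
  rw [h2, Polynomial.coeff_X_pow_mul']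
  simpa using h3

private theorem slice_homog_X0 {α β : ℕ} : Homog α β α (X 0 : P2 ℂ) := by
  intro m hm
  rw [support_X, Finset.mem_singleton] at hm
  rw [hm]
  unfold wt
  simp

private theorem slice_homog_X1 {α β : ℕ} : Homog α β β (X 1 : P2 ℂ) := by
  intro m hm
  rw [support_X, Finset.mem_singleton] at hm
  rw [hm]
  unfold wt
  simp

private theorem slice_mono (m : Fin 2 →₀ ℕ) (c : ℂ) :
    (monomial m c : P2 ℂ) = C c * (X 0 ^ m 0 * X 1 ^ m 1) := by
  rw [monomial_eq, Finsupp.prod_fintype _ _ (fun i => pow_zero _), Fin.prod_univ_two]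

private theorem slice_ev (H : P2 ℂ) (Q : ℂ × ℂ) :
    ev H Q = ∑ m ∈ H.support, coeff m H * (Q.1 ^ m 0 * Q.2 ^ m 1) := by
  unfold ev
  rw [eval_eq']
  refine Finset.sum_congr rfl fun m _ => ?_
  rw [Fin.prod_univ_two]
  simp

private theorem slice_a1 {α β : ℕ} (hα : 1 ≤ α) {x0 : ℂ} (hx : x0 ≠ 0) (H : P2 ℂ) (j : ℕ)
    (hH : Homog α β j H) (hev : ev H (x0, 0) = 0) : (X 1 : P2 ℂ) ∣ H := by
  have key : ∀ m ∈ H.support, m 1 ≠ 0 := by
    intro m hm hm1
    rw [slice_ev, Finset.sum_eq_single m] at hev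
    · rw [hm1, pow_zero, mul_one] at hev
      exact (mul_ne_zero (mem_support_iff.1 hm) (pow_ne_zero _ hx)) hev
    · intro b hb hbm
      have hb1 : b 1 ≠ 0 := by
        intro hb1
        apply hbm
        have e1 := hH m hm
        have e2 := hH b hb
        unfold wt at e1 e2
        rw [hm1, mul_zero, add_zero] at e1
        rw [hb1, mul_zero, add_zero] at e2
        ext i
        fin_cases i
        · show b 0 = m 0
          exact Nat.eq_of_mul_eq_mul_left (by omega) (e2.trans e1.symm)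
        · show b 1 = m 1
          rw [hb1, hm1]
      show coeff b H * (x0 ^ b 0 * (0 : ℂ) ^ b 1) = 0
      rw [zero_pow hb1, mul_zero, mul_zero]
    · intro h
      exact absurd hm h
  rw [H.as_sum]
  refine Finset.dvd_sum fun m hm => ?_
  rw [slice_mono]
  exact Dvd.dvd.mul_left (Dvd.dvd.mul_left (dvd_pow_self _ (key m hm)) _) _

private theorem slice_a0 {α β : ℕ} (hβ : 1 ≤ β) {y0 : ℂ} (hy : y0 ≠ 0) (H : P2 ℂ) (j : ℕ)
    (hH : Homog α β j H) (hev : ev H (0, y0) = 0) : (X 0 : P2 ℂ) ∣ H := by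
  have key : ∀ m ∈ H.support, m 0 ≠ 0 := by
    intro m hm hm1
    rw [slice_ev, Finset.sum_eq_single m] at hev
    · rw [hm1, pow_zero, one_mul] at hev
      exact (mul_ne_zero (mem_support_iff.1 hm) (pow_ne_zero _ hy)) hev
    · intro b hb hbm
      have hb1 : b 0 ≠ 0 := by
        intro hb1
        apply hbm
        have e1 := hH m hm
        have e2 := hH b hb
        unfold wt at e1 e2
        rw [hm1, mul_zero, zero_add] at e1
        rw [hb1, mul_zero, zero_add] at e2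
        ext i
        fin_cases i
        · show b 0 = m 0
          rw [hb1, hm1]
        · show b 1 = m 1
          exact Nat.eq_of_mul_eq_mul_left (by omega) (e2.trans e1.symm)
      show coeff b H * ((0 : ℂ) ^ b 0 * y0 ^ b 1) = 0
      rw [zero_pow hb1, zero_mul, mul_zero]
    · intro h
      exact absurd hm h
  rw [H.as_sum]
  refine Finset.dvd_sum fun m hm => ?_
  rw [slice_mono]
  exact Dvd.dvd.mul_left (Dvd.dvd.mul_right (dvd_pow_self _ (key m hm)) _) _

private theorem slice_ac {α β : ℕ} (hα : 1 ≤ α) (hco : Nat.Coprime α β)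
    {x0 y0 lam : ℂ} (hx : x0 ≠ 0) (hy : y0 ≠ 0) (hlam : lam * x0 ^ β = y0 ^ α) (H : P2 ℂ) (j : ℕ)
    (hH0 : H ≠ 0) (hH : Homog α β j H) (hev : ev H (x0, y0) = 0) :
    (X 1 ^ α - C lam * X 0 ^ β : P2 ℂ) ∣ H := by
  obtain ⟨ms, hms, hmin⟩ := Finset.exists_min_image H.support (fun m => m 1)
    (support_nonempty.2 hH0)
  have hl : ∀ m ∈ H.support, m 1 = ms 1 + α * ((m 1 - ms 1) / α) ∧
      ms 0 = m 0 + β * ((m 1 - ms 1) / α) := by
    intro m hm
    have e1 := hH m hm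
    have e2 := hH ms hms
    have h1 := hmin m hm
    unfold wt at e1 e2
    obtain ⟨r, hr⟩ := Nat.exists_eq_add_of_le h1
    have e3 : α * m 0 + β * r = α * ms 0 := by
      rw [hr, mul_add] at e1
      omega
    have h2 : α ∣ β * r := by
      have h3 : α ∣ α * m 0 + β * r := e3 ▸ dvd_mul_right α (ms 0)
      exact (Nat.dvd_add_right (dvd_mul_right α (m 0))).1 h3
    obtain ⟨l, hl⟩ := hco.dvd_of_dvd_mul_left h2
    have h4 : (m 1 - ms 1) / α = l := by
      rw [hr, Nat.add_sub_cancel_left, hl]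
      exact Nat.mul_div_cancel_left l (by omega)
    rw [h4]
    refine ⟨by rw [hr, hl], ?_⟩
    have e4 : α * (m 0 + β * l) = α * ms 0 := by
      rw [← e3, hl]
      ring
    exact (Nat.eq_of_mul_eq_mul_left (by omega) e4).symm
  set c : ℂ := ∑ m ∈ H.support, coeff m H * lam ^ ((m 1 - ms 1) / α) with hc
  have hd : (X 1 ^ α - C lam * X 0 ^ β : P2 ℂ) ∣ H - C c * (X 0 ^ ms 0 * X 1 ^ ms 1) := by
    have h1 : H - C c * (X 0 ^ ms 0 * X 1 ^ ms 1) = ∑ m ∈ H.support,
        (C (coeff m H) * (X 0 ^ m 0 * X 1 ^ ms 1)) * ((X 1 ^ α) ^ ((m 1 - ms 1) / α) -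
          (C lam * X 0 ^ β) ^ ((m 1 - ms 1) / α)) := by
      conv_lhs => rw [H.as_sum]
      rw [hc, map_sum, Finset.sum_mul, ← Finset.sum_sub_distrib]
      refine Finset.sum_congr rfl fun m hm => ?_
      obtain ⟨h2, h3⟩ := hl m hm
      rw [slice_mono, C_mul, C_pow, mul_sub, mul_pow, ← pow_mul, ← pow_mul]
      have h4 : (X 1 : P2 ℂ) ^ m 1 = X 1 ^ ms 1 * X 1 ^ (α * ((m 1 - ms 1) / α)) := by
        rw [← pow_add, ← h2]
      have h5 : (X 0 : P2 ℂ) ^ ms 0 = X 0 ^ m 0 * X 0 ^ (β * ((m 1 - ms 1) / α)) := by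
        rw [← pow_add, ← h3]
      rw [h4, h5]
      ring
    rw [h1]
    exact Finset.dvd_sum fun m _ => Dvd.dvd.mul_left (sub_dvd_pow_sub_pow _ _ _) _
  have hc0 : c = 0 := by
    obtain ⟨t, ht⟩ := hd
    have h1 : eval ![x0, y0] (H - C c * (X 0 ^ ms 0 * X 1 ^ ms 1)) =
        eval ![x0, y0] ((X 1 ^ α - C lam * X 0 ^ β) * t) := by rw [ht]
    have h2 : eval ![x0, y0] H = 0 := hev
    rw [map_sub, h2, map_mul, map_mul, map_mul, map_pow, map_pow, map_sub, map_mul, map_pow,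
      map_pow, eval_C, eval_C, eval_X, eval_X] at h1
    simp only [Matrix.cons_val_zero, Matrix.cons_val_one] at h1
    rw [hlam, sub_self, zero_mul, zero_sub, neg_eq_zero] at h1
    exact (mul_eq_zero.1 h1).resolve_right
      (mul_ne_zero (pow_ne_zero _ hx) (pow_ne_zero _ hy))
  rwa [hc0, map_zero, zero_mul, sub_zero] at hd

theorem slice {α β : ℕ} (hα : 1 ≤ α) (hβ : 1 ≤ β) (hco : Nat.Coprime α β) (Q : ℂ × ℂ)
    (hQ : Q ≠ 0) : ∃ (π : P2 ℂ) (v : ℕ), Irreducible π ∧ Homog α β v π ∧ 1 ≤ v ∧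
      ((∀ (H : P2 ℂ) (j : ℕ), H ≠ 0 → Homog α β j H →
          ∃ n, π ^ n ∣ H ∧ (sliceY H Q).coeff n ≠ 0) ∨
        (∀ (H : P2 ℂ) (j : ℕ), H ≠ 0 → Homog α β j H →
          ∃ n, π ^ n ∣ H ∧ (sliceX H Q).coeff n ≠ 0)) := by
  obtain ⟨x0, y0⟩ := Q
  by_cases hy : y0 = 0
  · have hx : x0 ≠ 0 := by
      rintro rfl
      exact hQ (by rw [hy]; rfl)
    subst hy
    have ha : ∀ (H : P2 ℂ) (j : ℕ), H ≠ 0 → Homog α β j H → ev H (x0, 0) = 0 →
        (X 1 : P2 ℂ) ∣ H := fun H j _ hH h => slice_a1 hα hx H j hH h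
    refine ⟨X 1, β, X_prime.irreducible, slice_homog_X1, hβ, Or.inl fun H j hH0 hH => ?_⟩
    refine slice_final hβ slice_homog_X1 ha (slY (x0, 0)) (slY_coeff_zero _) 1 ?_ ?_ H j hH0 hH
    · unfold slY
      simp
    · simp
  · by_cases hx : x0 = 0
    · subst hx
      have ha : ∀ (H : P2 ℂ) (j : ℕ), H ≠ 0 → Homog α β j H → ev H (0, y0) = 0 →
          (X 0 : P2 ℂ) ∣ H := fun H j _ hH h => slice_a0 hβ hy H j hH h
      refine ⟨X 0, α, X_prime.irreducible, slice_homog_X0, hα, Or.inr fun H j hH0 hH => ?_⟩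
      refine slice_final hα slice_homog_X0 ha (slX (0, y0)) (slX_coeff_zero _) 1 ?_ ?_ H j hH0 hH
      · unfold slX
        simp
      · simp
    · have hlam : (y0 ^ α / x0 ^ β) * x0 ^ β = y0 ^ α :=
        div_mul_cancel₀ _ (pow_ne_zero _ hx)
      generalize y0 ^ α / x0 ^ β = lam at hlam
      have ha : ∀ (H : P2 ℂ) (j : ℕ), H ≠ 0 → Homog α β j H → ev H (x0, y0) = 0 →
          (X 1 ^ α - C lam * X 0 ^ β : P2 ℂ) ∣ H :=
        fun H j hH0 hH h => slice_ac hα hco hx hy hlam H j hH0 hH h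
      have hev : ev (X 1 ^ α - C lam * X 0 ^ β) (x0, y0) = 0 := by
        unfold ev
        simp [hlam]
      have hπ0 : (X 1 ^ α - C lam * X 0 ^ β : P2 ℂ) ≠ 0 := by
        intro h
        have h1 : eval ![(0 : ℂ), 1] (X 1 ^ α - C lam * X 0 ^ β) = 0 := by rw [h, map_zero]
        rw [map_sub, map_mul, map_pow, map_pow, eval_C, eval_X, eval_X] at h1
        simp only [Matrix.cons_val_zero, Matrix.cons_val_one] at h1
        rw [zero_pow (by omega), mul_zero, sub_zero, one_pow] at h1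
        exact one_ne_zero h1
      have hπ : Homog α β (α * β) (X 1 ^ α - C lam * X 0 ^ β : P2 ℂ) := by
        classical
        intro m hm
        rcases Finset.mem_union.1 (support_sub (Fin 2) _ _ hm) with h | h
        · exact (slice_homog_X1.pow α) m h
        · have h0 : Homog α β 0 (C lam : P2 ℂ) := by
            intro m hm
            rw [mem_support_iff, coeff_C] at hm
            have hm0 : 0 = m := by
              by_contra hne
              exact hm (if_neg hne)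
            rw [← hm0]
            unfold wt
            simp
          have h1 := (h0.mul (slice_homog_X0.pow β)) m h
          rw [h1]
          ring
      have hv : 1 ≤ α * β := Nat.one_le_iff_ne_zero.2 (Nat.mul_ne_zero (by omega) (by omega))
      refine ⟨X 1 ^ α - C lam * X 0 ^ β, α * β, slice_irr hπ0 hπ hev ha, hπ, hv,
        Or.inl fun H j hH0 hH => ?_⟩
      refine slice_final hv hπ ha (slY (x0, y0)) (slY_coeff_zero _)
        (∑ i ∈ Finset.range α, (Polynomial.C y0 + Polynomial.X) ^ i *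
          (Polynomial.C y0) ^ (α - 1 - i)) ?_ ?_ H j hH0 hH
      · have h1 := geom_sum₂_mul (Polynomial.C y0 + Polynomial.X) (Polynomial.C y0) α
        rw [add_sub_cancel_left] at h1
        rw [mul_comm Polynomial.X, h1]
        unfold slY
        rw [map_sub, map_mul, map_pow, map_pow, aeval_X, aeval_X, MvPolynomial.algHom_C]
        simp only [Matrix.cons_val_zero, Matrix.cons_val_one]
        rw [Polynomial.algebraMap_eq, ← Polynomial.C_pow, ← Polynomial.C_pow, ← Polynomial.C_mul,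
          hlam]
      · rw [Polynomial.coeff_zero_eq_eval_zero, Polynomial.eval_finsetSum]
        have h1 : ∀ i ∈ Finset.range α, Polynomial.eval 0 ((Polynomial.C y0 + Polynomial.X) ^ i *
            (Polynomial.C y0) ^ (α - 1 - i)) = y0 ^ (α - 1) := by
          intro i hi
          rw [Finset.mem_range] at hi
          simp only [Polynomial.eval_mul, Polynomial.eval_pow, Polynomial.eval_add,
            Polynomial.eval_C, Polynomial.eval_X, add_zero]
          rw [← pow_add]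
          congr 1
          omega
        rw [Finset.sum_congr rfl h1, Finset.sum_const, Finset.card_range, nsmul_eq_mul]
        refine mul_ne_zero ?_ (pow_ne_zero _ hy)
        have : α ≠ 0 := by omega
        exact_mod_cast this

end FV
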