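import Pool.Agent.Lib.MP_9e8926_ag_FV.BadR
import Pool.Agent.Lib.MP_9e8926_ag_FV.StepL

/-!
# The first stage: linear forms
-/

set_option autoImplicit false

noncomputable section

namespace FV

open MvPolynomial

/-- the linear form with coefficients `l` -/
private def lf {K : Type*} [Field K] (l : Fin 2 → K) : P2 K := C (l 0) * X 0 + C (l 1) * X 1

private theorem lf_ne {K : Type*} [Field K] {l : Fin 2 → K} (h : l ≠ 0) : lf l ≠ 0 := by
  classical
  intro h0
  apply h
  have hX : ∀ i j : Fin 2, coeff (Finsupp.single i 1) (X j : P2 K) = if j = i then 1 else 0 := by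
    intro i j
    rw [coeff_X]
    by_cases hij : j = i
    · subst hij; simp
    · rw [if_neg hij, if_neg]
      intro h1
      exact hij (Finsupp.single_left_injective one_ne_zero h1)
  have h1 := congrArg (coeff (Finsupp.single 0 1)) h0
  have h2 := congrArg (coeff (Finsupp.single 1 1)) h0
  unfold lf at h1 h2
  rw [coeff_add, coeff_C_mul, coeff_C_mul, hX, hX, coeff_zero] at h1 h2
  simp at h1 h2
  funext i
  fin_cases i
  · simpa using h1
  · simpa using h2

private theorem st_homog_X {K : Type*} [Field K] (i : Fin 2) : Homog 1 1 1 (X i : P2 K) := by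
  classical
  intro m hm
  rw [support_X, Finset.mem_singleton] at hm
  subst hm
  unfold wt
  fin_cases i <;> simp

private theorem st_homog_C {K : Type*} [Field K] (c : K) : Homog 1 1 0 (C c : P2 K) := by
  classical
  intro m hm
  rw [mem_support_iff, coeff_C] at hm
  have : m = 0 := by
    by_contra h
    exact hm (if_neg (fun h' => h h'.symm))
  subst this
  unfold wt
  simp

private theorem st_homog_add {K : Type*} [Field K] {j : ℕ} {f g : P2 K} (hf : Homog 1 1 j f)
    (hg : Homog 1 1 j g) : Homog 1 1 j (f + g) := by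
  classical
  intro m hm
  rcases Finset.mem_union.1 (MvPolynomial.support_add hm) with h | h
  · exact hf m h
  · exact hg m h

private theorem st_homog_zero {K : Type*} [Field K] (j : ℕ) : Homog 1 1 j (0 : P2 K) := by
  intro m hm
  simp at hm

private theorem st_homog_lf {K : Type*} [Field K] (l : Fin 2 → K) : Homog 1 1 1 (lf l) := by
  unfold lf
  have h0 := (st_homog_C (l 0)).mul (st_homog_X (K := K) 0)
  have h1 := (st_homog_C (l 1)).mul (st_homog_X (K := K) 1)
  rw [zero_add] at h0 h1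
  exact st_homog_add h0 h1

private theorem st_lin_X {K : Type*} [Field K] (M : Matrix (Fin 2) (Fin 2) K) (i : Fin 2) :
    lin M (X i) = lf (M i) := by
  unfold lin lf
  rw [aeval_X, Fin.sum_univ_two]

private theorem st_lin_lf {K : Type*} [Field K] (M : Matrix (Fin 2) (Fin 2) K)
    (a : Fin 2 → K) : lin M (lf a) = lf (Matrix.vecMul a M) := by
  unfold lf
  rw [map_add, map_mul, map_mul, st_lin_X, st_lin_X, ← algebraMap_eq, AlgHom.commutes,
    AlgHom.commutes, algebraMap_eq]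
  unfold lf
  simp only [Matrix.vecMul, dotProduct, Fin.sum_univ_two, C_add, C_mul]
  ring

private theorem st_lin_mon {K : Type*} [Field K] (M : Matrix (Fin 2) (Fin 2) K)
    (m : Fin 2 →₀ ℕ) (c : K) : Homog 1 1 (wt 1 1 m) (lin M (monomial m c)) := by
  have h : lin M (monomial m c) = C c * ((lf (M 0)) ^ m 0 * (lf (M 1)) ^ m 1) := by
    rw [monomial_eq, Finsupp.prod_fintype _ _ (fun i => pow_zero _), Fin.prod_univ_two,
      map_mul, map_mul, map_pow, map_pow, st_lin_X, st_lin_X, ← algebraMap_eq, AlgHom.commutes]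
  rw [h]
  have h1 := (st_homog_C c).mul (((st_homog_lf (M 0)).pow (m 0)).mul ((st_homog_lf (M 1)).pow (m 1)))
  have e : 0 + (m 0 * 1 + m 1 * 1) = wt 1 1 m := by unfold wt; omega
  rwa [e] at h1

private theorem st_lin_homog {K : Type*} [Field K] (M : Matrix (Fin 2) (Fin 2) K) {j : ℕ}
    {f : P2 K} (hf : Homog 1 1 j f) : Homog 1 1 j (lin M f) := by
  classical
  rw [f.as_sum, map_sum]
  refine Finset.sum_induction _ (Homog 1 1 j) (fun _ _ => st_homog_add) (st_homog_zero j) ?_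
  intro m hm
  have h := st_lin_mon M m (coeff m f)
  rwa [hf m hm] at h

private theorem st_lin_ge {K : Type*} [Field K] (M : Matrix (Fin 2) (Fin 2) K) {j : ℕ}
    {f : P2 K} (hf : Ge 1 1 j f) : Ge 1 1 j (lin M f) := by
  classical
  rw [f.as_sum, map_sum]
  refine Finset.sum_induction _ (Ge 1 1 j) (fun _ _ => Ge.add) (fun m hm => by simp at hm) ?_
  intro m hm n hn
  have h := st_lin_mon M m (coeff m f) n hn
  rw [h]
  exact hf m hm

private theorem st_lin_lin {K : Type*} [Field K] (M N : Matrix (Fin 2) (Fin 2) K) (f : P2 K) :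
    lin M (lin N f) = lin (N * M) f := by
  rw [← lin_comp]
  rfl

private theorem st_lin_one {K : Type*} [Field K] (f : P2 K) :
    lin (1 : Matrix (Fin 2) (Fin 2) K) f = f := by
  rw [lin_one]
  rfl

private theorem st_init {K : Type*} [Field K] {M M' : Matrix (Fin 2) (Fin 2) K}
    (h : M * M' = 1) {j : ℕ} {f H : P2 K} (hI : IsInit 1 1 f j H) :
    IsInit 1 1 (lin M f) j (lin M H) := by
  refine ⟨?_, st_lin_homog M hI.2.1, ?_⟩
  · intro h0
    apply hI.1
    have h1 : lin M' (lin M H) = H := by rw [st_lin_lin, h, st_lin_one]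
    rw [← h1, h0, map_zero]
  · rw [← map_sub]
    exact st_lin_ge M hI.2.2

/-- two non-proportional forms: divisibility by products of powers -/
private theorem st_mul_dvd {K : Type*} [Field K] {l l' : Fin 2 → K}
    (h : l 0 * l' 1 - l 1 * l' 0 ≠ 0) {a b : ℕ} {F : P2 K} (ha : lf l ^ a ∣ F)
    (hb : lf l' ^ b ∣ F) : lf l ^ a * lf l' ^ b ∣ F := by
  set M : Matrix (Fin 2) (Fin 2) K := Matrix.of ![l, l'] with hM
  have hdet : IsUnit M.det := by
    rw [isUnit_iff_ne_zero, Matrix.det_fin_two]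
    exact h
  have h1 : M * M⁻¹ = 1 := Matrix.mul_nonsing_inv M hdet
  have h2 : M⁻¹ * M = 1 := Matrix.nonsing_inv_mul M hdet
  have e0 : lin M⁻¹ (lf l) = X 0 := by
    have : lf l = lin M (X 0) := (st_lin_X M 0).symm
    rw [this, st_lin_lin, h1, st_lin_one]
  have e1 : lin M⁻¹ (lf l') = X 1 := by
    have : lf l' = lin M (X 1) := (st_lin_X M 1).symm
    rw [this, st_lin_lin, h1, st_lin_one]
  have d0 : (X 0 : P2 K) ^ a ∣ lin M⁻¹ F := by
    rw [← e0, ← map_pow]
    exact map_dvd _ ha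
  have d1 : (X 1 : P2 K) ^ b ∣ lin M⁻¹ F := by
    rw [← e1, ← map_pow]
    exact map_dvd _ hb
  have hrel : IsRelPrime (X 0 : P2 K) (X 1) := by
    rw [(MvPolynomial.X_prime (R := K) (i := (0 : Fin 2))).irreducible.isRelPrime_iff_not_dvd]
    rw [MvPolynomial.X_dvd_X]
    simp
  have d2 : (X 0 : P2 K) ^ a * X 1 ^ b ∣ lin M⁻¹ F := (hrel.pow).mul_dvd d0 d1
  have d3 := map_dvd (lin M) d2
  rw [map_mul, map_pow, map_pow, st_lin_lin, h2, st_lin_one] at d3
  have e2 : lin M (X 0) = lf l := st_lin_X M 0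
  have e3 : lin M (X 1) = lf l' := st_lin_X M 1
  rwa [e2, e3] at d3

/-- two bad forms are proportional -/
private theorem st_unique {K : Type*} [Field K] {r : ℕ} (c : Fin r → ℚ)
    (hc : ∀ i, 0 ≤ c i) (w : Fin r → ℕ) (H : Fin r → P2 K) (hH : ∀ i, H i ≠ 0)
    (hw : ∀ i, Homog 1 1 (w i) (H i)) (A : ℝ) (hA : A = 2 - ∑ i, (c i : ℝ) * w i)
    (l l' : Fin 2 → K) (hl : l ≠ 0) (hl' : l' ≠ 0) (n n' : Fin r → ℕ)
    (hn : ∀ i, lf l ^ n i ∣ H i) (hn' : ∀ i, lf l' ^ n' i ∣ H i)
    (hbad : (1 - ∑ i, (c i : ℝ) * n i) < A / 2)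
    (hbad' : (1 - ∑ i, (c i : ℝ) * n' i) < A / 2) : l 0 * l' 1 - l 1 * l' 0 = 0 := by
  by_contra hne
  have hc' : ∀ i, (0 : ℝ) ≤ (c i : ℝ) := fun i => by exact_mod_cast hc i
  have h5 : ∑ i, (c i : ℝ) * n i + ∑ i, (c i : ℝ) * n' i ≤ ∑ i, (c i : ℝ) * w i := by
    rw [← Finset.sum_add_distrib]
    refine Finset.sum_le_sum fun i _ => ?_
    have h1 := st_mul_dvd hne (hn i) (hn' i)
    obtain ⟨j, hj, hj'⟩ := (hw i).of_dvd (hH i) h1
    have h2 := ((st_homog_lf l).pow (n i)).mul ((st_homog_lf l').pow (n' i))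
    have h3 := Homog.unique hj' h2
      (mul_ne_zero (pow_ne_zero _ (lf_ne hl)) (pow_ne_zero _ (lf_ne hl')))
    have h4 : n i + n' i ≤ w i := by omega
    have h6 : ((n i + n' i : ℕ) : ℝ) ≤ w i := by exact_mod_cast h4
    push_cast at h6
    nlinarith [hc' i, mul_le_mul_of_nonneg_left h6 (hc' i)]
  linarith

private theorem st_prop {K : Type*} [Field K] {l l' : Fin 2 → K} (hl : l ≠ 0)
    (h : l 0 * l' 1 - l 1 * l' 0 = 0) : ∃ b : K, l' = b • l := by
  by_cases h0 : l 0 = 0
  · have h1 : l 1 ≠ 0 := by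
      intro h1
      apply hl
      funext i
      fin_cases i
      · exact h0
      · exact h1
    refine ⟨l' 1 / l 1, ?_⟩
    have h2 : l' 0 = 0 := by
      rw [h0, zero_mul, zero_sub, neg_eq_zero] at h
      exact (mul_eq_zero.1 h).resolve_left h1
    funext i
    fin_cases i
    · show l' 0 = l' 1 / l 1 * l 0
      rw [h0, h2, mul_zero]
    · show l' 1 = l' 1 / l 1 * l 1
      rw [div_mul_cancel₀ _ h1]
  · refine ⟨l' 0 / l 0, ?_⟩
    funext i
    fin_cases i
    · show l' 0 = l' 0 / l 0 * l 0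
      rw [div_mul_cancel₀ _ h0]
    · show l' 1 = l' 0 / l 0 * l 1
      rw [div_mul_eq_mul_div, eq_div_iff h0]
      linear_combination h

/-- roots of the dehomogenization -/
private theorem st_dehom {K : Type*} [Field K] (H : P2 K) (w : ℕ) (hH : Homog 1 1 w H) (y : K)
    (n : ℕ) (hn : (Polynomial.X - Polynomial.C y) ^ n ∣ dehom H) : lf ![-y, 1] ^ n ∣ H := by
  have h1 := shear_dvd le_rfl H w hH y n hn
  have h2 := map_dvd (shear (Polynomial.C (-y) * Polynomial.X ^ 1)) h1
  have h3 : (shear (Polynomial.C (-y) * Polynomial.X ^ 1 : Polynomial K)).comp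
      (shear (Polynomial.C y * Polynomial.X ^ 1)) = AlgHom.id K (P2 K) := by
    refine MvPolynomial.algHom_ext fun i => ?_
    fin_cases i
    · simp [shear]
    · simp [shear]
  have h4 := DFunLike.congr_fun h3 H
  rw [AlgHom.comp_apply, AlgHom.id_apply] at h4
  rw [h4, map_pow] at h2
  have h5 : shear (Polynomial.C (-y) * Polynomial.X ^ 1) (X 1 : P2 K) = lf ![-y, 1] := by
    simp [shear, lf]
    ring
  rwa [h5] at h2

/-- the eigenvector of the group -/
private theorem st_eigen {K : Type*} [Field K] [CharZero K] (G : Subgroup (GL (Fin 2) K))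
    [Finite G] (l : Fin 2 → K) (hl : l ≠ 0)
    (hb : ∀ σ ∈ G, ∃ b : K, Matrix.vecMul l (σ : Matrix (Fin 2) (Fin 2) K) = b • l) :
    ∃ x : Fin 2 → K, x 0 * l 1 - x 1 * l 0 ≠ 0 ∧
      ∀ σ ∈ G, ∃ a : K, Matrix.vecMul x (σ : Matrix (Fin 2) (Fin 2) K) = a • x := by
  have := Fintype.ofFinite G
  have hb' : ∀ σ : G, ∃ b : K,
      Matrix.vecMul l ((σ : GL (Fin 2) K) : Matrix (Fin 2) (Fin 2) K) = b • l :=
    fun σ => hb σ σ.2
  choose b hbl using hb'
  have hbmul : ∀ σ τ : G, b (σ * τ) = b σ * b τ := by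
    intro σ τ
    have h1 : Matrix.vecMul l (((σ * τ : G) : GL (Fin 2) K) : Matrix (Fin 2) (Fin 2) K) =
        (b σ * b τ) • l := by
      have e : (((σ * τ : G) : GL (Fin 2) K) : Matrix (Fin 2) (Fin 2) K) =
        ((σ : GL (Fin 2) K) : Matrix (Fin 2) (Fin 2) K) *
        ((τ : GL (Fin 2) K) : Matrix (Fin 2) (Fin 2) K) := rfl
      rw [e, ← Matrix.vecMul_vecMul, hbl, Matrix.smul_vecMul, hbl, smul_smul]
    rw [hbl] at h1
    exact smul_left_injective K hl h1
  have hb1 : b 1 = 1 := by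
    have h1 : Matrix.vecMul l (((1 : G) : GL (Fin 2) K) : Matrix (Fin 2) (Fin 2) K) =
        (1 : K) • l := by
      have e : (((1 : G) : GL (Fin 2) K) : Matrix (Fin 2) (Fin 2) K) = 1 := rfl
      rw [e, Matrix.vecMul_one, one_smul]
    rw [hbl] at h1
    exact smul_left_injective K hl h1
  have hb0 : ∀ σ, b σ ≠ 0 := by
    intro σ h0
    have h1 := hbmul σ σ⁻¹
    rw [mul_inv_cancel, hb1, h0, zero_mul] at h1
    exact one_ne_zero h1
  set d : G → K := fun σ => Matrix.det ((σ : GL (Fin 2) K) : Matrix (Fin 2) (Fin 2) K) with hd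
  have hdmul : ∀ σ τ : G, d (σ * τ) = d σ * d τ := by
    intro σ τ
    show Matrix.det (((σ : GL (Fin 2) K) : Matrix (Fin 2) (Fin 2) K) *
        ((τ : GL (Fin 2) K) : Matrix (Fin 2) (Fin 2) K)) = _
    rw [Matrix.det_mul]
  have hd0 : ∀ σ, d σ ≠ 0 := by
    intro σ h0
    have h1 := hdmul σ σ⁻¹
    rw [mul_inv_cancel, h0, zero_mul] at h1
    have h2 : d 1 = 1 := by
      show Matrix.det (1 : Matrix (Fin 2) (Fin 2) K) = 1
      exact Matrix.det_one
    rw [h2] at h1
    exact one_ne_zero h1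
  set a : G → K := fun σ => d σ / b σ with ha
  have ha0 : ∀ σ, a σ ≠ 0 := fun σ => div_ne_zero (hd0 σ) (hb0 σ)
  have hamul : ∀ σ τ, a (σ * τ) = a σ * a τ := by
    intro σ τ
    show d (σ * τ) / b (σ * τ) = d σ / b σ * (d τ / b τ)
    rw [hdmul, hbmul, mul_div_mul_comm]
  -- the determinant with `l`
  have hD : ∀ (v : Fin 2 → K) (σ : G),
      Matrix.vecMul v ((σ : GL (Fin 2) K) : Matrix (Fin 2) (Fin 2) K) 0 * l 1 -
      Matrix.vecMul v ((σ : GL (Fin 2) K) : Matrix (Fin 2) (Fin 2) K) 1 * l 0 =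
        a σ * (v 0 * l 1 - v 1 * l 0) := by
    intro v σ
    have h0 := congrFun (hbl σ) 0
    have h1 := congrFun (hbl σ) 1
    have hb := hb0 σ
    have e : a σ * b σ = d σ := div_mul_cancel₀ _ hb
    refine mul_right_cancel₀ hb ?_
    have e2 : a σ * (v 0 * l 1 - v 1 * l 0) * b σ = (a σ * b σ) * (v 0 * l 1 - v 1 * l 0) := by
      ring
    rw [e2, e]
    simp only [Matrix.vecMul, dotProduct, Fin.sum_univ_two, Pi.smul_apply, smul_eq_mul]
      at h0 h1 ⊢
    show _ = Matrix.det ((σ : GL (Fin 2) K) : Matrix (Fin 2) (Fin 2) K) * _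
    rw [Matrix.det_fin_two]
    set s00 := ((σ : GL (Fin 2) K) : Matrix (Fin 2) (Fin 2) K) 0 0
    set s01 := ((σ : GL (Fin 2) K) : Matrix (Fin 2) (Fin 2) K) 0 1
    set s10 := ((σ : GL (Fin 2) K) : Matrix (Fin 2) (Fin 2) K) 1 0
    set s11 := ((σ : GL (Fin 2) K) : Matrix (Fin 2) (Fin 2) K) 1 1
    linear_combination (-(v 0 * s00 + v 1 * s10)) * h1 + (v 0 * s01 + v 1 * s11) * h0
  obtain ⟨v, hv⟩ : ∃ v : Fin 2 → K, v 0 * l 1 - v 1 * l 0 ≠ 0 := by
    by_cases h0 : l 1 = 0
    · refine ⟨![0, 1], ?_⟩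
      have h1 : l 0 ≠ 0 := by
        intro h1
        apply hl
        funext i
        fin_cases i
        · exact h1
        · exact h0
      simpa using h1
    · refine ⟨![1, 0], ?_⟩
      simpa using h0
  refine ⟨∑ σ : G, (a σ)⁻¹ • Matrix.vecMul v ((σ : GL (Fin 2) K) : Matrix (Fin 2) (Fin 2) K),
    ?_, ?_⟩
  · have e : (∑ σ : G, (a σ)⁻¹ •
        Matrix.vecMul v ((σ : GL (Fin 2) K) : Matrix (Fin 2) (Fin 2) K)) 0 * l 1 -
      (∑ σ : G, (a σ)⁻¹ •
        Matrix.vecMul v ((σ : GL (Fin 2) K) : Matrix (Fin 2) (Fin 2) K)) 1 * l 0 =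
      (Fintype.card G : K) * (v 0 * l 1 - v 1 * l 0) := by
      rw [Finset.sum_apply, Finset.sum_apply, Finset.sum_mul, Finset.sum_mul,
        ← Finset.sum_sub_distrib]
      have h1 : ∀ σ ∈ (Finset.univ : Finset G), ((a σ)⁻¹ •
        Matrix.vecMul v ((σ : GL (Fin 2) K) : Matrix (Fin 2) (Fin 2) K)) 0 * l 1 -
        ((a σ)⁻¹ •
        Matrix.vecMul v ((σ : GL (Fin 2) K) : Matrix (Fin 2) (Fin 2) K)) 1 * l 0 =
          v 0 * l 1 - v 1 * l 0 := by
        intro σ _
        have h2 := hD v σ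
        rw [Pi.smul_apply, Pi.smul_apply, smul_eq_mul, smul_eq_mul, mul_assoc, mul_assoc,
          ← mul_sub, h2, ← mul_assoc, inv_mul_cancel₀ (ha0 σ), one_mul]
      rw [Finset.sum_congr rfl h1, Finset.sum_const, Finset.card_univ, nsmul_eq_mul]
    rw [e]
    refine mul_ne_zero ?_ hv
    exact Nat.cast_ne_zero.2 Fintype.card_ne_zero
  · intro τ hτ
    refine ⟨a ⟨τ, hτ⟩, ?_⟩
    set t : G := ⟨τ, hτ⟩ with ht
    have h1 : Matrix.vecMul (∑ σ : G, (a σ)⁻¹ •
        Matrix.vecMul v ((σ : GL (Fin 2) K) : Matrix (Fin 2) (Fin 2) K))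
        (τ : Matrix (Fin 2) (Fin 2) K) = ∑ σ : G, a t • ((a (σ * t))⁻¹ •
          Matrix.vecMul v (((σ * t : G) : GL (Fin 2) K) : Matrix (Fin 2) (Fin 2) K)) := by
      rw [Matrix.sum_vecMul]
      refine Finset.sum_congr rfl fun σ _ => ?_
      rw [Matrix.smul_vecMul, Matrix.vecMul_vecMul, smul_smul, hamul, mul_inv, mul_comm (a σ)⁻¹,
        ← mul_assoc, mul_inv_cancel₀ (ha0 t), one_mul]
      rfl
    rw [h1, ← Finset.smul_sum]
    congr 1
    exact Equiv.sum_comp (Equiv.mulRight t) (fun σ : G => (a σ)⁻¹ •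
      Matrix.vecMul v ((σ : GL (Fin 2) K) : Matrix (Fin 2) (Fin 2) K))

private theorem st_shear_zero {K : Type*} [Field K] (f : P2 K) : shear 0 f = f := by
  have h : shear (0 : Polynomial K) = AlgHom.id K (P2 K) := by
    refine MvPolynomial.algHom_ext fun i => ?_
    fin_cases i
    · simp [shear]
    · simp [shear]
  rw [h]
  rfl

private theorem st_dg {K : Type*} [Field K] (a b : K) (f : P2 K) :
    dg a b f = lin (Matrix.diagonal ![a, b]) f := by
  have h : dg a b = lin (Matrix.diagonal ![a, b]) := by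
    refine MvPolynomial.algHom_ext fun i => ?_
    rw [st_lin_X]
    fin_cases i
    · simp [dg, lf]
    · simp [dg, lf]
  rw [h]

theorem stage0 {K : Type*} [Field K] [CharZero K] [Algebra K ℂ] (G : Subgroup (GL (Fin 2) K))
    [Finite G] {r : ℕ} (f : Fin r → P2 K) (hf : ∀ i, f i ∈ Inv G) (c : Fin r → ℚ)
    (hc : ∀ i, 0 ≤ c i) (w : Fin r → ℕ) (H : Fin r → P2 K)
    (hI : ∀ i, IsInit 1 1 (f i) (w i) (H i)) (A : ℝ) (hA : A = 2 - ∑ i, (c i : ℝ) * w i)
    (hA0 : 0 < A) :
    (OPT 1 1 c A H ∧ GSS ℂ 1 1 c A H) ∨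
    ∃ (L L' : Matrix (Fin 2) (Fin 2) K), L * L' = 1 ∧
      (∀ σ ∈ G, ∃ a b : K, ∀ g : P2 K, tau L 0 (lin (σ : Matrix (Fin 2) (Fin 2) K) g) =
        dg a b (tau L 0 g)) ∧
      ∃ (H' : Fin r → P2 K) (n : Fin r → ℕ), (∀ i, IsInit 1 1 (tau L 0 (f i)) (w i) (H' i)) ∧
        (∀ i, (X 1 : P2 K) ^ n i ∣ H' i) ∧ (1 - ∑ i, (c i : ℝ) * n i) < A / 2 := by
  by_cases hB : ∃ (l : Fin 2 → K) (n : Fin r → ℕ), l ≠ 0 ∧ (∀ i, lf l ^ n i ∣ H i) ∧
      (1 - ∑ i, (c i : ℝ) * n i) < A / 2
  · right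
    obtain ⟨l, n, hl, hn, hbad⟩ := hB
    have hinv : ∀ σ ∈ G, ∀ i, lin (σ : Matrix (Fin 2) (Fin 2) K) (H i) = H i := by
      intro σ hσ i
      have h1 : (σ : Matrix (Fin 2) (Fin 2) K) * ((σ⁻¹ : GL (Fin 2) K) :
          Matrix (Fin 2) (Fin 2) K) = 1 := by
        rw [← Units.val_mul, mul_inv_cancel, Units.val_one]
      have h2 := st_init h1 (hI i)
      rw [hf i σ hσ] at h2
      exact (h2.unique (hI i)).2
    have hbl : ∀ σ ∈ G, ∃ b : K, Matrix.vecMul l (σ : Matrix (Fin 2) (Fin 2) K) = b • l := by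
      intro σ hσ
      refine st_prop hl ?_
      refine st_unique c hc w H (fun i => (hI i).1) (fun i => (hI i).2.1) A hA l _ hl ?_ n n hn
        ?_ hbad hbad
      · intro h0
        apply hl
        have h1 : Matrix.vecMul (Matrix.vecMul l (σ : Matrix (Fin 2) (Fin 2) K))
            ((σ⁻¹ : GL (Fin 2) K) : Matrix (Fin 2) (Fin 2) K) = l := by
          rw [Matrix.vecMul_vecMul, ← Units.val_mul, mul_inv_cancel, Units.val_one,
            Matrix.vecMul_one]
        rw [← h1, h0, Matrix.zero_vecMul]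
      · intro i
        rw [← st_lin_lf, ← map_pow, ← hinv σ hσ i]
        exact map_dvd _ (hn i)
    obtain ⟨x, hx, hax⟩ := st_eigen G l hl hbl
    set M : Matrix (Fin 2) (Fin 2) K := Matrix.of ![x, l] with hM
    have hdet : IsUnit M.det := by
      rw [isUnit_iff_ne_zero, Matrix.det_fin_two]
      exact hx
    have h1 : M * M⁻¹ = 1 := Matrix.mul_nonsing_inv M hdet
    have h2 : M⁻¹ * M = 1 := Matrix.nonsing_inv_mul M hdet
    have htau : ∀ g : P2 K, tau M⁻¹ 0 g = lin M⁻¹ g := by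
      intro g
      unfold tau
      rw [AlgHom.comp_apply, st_shear_zero]
    refine ⟨M⁻¹, M, h2, ?_, fun i => lin M⁻¹ (H i), n, ?_, ?_, hbad⟩
    · intro σ hσ
      obtain ⟨a, ha⟩ := hax σ hσ
      obtain ⟨b, hb⟩ := hbl σ hσ
      refine ⟨a, b, fun g => ?_⟩
      rw [htau, htau, st_dg, st_lin_lin, st_lin_lin]
      have h3 : M * (σ : Matrix (Fin 2) (Fin 2) K) = Matrix.diagonal ![a, b] * M := by
        ext i j
        rw [Matrix.diagonal_mul]
        fin_cases i
        · have := congrFun ha j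
          simpa [Matrix.mul_apply, Matrix.vecMul, dotProduct, hM] using this
        · have := congrFun hb j
          simpa [Matrix.mul_apply, Matrix.vecMul, dotProduct, hM] using this
      have h4 : (σ : Matrix (Fin 2) (Fin 2) K) * M⁻¹ = M⁻¹ * Matrix.diagonal ![a, b] := by
        calc (σ : Matrix (Fin 2) (Fin 2) K) * M⁻¹
            = M⁻¹ * (M * (σ : Matrix (Fin 2) (Fin 2) K)) * M⁻¹ := by
              rw [← Matrix.mul_assoc, h2, Matrix.one_mul]
          _ = M⁻¹ * Matrix.diagonal ![a, b] := by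
              rw [h3, Matrix.mul_assoc, Matrix.mul_assoc, h1, Matrix.mul_one]
      rw [h4]
    · intro i
      rw [htau]
      exact st_init h2 (hI i)
    · intro i
      have e1 : lin M⁻¹ (lf l) = X 1 := by
        have : lf l = lin M (X 1) := (st_lin_X M 1).symm
        rw [this, st_lin_lin, h1, st_lin_one]
      rw [← e1, ← map_pow]
      exact map_dvd _ (hn i)
  · left
    push Not at hB
    refine ⟨⟨fun n hn => ?_, fun n hn => ?_⟩, ?_⟩
    · have h := hB ![1, 0] n (by
        intro h0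
        have := congrFun h0 0
        simp at this) (by
        intro i
        have e : lf ![1, 0] = (X 0 : P2 K) := by simp [lf]
        rw [e]
        exact hn i)
      simpa using h
    · have h := hB ![0, 1] n (by
        intro h0
        have := congrFun h0 1
        simp at this) (by
        intro i
        have e : lf ![0, 1] = (X 1 : P2 K) := by simp [lf]
        rw [e]
        exact hn i)
      simpa using h
    · intro z hz n hn
      by_contra hcon
      push Not at hcon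
      have hA' : A = ((1 : ℕ) : ℝ) + ((1 : ℕ) : ℝ) - ∑ i, (c i : ℝ) * w i := by
        rw [hA]
        push_cast
        ring
      obtain ⟨_, y, _, _, hy⟩ := bad_root le_rfl le_rfl (Nat.coprime_one_left 1) c hc w H
        (fun i => (hI i).1) (fun i => (hI i).2.1) A hA' hA0 z hz n hn hcon
      have h := hB ![-y, 1] n (by
        intro h0
        have := congrFun h0 1
        simp at this) (fun i => st_dehom (H i) (w i) (hI i).2.1 y (n i) (hy i))
      simp only [Nat.cast_one, one_mul] at hcon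
      linarith

end FV
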