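import Pool.Agent.Lib.MP_9e8926_ag_FV.Pair
import Pool.Agent.Lib.MP_9e8926_ag_FV.GapC
import Pool.Agent.Lib.MP_9e8926_ag_FV.Frob

/-!
# Colength of isotropic ideals in adapted coordinates
-/

set_option autoImplicit false

noncomputable section

namespace FV

open MvPolynomial

/-- Ideals of finite colength which are isotropic for `F_q` have colength at least `n`. -/
def TLb {k : Type*} [Field k] {r : ℕ} (f : Fin r → P2 k) (c : Fin r → ℚ) (q : ℕ) (n : ℝ) :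
    Prop :=
  ∀ b : Ideal (P2 k), Module.Finite k (P2 k ⧸ b) →
    (∀ x ∈ b, ∀ y ∈ b, Fq f c q * x * y ∈ J k q) → n ≤ Module.finrank k (P2 k ⧸ b)

/-- The gap of the initial form of `F_q` at level `q = p ^ (e + 1)`. -/
private theorem tlev_gap {k : Type*} [Field k] (p : ℕ) [Fact p.Prime] [CharP k p] [PerfectField k]
    {α β : ℕ} (hα : 1 ≤ α) (hβ : 1 ≤ β) {r : ℕ} (c : Fin r → ℚ) (hc : ∀ i, 0 ≤ c i)
    (w : Fin r → ℕ) (H : Fin r → P2 k) (hH : ∀ i, H i ≠ 0)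
    (hw : ∀ i, Homog α β (w i) (H i)) (A : ℝ)
    (hA : A = (α : ℝ) + β - ∑ i, (c i : ℝ) * w i) (hSS : SS α β c A H) (κ : ℝ)
    (hκ : κ = A / 2 - (∑ i, (w i : ℝ)) / p) (e : ℕ) :
    Gap α β (p ^ (e + 1)) (κ * ((p ^ (e + 1) : ℕ) : ℝ))
      (∏ i, H i ^ ⌈(c i : ℝ) * (((p ^ (e + 1) : ℕ) : ℝ) - 1)⌉₊) := by
  have hp : (0 : ℝ) < p := by exact_mod_cast (Fact.out : p.Prime).pos
  have h1 := (gap_prime p hα hβ c hc w H hH hw A hA hSS).frob p e
  have h2 : ((p ^ e : ℕ) : ℝ) * (A / 2 * p - ∑ i, (w i : ℝ)) =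
      κ * ((p ^ (e + 1) : ℕ) : ℝ) := by
    rw [hκ]
    push_cast
    field_simp
    ring
  rw [h2, ← pow_succ] at h1
  refine h1.of_dvd ?_
  rw [← Finset.prod_pow]
  refine Finset.prod_dvd_prod_of_dvd _ _ fun i _ => ?_
  rw [← pow_mul]
  refine pow_dvd_pow _ (Nat.ceil_le.2 ?_)
  have h3 : (0 : ℝ) ≤ c i := by exact_mod_cast hc i
  have h4 : (c i : ℝ) * p ≤ (⌈(c i : ℝ) * p⌉₊ : ℝ) := Nat.le_ceil _
  push_cast
  calc (c i : ℝ) * ((p : ℝ) ^ (e + 1) - 1) ≤ (c i : ℝ) * (p : ℝ) ^ (e + 1) :=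
        mul_le_mul_of_nonneg_left (by linarith) h3
    _ = (c i : ℝ) * p * (p : ℝ) ^ e := by ring
    _ ≤ (⌈(c i : ℝ) * p⌉₊ : ℝ) * (p : ℝ) ^ e :=
        mul_le_mul_of_nonneg_right h4 (by positivity)

theorem tlb_adapted {k : Type*} [Field k] (p : ℕ) [Fact p.Prime] [CharP k p] [PerfectField k]
    {α β : ℕ} (hα : 1 ≤ α) (hβ : 1 ≤ β) {r : ℕ} (c : Fin r → ℚ) (hc : ∀ i, 0 ≤ c i)
    (w : Fin r → ℕ) (f H : Fin r → P2 k) (hI : ∀ i, IsInit α β (f i) (w i) (H i)) (A : ℝ)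
    (hA : A = (α : ℝ) + β - ∑ i, (c i : ℝ) * w i) (hSS : SS α β c A H) (κ : ℝ)
    (hκ : κ = A / 2 - (∑ i, (w i : ℝ)) / p) (hκ0 : 0 < κ) :
    ∃ C0 : ℝ, ∀ e : ℕ, 1 ≤ e →
      TLb f c (p ^ e) (κ ^ 2 / (2 * α * β) * ((p ^ e : ℕ) : ℝ) ^ 2 - C0 * ((p ^ e : ℕ) : ℝ)) := by
  have hα' : (0 : ℝ) < α := by exact_mod_cast hα
  have hβ' : (0 : ℝ) < β := by exact_mod_cast hβ
  have hp : (0 : ℝ) < p := by exact_mod_cast (Fact.out : p.Prime).pos
  set S : ℝ := ∑ i, (w i : ℝ) with hS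
  have hS0 : 0 ≤ S := Finset.sum_nonneg fun i _ => Nat.cast_nonneg _
  have hA0 : 0 < A := by
    have : 0 ≤ S / p := div_nonneg hS0 hp.le
    linarith
  set c1 : ℝ := (A + S) / 2 + 1 with hc1
  have hc10 : 0 < c1 := by positivity
  refine ⟨κ * c1 / (α * β), fun e he b hfin hb => ?_⟩
  obtain ⟨e, rfl⟩ : ∃ e', e = e' + 1 := ⟨e - 1, by omega⟩
  set q : ℕ := p ^ (e + 1) with hq
  have hpn : 0 < p := (Fact.out : p.Prime).pos
  have hq1 : 1 ≤ q := Nat.one_le_pow _ _ hpn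
  have hqp : p ≤ q := by
    rw [hq, pow_succ]
    exact Nat.le_mul_of_pos_left _ (pow_pos hpn _)
  have hqR : (p : ℝ) ≤ q := by exact_mod_cast hqp
  have hq1R : (1 : ℝ) ≤ q := by exact_mod_cast hq1
  have hq0R : (0 : ℝ) < q := by linarith
  -- the claimed bound
  have hgoal : κ ^ 2 / (2 * α * β) * (q : ℝ) ^ 2 - κ * c1 / (α * β) * q =
      κ * q * (κ * q - 2 * c1) / (2 * α * β) := by
    field_simp
  rw [hgoal]
  by_cases hsm : κ * q - (A + S) / 2 < 0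
  · refine le_trans ?_ (Nat.cast_nonneg _)
    refine div_nonpos_of_nonpos_of_nonneg ?_ (by positivity)
    refine mul_nonpos_of_nonneg_of_nonpos (by positivity) ?_
    linarith
  push Not at hsm
  set W : ℕ := ⌊κ * q - (A + S) / 2⌋₊ with hW
  have hW1 : (W : ℝ) ≤ κ * q - (A + S) / 2 := Nat.floor_le hsm
  have hW2 : κ * q - (A + S) / 2 < W + 1 := Nat.lt_floor_add_one _
  have hgap := tlev_gap p hα hβ c hc w H (fun i => (hI i).1) (fun i => (hI i).2.1) A hA hSS κ hκ e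
  rw [← hq] at hgap
  have hgapW := hgap.mono (ν := (W : ℝ)) (by linarith)
  have hinit : IsInit α β (Fq f c q) (∑ i, ⌈(c i : ℝ) * ((q : ℝ) - 1)⌉₊ * w i)
      (∏ i, H i ^ ⌈(c i : ℝ) * ((q : ℝ) - 1)⌉₊) := by
    unfold Fq
    exact IsInit.prod _ fun i _ => (hI i).pow _
  -- the weight of the initial form
  have hh : ((∑ i, ⌈(c i : ℝ) * ((q : ℝ) - 1)⌉₊ * w i : ℕ) : ℝ) ≤
      ((q : ℝ) - 1) * (α + β - A) + S := by
    push_cast
    have h1 : ((q : ℝ) - 1) * (α + β - A) + S = ∑ i, ((c i : ℝ) * ((q : ℝ) - 1) + 1) * w i := by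
      rw [hA, hS]
      simp only [add_mul, one_mul, Finset.sum_add_distrib]
      congr 1
      rw [sub_sub_cancel, Finset.mul_sum]
      refine Finset.sum_congr rfl fun i _ => ?_
      ring
    rw [h1]
    refine Finset.sum_le_sum fun i _ => mul_le_mul_of_nonneg_right ?_ (Nat.cast_nonneg _)
    have h3 : (0 : ℝ) ≤ c i := by exact_mod_cast hc i
    exact (Nat.ceil_lt_add_one (mul_nonneg h3 (by linarith))).le
  have hWh : 2 * W + ∑ i, ⌈(c i : ℝ) * ((q : ℝ) - 1)⌉₊ * w i ≤ (α + β) * (q - 1) := by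
    have h1 : ((2 * W + ∑ i, ⌈(c i : ℝ) * ((q : ℝ) - 1)⌉₊ * w i : ℕ) : ℝ) ≤
        (((α + β) * (q - 1) : ℕ) : ℝ) := by
      rw [Nat.cast_add, Nat.cast_mul, Nat.cast_mul, Nat.cast_sub hq1, Nat.cast_add]
      have h2 : κ * q ≤ A / 2 * q - S := by
        have h3 : S ≤ S / p * q := by
          rw [div_mul_eq_mul_div, le_div_iff₀ hp]
          exact mul_le_mul_of_nonneg_left hqR hS0
        rw [hκ, sub_mul]
        linarith
      push_cast at hh ⊢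
      nlinarith
    exact_mod_cast h1
  have hcard := pair_bound hα hβ hq1 (Fq f c q) _ _ W hinit hgapW hWh b hb
  have hcnt := cnt_lower hα hβ W
  have hcardR : ((E α β W).card : ℝ) ≤ (Module.finrank k (P2 k ⧸ b) : ℝ) := by
    exact_mod_cast hcard
  refine le_trans ?_ (hcnt.trans hcardR)
  refine div_le_div_of_nonneg_right ?_ (by positivity)
  have hW3 : κ * q - c1 ≤ W := by linarith
  have hκq : 0 < κ * q := by positivity
  rcases le_total (κ * q) c1 with h | h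
  · have : κ * q * (κ * q - 2 * c1) ≤ 0 :=
      mul_nonpos_of_nonneg_of_nonpos hκq.le (by linarith)
    exact this.trans (sq_nonneg _)
  · have : (κ * q - c1) ^ 2 ≤ (W : ℝ) ^ 2 := by
      refine pow_le_pow_left₀ (by linarith) hW3 2
    nlinarith [sq_nonneg c1]

end FV
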