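import Pool.Agent.Lib.MP_9e8926_ag_FV.Colen
import Pool.Agent.Lib.MP_9e8926_ag_FV.Limsup

/-!
# Ideals generated by two elements of the same weight
-/

set_option autoImplicit false

noncomputable section

namespace FV

open MvPolynomial

variable {k : Type*} [Field k]

/-- `u` and `v` have weight at least `W0` and generate all monomials of weight `j ≥ 2 W0` with
coefficients of weight `j - W0`. -/
def UB (α β W0 : ℕ) (u v : P2 k) : Prop :=
  Ge α β W0 u ∧ Ge α β W0 v ∧ ∀ m : Fin 2 →₀ ℕ, 2 * W0 ≤ wt α β m →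
    ∃ s t : P2 k, Ge α β (wt α β m - W0) s ∧ Ge α β (wt α β m - W0) t ∧
      monomial m (1 : k) = u * s + v * t

private theorem ubd_mem {α β W : ℕ} {I : Ideal (P2 k)}
    (h : ∀ m : Fin 2 →₀ ℕ, W ≤ wt α β m → monomial m (1 : k) ∈ I) {f : P2 k}
    (hf : Ge α β W f) : f ∈ I := by
  rw [f.as_sum]
  refine Ideal.sum_mem _ fun m hm => ?_
  have h1 : (monomial m (coeff m f) : P2 k) = C (coeff m f) * monomial m 1 := by
    rw [C_mul_monomial, mul_one]
  rw [h1]
  exact Ideal.mul_mem_left _ _ (h m (hf m hm))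

theorem UB.mem_pow {α β W0 : ℕ} {u v : P2 k} (h : UB α β W0 u v) (n : ℕ) (hn : 1 ≤ n)
    (m : Fin 2 →₀ ℕ) (hm : (n + 1) * W0 ≤ wt α β m) :
    monomial m (1 : k) ∈ Ideal.span {u, v} ^ n := by
  have hu : u ∈ (Ideal.span {u, v} : Ideal (P2 k)) := Ideal.subset_span (by simp)
  have hv : v ∈ (Ideal.span {u, v} : Ideal (P2 k)) := Ideal.subset_span (by simp)
  induction n, hn using Nat.le_induction generalizing m with
  | base =>
    obtain ⟨s, t, -, -, h1⟩ := h.2.2 m (by simpa using hm)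
    rw [pow_one, h1]
    exact Ideal.add_mem _ (Ideal.mul_mem_right _ _ hu) (Ideal.mul_mem_right _ _ hv)
  | succ n hn ih =>
    have h2 : 2 * W0 ≤ wt α β m := by
      refine le_trans ?_ hm
      exact Nat.mul_le_mul_right _ (by omega)
    obtain ⟨s, t, hs, ht, h1⟩ := h.2.2 m h2
    have h3 : (n + 1) * W0 ≤ wt α β m - W0 := by
      have h4 : (n + 1 + 1) * W0 = (n + 1) * W0 + W0 := by ring
      omega
    rw [h1, pow_succ']
    refine Ideal.add_mem _ (Ideal.mul_mem_mul hu ?_) (Ideal.mul_mem_mul hv ?_)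
    · exact ubd_mem ih (hs.mono h3)
    · exact ubd_mem ih (ht.mono h3)

theorem UB.emult_le {α β W0 : ℕ} (hα : 1 ≤ α) (hβ : 1 ≤ β) {u v : P2 k}
    (h : UB α β W0 u v) : emult k (Ideal.span {u, v}) ≤ (W0 : ℝ) ^ 2 / (α * β) := by
  have hα' : (0 : ℝ) < α := by exact_mod_cast hα
  have hβ' : (0 : ℝ) < β := by exact_mod_cast hβ
  refine emult_le_of_forall (Ideal.span {u, v})
    (fun n : ℕ => (((n : ℝ) + 1) * W0 + α + β) ^ 2 / ((α * β) * (n : ℝ) ^ 2)) _ ?_ ?_
  · have h1 : Filter.Tendsto (fun n : ℕ => ((W0 : ℝ) + ((W0 : ℝ) + α + β) / (n : ℝ)) ^ 2 / (α * β))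
        Filter.atTop (nhds (((W0 : ℝ) + 0) ^ 2 / (α * β))) :=
      ((tendsto_const_nhds.add (tendsto_const_div_atTop_nhds_zero_nat _)).pow 2).div_const _
    rw [add_zero] at h1
    refine h1.congr' ?_
    filter_upwards [Filter.eventually_ge_atTop 1] with n hn
    have h0 : (0 : ℝ) < (n : ℝ) := by exact_mod_cast hn
    field_simp
    ring
  · intro n hn
    have h0 : (0 : ℝ) < (n : ℝ) := by exact_mod_cast hn
    have h1 := (finrank_le_E hα hβ (Ideal.span {u, v} ^ n) (fun m hm => h.mem_pow n hn m hm)).2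
    have h2 : (Module.finrank k (P2 k ⧸ Ideal.span {u, v} ^ n) : ℝ) ≤
        ((E α β ((n + 1) * W0)).card : ℝ) := by exact_mod_cast h1
    have h3 := cnt_upper hα hβ ((n + 1) * W0)
    push_cast at h3
    have h4 := h2.trans h3
    rw [le_div_iff₀ (by positivity)] at h4
    rw [div_le_div_iff₀ (by positivity) (by positivity)]
    have h5 := mul_le_mul_of_nonneg_right h4 (by positivity : (0 : ℝ) ≤ (n : ℝ) ^ 2)
    linarith

private def ubdGe (k : Type*) [Field k] (n : ℕ) : Ideal (P2 k) where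
  carrier := {f | Ge 1 1 n f}
  add_mem' := fun ha hb => Ge.add ha hb
  zero_mem' := fun m hm => by simp at hm
  smul_mem' := fun c f hf => by
    have h0 : Ge 1 1 0 c := fun m _ => Nat.zero_le _
    have h1 := h0.mul hf
    rwa [zero_add] at h1

private theorem ubd_pow_le (n : ℕ) : m0 k ^ n ≤ ubdGe k n := by
  induction n with
  | zero => exact fun f _ m _ => Nat.zero_le _
  | succ n ih =>
    rw [pow_succ, Ideal.mul_le]
    intro f hf g hg
    have h1 : Ge 1 1 n f := ih hf
    have h2 : Ge 1 1 1 g := by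
      intro m hm
      have hg' : g ∈ m0 k := hg
      unfold m0 at hg'
      rw [RingHom.mem_ker, constantCoeff_eq] at hg'
      by_contra hc
      have hm0 : m = 0 := by
        unfold wt at hc
        ext i
        fin_cases i
        · show m 0 = 0
          omega
        · show m 1 = 0
          omega
      rw [hm0, mem_support_iff] at hm
      exact hm hg'
    exact h1.mul h2

theorem UB.m0_pow_le {α β W0 : ℕ} (hα : 1 ≤ α) (hβ : 1 ≤ β) {u v : P2 k}
    (h : UB α β W0 u v) : ∃ N, m0 k ^ N ≤ Ideal.span {u, v} := by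
  refine ⟨2 * W0, fun f hf => ?_⟩
  have h1 : Ge 1 1 (2 * W0) f := ubd_pow_le _ hf
  have h2 : Ge α β (2 * W0) f := by
    intro m hm
    refine (h1 m hm).trans ?_
    unfold wt
    exact Nat.add_le_add (Nat.mul_le_mul_right _ hα) (Nat.mul_le_mul_right _ hβ)
  refine ubd_mem (fun m hm => ?_) h2
  have h3 := h.mem_pow 1 le_rfl m (by simpa using hm)
  rwa [pow_one] at h3

end FV
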